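import Pool.Agent.PP5LB.Ucm

/-!
# LB5, section B: the cell
-/

set_option autoImplicit false

namespace Pool.Agent.PP5LB

open Pool.Agent.PP5L Finset

/-- the determinant in coordinates -/
theorem DD_eq {R : Type*} [CommRing R] (x : Fin 10 → R) : DD x = dV x * dW x -
    (2 * x 2 * (-2 * x 3 * x 6 ^ 2 + 2 * (x 4 - x 5) * x 6 * x 8 - 2 * x 1 * x 8 ^ 2) +
     2 * (x 4 + x 5) * (2 * x 3 * x 6 * x 7 - (x 4 - x 5) * x 6 * x 9 - (x 4 - x 5) * x 7 * x 8 + 2 * x 1 * x 8 * x 9) +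
     2 * x 0 * (-2 * x 3 * x 7 ^ 2 + 2 * (x 4 - x 5) * x 7 * x 9 - 2 * x 1 * x 9 ^ 2)) + KK x ^ 2 := by
  unfold DD SS dV dW KK
  simp [Matrix.det_succ_row_zero, Fin.sum_univ_succ, Fin.succAbove, Matrix.submatrix]
  ring

/-- the centre of the cell -/
def xc : Fin 10 → ℤ := ![1, 1, -1, 1, 0, 0, 0, -1, -2, 0]

private theorem Cel_near {h r : ℕ} (hh : 1 ≤ h) (hr : 1 ≤ r) {x : Fin 10 → ℤ} (hx : x ∈ XA (Ah h xc) r) :
    ∀ j, |(x j : ℝ) - (h * r : ℝ) * (xc j : ℝ)| ≤ 10 * r := by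
  have hA : 1 ≤ Ah h xc 1 := by
    show (1 : ℤ) ≤ (h : ℤ) * 1
    omega
  rw [mem_XA hA hr] at hx
  obtain ⟨h1, h2, -⟩ := hx
  have hrR : (1 : ℝ) ≤ r := by exact_mod_cast hr
  have hhR : (1 : ℝ) ≤ h := by exact_mod_cast hh
  have hb : ∀ j, j ≠ 3 → 0 ≤ (x j : ℝ) - (h * r : ℝ) * (xc j : ℝ) ∧ (x j : ℝ) - (h * r : ℝ) * (xc j : ℝ) ≤ r := by
    intro j hj
    obtain ⟨h3, h4⟩ := h1 j hj
    unfold Ah at h3 h4
    have h3' : (((h : ℤ) * xc j * r : ℤ) : ℝ) ≤ x j := by exact_mod_cast h3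
    have h4' : (x j : ℝ) ≤ ((((h : ℤ) * xc j + 1) * r : ℤ) : ℝ) := by exact_mod_cast h4.le
    push_cast at h3' h4'
    constructor <;> linarith
  intro j
  by_cases hj : j = 3
  · subst hj
    have b0 := hb 0 (by decide)
    have b1 := hb 1 (by decide)
    have b2 := hb 2 (by decide)
    have b4 := hb 4 (by decide)
    have b5 := hb 5 (by decide)
    have b6 := hb 6 (by decide)
    have b7 := hb 7 (by decide)
    have b8 := hb 8 (by decide)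
    have b9 := hb 9 (by decide)
    simp only [xc, Matrix.cons_val] at b0 b1 b2 b4 b5 b6 b7 b8 b9 ⊢
    push_cast at b0 b1 b2 b4 b5 b6 b7 b8 b9 ⊢
    have hF : (x 0 : ℝ) * x 2 - x 1 * x 3 - x 4 * x 5 - x 6 * x 9 + x 7 * x 8 = 0 := by
      unfold FF at h2; exact_mod_cast h2
    set R : ℝ := (h : ℝ) * r with hR
    have hRr : (r : ℝ) ≤ R := by rw [hR]; nlinarith
    have hR0 : 0 < R := by linarith
    obtain ⟨e0, he0⟩ : ∃ e, e = (x 0 : ℝ) - R * 1 := ⟨_, rfl⟩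
    obtain ⟨e1, he1⟩ : ∃ e, e = (x 1 : ℝ) - R * 1 := ⟨_, rfl⟩
    obtain ⟨e2, he2⟩ : ∃ e, e = (x 2 : ℝ) - R * (-1) := ⟨_, rfl⟩
    obtain ⟨e4, he4⟩ : ∃ e, e = (x 4 : ℝ) - R * 0 := ⟨_, rfl⟩
    obtain ⟨e5, he5⟩ : ∃ e, e = (x 5 : ℝ) - R * 0 := ⟨_, rfl⟩
    obtain ⟨e6, he6⟩ : ∃ e, e = (x 6 : ℝ) - R * 0 := ⟨_, rfl⟩
    obtain ⟨e7, he7⟩ : ∃ e, e = (x 7 : ℝ) - R * (-1) := ⟨_, rfl⟩
    obtain ⟨e8, he8⟩ : ∃ e, e = (x 8 : ℝ) - R * (-2) := ⟨_, rfl⟩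
    obtain ⟨e9, he9⟩ : ∃ e, e = (x 9 : ℝ) - R * 0 := ⟨_, rfl⟩
    rw [← he0] at b0
    rw [← he1] at b1
    rw [← he2] at b2
    rw [← he4] at b4
    rw [← he5] at b5
    rw [← he6] at b6
    rw [← he7] at b7
    rw [← he8] at b8
    rw [← he9] at b9
    have f0 : (x 0 : ℝ) = R + e0 := by linarith
    have f1 : (x 1 : ℝ) = R + e1 := by linarith
    have f2 : (x 2 : ℝ) = -R + e2 := by linarith
    have f4 : (x 4 : ℝ) = e4 := by linarith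
    have f5 : (x 5 : ℝ) = e5 := by linarith
    have f6 : (x 6 : ℝ) = e6 := by linarith
    have f7 : (x 7 : ℝ) = -R + e7 := by linarith
    have f8 : (x 8 : ℝ) = -(2 * R) + e8 := by linarith
    have f9 : (x 9 : ℝ) = e9 := by linarith
    rw [f0, f1, f2, f4, f5, f6, f7, f8, f9] at hF
    have hr0 : (0 : ℝ) ≤ r := by linarith
    have key : (R + e1) * ((x 3 : ℝ) - R) = R * (e2 - e0 - e8 - 2 * e7 - e1) + (e0 * e2 - e4 * e5 - e6 * e9 + e7 * e8) := by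
      linear_combination -hF
    have pr : ∀ {a b : ℝ}, 0 ≤ a ∧ a ≤ r → 0 ≤ b ∧ b ≤ r → 0 ≤ a * b ∧ a * b ≤ R * r := by
      intro a b ha hb
      refine ⟨mul_nonneg ha.1 hb.1, ?_⟩
      exact mul_le_mul (ha.2.trans hRr) hb.2 hb.1 hR0.le
    have p1 := pr b0 b2
    have p2 := pr b4 b5
    have p3 := pr b6 b9
    have p4 := pr b7 b8
    have k1 : |(R + e1) * ((x 3 : ℝ) - R)| ≤ R * (10 * r) := by
      rw [key, abs_le]
      have g1 : e2 - e0 - e8 - 2 * e7 - e1 ≤ r := by linarith [b0.1, b8.1, b7.1, b1.1, b2.2]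
      have g2 : -(5 * r) ≤ e2 - e0 - e8 - 2 * e7 - e1 := by linarith [b0.2, b8.2, b7.2, b1.2, b2.1]
      have g3 := mul_le_mul_of_nonneg_left g1 hR0.le
      have g4 := mul_le_mul_of_nonneg_left g2 hR0.le
      have g5 : 0 ≤ R * r := mul_nonneg hR0.le hr0
      constructor <;> linarith [p1.1, p1.2, p2.1, p2.2, p3.1, p3.2, p4.1, p4.2]
    rw [abs_mul, abs_of_nonneg (by linarith [b1.1] : 0 ≤ R + e1)] at k1
    have k2 : R * |(x 3 : ℝ) - R| ≤ R * (10 * r) :=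
      (mul_le_mul_of_nonneg_right (by linarith [b1.1]) (abs_nonneg _)).trans k1
    have k3 := le_of_mul_le_mul_left k2 hR0
    have e : (x 3 : ℝ) - R * 1 = x 3 - R := by ring
    rw [e]; exact k3
  · have := hb j hj
    rw [abs_of_nonneg this.1]
    linarith [this.2]

private theorem Cel_open : ∃ δ : ℝ, 0 < δ ∧ ∀ y : Fin 10 → ℝ, (∀ j, |y j - (xc j : ℝ)| ≤ δ) →
    DD y < -10 ∧ 3 < dV y ∧ 2 < EE y ∧ (∀ j, |y j| < 3) ∧ (0.99 < y 0 ∧ y 0 < 1.01) ∧ (0.99 < y 1 ∧ y 1 < 1.01) ∧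
      (0.99 < -y 2 ∧ -y 2 < 1.01) ∧ (0.99 < -y 7 ∧ -y 7 < 1.01) := by
  set z : Fin 10 → ℝ := fun j => (xc j : ℝ) with hz
  have z0 : z 0 = 1 := by simp [hz, xc]
  have z1 : z 1 = 1 := by simp [hz, xc]
  have z2 : z 2 = -1 := by simp [hz, xc]
  have z3 : z 3 = 1 := by simp [hz, xc]
  have z4 : z 4 = 0 := by simp [hz, xc]
  have z5 : z 5 = 0 := by simp [hz, xc]
  have z6 : z 6 = 0 := by simp [hz, xc]
  have z7 : z 7 = -1 := by simp [hz, xc]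
  have z8 : z 8 = -2 := by simp [hz, xc]
  have z9 : z 9 = 0 := by simp [hz, xc]
  have cD : Continuous (fun y : Fin 10 → ℝ => DD y) := by
    simp only [DD_eq]
    unfold dV dW KK
    fun_prop
  have cV : Continuous (fun y : Fin 10 → ℝ => dV y) := by
    unfold dV
    fun_prop
  have cE : Continuous (fun y : Fin 10 → ℝ => EE y) := by
    unfold EE dV
    fun_prop
  have hopen : IsOpen {y : Fin 10 → ℝ | DD y < -10 ∧ 3 < dV y ∧ 2 < EE y ∧ (∀ j, |y j| < 3) ∧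
      (0.99 < y 0 ∧ y 0 < 1.01) ∧ (0.99 < y 1 ∧ y 1 < 1.01) ∧
      (0.99 < -y 2 ∧ -y 2 < 1.01) ∧ (0.99 < -y 7 ∧ -y 7 < 1.01)} := by
    have c : ∀ j : Fin 10, Continuous (fun y : Fin 10 → ℝ => y j) := fun j => continuous_apply j
    have o4 : IsOpen {y : Fin 10 → ℝ | ∀ j, |y j| < 3} := by
      simp only [Set.setOf_forall]
      exact isOpen_iInter_of_finite fun j => isOpen_lt (c j).abs continuous_const
    refine (isOpen_lt cD continuous_const).inter ((isOpen_lt continuous_const cV).inter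
      ((isOpen_lt continuous_const cE).inter (o4.inter
      (((isOpen_lt continuous_const (c 0)).inter (isOpen_lt (c 0) continuous_const)).inter
      (((isOpen_lt continuous_const (c 1)).inter (isOpen_lt (c 1) continuous_const)).inter
      (((isOpen_lt continuous_const (c 2).neg).inter (isOpen_lt (c 2).neg continuous_const)).inter
      ((isOpen_lt continuous_const (c 7).neg).inter (isOpen_lt (c 7).neg continuous_const))))))))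
  have hmem : z ∈ {y : Fin 10 → ℝ | DD y < -10 ∧ 3 < dV y ∧ 2 < EE y ∧ (∀ j, |y j| < 3) ∧
      (0.99 < y 0 ∧ y 0 < 1.01) ∧ (0.99 < y 1 ∧ y 1 < 1.01) ∧
      (0.99 < -y 2 ∧ -y 2 < 1.01) ∧ (0.99 < -y 7 ∧ -y 7 < 1.01)} := by
    refine ⟨?_, ?_, ?_, ?_, ?_, ?_, ?_, ?_⟩
    · rw [DD_eq]
      unfold dV dW KK
      rw [z0, z1, z2, z3, z4, z5, z6, z7, z8, z9]
      norm_num
    · unfold dV
      rw [z0, z2, z4, z5]
      norm_num
    · unfold EE dV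
      rw [z0, z1, z2, z4, z5, z6, z7]
      norm_num
    · intro j
      fin_cases j
      · show |z 0| < 3; rw [z0]; norm_num
      · show |z 1| < 3; rw [z1]; norm_num
      · show |z 2| < 3; rw [z2]; norm_num
      · show |z 3| < 3; rw [z3]; norm_num
      · show |z 4| < 3; rw [z4]; norm_num
      · show |z 5| < 3; rw [z5]; norm_num
      · show |z 6| < 3; rw [z6]; norm_num
      · show |z 7| < 3; rw [z7]; norm_num
      · show |z 8| < 3; rw [z8]; norm_num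
      · show |z 9| < 3; rw [z9]; norm_num
    · rw [z0]; norm_num
    · rw [z1]; norm_num
    · rw [z2]; norm_num
    · rw [z7]; norm_num
  obtain ⟨δ, hδ, hball⟩ := Metric.isOpen_iff.mp hopen z hmem
  refine ⟨δ / 2, by positivity, ?_⟩
  intro y hy
  apply hball
  rw [Metric.mem_ball, dist_pi_lt_iff hδ]
  intro j
  rw [Real.dist_eq]
  have := hy j
  show |y j - z j| < δ
  linarith

private theorem Cel_cast (x : Fin 10 → ℤ) {R : ℝ} (hR : R ≠ 0) :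
    ((DD x : ℤ) : ℝ) = R ^ 4 * DD (fun j => (x j : ℝ) / R) ∧ ((dV x : ℤ) : ℝ) = R ^ 2 * dV (fun j => (x j : ℝ) / R) ∧
    ((EE x : ℤ) : ℝ) = R ^ 3 * EE (fun j => (x j : ℝ) / R) := by
  refine ⟨?_, ?_, ?_⟩
  · rw [DD_eq, DD_eq]
    unfold dV dW KK
    push_cast
    field_simp
  · unfold dV
    push_cast
    field_simp
  · unfold EE dV
    push_cast
    field_simp

/-- The cell. -/
theorem Cel : ∃ h0 : ℕ, 1 ≤ h0 ∧ ∀ (h r : ℕ) (x : Fin 10 → ℤ), h0 ≤ h → 1 ≤ r → x ∈ XA (Ah h xc) r →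
    (∀ j, |(x j : ℝ) - (h * r : ℝ) * (xc j : ℝ)| ≤ 10 * r) ∧
    ((DD x : ℤ) : ℝ) ≤ -10 * (h * r : ℝ) ^ 4 ∧ 3 * (h * r : ℝ) ^ 2 ≤ ((dV x : ℤ) : ℝ) ∧
    2 * (h * r : ℝ) ^ 3 ≤ ((EE x : ℤ) : ℝ) ∧ (∀ j, |(x j : ℝ)| ≤ 3 * (h * r : ℝ)) ∧
    (0.99 * (h * r : ℝ) ≤ x 0 ∧ (x 0 : ℝ) ≤ 1.01 * (h * r : ℝ)) ∧
    (0.99 * (h * r : ℝ) ≤ x 1 ∧ (x 1 : ℝ) ≤ 1.01 * (h * r : ℝ)) ∧
    (0.99 * (h * r : ℝ) ≤ -x 2 ∧ -(x 2 : ℝ) ≤ 1.01 * (h * r : ℝ)) ∧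
    (0.99 * (h * r : ℝ) ≤ -x 7 ∧ -(x 7 : ℝ) ≤ 1.01 * (h * r : ℝ)) := by
  obtain ⟨δ, hδ, hopen⟩ := Cel_open
  refine ⟨⌈10 / δ⌉₊ + 1, by omega, ?_⟩
  intro h r x hh hr hx
  have hh1 : 1 ≤ h := by omega
  have hnear := Cel_near hh1 hr hx
  have hrR : (1 : ℝ) ≤ r := by exact_mod_cast hr
  have hhR : (1 : ℝ) ≤ h := by exact_mod_cast hh1
  have hR0 : (0 : ℝ) < (h : ℝ) * r := by positivity
  have hhd : 10 / δ ≤ h := by
    have h1 := Nat.le_ceil (10 / δ)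
    have h2 : ((⌈10 / δ⌉₊ : ℕ) : ℝ) ≤ h := by exact_mod_cast (by omega : ⌈10 / δ⌉₊ ≤ h)
    linarith
  rw [div_le_iff₀ hδ] at hhd
  obtain ⟨c1, c2, c3, c4, c5, c6, c7, c8⟩ := hopen (fun j => (x j : ℝ) / (h * r)) (by
    intro j
    have e : (x j : ℝ) / (h * r) - (xc j : ℝ) = ((x j : ℝ) - (h * r : ℝ) * (xc j : ℝ)) / (h * r) := by
      field_simp
    rw [e, abs_div, abs_of_pos hR0, div_le_iff₀ hR0]
    refine (hnear j).trans ?_
    nlinarith)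
  obtain ⟨k1, k2, k3⟩ := Cel_cast x hR0.ne'
  have hp4 : 0 < ((h : ℝ) * r) ^ 4 := by positivity
  have hp2 : 0 < ((h : ℝ) * r) ^ 2 := by positivity
  have hp3 : 0 < ((h : ℝ) * r) ^ 3 := by positivity
  refine ⟨hnear, ?_, ?_, ?_, ?_, ?_, ?_, ?_, ?_⟩
  · rw [k1]; nlinarith
  · rw [k2]; nlinarith
  · rw [k3]; nlinarith
  · intro j
    have h1 := c4 j
    rw [abs_div, abs_of_pos hR0, div_lt_iff₀ hR0] at h1
    exact h1.le
  · simp only [lt_div_iff₀ hR0, div_lt_iff₀ hR0] at c5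
    exact ⟨c5.1.le, c5.2.le⟩
  · simp only [lt_div_iff₀ hR0, div_lt_iff₀ hR0] at c6
    exact ⟨c6.1.le, c6.2.le⟩
  · rw [← neg_div, lt_div_iff₀ hR0, div_lt_iff₀ hR0] at c7
    exact ⟨c7.1.le, c7.2.le⟩
  · rw [← neg_div, lt_div_iff₀ hR0, div_lt_iff₀ hR0] at c8
    exact ⟨c8.1.le, c8.2.le⟩

end Pool.Agent.PP5LB
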