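import Pool.Agent.PP5LB.Bsc

set_option autoImplicit false

/-!
# Ivc: integers of an interval in a residue class (size 2)

PROOF. `(Ico a (a+r)).filter (M ∣ · - c)` is the image of an interval `Ico u (u+k)` under `z ↦ c + M z`, where
`u = ⌈(a-c)/M⌉`, `k = ⌈(a+r-c)/M⌉ - u`; so `r/M - 1 < k < r/M + 1` and `k ∈ {⌊r/M⌋, ⌊r/M⌋+1}`.
(`Int.Ico_filter_modEq_card` is in Mathlib.)
-/

namespace Pool.Agent.PP5LB

open Finset

private theorem Ivc_gen (a c : ℤ) (L M : ℕ) (hM : 1 ≤ M) :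
    ∃ (u : ℤ) (k : ℕ), L / M ≤ k ∧ k ≤ L / M + 1 ∧
      (Ico a (a + L)).filter (fun n => (M : ℤ) ∣ n - c) = (Ico u (u + k)).image (fun z => c + M * z) := by
  have hM0 : (0 : ℤ) < M := by exact_mod_cast hM
  set q1 : ℤ := (c - a) / M with hq1
  set q2 : ℤ := (c - (a + L)) / M with hq2
  have a1 : M * q1 ≤ c - a := Int.mul_ediv_self_le hM0.ne'
  have a2 : c - a < M * q1 + M := Int.lt_mul_ediv_self_add hM0
  have b1 : M * q2 ≤ c - (a + L) := Int.mul_ediv_self_le hM0.ne'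
  have b2 : c - (a + L) < M * q2 + M := Int.lt_mul_ediv_self_add hM0
  have c1 : (M : ℤ) * ((L / M : ℕ) : ℤ) ≤ L := by exact_mod_cast Nat.mul_div_le L M
  have c2 : (L : ℤ) < M * ((L / M : ℕ) : ℤ) + M := by
    exact_mod_cast Nat.lt_mul_div_succ L (by omega : 0 < M) |>.trans_eq (by ring)
  have d1 : ((L / M : ℕ) : ℤ) ≤ q1 - q2 := by
    have h : (M : ℤ) * (((L / M : ℕ) : ℤ) - 1) < M * (q1 - q2) := by nlinarith
    have := lt_of_mul_lt_mul_left h hM0.le
    omega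
  have d2 : q1 - q2 ≤ ((L / M : ℕ) : ℤ) + 1 := by
    have h : (M : ℤ) * (q1 - q2) < M * (((L / M : ℕ) : ℤ) + 2) := by nlinarith
    have := lt_of_mul_lt_mul_left h hM0.le
    omega
  clear_value q1 q2
  have hQ0 : (0 : ℤ) ≤ ((L / M : ℕ) : ℤ) := Int.natCast_nonneg _
  have hk0 : ((q1 - q2).toNat : ℤ) = q1 - q2 := Int.toNat_of_nonneg (hQ0.trans d1)
  generalize hQ : L / M = Q at *
  refine ⟨-q1, (q1 - q2).toNat, ?_, ?_, ?_⟩
  · omega
  · omega
  · have hk : ((q1 - q2).toNat : ℤ) = q1 - q2 := hk0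
    rw [hk]
    ext n
    simp only [mem_filter, mem_Ico, mem_image]
    constructor
    · rintro ⟨⟨h1, h2⟩, ⟨z, hz⟩⟩
      refine ⟨z, ⟨?_, ?_⟩, by linarith⟩
      · have h : (M : ℤ) * (-z) ≤ c - a := by linarith
        have h3 : (M : ℤ) * (-z) < M * (q1 + 1) := by nlinarith
        have := lt_of_mul_lt_mul_left h3 hM0.le
        omega
      · have h3 : (M : ℤ) * q2 < M * (-z) := by nlinarith
        have := lt_of_mul_lt_mul_left h3 hM0.le
        omega
    · rintro ⟨z, ⟨h1, h2⟩, rfl⟩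
      refine ⟨⟨?_, ?_⟩, ⟨z, by ring⟩⟩
      · have h3 : (M : ℤ) * (-q1) ≤ M * z := mul_le_mul_of_nonneg_left h1 hM0.le
        nlinarith
      · have h3 : z + 1 ≤ -q2 := by omega
        have h4 : (M : ℤ) * (z + 1) ≤ M * (-q2) := mul_le_mul_of_nonneg_left h3 hM0.le
        nlinarith

private theorem Ivc_card {M : ℕ} (hM : 1 ≤ M) (c u : ℤ) (k : ℕ) :
    ((Ico u (u + k)).image (fun z => c + (M : ℤ) * z)).card = k := by
  have hM0 : (M : ℤ) ≠ 0 := by exact_mod_cast (by omega : M ≠ 0)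
  rw [card_image_of_injective _ (fun x y h => by
    have h' : c + (M : ℤ) * x = c + M * y := h
    exact mul_left_cancel₀ hM0 (by linarith)), Int.card_Ico]
  simp

/-- `IM A r M c j` is an arithmetic progression -/
theorem IM_eq (A : Fin 10 → ℤ) (r M : ℕ) (hM : 1 ≤ M) (c : Fin 10 → ℤ) (j : Fin 10) :
    ∃ (u : ℤ) (k : ℕ), (r / M : ℕ) ≤ k ∧ k ≤ r / M + 1 ∧
      IM A r M c j = (Ico u (u + k)).image (fun z => c j + M * z) := by
  obtain ⟨u, k, h1, h2, h3⟩ := Ivc_gen (A j * r) (c j) r M hM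
  refine ⟨u, k, h1, h2, ?_⟩
  rw [← h3]
  unfold IM
  rw [show (A j + 1) * (r : ℤ) = A j * r + r by ring]

theorem IM_card (A : Fin 10 → ℤ) (r M : ℕ) (hM : 1 ≤ M) (c : Fin 10 → ℤ) (j : Fin 10) :
    r / M ≤ (IM A r M c j).card ∧ (IM A r M c j).card ≤ r / M + 1 := by
  obtain ⟨u, k, h1, h2, h3⟩ := IM_eq A r M hM c j
  rw [h3, Ivc_card hM]
  exact ⟨h1, h2⟩

theorem IM_diff (A : Fin 10 → ℤ) (r M : ℕ) (hM : 1 ≤ M) (c c' : Fin 10 → ℤ) (j : Fin 10) :
    |((IM A r M c j).card : ℝ) - (IM A r M c' j).card| ≤ 1 := by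
  obtain ⟨h1, h2⟩ := IM_card A r M hM c j
  obtain ⟨h3, h4⟩ := IM_card A r M hM c' j
  have h5 : ((IM A r M c j).card : ℝ) ≤ (IM A r M c' j).card + 1 := by
    exact_mod_cast h2.trans (Nat.add_le_add_right h3 1)
  have h6 : ((IM A r M c' j).card : ℝ) ≤ (IM A r M c j).card + 1 := by
    exact_mod_cast h4.trans (Nat.add_le_add_right h1 1)
  rw [abs_le]
  constructor <;> linarith

/-- any interval, any class: at most `L/M + 1` -/
theorem ap_card (a c : ℤ) (L M : ℕ) (hM : 1 ≤ M) :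
    (((Ico a (a + L)).filter (fun n => (M : ℤ) ∣ n - c)).card : ℝ) ≤ (L : ℝ) / M + 1 := by
  obtain ⟨u, k, h1, h2, h3⟩ := Ivc_gen a c L M hM
  rw [h3, Ivc_card hM]
  have h4 : ((L / M : ℕ) : ℝ) ≤ (L : ℝ) / M := Nat.cast_div_le
  have h5 : (k : ℝ) ≤ ((L / M : ℕ) : ℝ) + 1 := by exact_mod_cast h2
  linarith

/-- integers in a real interval of length `L`, congruent modulo `M` -/
theorem ap_card' (S : Finset ℤ) (L : ℝ) (M : ℕ) (hM : 1 ≤ M) (hL : 0 ≤ L)
    (hS : ∀ a ∈ S, ∀ b ∈ S, |((a - b : ℤ) : ℝ)| ≤ L) (hc : ∀ a ∈ S, ∀ b ∈ S, (M : ℤ) ∣ a - b) :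
    (S.card : ℝ) ≤ L / M + 1 := by
  have hM0 : (0 : ℝ) < M := by exact_mod_cast hM
  have hq : 0 ≤ L / M := by positivity
  rcases S.eq_empty_or_nonempty with rfl | hne
  · simp only [card_empty, Nat.cast_zero]
    linarith
  · set m := S.min' hne with hm
    have hmS : m ∈ S := S.min'_mem hne
    have hsub : S ⊆ (range (⌊L / M⌋₊ + 1)).image (fun z : ℕ => m + (M : ℤ) * z) := by
      intro a ha
      have h1 : m ≤ a := S.min'_le a ha
      obtain ⟨z, hz⟩ := hc a ha m hmS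
      have hz0 : 0 ≤ z := by
        by_contra hneg
        push Not at hneg
        have : (M : ℤ) * z < 0 := mul_neg_of_pos_of_neg (by exact_mod_cast hM) hneg
        omega
      have h2 := hS a ha m hmS
      rw [hz] at h2
      have h3 : ((M : ℝ)) * z ≤ L := by
        have := (le_abs_self _).trans h2
        exact_mod_cast this
      have h4 : (z : ℝ) ≤ L / M := by
        rw [le_div_iff₀ hM0]
        linarith
      lift z to ℕ using hz0
      rw [mem_image]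
      refine ⟨z, ?_, by linarith⟩
      rw [mem_range, Nat.lt_succ_iff]
      exact Nat.le_floor (by exact_mod_cast h4)
    have h5 := (card_le_card hsub).trans card_image_le
    rw [card_range] at h5
    have h6 : (S.card : ℝ) ≤ (⌊L / M⌋₊ : ℝ) + 1 := by exact_mod_cast h5
    have h7 := Nat.floor_le hq
    linarith

end Pool.Agent.PP5LB
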