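import Mathlib

set_option autoImplicit false

/-!
# Ppf: few large prime factors (size 1)

PROOF. If `l_1, .., l_k` are the prime factors `> r^δ` of `n ≠ 0`, then `r^(δ k) < ∏ l_i ≤ |n| ≤ r^B` (for `r ≥ 2`), so `k ≤ B/δ`.
-/

namespace Pool.Agent.PP5LB

open Finset

theorem ppf {δ B : ℝ} (hδ : 0 < δ) (hB : 0 ≤ B) {r : ℕ} (hr : 2 ≤ r) {n : ℤ} (hn : n ≠ 0)
    (hnB : |(n : ℝ)| ≤ (r : ℝ) ^ B) :
    ((n.natAbs.primeFactors.filter (fun l : ℕ => (r : ℝ) ^ δ < (l : ℝ))).card : ℝ) ≤ B / δ := by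
  set S := n.natAbs.primeFactors.filter (fun l : ℕ => (r : ℝ) ^ δ < (l : ℝ)) with hS
  have hn' : n.natAbs ≠ 0 := Int.natAbs_ne_zero.2 hn
  have h1 : (∏ l ∈ S, l) ∣ n.natAbs :=
    (Finset.prod_dvd_prod_of_subset _ _ _ (Finset.filter_subset _ _)).trans
      (Nat.prod_primeFactors_dvd _)
  have h2 : (∏ l ∈ S, l) ≤ n.natAbs := Nat.le_of_dvd (Nat.pos_of_ne_zero hn') h1
  have hr0 : (0 : ℝ) < (r : ℝ) := by
    have : 0 < r := by omega
    exact_mod_cast this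
  have hr1 : (1 : ℝ) < (r : ℝ) := by
    have : 1 < r := by omega
    exact_mod_cast this
  have h3 : ((r : ℝ) ^ δ) ^ S.card ≤ ((∏ l ∈ S, l : ℕ) : ℝ) := by
    rw [Nat.cast_prod]
    have h4 := Finset.prod_le_prod (s := S) (f := fun _ => (r : ℝ) ^ δ)
      (g := fun l : ℕ => (l : ℝ)) (fun _ _ => (Real.rpow_pos_of_pos hr0 δ).le)
      (fun l hl => ((Finset.mem_filter.1 hl).2).le)
    simpa using h4
  have h5 : ((∏ l ∈ S, l : ℕ) : ℝ) ≤ |(n : ℝ)| := by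
    have h6 : ((n.natAbs : ℕ) : ℝ) = |(n : ℝ)| := by
      rw [Nat.cast_natAbs, Int.cast_abs]
    rw [← h6]
    exact_mod_cast h2
  have h7 : (r : ℝ) ^ (δ * S.card) ≤ (r : ℝ) ^ B := by
    rw [Real.rpow_mul hr0.le, Real.rpow_natCast]
    exact h3.trans (h5.trans hnB)
  have h8 : δ * S.card ≤ B := (Real.rpow_le_rpow_left_iff hr1).1 h7
  rw [le_div_iff₀ hδ]
  linarith

end Pool.Agent.PP5LB
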