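import Pool.Agent.PP5LB.Lam
import Pool.Agent.PP5LB.Ivc
import Pool.Agent.PP5LB.Ppf

set_option autoImplicit false

/-!
# Lin: a congruence of degree two on the fibre (size 4)

`t = (x1,x6,x7)`, `v = (v3,v8,v9)` with `Vsp t v`; `N` an integer; the fibre is the set of the `z = (z1,z2)` (values of
`x8, x9`) in a square of side `r ≤ x1` with `x1 ∣ N - x6 z2 + x7 z1`, `x3 = (N - x6 z2 + x7 z1)/x1`.
PROOF. Let `m = max |v8| |v9| ≥ 1`, `m² ≤ x1`.  (1) `k(z) := v8 z2 - v9 z1`.  For two points of the fibre `x1 ∣ k(z) - k(z')`: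
the difference `(u,w)` satisfies `x1 ∣ x7 u - x6 w` and `x1 ∣ x7 v8 - x6 v9`; then `x6 (v8 w - v9 u)` and
`x7 (v8 w - v9 u)` are `≡ 0` modulo `x1`, and so is `x1 (..)`, so with `a x1 + b x6 + c x7 = 1` we get `x1 ∣ v8 w - v9 u`.
`|k(z) - k(z')| ≤ 2 m r`, so `k` takes at most `2 m r/x1 + 1 ≤ 2m + 1 ≤ 3m` values (`ap_card'`).
(2) Two points with the same `k`: `(u,w)` is parallel to `(v8,v9)`, in the lattice; `(v8,v9)` is primitive (`Prm`), so
`(u,w) = n (v8,v9)`, `n ∈ ℤ` (write `(u,w) = (n1/n2)(v8,v9)` in lowest terms: `n2 ∣ v8, v9` and, with Bezout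
`α n1 + β n2 = 1`, `(v8/n2, v9/n2) = α (u,w) + β (v8,v9)` is in the lattice, so `n2 = 1`).  Then `x3 - x3' = n v3`.
(3) Fix `k` and one point `z0` of the fibre with this `k`: all others are `z0 + n v`, `|n| m ≤ r`, and
`f(z0 + n v) = f(z0) + β n + α n²`; modulo the prime `l` (`α ≢ 0`) at most two classes of `n`, `n` in an interval of
length `≤ r/m` (differences `≤ r/m`): at most `2 (r/(m l) + 1)` points (`ap_card'`).
Total `≤ 3 m · 2 (r/(m l) + 1) = 6 r/l + 6 m ≤ 6 (r/l + √x1)`.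
-/

namespace Pool.Agent.PP5LB

open Finset

/-- a lattice vector parallel to a primitive vector is an integral multiple of it -/
private theorem Lin_par {n a b p q u w : ℤ} (h : Prm n a b p q) (hpq : ¬ (p = 0 ∧ q = 0))
    (huw : n ∣ a * u + b * w) (hpar : p * w = q * u) : ∃ j : ℤ, u = j * p ∧ w = j * q := by
  have hg0 : 0 < Int.gcd p q := by
    rcases Nat.eq_zero_or_pos (Int.gcd p q) with h0 | h0
    · exact absurd (Int.gcd_eq_zero_iff.mp h0) hpq
    · exact h0
  obtain ⟨p', q', hco, hp, hq⟩ := Int.exists_gcd_one hg0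
  set g : ℤ := (Int.gcd p q : ℤ) with hg
  have hgpos : 0 < g := by rw [hg]; exact_mod_cast hg0
  have hcop : IsCoprime p' q' := Int.isCoprime_iff_gcd_eq_one.mpr hco
  have hpar' : p' * w = q' * u := by
    have h1 : g * (p' * w) = g * (q' * u) := by
      calc g * (p' * w) = (p' * g) * w := by ring
        _ = p * w := by rw [← hp]
        _ = q * u := hpar
        _ = (q' * g) * u := by rw [← hq]
        _ = g * (q' * u) := by ring
    exact mul_left_cancel₀ hgpos.ne' h1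
  obtain ⟨s, t, hst⟩ := hcop
  -- (u, w) = j (p', q')
  set j : ℤ := s * u + t * w with hj
  have hu : u = j * p' := by
    rw [hj]
    calc u = (s * p' + t * q') * u := by rw [hst]; ring
      _ = s * u * p' + t * (q' * u) := by ring
      _ = s * u * p' + t * (p' * w) := by rw [hpar']
      _ = (s * u + t * w) * p' := by ring
  have hw : w = j * q' := by
    rw [hj]
    calc w = (s * p' + t * q') * w := by rw [hst]; ring
      _ = s * (p' * w) + t * w * q' := by ring
      _ = s * (q' * u) + t * w * q' := by rw [hpar']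
      _ = (s * u + t * w) * q' := by ring
  -- g divides j
  have hd0 : 0 < Int.gcd j g := by
    rcases Nat.eq_zero_or_pos (Int.gcd j g) with h0 | h0
    · exact absurd (Int.gcd_eq_zero_iff.mp h0).2 hgpos.ne'
    · exact h0
  obtain ⟨j', g', hco2, hjj, hgg⟩ := Int.exists_gcd_one hd0
  set d : ℤ := (Int.gcd j g : ℤ) with hd
  have hdpos : 0 < d := by rw [hd]; exact_mod_cast hd0
  have hg'pos : 0 < g' := by
    rcases lt_trichotomy g' 0 with h1 | h1 | h1
    · nlinarith
    · rw [h1] at hgg; simp at hgg; omega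
    · exact h1
  have hcop2 : IsCoprime j' g' := Int.isCoprime_iff_gcd_eq_one.mpr hco2
  obtain ⟨α, β, hαβ⟩ := hcop2
  have hg1 : g' = 1 := by
    by_contra hne
    have h2 : 2 ≤ g' := by omega
    refine h.2 g' h2 ⟨?_, ?_, ?_⟩
    · rw [hp, hgg]; exact ⟨p' * d, by ring⟩
    · rw [hq, hgg]; exact ⟨q' * d, by ring⟩
    · have e1 : p / g' = p' * d := by
        rw [hp, hgg]
        rw [show p' * (g' * d) = g' * (p' * d) by ring]
        exact Int.mul_ediv_cancel_left _ hg'pos.ne'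
      have e2 : q / g' = q' * d := by
        rw [hq, hgg]
        rw [show q' * (g' * d) = g' * (q' * d) by ring]
        exact Int.mul_ediv_cancel_left _ hg'pos.ne'
      rw [e1, e2]
      have e3 : p' * d = α * u + β * p := by
        calc p' * d = (α * j' + β * g') * (p' * d) := by rw [hαβ]; ring
          _ = α * ((j' * d) * p') + β * (p' * (g' * d)) := by ring
          _ = α * (j * p') + β * (p' * g) := by rw [← hjj, ← hgg]
          _ = α * u + β * p := by rw [← hu, ← hp]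
      have e4 : q' * d = α * w + β * q := by
        calc q' * d = (α * j' + β * g') * (q' * d) := by rw [hαβ]; ring
          _ = α * ((j' * d) * q') + β * (q' * (g' * d)) := by ring
          _ = α * (j * q') + β * (q' * g) := by rw [← hjj, ← hgg]
          _ = α * w + β * q := by rw [← hw, ← hq]
      rw [e3, e4]
      have e5 : a * (α * u + β * p) + b * (α * w + β * q) =
          α * (a * u + b * w) + β * (a * p + b * q) := by ring
      rw [e5]
      exact dvd_add (Dvd.dvd.mul_left huw _) (Dvd.dvd.mul_left h.1 _)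
  refine ⟨j', ?_, ?_⟩
  · calc u = j * p' := hu
      _ = (j' * d) * p' := by rw [← hjj]
      _ = j' * (p' * (g' * d)) := by rw [hg1]; ring
      _ = j' * p := by rw [← hgg, ← hp]
  · calc w = j * q' := hw
      _ = (j' * d) * q' := by rw [← hjj]
      _ = j' * (q' * (g' * d)) := by rw [hg1]; ring
      _ = j' * q := by rw [← hgg, ← hq]

open scoped Classical in
theorem lin {t v : ℤ × ℤ × ℤ} (hv : Vsp t v) (hu : ∃ a b c : ℤ, a * t.1 + b * t.2.1 + c * t.2.2 = 1)
    {r : ℕ} (hr : 1 ≤ r) (hrx : (r : ℤ) ≤ t.1) (N a b : ℤ) {l : ℕ} (hl : l.Prime)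
    (f : ℤ → ℤ → ℤ → ℤ) {α : ℤ} (hα : ¬ (l : ℤ) ∣ α)
    (hf : ∀ p q s : ℤ, ∃ β : ℤ, ∀ n : ℤ,
      f (p + n * v.1) (q + n * v.2.1) (s + n * v.2.2) = f p q s + β * n + α * n ^ 2) :
    (((Ico a (a + r) ×ˢ Ico b (b + r)).filter (fun z =>
      t.1 ∣ N - t.2.1 * z.2 + t.2.2 * z.1 ∧
      (l : ℤ) ∣ f ((N - t.2.1 * z.2 + t.2.2 * z.1) / t.1) z.1 z.2)).card : ℝ) ≤
      6 * ((r : ℝ) / l + √(t.1 : ℝ)) := by
  obtain ⟨x1, x6, x7⟩ := t
  obtain ⟨v3, v8, v9⟩ := v
  obtain ⟨hv1, hv0, hprm, hv8, hv9⟩ := hv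
  obtain ⟨a0, b0, c0, hu⟩ := hu
  simp only at hv1 hv0 hprm hv8 hv9 hu hrx hf ⊢
  have hrz : (1 : ℤ) ≤ r := by exact_mod_cast hr
  have hx1 : 1 ≤ x1 := by linarith
  have hrR : (1 : ℝ) ≤ r := by exact_mod_cast hr
  have hx1R : (1 : ℝ) ≤ x1 := by exact_mod_cast hx1
  have hrxR : (r : ℝ) ≤ x1 := by exact_mod_cast hrx
  have hlpos : (0 : ℝ) < l := by exact_mod_cast hl.pos
  have hlp : Prime (l : ℤ) := Nat.prime_iff_prime_int.mp hl
  set m : ℤ := max |v8| |v9| with hm
  have hm8 : |v8| ≤ m := le_max_left _ _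
  have hm9 : |v9| ≤ m := le_max_right _ _
  have hm1 : 1 ≤ m := by
    by_contra hcon
    have h1 : m ≤ 0 := by omega
    have h2 : |v8| ≤ 0 := hm8.trans h1
    have h3 : |v9| ≤ 0 := hm9.trans h1
    exact hv0 ⟨abs_nonpos_iff.mp h2, abs_nonpos_iff.mp h3⟩
  have hmsq : m ^ 2 ≤ x1 := by
    rcases max_choice |v8| |v9| with h1 | h1
    · rw [hm, h1, sq_abs]; exact hv8
    · rw [hm, h1, sq_abs]; exact hv9
  have hmR : (1 : ℝ) ≤ m := by exact_mod_cast hm1
  have hmsqrt : (m : ℝ) ≤ √(x1 : ℝ) := by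
    apply Real.le_sqrt_of_sq_le
    exact_mod_cast hmsq
  set S := (Ico a (a + r) ×ˢ Ico b (b + r)).filter (fun z : ℤ × ℤ =>
      x1 ∣ N - x6 * z.2 + x7 * z.1 ∧
      (l : ℤ) ∣ f ((N - x6 * z.2 + x7 * z.1) / x1) z.1 z.2) with hS
  have hmemS : ∀ z ∈ S, (a ≤ z.1 ∧ z.1 < a + r) ∧ (b ≤ z.2 ∧ z.2 < b + r) ∧
      x1 ∣ N - x6 * z.2 + x7 * z.1 ∧ (l : ℤ) ∣ f ((N - x6 * z.2 + x7 * z.1) / x1) z.1 z.2 := by
    intro z hz
    rw [hS, mem_filter, mem_product, mem_Ico, mem_Ico] at hz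
    exact ⟨hz.1.1, hz.1.2, hz.2.1, hz.2.2⟩
  -- lattice differences
  have hlat : ∀ z ∈ S, ∀ z' ∈ S, x1 ∣ (-x7) * (z.1 - z'.1) + x6 * (z.2 - z'.2) := by
    intro z hz z' hz'
    obtain ⟨c1, hc1⟩ := (hmemS z hz).2.2.1
    obtain ⟨c2, hc2⟩ := (hmemS z' hz').2.2.1
    exact ⟨c2 - c1, by linear_combination hc2 - hc1⟩
  set k : ℤ × ℤ → ℤ := fun z => v8 * z.2 - v9 * z.1 with hk
  have hdk : ∀ z ∈ S, ∀ z' ∈ S, x1 ∣ k z - k z' := by
    intro z hz z' hz'
    obtain ⟨c1, hc1⟩ := hlat z hz z' hz'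
    set u := z.1 - z'.1 with hudef
    set w := z.2 - z'.2 with hwdef
    have e0 : k z - k z' = v8 * w - v9 * u := by rw [hk, hudef, hwdef]; ring
    rw [e0]
    refine ⟨a0 * (v8 * w - v9 * u) + b0 * (v8 * c1 + u * v3) + c0 * (w * v3 + v9 * c1), ?_⟩
    linear_combination (-(v8 * w - v9 * u)) * hu - (b0 * u + c0 * w) * hv1 + (b0 * v8 + c0 * v9) * hc1
  have hdiff : ∀ z ∈ S, ∀ z' ∈ S, |z.1 - z'.1| ≤ r ∧ |z.2 - z'.2| ≤ r := by
    intro z hz z' hz'
    have h1 := hmemS z hz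
    have h2 := hmemS z' hz'
    refine ⟨abs_le.mpr ⟨?_, ?_⟩, abs_le.mpr ⟨?_, ?_⟩⟩
    · linarith [h1.1.1, h2.1.2]
    · linarith [h1.1.2, h2.1.1]
    · linarith [h1.2.1.1, h2.2.1.2]
    · linarith [h1.2.1.2, h2.2.1.1]
  have hcard1 : ((S.image k).card : ℝ) ≤ 3 * m := by
    have hx1n : ((x1.toNat : ℕ) : ℤ) = x1 := Int.toNat_of_nonneg (by linarith)
    have h1 := ap_card' (S.image k) (2 * m * r) x1.toNat (by omega) (by positivity) ?_ ?_
    · have hx1nR : ((x1.toNat : ℕ) : ℝ) = x1 := by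
        rw [← Int.cast_natCast, hx1n]
      rw [hx1nR] at h1
      have h2 : (2 * m * r : ℝ) / x1 ≤ 2 * m := by
        rw [div_le_iff₀ (by linarith)]
        nlinarith
      linarith
    · intro k1 hk1 k2 hk2
      rw [mem_image] at hk1 hk2
      obtain ⟨z, hz, rfl⟩ := hk1
      obtain ⟨z', hz', rfl⟩ := hk2
      obtain ⟨h3, h4⟩ := hdiff z hz z' hz'
      have e0 : k z - k z' = v8 * (z.2 - z'.2) - v9 * (z.1 - z'.1) := by rw [hk]; ring
      have h5 : |k z - k z'| ≤ 2 * m * r := by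
        rw [e0]
        calc |v8 * (z.2 - z'.2) - v9 * (z.1 - z'.1)|
            ≤ |v8 * (z.2 - z'.2)| + |v9 * (z.1 - z'.1)| := abs_sub _ _
          _ = |v8| * |z.2 - z'.2| + |v9| * |z.1 - z'.1| := by rw [abs_mul, abs_mul]
          _ ≤ m * r + m * r := by
              apply add_le_add
              · exact mul_le_mul hm8 h4 (abs_nonneg _) (by linarith)
              · exact mul_le_mul hm9 h3 (abs_nonneg _) (by linarith)
          _ = 2 * m * r := by ring
      have h6 : ((|k z - k z'| : ℤ) : ℝ) ≤ ((2 * m * r : ℤ) : ℝ) := by exact_mod_cast h5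
      rw [Int.cast_abs] at h6
      push_cast at h6 ⊢
      exact h6
    · intro k1 hk1 k2 hk2
      rw [mem_image] at hk1 hk2
      obtain ⟨z, hz, rfl⟩ := hk1
      obtain ⟨z', hz', rfl⟩ := hk2
      rw [hx1n]
      exact hdk z hz z' hz'
  -- the fibres of k
  have hfib : ∀ κ ∈ S.image k, ((S.filter (fun z => k z = κ)).card : ℝ) ≤ 2 * (r / (m * l) + 1) := by
    intro κ hκ
    rw [mem_image] at hκ
    obtain ⟨z0, hz0, rfl⟩ := hκ
    set F := S.filter (fun z => k z = k z0) with hF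
    have hpar : ∀ z ∈ F, ∃ n : ℤ, z.1 = z0.1 + n * v8 ∧ z.2 = z0.2 + n * v9 := by
      intro z hz
      rw [hF, mem_filter] at hz
      have h1 := hlat z hz.1 z0 hz0
      have h2 : v8 * (z.2 - z0.2) = v9 * (z.1 - z0.1) := by
        have := hz.2
        rw [hk] at this
        simp only at this
        linear_combination this
      obtain ⟨n, hn1, hn2⟩ := Lin_par hprm hv0 h1 h2
      exact ⟨n, by linarith, by linarith⟩
    choose! ν hν using hpar
    obtain ⟨β, hβ⟩ := hf ((N - x6 * z0.2 + x7 * z0.1) / x1) z0.1 z0.2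
    have hinj : Set.InjOn ν (F : Set (ℤ × ℤ)) := by
      intro z hz z' hz' hzz
      have h1 := hν z hz
      have h2 := hν z' hz'
      rw [hzz] at h1
      exact Prod.ext (by rw [h1.1, h2.1]) (by rw [h1.2, h2.2])
    set T := F.image ν with hT
    have hcT : F.card = T.card := by rw [hT, card_image_of_injOn hinj]
    have hdl : ∀ n ∈ T, (l : ℤ) ∣ n * (β + α * n) := by
      intro n hn
      rw [hT, mem_image] at hn
      obtain ⟨z, hz, rfl⟩ := hn
      have h1 := hν z hz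
      have hzS : z ∈ S := (mem_filter.mp hz).1
      have h2 := (hmemS z hzS).2.2.2
      have h3 := (hmemS z0 hz0).2.2.2
      obtain ⟨c, hc⟩ := (hmemS z0 hz0).2.2.1
      have e1 : (N - x6 * z0.2 + x7 * z0.1) / x1 = c := by
        rw [hc]; exact Int.mul_ediv_cancel_left _ (by omega)
      have e2 : (N - x6 * z.2 + x7 * z.1) / x1 = c + ν z * v3 := by
        have : N - x6 * z.2 + x7 * z.1 = x1 * (c + ν z * v3) := by
          rw [h1.1, h1.2]
          linear_combination hc - ν z * hv1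
        rw [this]; exact Int.mul_ediv_cancel_left _ (by omega)
      rw [e2, h1.1, h1.2] at h2
      rw [e1] at h3
      have h4 := hβ (ν z)
      rw [e1] at h4
      rw [h4] at h2
      have h5 : (l : ℤ) ∣ (f c z0.1 z0.2 + β * ν z + α * ν z ^ 2) - f c z0.1 z0.2 := dvd_sub h2 h3
      have e3 : (f c z0.1 z0.2 + β * ν z + α * ν z ^ 2) - f c z0.1 z0.2 = ν z * (β + α * ν z) := by
        ring
      rwa [e3] at h5
    have hdist : ∀ n ∈ T, ∀ n' ∈ T, |((n - n' : ℤ) : ℝ)| ≤ (r : ℝ) / m := by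
      intro n hn n' hn'
      rw [hT, mem_image] at hn hn'
      obtain ⟨z, hz, rfl⟩ := hn
      obtain ⟨z', hz', rfl⟩ := hn'
      have h1 := hν z hz
      have h2 := hν z' hz'
      have hzS : z ∈ S := (mem_filter.mp hz).1
      have hzS' : z' ∈ S := (mem_filter.mp hz').1
      obtain ⟨h3, h4⟩ := hdiff z hzS z' hzS'
      have h5 : |ν z - ν z'| * m ≤ r := by
        rcases max_choice |v8| |v9| with h6 | h6
        · rw [hm, h6, ← abs_mul]
          have : (ν z - ν z') * v8 = z.1 - z'.1 := by rw [h1.1, h2.1]; ring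
          rw [this]; exact h3
        · rw [hm, h6, ← abs_mul]
          have : (ν z - ν z') * v9 = z.2 - z'.2 := by rw [h1.2, h2.2]; ring
          rw [this]; exact h4
      rw [le_div_iff₀ (by linarith)]
      have h6 : ((|ν z - ν z'| * m : ℤ) : ℝ) ≤ ((r : ℤ) : ℝ) := by exact_mod_cast h5
      push_cast at h6 ⊢
      exact h6
    have hsub : T ⊆ T.filter (fun n => (l : ℤ) ∣ n) ∪ T.filter (fun n => (l : ℤ) ∣ β + α * n) := by
      intro n hn
      rw [mem_union, mem_filter, mem_filter]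
      rcases hlp.dvd_or_dvd (hdl n hn) with h1 | h1
      · exact Or.inl ⟨hn, h1⟩
      · exact Or.inr ⟨hn, h1⟩
    have hc1 : ((T.filter (fun n => (l : ℤ) ∣ n)).card : ℝ) ≤ (r / m) / l + 1 := by
      apply ap_card' _ _ l hl.one_le (by positivity)
      · intro n hn n' hn'
        exact hdist n (mem_filter.mp hn).1 n' (mem_filter.mp hn').1
      · intro n hn n' hn'
        exact dvd_sub (mem_filter.mp hn).2 (mem_filter.mp hn').2
    have hc2 : ((T.filter (fun n => (l : ℤ) ∣ β + α * n)).card : ℝ) ≤ (r / m) / l + 1 := by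
      apply ap_card' _ _ l hl.one_le (by positivity)
      · intro n hn n' hn'
        exact hdist n (mem_filter.mp hn).1 n' (mem_filter.mp hn').1
      · intro n hn n' hn'
        have h1 := dvd_sub (mem_filter.mp hn).2 (mem_filter.mp hn').2
        have e1 : β + α * n - (β + α * n') = α * (n - n') := by ring
        rw [e1] at h1
        exact (hlp.dvd_or_dvd h1).resolve_left hα
    have h7 : (T.card : ℝ) ≤ ((r / m) / l + 1) + ((r / m) / l + 1) := by
      have h8 := (card_le_card hsub).trans (card_union_le _ _)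
      have h9 : (T.card : ℝ) ≤ ((T.filter (fun n => (l : ℤ) ∣ n)).card : ℝ) +
          ((T.filter (fun n => (l : ℤ) ∣ β + α * n)).card : ℝ) := by exact_mod_cast h8
      linarith
    rw [hcT]
    have e4 : ((r : ℝ) / m) / l = r / (m * l) := by rw [div_div]
    rw [e4] at h7
    linarith
  have hsum : (S.card : ℝ) ≤ (S.image k).card * (2 * (r / (m * l) + 1)) := by
    rw [card_eq_sum_card_image k S]
    push_cast
    calc ∑ κ ∈ S.image k, ((S.filter (fun z => k z = κ)).card : ℝ)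
        ≤ ∑ _κ ∈ S.image k, (2 * ((r : ℝ) / (m * l) + 1)) := sum_le_sum hfib
      _ = (S.image k).card * (2 * (r / (m * l) + 1)) := by rw [sum_const, nsmul_eq_mul]
  have hnn : (0 : ℝ) ≤ 2 * (r / (m * l) + 1) := by positivity
  calc (S.card : ℝ) ≤ (S.image k).card * (2 * (r / (m * l) + 1)) := hsum
    _ ≤ (3 * m) * (2 * (r / (m * l) + 1)) := mul_le_mul_of_nonneg_right hcard1 hnn
    _ = 6 * (r / l + m) := by
        have hm0 : (m : ℝ) ≠ 0 := by positivity
        field_simp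
        ring
    _ ≤ 6 * (r / l + √(x1 : ℝ)) := by linarith

end Pool.Agent.PP5LB
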