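import Pool.Agent.PP5LB.Ln6
import Pool.Agent.PP5LB.Ppf
import Pool.Agent.PP5LB.Lin

set_option autoImplicit false

/-!
# BdB: the bad bases for (r2) (size 4)

`S` = the bases `b` with a prime `l > T = r^δ`, `l ≠ 2`, dividing `dV b` and `b1 (4 Vf b + b1 v3²)`.
PROOF (see `BdA` for the notation and the tools).
(a) `l ∣ b 1` (`L b` from `b 1 ≠ 0`), `l ∣ dV b = s² - 4 b0 b2`: `l ∤ b 0`: `b 2` in one class (`l ≠ 2`), `cla` with `j = 2`;
   `l ∣ b 0`: `cla` with `j = 0`.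
(c) `l ∣ b 0` (`L b` from `b 0 ≠ 0`): `l ∣ s²`, so `l ∣ b 4 + b 5`: `cla` with `j = 5`.
(b) `l ∤ b 0 b 1`: `l ∣ 4V + b1 v3²`; identity `b0 (4V + b1 v3²) = P2 - dV v8²`, `P2 = (s v8 - 2 b0 v9)² + b0 b1 v3²`: `l ∣ P2`.
   `P2 = 0`: at most two `b 0` on each line `j = 0` (coefficient of `b0²`: `4 v9²`; if `v9 = 0`: `P2 = s² v8² + b0 b1 v3²`,
   `v3 ≠ 0` because `b1 v3 = b7 v8 ≠ 0`): `ln6`, `m = 2`.
   `P2 ≠ 0`: `L b` from `P2` (independent of `b 2`), `l ∣ s² - 4 b0 b2` puts `b 2` in one class: `cla`, `j = 2`.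
-/

namespace Pool.Agent.PP5LB

open Finset Pool.Agent.PP5L

private theorem BdB_agree {b b' : Fin 10 → ℤ} {j : Fin 10}
    (h : Function.update b' j 0 = Function.update b j 0) {i : Fin 10} (hi : i ≠ j) : b' i = b i := by
  have := congrFun h i
  rwa [Function.update_of_ne hi, Function.update_of_ne hi] at this

private theorem BdB_quad (S : Finset ℤ) (a b c : ℤ) (hab : ¬ (a = 0 ∧ b = 0))
    (h : ∀ t ∈ S, a * t ^ 2 + b * t + c = 0) : S.card ≤ 2 := by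
  classical
  set p : Polynomial ℤ := Polynomial.C a * Polynomial.X ^ 2 + Polynomial.C b * Polynomial.X + Polynomial.C c with hp
  have hp0 : p ≠ 0 := by
    intro h0
    apply hab
    constructor
    · have := congrArg (fun q => Polynomial.coeff q 2) h0
      simp only [hp, Polynomial.coeff_add, Polynomial.coeff_C_mul, Polynomial.coeff_X_pow, Polynomial.coeff_X,
        Polynomial.coeff_C, Polynomial.coeff_zero] at this
      simpa using this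
    · have := congrArg (fun q => Polynomial.coeff q 1) h0
      simp only [hp, Polynomial.coeff_add, Polynomial.coeff_C_mul, Polynomial.coeff_X_pow, Polynomial.coeff_X,
        Polynomial.coeff_C, Polynomial.coeff_zero] at this
      simpa using this
  have hsub : S ⊆ p.roots.toFinset := by
    intro t ht
    rw [Multiset.mem_toFinset, Polynomial.mem_roots hp0]
    simp only [Polynomial.IsRoot, hp, Polynomial.eval_add, Polynomial.eval_mul, Polynomial.eval_C,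
      Polynomial.eval_pow, Polynomial.eval_X]
    exact h t ht
  calc S.card ≤ p.roots.toFinset.card := Finset.card_le_card hsub
    _ ≤ Multiset.card p.roots := Multiset.toFinset_card_le _
    _ ≤ p.natDegree := Polynomial.card_roots' _
    _ ≤ 2 := by rw [hp]; exact Polynomial.natDegree_quadratic_le

private noncomputable def BdB_P2 (b : Fin 10 → ℤ) : ℤ :=
  ((b 4 + b 5) * (vv (b 1, b 6, b 7)).2.1 - 2 * b 0 * (vv (b 1, b 6, b 7)).2.2) ^ 2 +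
    b 0 * b 1 * (vv (b 1, b 6, b 7)).1 ^ 2

private theorem BdB_id (b : Fin 10 → ℤ) : b 0 * (4 * Vf b + b 1 * v3 b ^ 2) =
    BdB_P2 b - dV b * (vv (b 1, b 6, b 7)).2.1 ^ 2 := by
  unfold BdB_P2 Vf Vq v3 dV
  ring

/-- the coordinates of a base -/
private theorem BdB_bd {A : Fin 10 → ℤ} {r : ℕ} {b : Fin 10 → ℤ} (hb : b ∈ Bs A r) (j : Fin 10) :
    |(b j : ℝ)| ≤ ((∑ j, (|A j| + 1) : ℤ) : ℝ) * r := by
  obtain ⟨h1, h3, h8, h9, _⟩ := mem_Bs.mp hb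
  have hM : ∀ j, |A j| + 1 ≤ ∑ j, (|A j| + 1) := by
    intro j
    exact Finset.single_le_sum (f := fun j => |A j| + 1) (fun i _ => by positivity) (Finset.mem_univ j)
  have hM0 : 0 ≤ ∑ j, (|A j| + 1) := Finset.sum_nonneg (fun i _ => by positivity)
  have hr : (0 : ℤ) ≤ r := Int.natCast_nonneg r
  have key : |b j| ≤ (∑ j, (|A j| + 1)) * r := by
    by_cases e3 : j = 3
    · rw [e3, h3, abs_zero]; exact mul_nonneg hM0 hr
    by_cases e8 : j = 8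
    · rw [e8, h8, abs_zero]; exact mul_nonneg hM0 hr
    by_cases e9 : j = 9
    · rw [e9, h9, abs_zero]; exact mul_nonneg hM0 hr
    obtain ⟨g1, g2⟩ := h1 j e3 e8 e9
    have k1 : |b j| ≤ (|A j| + 1) * r := by
      rw [abs_le]
      have a1 := neg_abs_le (A j)
      have a2 := le_abs_self (A j)
      constructor <;> nlinarith
    exact k1.trans (mul_le_mul_of_nonneg_right (hM j) hr)
  have : ((|b j| : ℤ) : ℝ) ≤ (((∑ j, (|A j| + 1)) * r : ℤ) : ℝ) := by exact_mod_cast key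
  rw [Int.cast_abs] at this
  push_cast at this ⊢
  exact this

private theorem BdB_M1 (A : Fin 10 → ℤ) : (1 : ℝ) ≤ ((∑ j, (|A j| + 1) : ℤ) : ℝ) := by
  have : |A 0| + 1 ≤ ∑ j, (|A j| + 1) :=
    Finset.single_le_sum (f := fun j => |A j| + 1) (fun i _ => by positivity) (Finset.mem_univ 0)
  have h2 : (1 : ℤ) ≤ ∑ j, (|A j| + 1) := by
    have := abs_nonneg (A 0)
    linarith
  exact_mod_cast h2

/-- size of `P2` -/
private theorem BdB_P2bd {A : Fin 10 → ℤ} (hA : 1 ≤ A 1) {r : ℕ} (hr : 1 ≤ r) {b : Fin 10 → ℤ} (hb : b ∈ Bs A r) :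
    |(BdB_P2 b : ℝ)| ≤ 20 * ((∑ j, (|A j| + 1) : ℤ) : ℝ) ^ 5 * (r : ℝ) ^ 3 := by
  obtain ⟨h1, -⟩ := mem_Bs.mp hb
  have hrR : (1 : ℝ) ≤ r := by exact_mod_cast hr
  have g1 := (h1 1 (by decide) (by decide) (by decide)).1
  have hb1 : (r : ℤ) ≤ b 1 := by nlinarith
  have hb1R : (r : ℝ) ≤ b 1 := by exact_mod_cast hb1
  have hb1' : 1 ≤ b 1 := by
    have : (1 : ℤ) ≤ r := by exact_mod_cast hr
    linarith
  obtain ⟨w1, w2, w3, w4, w5⟩ := vsp (t := (b 1, b 6, b 7)) hb1'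
  set v := vv (b 1, b 6, b 7) with hv
  simp only at w1 w4 w5
  have hM := BdB_M1 A
  have B0 := BdB_bd hb 0
  have B1 := BdB_bd hb 1
  have B4 := BdB_bd hb 4
  have B5 := BdB_bd hb 5
  have B6 := BdB_bd hb 6
  have B7 := BdB_bd hb 7
  set M := ((∑ j, (|A j| + 1) : ℤ) : ℝ) with hMdef
  unfold BdB_P2
  rw [← hv]
  push_cast
  have w1R : (b 1 : ℝ) * v.1 = b 7 * v.2.1 - b 6 * v.2.2 := by exact_mod_cast w1
  have w4R : (v.2.1 : ℝ) ^ 2 ≤ b 1 := by exact_mod_cast w4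
  have w5R : (v.2.2 : ℝ) ^ 2 ≤ b 1 := by exact_mod_cast w5
  set p := |(v.2.1 : ℝ)| with hp
  set q := |(v.2.2 : ℝ)| with hq
  have hp0 : 0 ≤ p := abs_nonneg _
  have hq0 : 0 ≤ q := abs_nonneg _
  have hp2 : p ^ 2 ≤ M * r := by
    rw [hp, sq_abs]; exact w4R.trans ((le_abs_self _).trans B1)
  have hq2 : q ^ 2 ≤ M * r := by
    rw [hq, sq_abs]; exact w5R.trans ((le_abs_self _).trans B1)
  have hMr : 0 ≤ M * r := by positivity
  have hpq : (p + q) ^ 2 ≤ 4 * (M * r) := by nlinarith [sq_nonneg (p - q)]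
  -- |v3| ≤ M (p + q)
  have hv3 : |(v.1 : ℝ)| ≤ M * (p + q) := by
    have e1 : (b 1 : ℝ) * |(v.1 : ℝ)| ≤ M * r * (p + q) := by
      have hb0 : (0 : ℝ) ≤ b 1 := by linarith
      calc (b 1 : ℝ) * |(v.1 : ℝ)| = |(b 1 : ℝ) * v.1| := by rw [abs_mul, abs_of_nonneg hb0]
        _ = |(b 7 : ℝ) * v.2.1 - b 6 * v.2.2| := by rw [w1R]
        _ ≤ |(b 7 : ℝ) * v.2.1| + |(b 6 : ℝ) * v.2.2| := abs_sub _ _
        _ = |(b 7 : ℝ)| * p + |(b 6 : ℝ)| * q := by rw [abs_mul, abs_mul]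
        _ ≤ M * r * p + M * r * q := by gcongr
        _ = M * r * (p + q) := by ring
    have e2 : (r : ℝ) * |(v.1 : ℝ)| ≤ r * (M * (p + q)) := by
      calc (r : ℝ) * |(v.1 : ℝ)| ≤ b 1 * |(v.1 : ℝ)| := by gcongr
        _ ≤ M * r * (p + q) := e1
        _ = r * (M * (p + q)) := by ring
    exact le_of_mul_le_mul_left e2 (by linarith)
  have hv3sq : (v.1 : ℝ) ^ 2 ≤ 4 * M ^ 3 * r := by
    rw [← sq_abs]
    calc |(v.1 : ℝ)| ^ 2 ≤ (M * (p + q)) ^ 2 := by gcongr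
      _ = M ^ 2 * (p + q) ^ 2 := by ring
      _ ≤ M ^ 2 * (4 * (M * r)) := by gcongr
      _ = 4 * M ^ 3 * r := by ring
  have hs : |((b 4 : ℝ) + b 5) * v.2.1 - 2 * b 0 * v.2.2| ≤ 2 * (M * r) * (p + q) := by
    calc |((b 4 : ℝ) + b 5) * v.2.1 - 2 * b 0 * v.2.2| ≤ |((b 4 : ℝ) + b 5) * v.2.1| + |2 * (b 0 : ℝ) * v.2.2| :=
          abs_sub _ _
      _ = |(b 4 : ℝ) + b 5| * p + 2 * |(b 0 : ℝ)| * q := by
          rw [abs_mul, abs_mul, abs_mul, abs_of_pos (by norm_num : (0 : ℝ) < 2)]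
      _ ≤ (|(b 4 : ℝ)| + |(b 5 : ℝ)|) * p + 2 * |(b 0 : ℝ)| * q := by gcongr; exact abs_add_le _ _
      _ ≤ (M * r + M * r) * p + 2 * (M * r) * q := by gcongr
      _ = 2 * (M * r) * (p + q) := by ring
  have hs2 : (((b 4 : ℝ) + b 5) * v.2.1 - 2 * b 0 * v.2.2) ^ 2 ≤ 16 * M ^ 3 * r ^ 3 := by
    rw [← sq_abs]
    calc |((b 4 : ℝ) + b 5) * v.2.1 - 2 * b 0 * v.2.2| ^ 2 ≤ (2 * (M * r) * (p + q)) ^ 2 := by gcongr
      _ = 4 * (M * r) ^ 2 * (p + q) ^ 2 := by ring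
      _ ≤ 4 * (M * r) ^ 2 * (4 * (M * r)) := by gcongr
      _ = 16 * M ^ 3 * r ^ 3 := by ring
  have hb01 : |(b 0 : ℝ) * b 1 * (v.1 : ℝ) ^ 2| ≤ 4 * M ^ 5 * r ^ 3 := by
    rw [abs_mul, abs_mul, abs_of_nonneg (sq_nonneg (v.1 : ℝ))]
    calc |(b 0 : ℝ)| * |(b 1 : ℝ)| * (v.1 : ℝ) ^ 2 ≤ (M * r) * (M * r) * (4 * M ^ 3 * r) := by gcongr
      _ = 4 * M ^ 5 * r ^ 3 := by ring
  have hM35 : M ^ 3 ≤ M ^ 5 := pow_le_pow_right₀ hM (by norm_num)
  calc |(((b 4 : ℝ) + b 5) * v.2.1 - 2 * b 0 * v.2.2) ^ 2 + b 0 * b 1 * (v.1 : ℝ) ^ 2|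
      ≤ |(((b 4 : ℝ) + b 5) * v.2.1 - 2 * b 0 * v.2.2) ^ 2| + |(b 0 : ℝ) * b 1 * (v.1 : ℝ) ^ 2| := abs_add_le _ _
    _ ≤ 16 * M ^ 3 * r ^ 3 + 4 * M ^ 5 * r ^ 3 := by
        rw [abs_of_nonneg (sq_nonneg _)]; gcongr
    _ ≤ 16 * M ^ 5 * r ^ 3 + 4 * M ^ 5 * r ^ 3 := by gcongr
    _ = 20 * M ^ 5 * r ^ 3 := by ring

/-- the primes `> T` dividing `n` -/
private noncomputable def BdB_L (T : ℝ) (n : ℤ) : Finset ℕ :=
  open scoped Classical in n.natAbs.primeFactors.filter (fun l : ℕ => T < (l : ℝ))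

private theorem BdB_memL {T : ℝ} {n : ℤ} {l : ℕ} (hn : n ≠ 0) (hl : l.Prime) (hT : T < l) (hd : (l : ℤ) ∣ n) :
    l ∈ BdB_L T n := by
  unfold BdB_L
  rw [Finset.mem_filter, Nat.mem_primeFactors]
  exact ⟨⟨hl, Int.natCast_dvd.mp hd, by simpa using hn⟩, hT⟩

private theorem BdB_cardL {δ K : ℝ} (hδ : 0 < δ) (hK : 1 ≤ K) {r : ℕ} (hr : 2 ≤ r) {n : ℤ} (hn : n ≠ 0)
    (hnK : |(n : ℝ)| ≤ K * (r : ℝ) ^ 3) : ((BdB_L ((r : ℝ) ^ δ) n).card : ℝ) ≤ (K + 3) / δ := by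
  unfold BdB_L
  refine ppf hδ (by linarith) hr hn (hnK.trans ?_)
  have hrR : (2 : ℝ) ≤ r := by exact_mod_cast hr
  have hr0 : (0 : ℝ) < r := by linarith
  rw [Real.rpow_add hr0]
  have e1 : (r : ℝ) ^ (3 : ℝ) = (r : ℝ) ^ 3 := by exact_mod_cast Real.rpow_natCast (r : ℝ) 3
  rw [e1]
  have e2 : K ≤ (r : ℝ) ^ K := by
    have h1 : (2 : ℝ) ^ K ≤ (r : ℝ) ^ K := Real.rpow_le_rpow (by norm_num) hrR (by linarith)
    have h2 : 1 + K * 1 ≤ (1 + 1 : ℝ) ^ K := one_add_mul_self_le_rpow_one_add (by norm_num) hK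
    norm_num at h2
    linarith
  gcongr

/-- the estimate for the sets treated with `cla` -/
private theorem BdB_pow {δ : ℝ} (hδ1 : δ ≤ 1) {r : ℕ} (hr : 1 ≤ r) {k : ℝ} (hk : 0 ≤ k) :
    k * (r / (r : ℝ) ^ δ + 1) * (r : ℝ) ^ 6 ≤ 2 * k * (r : ℝ) ^ (7 - δ) := by
  have hrR : (1 : ℝ) ≤ r := by exact_mod_cast hr
  have hr0 : (0 : ℝ) < r := by linarith
  have e1 : (r : ℝ) / (r : ℝ) ^ δ = (r : ℝ) ^ (1 - δ) := by
    rw [Real.rpow_sub hr0, Real.rpow_one]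
  have e2 : (1 : ℝ) ≤ (r : ℝ) ^ (1 - δ) := Real.one_le_rpow hrR (by linarith)
  have e3 : (r : ℝ) ^ (7 - δ) = (r : ℝ) ^ (1 - δ) * (r : ℝ) ^ 6 := by
    rw [← Real.rpow_natCast (r : ℝ) 6, ← Real.rpow_add hr0]
    congr 1
    push_cast
    ring
  rw [e1, e3]
  have e4 : (0 : ℝ) ≤ (r : ℝ) ^ 6 := by positivity
  nlinarith [mul_nonneg hk e4, mul_nonneg (mul_nonneg hk e4) (sub_nonneg.mpr e2)]

open scoped Classical in
theorem bdB (A : Fin 10 → ℤ) (hA : 1 ≤ A 1) (δ : ℝ) (hδ : 0 < δ) (hδ1 : δ ≤ 1) : ∃ C : ℝ, 0 ≤ C ∧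
    ∀ r : ℕ, 1 ≤ r → Nz A r →
    (((Bs A r).filter (fun b => ∃ l : ℕ, l.Prime ∧ l ≠ 2 ∧ (r : ℝ) ^ δ < l ∧ (l : ℤ) ∣ dV b ∧
      (l : ℤ) ∣ b 1 * (4 * Vf b + b 1 * v3 b ^ 2))).card : ℝ) ≤ C * (r : ℝ) ^ (7 - δ) := by
  set M := ((∑ j, (|A j| + 1) : ℤ) : ℝ) with hMdef
  have hM := BdB_M1 A
  rw [← hMdef] at hM
  set K := 20 * M ^ 5 with hKdef
  have hM5 : 1 ≤ M ^ 5 := one_le_pow₀ hM
  have hK : 1 ≤ K := by rw [hKdef]; linarith
  have hMK : M ≤ K := by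
    have : M ^ 1 ≤ M ^ 5 := pow_le_pow_right₀ hM (by norm_num)
    rw [pow_one] at this
    rw [hKdef]; linarith
  set k := (K + 3) / δ with hkdef
  have hk : 0 ≤ k := by rw [hkdef]; positivity
  refine ⟨8 * k + 2, by positivity, fun r hr hNz => ?_⟩
  have hrR : (1 : ℝ) ≤ r := by exact_mod_cast hr
  have hr0 : (0 : ℝ) < r := by linarith
  have hrr : (1 : ℝ) ≤ (r : ℝ) ^ (7 - δ) := Real.one_le_rpow hrR (by linarith)
  rcases Nat.lt_or_ge r 2 with hr2 | hr2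
  · -- `r = 1`
    have e : r = 1 := by omega
    have h1 : ((Bs A r).filter (fun b => ∃ l : ℕ, l.Prime ∧ l ≠ 2 ∧ (r : ℝ) ^ δ < l ∧ (l : ℤ) ∣ dV b ∧
      (l : ℤ) ∣ b 1 * (4 * Vf b + b 1 * v3 b ^ 2))).card ≤ 1 := by
      refine (Finset.card_filter_le _ _).trans ((Bs_card A r).trans ?_)
      rw [e]; norm_num
    have h2 : (((Bs A r).filter (fun b => ∃ l : ℕ, l.Prime ∧ l ≠ 2 ∧ (r : ℝ) ^ δ < l ∧ (l : ℤ) ∣ dV b ∧
      (l : ℤ) ∣ b 1 * (4 * Vf b + b 1 * v3 b ^ 2))).card : ℝ) ≤ 1 := by exact_mod_cast h1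
    nlinarith
  have hT1 : (1 : ℝ) ≤ (r : ℝ) ^ δ := Real.one_le_rpow hrR hδ.le
  set T := (r : ℝ) ^ δ with hT
  have hMr : ∀ n : ℤ, |(n : ℝ)| ≤ M * r → |(n : ℝ)| ≤ K * (r : ℝ) ^ 3 := by
    intro n hn
    refine hn.trans ?_
    have : (r : ℝ) ≤ (r : ℝ) ^ 3 := by
      have := pow_le_pow_right₀ hrR (by norm_num : 1 ≤ 3)
      rwa [pow_one] at this
    gcongr
  have hb1 : ∀ b ∈ Bs A r, b 1 ≠ 0 := by
    intro b hb
    have g1 := ((mem_Bs.mp hb).1 1 (by decide) (by decide) (by decide)).1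
    have : (1 : ℤ) ≤ r := by exact_mod_cast hr
    intro h0
    rw [h0] at g1
    nlinarith
  -- the five sets
  set Sa2 := (Bs A r).filter (fun b => ∃ l : ℕ, l ∈ BdB_L T (b 1) ∧ (l.Prime ∧ l ≠ 2 ∧ (l : ℤ) ∣ dV b ∧ ¬ (l : ℤ) ∣ b 0))
    with hSa2
  set Sa0 := (Bs A r).filter (fun b => ∃ l : ℕ, l ∈ BdB_L T (b 1) ∧ (l : ℤ) ∣ b 0) with hSa0
  set Sc := (Bs A r).filter (fun b => ∃ l : ℕ, l ∈ BdB_L T (b 0) ∧ (l : ℤ) ∣ b 4 + b 5) with hSc
  set Sb0 := (Bs A r).filter (fun b => BdB_P2 b = 0) with hSb0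
  set Sb2 := (Bs A r).filter (fun b => BdB_P2 b ≠ 0 ∧ ∃ l : ℕ, l ∈ BdB_L T (BdB_P2 b) ∧
    (l.Prime ∧ l ≠ 2 ∧ (l : ℤ) ∣ dV b ∧ ¬ (l : ℤ) ∣ b 0)) with hSb2
  have hsub : (Bs A r).filter (fun b => ∃ l : ℕ, l.Prime ∧ l ≠ 2 ∧ T < l ∧ (l : ℤ) ∣ dV b ∧
      (l : ℤ) ∣ b 1 * (4 * Vf b + b 1 * v3 b ^ 2)) ⊆ Sa2 ∪ (Sa0 ∪ (Sc ∪ (Sb0 ∪ Sb2))) := by
    intro b hb
    obtain ⟨hbB, l, hl, hl2, hTl, hdV, hd⟩ := Finset.mem_filter.mp hb
    have hlp : Prime (l : ℤ) := Nat.prime_iff_prime_int.mp hl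
    obtain ⟨hb0, hb7, -, -⟩ := hNz b hbB
    simp only [Finset.mem_union]
    by_cases c1 : (l : ℤ) ∣ b 1
    · by_cases c0 : (l : ℤ) ∣ b 0
      · right; left
        exact Finset.mem_filter.mpr ⟨hbB, l, BdB_memL (hb1 b hbB) hl hTl c1, c0⟩
      · left
        exact Finset.mem_filter.mpr ⟨hbB, l, BdB_memL (hb1 b hbB) hl hTl c1, hl, hl2, hdV, c0⟩
    by_cases c0 : (l : ℤ) ∣ b 0
    · right; right; left
      refine Finset.mem_filter.mpr ⟨hbB, l, BdB_memL hb0 hl hTl c0, ?_⟩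
      have h1 : (l : ℤ) ∣ (b 4 + b 5) ^ 2 := by
        have e : (b 4 + b 5) ^ 2 = dV b + b 0 * (4 * b 2) := by unfold dV; ring
        rw [e]
        exact dvd_add hdV (Dvd.dvd.mul_right c0 _)
      exact hlp.dvd_of_dvd_pow h1
    have h4 : (l : ℤ) ∣ 4 * Vf b + b 1 * v3 b ^ 2 := (hlp.dvd_or_dvd hd).resolve_left c1
    have hP : (l : ℤ) ∣ BdB_P2 b := by
      have e : BdB_P2 b = b 0 * (4 * Vf b + b 1 * v3 b ^ 2) + dV b * (vv (b 1, b 6, b 7)).2.1 ^ 2 := by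
        rw [BdB_id]; ring
      rw [e]
      exact dvd_add (Dvd.dvd.mul_left h4 _) (Dvd.dvd.mul_right hdV _)
    by_cases cP : BdB_P2 b = 0
    · right; right; right; left
      exact Finset.mem_filter.mpr ⟨hbB, cP⟩
    · right; right; right; right
      exact Finset.mem_filter.mpr ⟨hbB, cP, l, BdB_memL cP hl hTl hP, hl, hl2, hdV, c0⟩
  have hLT : ∀ n : ℤ, ∀ l ∈ BdB_L T n, T ≤ (l : ℝ) := by
    intro n l hl
    unfold BdB_L at hl
    exact (Finset.mem_filter.mp hl).2.le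
  -- `dV` puts `b 2` in one class
  have hcl2 : ∀ b b' : Fin 10 → ℤ, Function.update b' 2 0 = Function.update b 2 0 → ∀ l : ℕ,
      (l.Prime ∧ l ≠ 2 ∧ (l : ℤ) ∣ dV b ∧ ¬ (l : ℤ) ∣ b 0) →
      (l.Prime ∧ l ≠ 2 ∧ (l : ℤ) ∣ dV b' ∧ ¬ (l : ℤ) ∣ b' 0) → (l : ℤ) ∣ b 2 - b' 2 := by
    rintro b b' hu l ⟨hl, hl2, h1, h2⟩ ⟨-, -, h3, -⟩
    have hlp : Prime (l : ℤ) := Nat.prime_iff_prime_int.mp hl
    have e0 := BdB_agree hu (i := 0) (by decide)
    have e4 := BdB_agree hu (i := 4) (by decide)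
    have e5 := BdB_agree hu (i := 5) (by decide)
    have h5 : (l : ℤ) ∣ 4 * (b 0 * (b 2 - b' 2)) := by
      have e : 4 * (b 0 * (b 2 - b' 2)) = dV b' - dV b := by unfold dV; rw [e0, e4, e5]; ring
      rw [e]; exact dvd_sub h3 h1
    rcases hlp.dvd_or_dvd h5 with h6 | h6
    · exfalso
      have h7 : l ∣ 4 := by exact_mod_cast h6
      have h8 : l ∣ 2 := by
        have : l ∣ 2 ^ 2 := by norm_num; exact h7
        exact hl.dvd_of_dvd_pow this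
      exact hl2 ((Nat.prime_dvd_prime_iff_eq hl Nat.prime_two).mp h8)
    · exact (hlp.dvd_or_dvd h6).resolve_left h2
  have B1 : (Sa2.card : ℝ) ≤ 2 * k * (r : ℝ) ^ (7 - δ) := by
    refine le_trans ?_ (BdB_pow hδ1 hr hk)
    refine cla (j := 2) (by decide) (Finset.filter_subset _ _) hT1 hk (fun b => BdB_L T (b 1))
      (fun l b => l.Prime ∧ l ≠ 2 ∧ (l : ℤ) ∣ dV b ∧ ¬ (l : ℤ) ∣ b 0) ?_ ?_ ?_ ?_ ?_
    · intro b _ b' _ hu
      simp only [BdB_agree hu (i := 1) (by decide)]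
    · intro b hb
      have hbB := (Finset.mem_filter.mp hb).1
      exact BdB_cardL hδ hK hr2 (hb1 b hbB) (hMr _ (BdB_bd hbB 1))
    · intro b _ l hl
      exact hLT _ l hl
    · intro b hb
      exact (Finset.mem_filter.mp hb).2
    · intro b _ b' _ hu l _ h1 h2
      exact hcl2 b b' hu l h1 h2
  have B2 : (Sa0.card : ℝ) ≤ 2 * k * (r : ℝ) ^ (7 - δ) := by
    refine le_trans ?_ (BdB_pow hδ1 hr hk)
    refine cla (j := 0) (by decide) (Finset.filter_subset _ _) hT1 hk (fun b => BdB_L T (b 1))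
      (fun l b => (l : ℤ) ∣ b 0) ?_ ?_ ?_ ?_ ?_
    · intro b _ b' _ hu
      simp only [BdB_agree hu (i := 1) (by decide)]
    · intro b hb
      have hbB := (Finset.mem_filter.mp hb).1
      exact BdB_cardL hδ hK hr2 (hb1 b hbB) (hMr _ (BdB_bd hbB 1))
    · intro b _ l hl
      exact hLT _ l hl
    · intro b hb
      exact (Finset.mem_filter.mp hb).2
    · intro b _ b' _ hu l _ h1 h2
      exact dvd_sub h1 h2
  have B3 : (Sc.card : ℝ) ≤ 2 * k * (r : ℝ) ^ (7 - δ) := by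
    refine le_trans ?_ (BdB_pow hδ1 hr hk)
    refine cla (j := 5) (by decide) (Finset.filter_subset _ _) hT1 hk (fun b => BdB_L T (b 0))
      (fun l b => (l : ℤ) ∣ b 4 + b 5) ?_ ?_ ?_ ?_ ?_
    · intro b _ b' _ hu
      simp only [BdB_agree hu (i := 0) (by decide)]
    · intro b hb
      have hbB := (Finset.mem_filter.mp hb).1
      exact BdB_cardL hδ hK hr2 (hNz b hbB).1 (hMr _ (BdB_bd hbB 0))
    · intro b _ l hl
      exact hLT _ l hl
    · intro b hb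
      exact (Finset.mem_filter.mp hb).2
    · intro b _ b' _ hu l _ h1 h2
      have e4 := BdB_agree hu (i := 4) (by decide)
      have e : b 5 - b' 5 = b 4 + b 5 - (b' 4 + b' 5) := by rw [e4]; ring
      rw [e]
      exact dvd_sub h1 h2
  have B5 : (Sb2.card : ℝ) ≤ 2 * k * (r : ℝ) ^ (7 - δ) := by
    refine le_trans ?_ (BdB_pow hδ1 hr hk)
    refine cla (j := 2) (by decide) (Finset.filter_subset _ _) hT1 hk (fun b => BdB_L T (BdB_P2 b))
      (fun l b => l.Prime ∧ l ≠ 2 ∧ (l : ℤ) ∣ dV b ∧ ¬ (l : ℤ) ∣ b 0) ?_ ?_ ?_ ?_ ?_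
    · intro b _ b' _ hu
      have e : BdB_P2 b' = BdB_P2 b := by
        unfold BdB_P2
        rw [BdB_agree hu (i := 0) (by decide), BdB_agree hu (i := 1) (by decide),
          BdB_agree hu (i := 4) (by decide), BdB_agree hu (i := 5) (by decide),
          BdB_agree hu (i := 6) (by decide), BdB_agree hu (i := 7) (by decide)]
      simp only [e]
    · intro b hb
      have hbB := Finset.mem_filter.mp hb
      exact BdB_cardL hδ hK hr2 hbB.2.1 (BdB_P2bd hA hr hbB.1)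
    · intro b _ l hl
      exact hLT _ l hl
    · intro b hb
      exact (Finset.mem_filter.mp hb).2.2
    · intro b _ b' _ hu l _ h1 h2
      exact hcl2 b b' hu l h1 h2
  have B4 : (Sb0.card : ℝ) ≤ 2 * (r : ℝ) ^ (7 - δ) := by
    have h6 : (r : ℝ) ^ 6 ≤ (r : ℝ) ^ (7 - δ) := by
      rw [← Real.rpow_natCast (r : ℝ) 6]
      exact Real.rpow_le_rpow_of_exponent_le hrR (by push_cast; linarith)
    refine le_trans (ln6 (j := 0) (by decide) (Finset.filter_subset _ _) (m := 2) (by norm_num) ?_)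
      (mul_le_mul_of_nonneg_left h6 (by norm_num))
    intro b hb
    obtain ⟨hbB, hP0⟩ := Finset.mem_filter.mp hb
    set F := Sb0.filter (fun b' => Function.update b' 0 0 = Function.update b 0 0) with hF
    have hinj : Set.InjOn (fun b' : Fin 10 → ℤ => b' 0) (F : Set (Fin 10 → ℤ)) := by
      intro x hx y hy hxy
      have hx2 := (Finset.mem_filter.mp (Finset.mem_coe.mp hx)).2
      have hy2 := (Finset.mem_filter.mp (Finset.mem_coe.mp hy)).2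
      funext i
      by_cases hi : i = 0
      · rw [hi]; exact hxy
      · rw [BdB_agree hx2 hi, BdB_agree hy2 hi]
    have hcard : (F.image (fun b' : Fin 10 → ℤ => b' 0)).card = F.card := Finset.card_image_of_injOn hinj
    have g1 := ((mem_Bs.mp hbB).1 1 (by decide) (by decide) (by decide)).1
    have hb1' : 1 ≤ b 1 := by
      have : (1 : ℤ) ≤ r := by exact_mod_cast hr
      nlinarith
    obtain ⟨w1, w2, w3, w4, w5⟩ := vsp (t := (b 1, b 6, b 7)) hb1'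
    have hb7 := (hNz b hbB).2.1
    have h2 : (F.image (fun b' : Fin 10 → ℤ => b' 0)).card ≤ 2 := by
      refine BdB_quad _ (4 * (vv (b 1, b 6, b 7)).2.2 ^ 2)
        (b 1 * (vv (b 1, b 6, b 7)).1 ^ 2 - 4 * (b 4 + b 5) * (vv (b 1, b 6, b 7)).2.1 * (vv (b 1, b 6, b 7)).2.2)
        (((b 4 + b 5) * (vv (b 1, b 6, b 7)).2.1) ^ 2) ?_ ?_
      · rintro ⟨z1, z2⟩
        set v := vv (b 1, b 6, b 7) with hv
        simp only at w1 w2
        have z3 : v.2.2 = 0 := by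
          have : v.2.2 ^ 2 = 0 := by linarith
          exact pow_eq_zero_iff (two_ne_zero) |>.mp this
        have z4 : v.2.1 ≠ 0 := fun h => w2 ⟨h, z3⟩
        rw [z3] at z2 w1
        have z5 : v.1 = 0 := by
          have h1 : b 1 * v.1 ^ 2 = 0 := by linear_combination z2
          rcases mul_eq_zero.mp h1 with h | h
          · omega
          · exact pow_eq_zero_iff (two_ne_zero) |>.mp h
        rw [z5] at w1
        have h1 : b 7 * v.2.1 = 0 := by linear_combination -w1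
        rcases mul_eq_zero.mp h1 with h | h
        · exact hb7 h
        · exact z4 h
      · intro t ht
        obtain ⟨b', hb', rfl⟩ := Finset.mem_image.mp ht
        obtain ⟨hb'1, hb'2⟩ := Finset.mem_filter.mp hb'
        have hP := (Finset.mem_filter.mp hb'1).2
        unfold BdB_P2 at hP
        rw [BdB_agree hb'2 (i := 1) (by decide), BdB_agree hb'2 (i := 4) (by decide),
          BdB_agree hb'2 (i := 5) (by decide), BdB_agree hb'2 (i := 6) (by decide),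
          BdB_agree hb'2 (i := 7) (by decide)] at hP
        linear_combination hP
    rw [hcard] at h2
    exact_mod_cast h2
  have hcardN : ((Bs A r).filter (fun b => ∃ l : ℕ, l.Prime ∧ l ≠ 2 ∧ T < l ∧ (l : ℤ) ∣ dV b ∧
      (l : ℤ) ∣ b 1 * (4 * Vf b + b 1 * v3 b ^ 2))).card ≤
      Sa2.card + (Sa0.card + (Sc.card + (Sb0.card + Sb2.card))) := by
    refine (Finset.card_le_card hsub).trans ?_
    refine (Finset.card_union_le _ _).trans (Nat.add_le_add_left ?_ _)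
    refine (Finset.card_union_le _ _).trans (Nat.add_le_add_left ?_ _)
    refine (Finset.card_union_le _ _).trans (Nat.add_le_add_left ?_ _)
    exact Finset.card_union_le _ _
  have hcardR : (((Bs A r).filter (fun b => ∃ l : ℕ, l.Prime ∧ l ≠ 2 ∧ T < l ∧ (l : ℤ) ∣ dV b ∧
      (l : ℤ) ∣ b 1 * (4 * Vf b + b 1 * v3 b ^ 2))).card : ℝ) ≤
      Sa2.card + (Sa0.card + (Sc.card + (Sb0.card + Sb2.card))) := by exact_mod_cast hcardN
  linarith

end Pool.Agent.PP5LB
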