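import Pool.Agent.PP5LB.BdA
import Pool.Agent.PP5LB.BdB

set_option autoImplicit false

/-!
# Big: removal at the large primes `l > T = r^δ` (size 4)

PROOF. `T = r^δ`, `δ ≤ 1/2`, so `√(A1+1) √r ≤ C r^(1-δ)`.
(bgA) By `card_le_sum` it suffices to bound `∑_b #{z ∈ Fb A r b : ∃ l > T, l ∣ EE b, l ∣ MM (up b z)}` (`EE_up`).  Bad bases
(`bdA`): at most `C r^(7-δ)`, each with `≤ 8 r` points (`Fb_card`).  Other bases (`≤ r⁷`, `Bs_card`): `EE b ≠ 0` (`Nz`) has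
at most `C/δ` prime factors `> T` (`ppf`); for each of them `l ∤ Vf b` and `lin` applies with `t = (b1,b6,b7)`, `v = vv t`
(`vsp`), `N = b0 b2 - b4 b5`, `f p q s = MM` with `x3 = p, x8 = q, x9 = s`, i.e.
`p dV b - b0 s² + (b4+b5) q s - b2 q²`, whose `n²`-coefficient along `v` is `-Vf b`: at most `6 (r/T + √x1) ≤ C r^(1-δ)`.
(bgB) The same with `dV b ≠ 0`, `f = DD` (`DD_expl`), `n²`-coefficient
`4 b1 V + (b7 v8 - b6 v9)² = b1 (4 V + b1 v3²)` (`b1 v3 = b7 v8 - b6 v9`): `bdB`.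
(bgC) `l ∣ x0, x2, x4+x5`, `l > T`: `x0 ≠ 0`, so `l ≤ |x0| ≤ C r`; for each `l` the number of the bases is at most
`(r/l+1)³ r⁴ ≤ (C' r/l)³ r⁴` (`ap_card`); sum over `l > T`: `C r⁷ T^(-2)`; times `8 r`.
-/

namespace Pool.Agent.PP5LB

open Finset Pool.Agent.PP5L

private theorem Big_sz {A : Fin 10 → ℤ} {r : ℕ} {b : Fin 10 → ℤ} (hb : b ∈ Bs A r) (j : Fin 10) :
    |b j| ≤ BB A * r := by
  rw [mem_Bs] at hb
  have h4 := BB_pos A j
  have hr : (0 : ℤ) ≤ r := by positivity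
  have h0 : 0 ≤ BB A := by linarith [abs_nonneg (A j)]
  by_cases h3 : j = 3
  · rw [h3, hb.2.1, abs_zero]; positivity
  by_cases h8 : j = 8
  · rw [h8, hb.2.2.1, abs_zero]; positivity
  by_cases h9 : j = 9
  · rw [h9, hb.2.2.2.1, abs_zero]; positivity
  obtain ⟨h5, h6⟩ := hb.1 j h3 h8 h9
  rw [abs_le]
  constructor
  · nlinarith [neg_abs_le (A j), abs_nonneg (A j)]
  · nlinarith [le_abs_self (A j), abs_nonneg (A j)]

private theorem Big_szR {A : Fin 10 → ℤ} {r : ℕ} {b : Fin 10 → ℤ} (hb : b ∈ Bs A r) (j : Fin 10) :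
    |(b j : ℝ)| ≤ BB A * r := by
  have h := Big_sz hb j
  have h2 : ((|b j| : ℤ) : ℝ) ≤ ((BB A * r : ℤ) : ℝ) := by exact_mod_cast h
  rw [Int.cast_abs] at h2
  push_cast at h2
  exact h2

private theorem Big_b1 {A : Fin 10 → ℤ} (hA : 1 ≤ A 1) {r : ℕ} {b : Fin 10 → ℤ} (hb : b ∈ Bs A r) :
    (r : ℤ) ≤ b 1 := by
  rw [mem_Bs] at hb
  have h := (hb.1 1 (by decide) (by decide) (by decide)).1
  have hr : (0 : ℤ) ≤ r := by positivity
  nlinarith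

private theorem Big_BB (A : Fin 10 → ℤ) : (4 : ℝ) ≤ BB A := by
  have h := BB_pos A 0
  have h2 := abs_nonneg (A 0)
  have h3 : (4 : ℤ) ≤ BB A := by linarith
  exact_mod_cast h3

open scoped Classical in
private theorem Big_gen (A : Fin 10 → ℤ) (hA : 1 ≤ A 1) (δ : ℝ) (hδ : 0 < δ) (hδ1 : δ ≤ 1 / 2)
    (G H : (Fin 10 → ℤ) → ℤ) (Q : ℕ → (Fin 10 → ℤ) → Prop)
    (hG : ∀ (b : Fin 10 → ℤ) (z : ℤ × ℤ), G (up b z) = G b)
    (K : ℝ) (hK : ∀ r : ℕ, 1 ≤ r → ∀ b ∈ Bs A r, |(G b : ℝ)| ≤ K * (r : ℝ) ^ 3)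
    (C1 : ℝ) (hC1 : 0 ≤ C1)
    (hbad : ∀ r : ℕ, 1 ≤ r → Nz A r →
      (((Bs A r).filter (fun b => ∃ l : ℕ, l.Prime ∧ l ≠ 2 ∧ (r : ℝ) ^ δ < l ∧ (l : ℤ) ∣ G b ∧
        Q l b)).card : ℝ) ≤ C1 * (r : ℝ) ^ (7 - δ))
    (hgood : ∀ r : ℕ, 1 ≤ r → ∀ b ∈ Bs A r, ∀ l : ℕ, l.Prime → l ≠ 2 → ¬ Q l b →
      (((Fb A r b).filter (fun z => (l : ℤ) ∣ H (up b z))).card : ℝ) ≤
        6 * ((r : ℝ) / l + √(b 1 : ℝ)))
    (hGne : ∀ r : ℕ, Nz A r → ∀ b ∈ Bs A r, G b ≠ 0) :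
    ∃ C : ℝ, 0 ≤ C ∧ ∀ r : ℕ, 1 ≤ r → Nz A r →
    (((XA A r).filter (fun x => ∃ l : ℕ, l.Prime ∧ l ≠ 2 ∧ (r : ℝ) ^ δ < l ∧ (l : ℤ) ∣ G x ∧
      (l : ℤ) ∣ H x)).card : ℝ) ≤ C * (r : ℝ) ^ (8 - δ) := by
  obtain ⟨n, hn⟩ := pow_unbounded_of_one_lt K (one_lt_two)
  have hBB := Big_BB A
  set B : ℝ := (n : ℝ) + 3 with hB
  have hB0 : 0 ≤ B := by positivity
  have hE0 : 0 ≤ (B / δ) * (6 * (1 + √(BB A : ℝ))) := by positivity
  refine ⟨8 + 8 * C1 + (B / δ) * (6 * (1 + √(BB A : ℝ))), by positivity, ?_⟩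
  intro r hr hNz
  have hrR : (1 : ℝ) ≤ r := by exact_mod_cast hr
  have hr0 : (0 : ℝ) < r := by linarith
  have hle := card_le_sum hA hr (fun x => ∃ l : ℕ, l.Prime ∧ l ≠ 2 ∧ (r : ℝ) ^ δ < l ∧
    (l : ℤ) ∣ G x ∧ (l : ℤ) ∣ H x)
  set Tm : (Fin 10 → ℤ) → Finset (ℤ × ℤ) := fun b => (Fb A r b).filter (fun z =>
    ∃ l : ℕ, l.Prime ∧ l ≠ 2 ∧ (r : ℝ) ^ δ < l ∧ (l : ℤ) ∣ G (up b z) ∧ (l : ℤ) ∣ H (up b z)) with hTm
  have hle' : (((XA A r).filter (fun x => ∃ l : ℕ, l.Prime ∧ l ≠ 2 ∧ (r : ℝ) ^ δ < l ∧ (l : ℤ) ∣ G x ∧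
      (l : ℤ) ∣ H x)).card : ℝ) ≤ ∑ b ∈ Bs A r, ((Tm b).card : ℝ) := by
    have h2 : ((((XA A r).filter (fun x => ∃ l : ℕ, l.Prime ∧ l ≠ 2 ∧ (r : ℝ) ^ δ < l ∧ (l : ℤ) ∣ G x ∧
      (l : ℤ) ∣ H x)).card : ℕ) : ℝ) ≤ ((∑ b ∈ Bs A r, (Tm b).card : ℕ) : ℝ) := by
      exact_mod_cast hle
    rw [Nat.cast_sum] at h2
    exact h2
  have hTm8 : ∀ b ∈ Bs A r, ((Tm b).card : ℝ) ≤ 8 * r := by
    intro b hb
    have h1 : (Tm b).card ≤ 8 * r := (card_filter_le _ _).trans (Fb_card hA hr hb)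
    exact_mod_cast h1
  have hBsc : ((Bs A r).card : ℝ) ≤ (r : ℝ) ^ 7 := by exact_mod_cast Bs_card A r
  have hrpow0 : 0 ≤ (r : ℝ) ^ (8 - δ) := by positivity
  rcases Nat.lt_or_ge r 2 with hr2 | hr2
  · have hr1 : r = 1 := by omega
    have h3 : ∑ b ∈ Bs A r, ((Tm b).card : ℝ) ≤ 8 := by
      calc ∑ b ∈ Bs A r, ((Tm b).card : ℝ) ≤ ∑ _b ∈ Bs A r, (8 * (r : ℝ)) := sum_le_sum hTm8
        _ = (Bs A r).card * (8 * r) := by rw [sum_const, nsmul_eq_mul]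
        _ ≤ (r : ℝ) ^ 7 * (8 * r) := mul_le_mul_of_nonneg_right hBsc (by positivity)
        _ = 8 := by rw [hr1]; norm_num
    have h4 : (r : ℝ) ^ (8 - δ) = 1 := by rw [hr1]; simp
    rw [h4, mul_one]
    have : 0 ≤ 8 * C1 := by positivity
    linarith
  · -- the number of the large prime factors
    have hGB : ∀ b ∈ Bs A r, |(G b : ℝ)| ≤ (r : ℝ) ^ B := by
      intro b hb
      have h1 := hK r hr b hb
      have h2 : K ≤ (r : ℝ) ^ n := by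
        have h3 : (2 : ℝ) ^ n ≤ (r : ℝ) ^ n := by
          apply pow_le_pow_left₀ (by norm_num)
          exact_mod_cast hr2
        linarith
      calc |(G b : ℝ)| ≤ K * (r : ℝ) ^ 3 := h1
        _ ≤ (r : ℝ) ^ n * (r : ℝ) ^ 3 := mul_le_mul_of_nonneg_right h2 (by positivity)
        _ = (r : ℝ) ^ (n + 3) := by rw [pow_add]
        _ = (r : ℝ) ^ B := by
            rw [hB, ← Real.rpow_natCast]
            push_cast
            rfl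
    set E : ℝ := (B / δ) * (6 * (1 + √(BB A : ℝ))) * (r : ℝ) ^ (1 - δ) with hE
    set Bad := (Bs A r).filter (fun b => ∃ l : ℕ, l.Prime ∧ l ≠ 2 ∧ (r : ℝ) ^ δ < l ∧ (l : ℤ) ∣ G b ∧
        Q l b) with hBad
    have hgd : ∀ b ∈ Bs A r, b ∉ Bad → ((Tm b).card : ℝ) ≤ E := by
      intro b hb hnb
      have hQ : ∀ l : ℕ, l.Prime → l ≠ 2 → (r : ℝ) ^ δ < l → (l : ℤ) ∣ G b → ¬ Q l b := by
        intro l h1 h2 h3 h4 h5
        exact hnb (by rw [hBad, mem_filter]; exact ⟨hb, l, h1, h2, h3, h4, h5⟩)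
      have hGb : G b ≠ 0 := hGne r hNz b hb
      set L := ((G b).natAbs.primeFactors.filter (fun l : ℕ => (r : ℝ) ^ δ < (l : ℝ))).filter
        (fun l => l ≠ 2) with hL
      have hLc : (L.card : ℝ) ≤ B / δ := by
        have h1 := ppf hδ hB0 hr2 hGb (hGB b hb)
        have h2 : L.card ≤ ((G b).natAbs.primeFactors.filter (fun l : ℕ => (r : ℝ) ^ δ < (l : ℝ))).card :=
          card_filter_le _ _
        have h3 : (L.card : ℝ) ≤
            (((G b).natAbs.primeFactors.filter (fun l : ℕ => (r : ℝ) ^ δ < (l : ℝ))).card : ℝ) := by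
          exact_mod_cast h2
        exact h3.trans h1
      have hsub : Tm b ⊆ L.biUnion (fun l => (Fb A r b).filter (fun z => (l : ℤ) ∣ H (up b z))) := by
        intro z hz
        rw [hTm] at hz
        simp only [mem_filter] at hz
        obtain ⟨hz1, l, h1, h2, h3, h4, h5⟩ := hz
        rw [hG] at h4
        rw [mem_biUnion]
        refine ⟨l, ?_, ?_⟩
        · rw [hL, mem_filter, mem_filter, Nat.mem_primeFactors]
          exact ⟨⟨⟨h1, by rwa [← Int.natCast_dvd], by simpa using hGb⟩, h3⟩, h2⟩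
        · rw [mem_filter]; exact ⟨hz1, h5⟩
      have hterm : ∀ l ∈ L, (((Fb A r b).filter (fun z => (l : ℤ) ∣ H (up b z))).card : ℝ) ≤
          6 * (1 + √(BB A : ℝ)) * (r : ℝ) ^ (1 - δ) := by
        intro l hl
        rw [hL, mem_filter, mem_filter, Nat.mem_primeFactors] at hl
        obtain ⟨⟨⟨h1, h4, _⟩, h3⟩, h2⟩ := hl
        have h4' : (l : ℤ) ∣ G b := by rwa [Int.natCast_dvd]
        have h6 := hgood r hr b hb l h1 h2 (hQ l h1 h2 h3 h4')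
        have hlpos : (0 : ℝ) < l := by exact_mod_cast h1.pos
        have hrd : (0 : ℝ) < (r : ℝ) ^ δ := Real.rpow_pos_of_pos hr0 δ
        have h7 : (r : ℝ) / l ≤ (r : ℝ) ^ (1 - δ) := by
          rw [Real.rpow_sub hr0, Real.rpow_one]
          exact div_le_div_of_nonneg_left hr0.le hrd h3.le
        have h8 : √(b 1 : ℝ) ≤ √(BB A : ℝ) * (r : ℝ) ^ (1 - δ) := by
          have h9 : (b 1 : ℝ) ≤ BB A * r := (le_abs_self _).trans (Big_szR hb 1)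
          calc √(b 1 : ℝ) ≤ √((BB A : ℝ) * r) := Real.sqrt_le_sqrt h9
            _ = √(BB A : ℝ) * √(r : ℝ) := Real.sqrt_mul (by linarith) _
            _ = √(BB A : ℝ) * (r : ℝ) ^ (1 / 2 : ℝ) := by rw [Real.sqrt_eq_rpow (r : ℝ)]
            _ ≤ √(BB A : ℝ) * (r : ℝ) ^ (1 - δ) := by
                apply mul_le_mul_of_nonneg_left _ (Real.sqrt_nonneg _)
                exact Real.rpow_le_rpow_of_exponent_le hrR (by linarith)
        have h10 : 6 * ((r : ℝ) / l + √(b 1 : ℝ)) ≤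
            6 * (1 + √(BB A : ℝ)) * (r : ℝ) ^ (1 - δ) := by linarith
        exact h6.trans h10
      have h11 : ((Tm b).card : ℝ) ≤
          ∑ l ∈ L, (((Fb A r b).filter (fun z => (l : ℤ) ∣ H (up b z))).card : ℝ) := by
        have h12 := (card_le_card hsub).trans card_biUnion_le
        exact_mod_cast h12
      have hnn : 0 ≤ 6 * (1 + √(BB A : ℝ)) * (r : ℝ) ^ (1 - δ) := by positivity
      calc ((Tm b).card : ℝ) ≤
          ∑ l ∈ L, (((Fb A r b).filter (fun z => (l : ℤ) ∣ H (up b z))).card : ℝ) := h11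
        _ ≤ ∑ _l ∈ L, (6 * (1 + √(BB A : ℝ)) * (r : ℝ) ^ (1 - δ)) := sum_le_sum hterm
        _ = L.card * (6 * (1 + √(BB A : ℝ)) * (r : ℝ) ^ (1 - δ)) := by rw [sum_const, nsmul_eq_mul]
        _ ≤ (B / δ) * (6 * (1 + √(BB A : ℝ)) * (r : ℝ) ^ (1 - δ)) :=
            mul_le_mul_of_nonneg_right hLc hnn
        _ = E := by rw [hE]; ring
    have hE0' : 0 ≤ E := by rw [hE]; positivity
    have hall : ∀ b ∈ Bs A r, ((Tm b).card : ℝ) ≤ (if b ∈ Bad then 8 * (r : ℝ) else 0) + E := by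
      intro b hb
      by_cases h : b ∈ Bad
      · rw [if_pos h]; linarith [hTm8 b hb]
      · rw [if_neg h]; linarith [hgd b hb h]
    have hsumBad : ∑ b ∈ Bs A r, (if b ∈ Bad then 8 * (r : ℝ) else 0) = Bad.card * (8 * r) := by
      rw [← sum_filter, sum_const, nsmul_eq_mul]
      congr 2
      congr 1
      ext b
      rw [mem_filter]
      constructor
      · exact fun h => h.2
      · intro h
        exact ⟨(mem_filter.mp (by rwa [hBad] at h)).1, h⟩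
    have hbad' := hbad r hr hNz
    have e1 : (r : ℝ) ^ (7 - δ) * r = (r : ℝ) ^ (8 - δ) := by
      have : (8 : ℝ) - δ = (7 - δ) + 1 := by ring
      rw [this, Real.rpow_add hr0, Real.rpow_one]
    have e2 : (r : ℝ) ^ 7 * (r : ℝ) ^ (1 - δ) = (r : ℝ) ^ (8 - δ) := by
      have : (8 : ℝ) - δ = ((7 : ℕ) : ℝ) + (1 - δ) := by push_cast; ring
      rw [this, Real.rpow_add hr0, Real.rpow_natCast]
    have hfin : ∑ b ∈ Bs A r, ((Tm b).card : ℝ) ≤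
        8 * C1 * (r : ℝ) ^ (8 - δ) + (B / δ) * (6 * (1 + √(BB A : ℝ))) * (r : ℝ) ^ (8 - δ) := by
      calc ∑ b ∈ Bs A r, ((Tm b).card : ℝ)
          ≤ ∑ b ∈ Bs A r, ((if b ∈ Bad then 8 * (r : ℝ) else 0) + E) := sum_le_sum hall
        _ = Bad.card * (8 * r) + (Bs A r).card * E := by
            rw [sum_add_distrib, hsumBad, sum_const, nsmul_eq_mul]
        _ ≤ (C1 * (r : ℝ) ^ (7 - δ)) * (8 * r) + (r : ℝ) ^ 7 * E := by
            apply add_le_add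
            · exact mul_le_mul_of_nonneg_right hbad' (by positivity)
            · exact mul_le_mul_of_nonneg_right hBsc hE0'
        _ = 8 * C1 * ((r : ℝ) ^ (7 - δ) * r) +
            (B / δ) * (6 * (1 + √(BB A : ℝ))) * ((r : ℝ) ^ 7 * (r : ℝ) ^ (1 - δ)) := by
            rw [hE]; ring
        _ = _ := by rw [e1, e2]
    have h8 : 0 ≤ 8 * (r : ℝ) ^ (8 - δ) := by positivity
    calc _ ≤ ∑ b ∈ Bs A r, ((Tm b).card : ℝ) := hle'
      _ ≤ 8 * C1 * (r : ℝ) ^ (8 - δ) + (B / δ) * (6 * (1 + √(BB A : ℝ))) * (r : ℝ) ^ (8 - δ) := hfin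
      _ ≤ _ := by linarith

/-- the fibre bound from `lin` -/
private theorem Big_fib {A : Fin 10 → ℤ} (hA : 1 ≤ A 1) {r : ℕ} (hr : 1 ≤ r) {b : Fin 10 → ℤ}
    (hb : b ∈ Bs A r) {l : ℕ} (hl : l.Prime) (H : (Fin 10 → ℤ) → ℤ) (f : ℤ → ℤ → ℤ → ℤ) {α : ℤ}
    (hfH : ∀ z : ℤ × ℤ, H (up b z) = f ((b 0 * b 2 - b 4 * b 5 - b 6 * z.2 + b 7 * z.1) / b 1) z.1 z.2)
    (hα : ¬ (l : ℤ) ∣ α)
    (hf : ∀ p q s : ℤ, ∃ β : ℤ, ∀ n : ℤ,
      f (p + n * (vv (b 1, b 6, b 7)).1) (q + n * (vv (b 1, b 6, b 7)).2.1)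
        (s + n * (vv (b 1, b 6, b 7)).2.2) = f p q s + β * n + α * n ^ 2) :
    (((Fb A r b).filter (fun z => (l : ℤ) ∣ H (up b z))).card : ℝ) ≤
      6 * ((r : ℝ) / l + √(b 1 : ℝ)) := by
  have hb1 := Big_b1 hA hb
  have hrz : (1 : ℤ) ≤ r := by exact_mod_cast hr
  have hU : Uni b := (mem_Bs.mp hb).2.2.2.2
  have hvsp : Vsp (b 1, b 6, b 7) (vv (b 1, b 6, b 7)) := vsp (by simp only; linarith)
  have h := lin hvsp hU hr (by simp only; exact hb1) (b 0 * b 2 - b 4 * b 5) (A 8 * r) (A 9 * r) hl f hα hf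
  refine le_trans ?_ h
  have hsub : (Fb A r b).filter (fun z => (l : ℤ) ∣ H (up b z)) ⊆
      (Ico (A 8 * r) (A 8 * r + r) ×ˢ Ico (A 9 * r) (A 9 * r + r)).filter (fun z : ℤ × ℤ =>
      b 1 ∣ (b 0 * b 2 - b 4 * b 5) - b 6 * z.2 + b 7 * z.1 ∧
      (l : ℤ) ∣ f (((b 0 * b 2 - b 4 * b 5) - b 6 * z.2 + b 7 * z.1) / b 1) z.1 z.2) := by
    intro z hz
    rw [mem_filter] at hz
    obtain ⟨hz1, hz2⟩ := hz
    unfold Fb at hz1
    rw [mem_filter, mem_product, mem_Ico, mem_Ico] at hz1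
    rw [mem_filter, mem_product, mem_Ico, mem_Ico]
    refine ⟨⟨⟨hz1.1.1.1, by linarith [hz1.1.1.2]⟩, ⟨hz1.1.2.1, by linarith [hz1.1.2.2]⟩⟩, hz1.2, ?_⟩
    rw [hfH] at hz2
    exact hz2
  exact_mod_cast card_le_card hsub

open scoped Classical in
theorem bgA (A : Fin 10 → ℤ) (hA : 1 ≤ A 1) (δ : ℝ) (hδ : 0 < δ) (hδ1 : δ ≤ 1 / 2) : ∃ C : ℝ, 0 ≤ C ∧
    ∀ r : ℕ, 1 ≤ r → Nz A r →
    (((XA A r).filter (fun x => ∃ l : ℕ, l.Prime ∧ l ≠ 2 ∧ (r : ℝ) ^ δ < l ∧ (l : ℤ) ∣ EE x ∧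
      (l : ℤ) ∣ MM x)).card : ℝ) ≤ C * (r : ℝ) ^ (8 - δ) := by
  obtain ⟨C1, hC1, hbd⟩ := bdA A hA δ hδ (by linarith)
  refine Big_gen A hA δ hδ hδ1 EE MM (fun l b => (l : ℤ) ∣ Vf b) EE_up (12 * (BB A : ℝ) ^ 3) ?_ C1 hC1
    hbd ?_ (fun r hNz b hb => (hNz b hb).2.2.1)
  · intro r hr b hb
    set k : ℝ := BB A * r with hk
    have hk0 : 0 ≤ k := (abs_nonneg _).trans (Big_szR hb 0)
    have m2 : ∀ i j : Fin 10, |(b i : ℝ) * b j| ≤ k ^ 2 := by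
      intro i j
      rw [abs_mul, sq]
      exact mul_le_mul (Big_szR hb i) (Big_szR hb j) (abs_nonneg _) hk0
    have m3 : ∀ i j m : Fin 10, |(b i : ℝ) * b j * b m| ≤ k ^ 3 := by
      intro i j m
      rw [abs_mul, pow_succ]
      exact mul_le_mul (m2 i j) (Big_szR hb m) (abs_nonneg _) (by positivity)
    have e : ((EE b : ℤ) : ℝ) = (b 1 : ℝ) * b 4 * b 4 + 2 * ((b 1 : ℝ) * b 4 * b 5) + (b 1 : ℝ) * b 5 * b 5
        - 4 * ((b 1 : ℝ) * b 0 * b 2) - (b 0 : ℝ) * b 7 * b 7 + (b 4 : ℝ) * b 6 * b 7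
        + (b 5 : ℝ) * b 6 * b 7 - (b 2 : ℝ) * b 6 * b 6 := by
      unfold EE dV
      push_cast
      ring
    have a1 := abs_le.mp (m3 1 4 4)
    have a2 := abs_le.mp (m3 1 4 5)
    have a3 := abs_le.mp (m3 1 5 5)
    have a4 := abs_le.mp (m3 1 0 2)
    have a5 := abs_le.mp (m3 0 7 7)
    have a6 := abs_le.mp (m3 4 6 7)
    have a7 := abs_le.mp (m3 5 6 7)
    have a8 := abs_le.mp (m3 2 6 6)
    have h12 : |((EE b : ℤ) : ℝ)| ≤ 12 * k ^ 3 := by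
      rw [e, abs_le]
      constructor
      · linarith [a1.1, a2.1, a3.1, a4.2, a5.2, a6.1, a7.1, a8.2]
      · linarith [a1.2, a2.2, a3.2, a4.1, a5.1, a6.2, a7.2, a8.1]
    calc |((EE b : ℤ) : ℝ)| ≤ 12 * k ^ 3 := h12
      _ = 12 * (BB A : ℝ) ^ 3 * (r : ℝ) ^ 3 := by rw [hk]; ring
  · intro r hr b hb l hl _ hQ
    refine Big_fib hA hr hb hl MM
      (fun p q s => p * dV b - b 0 * s ^ 2 + (b 4 + b 5) * q * s - b 2 * q ^ 2) (α := -Vf b) ?_ ?_ ?_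
    · intro z
      have h3 : up b z 3 = (b 0 * b 2 - b 4 * b 5 - b 6 * z.2 + b 7 * z.1) / b 1 := by simp [up]
      have h8 : up b z 8 = z.1 := by simp [up]
      have h9 : up b z 9 = z.2 := by simp [up]
      have h0 : up b z 0 = b 0 := by simp [up]
      have h2 : up b z 2 = b 2 := by simp [up]
      have h4 : up b z 4 = b 4 := by simp [up]
      have h5 : up b z 5 = b 5 := by simp [up]
      show MM (up b z) = _
      unfold MM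
      rw [h3, h8, h9, h0, h2, h4, h5, dV_up]
    · rw [dvd_neg]; exact hQ
    · intro p q s
      set v := vv (b 1, b 6, b 7) with hv
      refine ⟨dV b * v.1 - 2 * b 0 * s * v.2.2 + (b 4 + b 5) * (q * v.2.2 + s * v.2.1)
        - 2 * b 2 * q * v.2.1, fun n => ?_⟩
      unfold Vf Vq
      rw [← hv]
      ring

open scoped Classical in
theorem bgB (A : Fin 10 → ℤ) (hA : 1 ≤ A 1) (δ : ℝ) (hδ : 0 < δ) (hδ1 : δ ≤ 1 / 2) : ∃ C : ℝ, 0 ≤ C ∧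
    ∀ r : ℕ, 1 ≤ r → Nz A r →
    (((XA A r).filter (fun x => ∃ l : ℕ, l.Prime ∧ l ≠ 2 ∧ (r : ℝ) ^ δ < l ∧ (l : ℤ) ∣ dV x ∧
      (l : ℤ) ∣ DD x)).card : ℝ) ≤ C * (r : ℝ) ^ (8 - δ) := by
  obtain ⟨C1, hC1, hbd⟩ := bdB A hA δ hδ (by linarith)
  refine Big_gen A hA δ hδ hδ1 dV DD (fun l b => (l : ℤ) ∣ b 1 * (4 * Vf b + b 1 * v3 b ^ 2)) dV_up
    (8 * (BB A : ℝ) ^ 2) ?_ C1 hC1 hbd ?_ (fun r hNz b hb => (hNz b hb).2.2.2)
  · intro r hr b hb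
    have hrR : (1 : ℝ) ≤ r := by exact_mod_cast hr
    set k : ℝ := BB A * r with hk
    have hk0 : 0 ≤ k := (abs_nonneg _).trans (Big_szR hb 0)
    have m2 : ∀ i j : Fin 10, |(b i : ℝ) * b j| ≤ k ^ 2 := by
      intro i j
      rw [abs_mul, sq]
      exact mul_le_mul (Big_szR hb i) (Big_szR hb j) (abs_nonneg _) hk0
    have e : ((dV b : ℤ) : ℝ) = (b 4 : ℝ) * b 4 + 2 * ((b 4 : ℝ) * b 5) + (b 5 : ℝ) * b 5
        - 4 * ((b 0 : ℝ) * b 2) := by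
      unfold dV
      push_cast
      ring
    have a1 := abs_le.mp (m2 4 4)
    have a2 := abs_le.mp (m2 4 5)
    have a3 := abs_le.mp (m2 5 5)
    have a4 := abs_le.mp (m2 0 2)
    have h12 : |((dV b : ℤ) : ℝ)| ≤ 8 * k ^ 2 := by
      rw [e, abs_le]
      constructor
      · linarith [a1.1, a2.1, a3.1, a4.2]
      · linarith [a1.2, a2.2, a3.2, a4.1]
    have h13 : (r : ℝ) ^ 2 ≤ (r : ℝ) ^ 3 := pow_le_pow_right₀ hrR (by norm_num)
    calc |((dV b : ℤ) : ℝ)| ≤ 8 * k ^ 2 := h12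
      _ = 8 * (BB A : ℝ) ^ 2 * (r : ℝ) ^ 2 := by rw [hk]; ring
      _ ≤ 8 * (BB A : ℝ) ^ 2 * (r : ℝ) ^ 3 := mul_le_mul_of_nonneg_left h13 (by positivity)
  · intro r hr b hb l hl _ hQ
    have hb1 := Big_b1 hA hb
    have hrz : (1 : ℤ) ≤ r := by exact_mod_cast hr
    have hvsp : Vsp (b 1, b 6, b 7) (vv (b 1, b 6, b 7)) := vsp (by simp only; linarith)
    have hv1 := hvsp.1
    simp only at hv1
    refine Big_fib hA hr hb hl DD
      (fun p q s => dV b * ((b 4 - b 5) ^ 2 - 4 * b 1 * p) + (b 6 * s - b 7 * q) ^ 2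
        + 4 * b 2 * (p * b 6 ^ 2 - (b 4 - b 5) * b 6 * q + b 1 * q ^ 2)
        - 2 * (b 4 + b 5) * (2 * p * b 6 * b 7 - (b 4 - b 5) * b 6 * s - (b 4 - b 5) * b 7 * q
          + 2 * b 1 * q * s)
        + 4 * b 0 * (p * b 7 ^ 2 - (b 4 - b 5) * b 7 * s + b 1 * s ^ 2))
      (α := b 1 * (4 * Vf b + b 1 * v3 b ^ 2)) ?_ hQ ?_
    · intro z
      have h3 : up b z 3 = (b 0 * b 2 - b 4 * b 5 - b 6 * z.2 + b 7 * z.1) / b 1 := by simp [up]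
      have h8 : up b z 8 = z.1 := by simp [up]
      have h9 : up b z 9 = z.2 := by simp [up]
      have h0 : up b z 0 = b 0 := by simp [up]
      have h1 : up b z 1 = b 1 := by simp [up]
      have h2 : up b z 2 = b 2 := by simp [up]
      have h4 : up b z 4 = b 4 := by simp [up]
      have h5 : up b z 5 = b 5 := by simp [up]
      have h6 : up b z 6 = b 6 := by simp [up]
      have h7 : up b z 7 = b 7 := by simp [up]
      show DD (up b z) = _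
      rw [DD_expl, dV_up]
      unfold dW KK
      rw [h3, h8, h9, h0, h1, h2, h4, h5, h6, h7]
    · intro p q s
      have e3 : v3 b = (vv (b 1, b 6, b 7)).1 := rfl
      unfold Vf Vq
      rw [e3]
      set v := vv (b 1, b 6, b 7) with hv
      refine ⟨dV b * (-4 * b 1 * v.1) + 2 * (b 6 * s - b 7 * q) * (b 6 * v.2.2 - b 7 * v.2.1)
        + 4 * b 2 * (v.1 * b 6 ^ 2 - (b 4 - b 5) * b 6 * v.2.1 + 2 * b 1 * q * v.2.1)
        - 2 * (b 4 + b 5) * (2 * v.1 * b 6 * b 7 - (b 4 - b 5) * b 6 * v.2.2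
          - (b 4 - b 5) * b 7 * v.2.1 + 2 * b 1 * (q * v.2.2 + s * v.2.1))
        + 4 * b 0 * (v.1 * b 7 ^ 2 - (b 4 - b 5) * b 7 * v.2.2 + 2 * b 1 * s * v.2.2), fun n => ?_⟩
      linear_combination (-(n ^ 2) * (b 1 * v.1 + (b 7 * v.2.1 - b 6 * v.2.2))) * hv1

open scoped Classical in
private theorem Big_cnt {A : Fin 10 → ℤ} {r l : ℕ} (hl : 1 ≤ l) :
    (((Bs A r).filter (fun b => (l : ℤ) ∣ b 0 ∧ (l : ℤ) ∣ b 2 ∧ (l : ℤ) ∣ b 4 + b 5)).card : ℝ) ≤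
      ((r : ℝ) / l + 1) ^ 3 * (r : ℝ) ^ 4 := by
  set S := (Bs A r).filter (fun b => (l : ℤ) ∣ b 0 ∧ (l : ℤ) ∣ b 2 ∧ (l : ℤ) ∣ b 4 + b 5) with hS
  set I : Fin 10 → Finset ℤ := fun j => Ico (A j * r) (A j * r + r) with hI
  set J : Fin 10 → Finset ℤ := fun j => (I j).filter (fun n => (l : ℤ) ∣ n - 0) with hJ
  set P := J 0 ×ˢ J 2 ×ˢ I 1 ×ˢ I 4 ×ˢ I 6 ×ˢ I 7 with hP
  set g : (Fin 10 → ℤ) → ℤ × ℤ × ℤ × ℤ × ℤ × ℤ := fun b => (b 0, b 2, b 1, b 4, b 6, b 7) with hg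
  have hIc : ∀ j, ((I j).card : ℝ) = r := by
    intro j
    rw [hI, Int.card_Ico]
    have : (A j * r + r - A j * r : ℤ).toNat = r := by
      rw [add_sub_cancel_left, Int.toNat_natCast]
    rw [this]
  have hJc : ∀ j, ((J j).card : ℝ) ≤ (r : ℝ) / l + 1 := fun j => ap_card (A j * r) 0 r l hl
  have hmI : ∀ b ∈ S, ∀ j : Fin 10, j ≠ 3 → j ≠ 8 → j ≠ 9 → b j ∈ I j := by
    intro b hb j h3 h8 h9
    rw [hS, mem_filter] at hb
    have h1 := (mem_Bs.mp hb.1).1 j h3 h8 h9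
    rw [hI]
    simp only [mem_Ico]
    exact ⟨h1.1, by linarith [h1.2]⟩
  have hmap : ∀ b ∈ S, g b ∈ P := by
    intro b hb
    have hb' := hb
    rw [hS, mem_filter] at hb'
    rw [hP, hg]
    simp only [mem_product]
    refine ⟨?_, ?_, hmI b hb 1 (by decide) (by decide) (by decide),
      hmI b hb 4 (by decide) (by decide) (by decide), hmI b hb 6 (by decide) (by decide) (by decide),
      hmI b hb 7 (by decide) (by decide) (by decide)⟩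
    · rw [hJ]
      simp only [mem_filter]
      exact ⟨hmI b hb 0 (by decide) (by decide) (by decide), by simpa using hb'.2.1⟩
    · rw [hJ]
      simp only [mem_filter]
      exact ⟨hmI b hb 2 (by decide) (by decide) (by decide), by simpa using hb'.2.2.1⟩
  have hfib : ∀ p ∈ P, ((S.filter (fun b => g b = p)).card : ℝ) ≤ (r : ℝ) / l + 1 := by
    intro p _
    refine le_trans ?_ (ap_card (A 5 * r) (-p.2.2.2.1) r l hl)
    have h1 : (S.filter (fun b => g b = p)).card ≤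
        ((Ico (A 5 * r) (A 5 * r + r)).filter (fun n => (l : ℤ) ∣ n - (-p.2.2.2.1))).card := by
      apply card_le_card_of_injOn (fun b => b 5)
      · intro b hb
        have hb2 := mem_filter.mp (mem_coe.mp hb)
        have hb3 := hb2.1
        rw [hS, mem_filter] at hb3
        have e1 : p.2.2.2.1 = b 4 := by rw [← hb2.2]
        rw [mem_coe, mem_filter]
        refine ⟨hmI b hb2.1 5 (by decide) (by decide) (by decide), ?_⟩
        rw [e1]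
        simpa [sub_neg_eq_add, add_comm] using hb3.2.2.2
      · intro b hb b' hb' h5
        have hb2 := mem_filter.mp (mem_coe.mp hb)
        have hb2' := mem_filter.mp (mem_coe.mp hb')
        have hb3 := hb2.1
        have hb3' := hb2'.1
        rw [hS, mem_filter] at hb3 hb3'
        have h3 := (mem_Bs.mp hb3.1).2
        have h3' := (mem_Bs.mp hb3'.1).2
        have hgg : g b = g b' := by rw [hb2.2, hb2'.2]
        rw [hg] at hgg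
        simp only [Prod.mk.injEq] at hgg
        simp only at h5
        funext j
        fin_cases j
        · exact hgg.1
        · exact hgg.2.2.1
        · exact hgg.2.1
        · exact h3.1.trans h3'.1.symm
        · exact hgg.2.2.2.1
        · exact h5
        · exact hgg.2.2.2.2.1
        · exact hgg.2.2.2.2.2
        · exact h3.2.1.trans h3'.2.1.symm
        · exact h3.2.2.1.trans h3'.2.2.1.symm
    exact_mod_cast h1
  have hnn : (0 : ℝ) ≤ (r : ℝ) / l + 1 := by positivity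
  have hPc : (P.card : ℝ) ≤ ((r : ℝ) / l + 1) ^ 2 * (r : ℝ) ^ 4 := by
    rw [hP]
    simp only [card_product]
    push_cast
    rw [hIc, hIc, hIc, hIc]
    have h1 : ((J 0).card : ℝ) * (J 2).card ≤ ((r : ℝ) / l + 1) * ((r : ℝ) / l + 1) :=
      mul_le_mul (hJc 0) (hJc 2) (by positivity) hnn
    calc ((J 0).card : ℝ) * ((J 2).card * ((r : ℝ) * (r * (r * r))))
        = (((J 0).card : ℝ) * (J 2).card) * (r : ℝ) ^ 4 := by ring
      _ ≤ (((r : ℝ) / l + 1) * ((r : ℝ) / l + 1)) * (r : ℝ) ^ 4 :=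
          mul_le_mul_of_nonneg_right h1 (by positivity)
      _ = _ := by ring
  rw [card_eq_sum_card_fiberwise (f := g) (s := S) (t := P) (fun b hb => hmap b hb)]
  push_cast
  calc ∑ p ∈ P, ((S.filter (fun b => g b = p)).card : ℝ)
      ≤ ∑ _p ∈ P, ((r : ℝ) / l + 1) := sum_le_sum hfib
    _ = P.card * ((r : ℝ) / l + 1) := by rw [sum_const, nsmul_eq_mul]
    _ ≤ (((r : ℝ) / l + 1) ^ 2 * (r : ℝ) ^ 4) * ((r : ℝ) / l + 1) :=
        mul_le_mul_of_nonneg_right hPc hnn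
    _ = _ := by ring

open scoped Classical in
theorem bgC (A : Fin 10 → ℤ) (hA : 1 ≤ A 1) (δ : ℝ) (hδ : 0 < δ) (hδ1 : δ ≤ 1 / 2) : ∃ C : ℝ, 0 ≤ C ∧
    ∀ r : ℕ, 1 ≤ r → Nz A r →
    (((XA A r).filter (fun x => ∃ l : ℕ, l.Prime ∧ (r : ℝ) ^ δ < l ∧ (l : ℤ) ∣ x 0 ∧ (l : ℤ) ∣ x 2 ∧
      (l : ℤ) ∣ x 4 + x 5)).card : ℝ) ≤ C * (r : ℝ) ^ (8 - δ) := by
  have hBB := Big_BB A
  refine ⟨16 * (1 + BB A : ℝ) ^ 3, by positivity, ?_⟩
  intro r hr hNz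
  have hrR : (1 : ℝ) ≤ r := by exact_mod_cast hr
  have hr0 : (0 : ℝ) < r := by linarith
  have hrd : (0 : ℝ) < (r : ℝ) ^ δ := Real.rpow_pos_of_pos hr0 δ
  have hle := card_le_sum hA hr (fun x => ∃ l : ℕ, l.Prime ∧ (r : ℝ) ^ δ < l ∧
    (l : ℤ) ∣ x 0 ∧ (l : ℤ) ∣ x 2 ∧ (l : ℤ) ∣ x 4 + x 5)
  set Bad := (Bs A r).filter (fun b => ∃ l : ℕ, l.Prime ∧ (r : ℝ) ^ δ < l ∧
    (l : ℤ) ∣ b 0 ∧ (l : ℤ) ∣ b 2 ∧ (l : ℤ) ∣ b 4 + b 5) with hBad
  have hterm : ∀ b ∈ Bs A r, (((Fb A r b).filter (fun z => ∃ l : ℕ, l.Prime ∧ (r : ℝ) ^ δ < l ∧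
      (l : ℤ) ∣ up b z 0 ∧ (l : ℤ) ∣ up b z 2 ∧ (l : ℤ) ∣ up b z 4 + up b z 5)).card : ℝ) ≤
      if b ∈ Bad then 8 * (r : ℝ) else 0 := by
    intro b hb
    by_cases h : b ∈ Bad
    · rw [if_pos h]
      have h1 := (card_filter_le (Fb A r b) (fun z => ∃ l : ℕ, l.Prime ∧ (r : ℝ) ^ δ < l ∧
        (l : ℤ) ∣ up b z 0 ∧ (l : ℤ) ∣ up b z 2 ∧ (l : ℤ) ∣ up b z 4 + up b z 5)).trans
        (Fb_card hA hr hb)
      exact_mod_cast h1
    · rw [if_neg h]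
      have h1 : (Fb A r b).filter (fun z => ∃ l : ℕ, l.Prime ∧ (r : ℝ) ^ δ < l ∧
        (l : ℤ) ∣ up b z 0 ∧ (l : ℤ) ∣ up b z 2 ∧ (l : ℤ) ∣ up b z 4 + up b z 5) = ∅ := by
        rw [filter_eq_empty_iff]
        rintro z _ ⟨l, h1, h2, h3, h4, h5⟩
        apply h
        rw [hBad, mem_filter]
        have e0 : up b z 0 = b 0 := by simp [up]
        have e2 : up b z 2 = b 2 := by simp [up]
        have e4 : up b z 4 = b 4 := by simp [up]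
        have e5 : up b z 5 = b 5 := by simp [up]
        rw [e0] at h3
        rw [e2] at h4
        rw [e4, e5] at h5
        exact ⟨hb, l, h1, h2, h3, h4, h5⟩
      rw [h1]
      simp
  have hsumBad : ∑ b ∈ Bs A r, (if b ∈ Bad then 8 * (r : ℝ) else 0) = Bad.card * (8 * r) := by
    rw [← sum_filter, sum_const, nsmul_eq_mul]
    congr 2
    congr 1
    ext b
    rw [mem_filter]
    constructor
    · exact fun h => h.2
    · intro h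
      exact ⟨(mem_filter.mp (by rwa [hBad] at h)).1, h⟩
  have hle' : (((XA A r).filter (fun x => ∃ l : ℕ, l.Prime ∧ (r : ℝ) ^ δ < l ∧ (l : ℤ) ∣ x 0 ∧
      (l : ℤ) ∣ x 2 ∧ (l : ℤ) ∣ x 4 + x 5)).card : ℝ) ≤ Bad.card * (8 * r) := by
    rw [← hsumBad]
    refine le_trans ?_ (sum_le_sum hterm)
    exact_mod_cast hle
  -- the bad bases
  set N : ℕ := (BB A * r).toNat + 1 with hN
  have hsub : Bad ⊆ ((Ioo 0 N).filter (fun l : ℕ => (r : ℝ) ^ δ < (l : ℝ))).biUnion (fun l =>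
      (Bs A r).filter (fun b => (l : ℤ) ∣ b 0 ∧ (l : ℤ) ∣ b 2 ∧ (l : ℤ) ∣ b 4 + b 5)) := by
    intro b hb
    rw [hBad, mem_filter] at hb
    obtain ⟨hb1, l, h1, h2, h3, h4, h5⟩ := hb
    have hb0 : b 0 ≠ 0 := (hNz b hb1).1
    rw [mem_biUnion]
    refine ⟨l, ?_, ?_⟩
    · rw [mem_filter, mem_Ioo]
      refine ⟨⟨h1.pos, ?_⟩, h2⟩
      have h6 : (l : ℤ) ≤ |b 0| := Int.le_of_dvd (abs_pos.mpr hb0) ((dvd_abs _ _).mpr h3)
      have h7 := Big_sz hb1 0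
      have h8 : (l : ℤ) ≤ BB A * r := h6.trans h7
      rw [hN]
      omega
    · rw [mem_filter]; exact ⟨hb1, h3, h4, h5⟩
  have hone : ∀ l ∈ (Ioo 0 N).filter (fun l : ℕ => (r : ℝ) ^ δ < (l : ℝ)),
      (((Bs A r).filter (fun b => (l : ℤ) ∣ b 0 ∧ (l : ℤ) ∣ b 2 ∧ (l : ℤ) ∣ b 4 + b 5)).card : ℝ) ≤
      ((1 + BB A : ℝ) ^ 3 * (r : ℝ) ^ 7 / (r : ℝ) ^ δ) * ((l : ℝ) ^ 2)⁻¹ := by
    intro l hl
    rw [mem_filter, mem_Ioo] at hl
    obtain ⟨⟨h1, h2⟩, h3⟩ := hl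
    have hlpos : (0 : ℝ) < l := by exact_mod_cast h1
    have h4 : (l : ℝ) ≤ BB A * r := by
      have h5 : (l : ℤ) ≤ BB A * r := by
        have h0 : (4 : ℤ) ≤ BB A := by exact_mod_cast hBB
        have h6 : 0 ≤ BB A * r := by positivity
        omega
      have h7 : ((l : ℤ) : ℝ) ≤ ((BB A * r : ℤ) : ℝ) := by exact_mod_cast h5
      push_cast at h7
      exact h7
    have h5 : (r : ℝ) / l + 1 ≤ (1 + BB A) * r / l := by
      rw [div_add_one hlpos.ne', div_le_div_iff_of_pos_right hlpos]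
      linarith
    have hnn : (0 : ℝ) ≤ (r : ℝ) / l + 1 := by positivity
    have h6 : ((r : ℝ) / l + 1) ^ 3 ≤ ((1 + BB A) * r / l) ^ 3 := pow_le_pow_left₀ hnn h5 3
    calc _ ≤ ((r : ℝ) / l + 1) ^ 3 * (r : ℝ) ^ 4 := Big_cnt h1
      _ ≤ ((1 + BB A) * r / l) ^ 3 * (r : ℝ) ^ 4 := mul_le_mul_of_nonneg_right h6 (by positivity)
      _ = ((1 + BB A : ℝ) ^ 3 * (r : ℝ) ^ 7 * ((l : ℝ) ^ 2)⁻¹) * (1 / l) := by
          field_simp
      _ ≤ ((1 + BB A : ℝ) ^ 3 * (r : ℝ) ^ 7 * ((l : ℝ) ^ 2)⁻¹) * (1 / (r : ℝ) ^ δ) := by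
          apply mul_le_mul_of_nonneg_left _ (by positivity)
          exact one_div_le_one_div_of_le hrd h3.le
      _ = _ := by ring
  have hbadc : (Bad.card : ℝ) ≤ 2 * ((1 + BB A : ℝ) ^ 3 * (r : ℝ) ^ 7 / (r : ℝ) ^ δ) := by
    have h1 := (card_le_card hsub).trans card_biUnion_le
    have h2 : (Bad.card : ℝ) ≤ ∑ l ∈ (Ioo 0 N).filter (fun l : ℕ => (r : ℝ) ^ δ < (l : ℝ)),
      (((Bs A r).filter (fun b => (l : ℤ) ∣ b 0 ∧ (l : ℤ) ∣ b 2 ∧ (l : ℤ) ∣ b 4 + b 5)).card : ℝ) := by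
      exact_mod_cast h1
    have h3 : ∑ l ∈ (Ioo 0 N).filter (fun l : ℕ => (r : ℝ) ^ δ < (l : ℝ)), ((l : ℝ) ^ 2)⁻¹ ≤ 2 := by
      calc ∑ l ∈ (Ioo 0 N).filter (fun l : ℕ => (r : ℝ) ^ δ < (l : ℝ)), ((l : ℝ) ^ 2)⁻¹
          ≤ ∑ l ∈ Ioo 0 N, ((l : ℝ) ^ 2)⁻¹ :=
            sum_le_sum_of_subset_of_nonneg (filter_subset _ _) (fun _ _ _ => by positivity)
        _ ≤ 2 / ((0 : ℕ) + 1) := by exact_mod_cast sum_Ioo_inv_sq_le (α := ℝ) 0 N
        _ = 2 := by norm_num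
    have hnn : 0 ≤ (1 + BB A : ℝ) ^ 3 * (r : ℝ) ^ 7 / (r : ℝ) ^ δ := by positivity
    calc (Bad.card : ℝ) ≤ _ := h2
      _ ≤ ∑ l ∈ (Ioo 0 N).filter (fun l : ℕ => (r : ℝ) ^ δ < (l : ℝ)),
          ((1 + BB A : ℝ) ^ 3 * (r : ℝ) ^ 7 / (r : ℝ) ^ δ) * ((l : ℝ) ^ 2)⁻¹ := sum_le_sum hone
      _ = ((1 + BB A : ℝ) ^ 3 * (r : ℝ) ^ 7 / (r : ℝ) ^ δ) *
          ∑ l ∈ (Ioo 0 N).filter (fun l : ℕ => (r : ℝ) ^ δ < (l : ℝ)), ((l : ℝ) ^ 2)⁻¹ := by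
          rw [mul_sum]
      _ ≤ ((1 + BB A : ℝ) ^ 3 * (r : ℝ) ^ 7 / (r : ℝ) ^ δ) * 2 := mul_le_mul_of_nonneg_left h3 hnn
      _ = _ := by ring
  have e1 : (r : ℝ) ^ 7 / (r : ℝ) ^ δ * r = (r : ℝ) ^ (8 - δ) := by
    have : (8 : ℝ) - δ = ((8 : ℕ) : ℝ) - δ := by push_cast; ring
    rw [this, Real.rpow_sub hr0, Real.rpow_natCast]
    ring
  calc _ ≤ Bad.card * (8 * (r : ℝ)) := hle'
    _ ≤ (2 * ((1 + BB A : ℝ) ^ 3 * (r : ℝ) ^ 7 / (r : ℝ) ^ δ)) * (8 * (r : ℝ)) :=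
        mul_le_mul_of_nonneg_right hbadc (by positivity)
    _ = 16 * (1 + BB A : ℝ) ^ 3 * ((r : ℝ) ^ 7 / (r : ℝ) ^ δ * r) := by ring
    _ = 16 * (1 + BB A : ℝ) ^ 3 * (r : ℝ) ^ (8 - δ) := by rw [e1]

end Pool.Agent.PP5LB
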