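import Pool.Agent.PP5LB.Fbs

set_option autoImplicit false

/-!
# Den: the cell (size 4)

`A = Ah h ξ`, `x ∈ XA A r`: `0 ≤ x j - h r ξ j < r` for `j ≠ 3`.
PROOF. `h ≥ h0(ξ)`.  `x1 ≥ h r ξ1`.  `j = 3`: `x1 (x3 - h r ξ3) = (x0x2 - x4x5 - x6x9 + x7x8) - (hr)² ξ1 ξ3 - (x1 - h r ξ1) h r ξ3`
and `(hr)² ξ1 ξ3 = (hr)² (ξ0ξ2 - ξ4ξ5 - ξ6ξ9 + ξ7ξ8)` (`FF ξ = 0`), so `|..| ≤ C h r²`, hence `|x3 - h r ξ3| ≤ C r`.
With `x j = h r ξ j + O(r)`: `DD x = (hr)⁴ DD ξ + O((hr)³ r)`, `dV x = (hr)² dV ξ + O(h r²)`,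
`EE x = (hr)³ EE ξ + O((hr)² r)` (`DD_expl`; e.g. a general lemma: a product of `k` factors `h r a_i + O(r)` is
`(hr)^k ∏ a_i + O(h^(k-1) r^k)`), so for large `h` they are at least half of the main term.
`den_Nz`: `b 0 ≠ 0` since `|b0| ≥ h r |ξ0| - r > 0` (`h ≥ 2`), `b 7` the same; `EE`, `dV` only involve the coordinates
`≠ 3, 8, 9`, which are `h r ξ j + O(r)`, so `EE b ≠ 0`, `dV b ≠ 0` as above.
`den_xs`: for `ξ = (1,1,-1,1,0,0,0,-1,-2,0)`: `|x0x2 + (hr)²| ≤ 2hr² + r²`, `|x4x5|, |x6x9| ≤ r²`,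
`|x7x8 - 2(hr)²| ≤ 3hr² + r²`, so `|x1 (x3 - hr)| ≤ 5hr² + 4r² + hr²` and `|x3 - hr| ≤ 10 r`.
-/

namespace Pool.Agent.PP5LB

open Finset Pool.Agent.PP5L

private theorem FFe {R : Type*} [CommRing R] (x : Fin 10 → R) :
    FF x = x 0 * x 2 - x 1 * x 3 - x 4 * x 5 - x 6 * x 9 + x 7 * x 8 := rfl

private theorem box {ξ : Fin 10 → ℤ} {h r : ℕ} {a : ℤ} {j : Fin 10}
    (h1 : Ah h ξ j * r ≤ a) (h2 : a < (Ah h ξ j + 1) * r) :
    |(a : ℝ) - h * r * ξ j| ≤ r := by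
  unfold Ah at h1 h2
  have h1' : ((h : ℝ) * ξ j) * r ≤ a := by exact_mod_cast h1
  have h2' : (a : ℝ) < ((h : ℝ) * ξ j + 1) * r := by exact_mod_cast h2
  rw [abs_le]
  have hr : (0 : ℝ) ≤ r := by positivity
  constructor <;> linarith

/-- the general estimate for all coordinates -/
private theorem est {ξ : Fin 10 → ℤ} (hff : FF ξ = 0) (h1 : 1 ≤ ξ 1) {K : ℝ} (hK : 1 ≤ K)
    (hξ : ∀ j, |(ξ j : ℝ)| ≤ K) {h r : ℕ} (hh : 1 ≤ h) (hr : 1 ≤ r) {x : Fin 10 → ℤ}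
    (hx : x ∈ XA (Ah h ξ) r) (j : Fin 10) : |(x j : ℝ) - h * r * ξ j| ≤ 13 * K * r := by
  have hA : 1 ≤ Ah h ξ 1 := by
    unfold Ah
    have : (1 : ℤ) ≤ h := by exact_mod_cast hh
    nlinarith
  rw [memXAb hA hr] at hx
  obtain ⟨hb, hF, -⟩ := hx
  have hrR : (1 : ℝ) ≤ r := by exact_mod_cast hr
  have hhR : (1 : ℝ) ≤ h := by exact_mod_cast hh
  set H : ℝ := (h : ℝ) * r with hH
  have hHr : (r : ℝ) ≤ H := by nlinarith
  have hH0 : 0 < H := by linarith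
  have hr0 : (0 : ℝ) < r := by linarith
  have e : ∀ j, j ≠ 3 → |(x j : ℝ) - H * ξ j| ≤ r := by
    intro j hj
    exact box (hb j hj).1 (hb j hj).2
  by_cases hj : j = 3
  · subst hj
    -- products
    have pr : ∀ i j, i ≠ 3 → j ≠ 3 → |(x i : ℝ) * x j - H ^ 2 * (ξ i * ξ j)| ≤ 3 * K * (r * H) := by
      intro i j hi hj
      have e1 := e i hi
      have e2 := e j hj
      have k1 := hξ i
      have k2 := hξ j
      have : (x i : ℝ) * x j - H ^ 2 * (ξ i * ξ j) =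
          ((x i : ℝ) - H * ξ i) * (H * ξ j) + (H * ξ i) * ((x j : ℝ) - H * ξ j)
            + ((x i : ℝ) - H * ξ i) * ((x j : ℝ) - H * ξ j) := by ring
      rw [this]
      have a1 : |((x i : ℝ) - H * ξ i) * (H * ξ j)| ≤ r * (H * K) := by
        rw [abs_mul, abs_mul, abs_of_pos hH0]
        exact mul_le_mul e1 (mul_le_mul_of_nonneg_left k2 hH0.le) (by positivity) hr0.le
      have a2 : |(H * ξ i) * ((x j : ℝ) - H * ξ j)| ≤ (H * K) * r := by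
        rw [abs_mul, abs_mul, abs_of_pos hH0]
        exact mul_le_mul (mul_le_mul_of_nonneg_left k1 hH0.le) e2 (abs_nonneg _) (by positivity)
      have a3 : |((x i : ℝ) - H * ξ i) * ((x j : ℝ) - H * ξ j)| ≤ r * r := by
        rw [abs_mul]
        exact mul_le_mul e1 e2 (abs_nonneg _) hr0.le
      have a4 : (r : ℝ) * r ≤ K * (r * H) := by
        have : (r : ℝ) * r ≤ r * H := mul_le_mul_of_nonneg_left hHr hr0.le
        have h0 : 0 < (r : ℝ) * H := by positivity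
        nlinarith
      calc _ ≤ |((x i : ℝ) - H * ξ i) * (H * ξ j)| + |(H * ξ i) * ((x j : ℝ) - H * ξ j)|
            + |((x i : ℝ) - H * ξ i) * ((x j : ℝ) - H * ξ j)| := by
            refine (abs_add_le _ _).trans ?_
            gcongr
            exact abs_add_le _ _
        _ ≤ 3 * K * (r * H) := by linarith
    have hFx : (x 0 : ℝ) * x 2 - x 1 * x 3 - x 4 * x 5 - x 6 * x 9 + x 7 * x 8 = 0 := by
      have := hF; rw [FFe] at this; exact_mod_cast this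
    have hFξ : (ξ 0 : ℝ) * ξ 2 - ξ 1 * ξ 3 - ξ 4 * ξ 5 - ξ 6 * ξ 9 + ξ 7 * ξ 8 = 0 := by
      have := hff; rw [FFe] at this; exact_mod_cast this
    have p1 := pr 0 2 (by decide) (by decide)
    have p2 := pr 4 5 (by decide) (by decide)
    have p3 := pr 6 9 (by decide) (by decide)
    have p4 := pr 7 8 (by decide) (by decide)
    have p5 : |((x 1 : ℝ) - H * ξ 1) * (H * ξ 3)| ≤ r * (H * K) := by
      rw [abs_mul, abs_mul, abs_of_pos hH0]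
      exact mul_le_mul (e 1 (by decide)) (mul_le_mul_of_nonneg_left (hξ 3) hH0.le) (by positivity) hr0.le
    have id : (x 1 : ℝ) * ((x 3 : ℝ) - H * ξ 3) =
        ((x 0 : ℝ) * x 2 - H ^ 2 * (ξ 0 * ξ 2)) - ((x 4 : ℝ) * x 5 - H ^ 2 * (ξ 4 * ξ 5))
          - ((x 6 : ℝ) * x 9 - H ^ 2 * (ξ 6 * ξ 9)) + ((x 7 : ℝ) * x 8 - H ^ 2 * (ξ 7 * ξ 8))
          - ((x 1 : ℝ) - H * ξ 1) * (H * ξ 3) := by
      linear_combination (-1 : ℝ) * hFx + H ^ 2 * hFξ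
    have hx1 : H ≤ x 1 := by
      have := (hb 1 (by decide)).1
      unfold Ah at this
      have h3 : ((h : ℝ) * ξ 1) * r ≤ x 1 := by exact_mod_cast this
      have h4 : (1 : ℝ) ≤ ξ 1 := by exact_mod_cast h1
      have : H * 1 ≤ H * ξ 1 := mul_le_mul_of_nonneg_left h4 hH0.le
      linarith
    have tot : |(x 1 : ℝ) * ((x 3 : ℝ) - H * ξ 3)| ≤ H * (13 * K * r) := by
      rw [id, abs_le]
      rw [abs_le] at p1 p2 p3 p4 p5
      constructor <;> linarith [p1.1, p1.2, p2.1, p2.2, p3.1, p3.2, p4.1, p4.2, p5.1, p5.2]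
    rw [abs_mul, abs_of_pos (by linarith : (0 : ℝ) < x 1)] at tot
    have : H * |(x 3 : ℝ) - H * ξ 3| ≤ H * (13 * K * r) :=
      (mul_le_mul_of_nonneg_right hx1 (abs_nonneg _)).trans tot
    exact le_of_mul_le_mul_left this hH0
  · refine (e j hj).trans ?_
    nlinarith

private theorem dV_hom (H : ℝ) (y : Fin 10 → ℝ) : dV (fun j => H * y j) = H ^ 2 * dV y := by
  unfold dV; ring

private theorem EE_hom (H : ℝ) (y : Fin 10 → ℝ) : EE (fun j => H * y j) = H ^ 3 * EE y := by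
  unfold EE dV; ring

private theorem DD_hom (H : ℝ) (y : Fin 10 → ℝ) : DD (fun j => H * y j) = H ^ 4 * DD y := by
  rw [DD_expl, DD_expl]
  unfold dV dW KK; ring

private theorem cast_dV (x : Fin 10 → ℤ) : dV (fun j => (x j : ℝ)) = ((dV x : ℤ) : ℝ) :=
  map_dV (Int.castRingHom ℝ) x

private theorem cast_EE (x : Fin 10 → ℤ) : EE (fun j => (x j : ℝ)) = ((EE x : ℤ) : ℝ) :=
  map_EE (Int.castRingHom ℝ) x

private theorem cast_DD (x : Fin 10 → ℤ) : DD (fun j => (x j : ℝ)) = ((DD x : ℤ) : ℝ) :=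
  map_DD (Int.castRingHom ℝ) x

/-- continuity of the three forms at `ξ` -/
private theorem core {ξ : Fin 10 → ℤ} (hξ : Good ξ) : ∃ ε : ℝ, 0 < ε ∧ ∀ H : ℝ, 0 < H →
    ∀ x : Fin 10 → ℝ, (∀ j, |x j - H * ξ j| < ε * H) →
      DD x ≤ ((DD ξ : ℤ) : ℝ) / 2 * H ^ 4 ∧ ((dV ξ : ℤ) : ℝ) / 2 * H ^ 2 ≤ dV x ∧
      |((EE ξ : ℤ) : ℝ)| / 2 * H ^ 3 ≤ |EE x| := by
  set c : Fin 10 → ℝ := fun j => (ξ j : ℝ) with hc
  have cV : Continuous (fun y : Fin 10 → ℝ => dV y) := by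
    unfold dV; fun_prop
  have cE : Continuous (fun y : Fin 10 → ℝ => EE y) := by
    unfold EE dV; fun_prop
  have cD : Continuous (fun y : Fin 10 → ℝ => DD y) := by
    have : (fun y : Fin 10 → ℝ => DD y) = fun x => dV x * dW x + KK x ^ 2
        + 4 * x 2 * (x 3 * x 6 ^ 2 - (x 4 - x 5) * x 6 * x 8 + x 1 * x 8 ^ 2)
        - 2 * (x 4 + x 5) * (2 * x 3 * x 6 * x 7 - (x 4 - x 5) * x 6 * x 9 - (x 4 - x 5) * x 7 * x 8
          + 2 * x 1 * x 8 * x 9)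
        + 4 * x 0 * (x 3 * x 7 ^ 2 - (x 4 - x 5) * x 7 * x 9 + x 1 * x 9 ^ 2) := by
      funext y; exact DD_expl y
    rw [this]
    unfold dV dW KK; fun_prop
  have hV : (0 : ℝ) < ((dV ξ : ℤ) : ℝ) := by exact_mod_cast hξ.vp
  have hD : ((DD ξ : ℤ) : ℝ) < 0 := by exact_mod_cast hξ.dn
  have hE : 0 < |((EE ξ : ℤ) : ℝ)| := abs_pos.mpr (by exact_mod_cast hξ.en)
  have e1 : ∀ᶠ y in nhds c, ((dV ξ : ℤ) : ℝ) / 2 < dV y := by
    refine cV.continuousAt.eventually_const_lt ?_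
    show _ < dV c
    rw [hc, cast_dV]; linarith
  have e2 : ∀ᶠ y in nhds c, DD y < ((DD ξ : ℤ) : ℝ) / 2 := by
    refine cD.continuousAt.eventually_lt_const ?_
    show DD c < _
    rw [hc, cast_DD]; linarith
  have e3 : ∀ᶠ y in nhds c, |((EE ξ : ℤ) : ℝ)| / 2 < |EE y| := by
    refine cE.abs.continuousAt.eventually_const_lt ?_
    show _ < |EE c|
    rw [hc, cast_EE]; linarith
  obtain ⟨ε, hε, hb⟩ := Metric.eventually_nhds_iff.mp (e1.and (e2.and e3))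
  refine ⟨ε, hε, ?_⟩
  intro H hH x hx
  set y : Fin 10 → ℝ := fun j => x j / H with hy
  have hxy : x = fun j => H * y j := by
    funext j; rw [hy]; field_simp
  have hd : dist y c < ε := by
    rw [dist_pi_lt_iff hε]
    intro j
    rw [Real.dist_eq, hy, hc]
    have : x j / H - (ξ j : ℝ) = (x j - H * ξ j) / H := by field_simp
    simp only []
    rw [this, abs_div, abs_of_pos hH, div_lt_iff₀ hH]
    exact hx j
  obtain ⟨f1, f2, f3⟩ := hb hd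
  refine ⟨?_, ?_, ?_⟩
  · rw [hxy, DD_hom, mul_comm]
    exact mul_le_mul_of_nonneg_right f2.le (by positivity)
  · rw [hxy, dV_hom, mul_comm (H ^ 2)]
    exact mul_le_mul_of_nonneg_right f1.le (by positivity)
  · rw [hxy, EE_hom, abs_mul, abs_of_pos (by positivity : 0 < H ^ 3), mul_comm (H ^ 3)]
    exact mul_le_mul_of_nonneg_right f3.le (by positivity)

theorem den {ξ : Fin 10 → ℤ} (hξ : Good ξ) : ∃ (C : ℝ) (h0 : ℕ), 0 < C ∧ 1 ≤ h0 ∧ ∀ h r : ℕ, h0 ≤ h → 1 ≤ r →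
    ∀ x ∈ XA (Ah h ξ) r, (∀ j, |(x j : ℝ) - h * r * ξ j| ≤ C * r) ∧
      ((DD x : ℤ) : ℝ) ≤ ((DD ξ : ℤ) : ℝ) / 2 * ((h : ℝ) * r) ^ 4 ∧
      ((dV ξ : ℤ) : ℝ) / 2 * ((h : ℝ) * r) ^ 2 ≤ ((dV x : ℤ) : ℝ) ∧
      |((EE ξ : ℤ) : ℝ)| / 2 * ((h : ℝ) * r) ^ 3 ≤ |((EE x : ℤ) : ℝ)| := by
  obtain ⟨ε, hε, hcore⟩ := core hξ
  set K : ℝ := 1 + ∑ j, |(ξ j : ℝ)| with hK
  have hK1 : 1 ≤ K := by
    have : 0 ≤ ∑ j, |(ξ j : ℝ)| := Finset.sum_nonneg fun _ _ => abs_nonneg _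
    linarith
  have hKj : ∀ j, |(ξ j : ℝ)| ≤ K := by
    intro j
    have := Finset.single_le_sum (f := fun j => |(ξ j : ℝ)|) (fun i _ => abs_nonneg _) (Finset.mem_univ j)
    linarith
  refine ⟨13 * K, ⌈13 * K / ε⌉₊ + 1, by positivity, by omega, ?_⟩
  intro h r hh hr x hx
  have hh1 : 1 ≤ h := by omega
  have hest := fun j => est hξ.ff hξ.x1 hK1 hKj hh1 hr hx j
  have hrR : (1 : ℝ) ≤ r := by exact_mod_cast hr
  have hhR : (1 : ℝ) ≤ h := by exact_mod_cast hh1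
  have hlt : 13 * K / ε < h := by
    have h1 : 13 * K / ε ≤ ⌈13 * K / ε⌉₊ := Nat.le_ceil _
    have h2 : ((⌈13 * K / ε⌉₊ : ℕ) : ℝ) + 1 ≤ h := by exact_mod_cast hh
    linarith
  rw [div_lt_iff₀ hε] at hlt
  have hc := hcore ((h : ℝ) * r) (by positivity) (fun j => (x j : ℝ)) (fun j => by
    refine (hest j).trans_lt ?_
    have hr0 : (0 : ℝ) < r := by linarith
    calc 13 * K * r < (h * ε) * r := mul_lt_mul_of_pos_right hlt hr0
      _ = ε * (h * r) := by ring)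
  rw [cast_DD, cast_dV, cast_EE] at hc
  exact ⟨hest, hc⟩

theorem den_Nz {ξ : Fin 10 → ℤ} (hξ : Good ξ) : ∃ h0 : ℕ, 1 ≤ h0 ∧ ∀ h r : ℕ, h0 ≤ h → 1 ≤ r →
    1 ≤ Ah h ξ 1 ∧ Nz (Ah h ξ) r := by
  obtain ⟨ε, hε, hcore⟩ := core hξ
  refine ⟨⌈1 / ε⌉₊ + 1, by omega, ?_⟩
  intro h r hh hr
  have hh1 : 1 ≤ h := by omega
  have hrR : (1 : ℝ) ≤ r := by exact_mod_cast hr
  have hhR : (1 : ℝ) ≤ h := by exact_mod_cast hh1
  have hr0 : (0 : ℝ) < r := by linarith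
  have hhZ : (1 : ℤ) ≤ h := by exact_mod_cast hh1
  have hrZ : (1 : ℤ) ≤ r := by exact_mod_cast hr
  have hlt : 1 / ε < h := by
    have h1 : 1 / ε ≤ ⌈1 / ε⌉₊ := Nat.le_ceil _
    have h2 : ((⌈1 / ε⌉₊ : ℕ) : ℝ) + 1 ≤ h := by exact_mod_cast hh
    linarith
  rw [div_lt_iff₀ hε] at hlt
  refine ⟨?_, ?_⟩
  · unfold Ah
    have := hξ.x1
    nlinarith
  · intro b hb
    rw [mem_Bs] at hb
    obtain ⟨hbox, -, -, -, -⟩ := hb
    have nz : ∀ j, j ≠ 3 → j ≠ 8 → j ≠ 9 → ξ j ≠ 0 → b j ≠ 0 := by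
      intro j j3 j8 j9 hj h0
      obtain ⟨h1, h2⟩ := hbox j j3 j8 j9
      unfold Ah at h1 h2
      rw [h0] at h1 h2
      rcases lt_or_gt_of_ne hj with hj' | hj'
      · have : (h : ℤ) * ξ j + 1 ≤ 0 := by nlinarith
        nlinarith
      · have : 0 < (h : ℤ) * ξ j := by positivity
        nlinarith
    set x : Fin 10 → ℝ := fun j => if j = 3 ∨ j = 8 ∨ j = 9 then (h : ℝ) * r * ξ j else (b j : ℝ) with hx
    have hc := hcore ((h : ℝ) * r) (by positivity) x (fun j => by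
      by_cases hj : j = 3 ∨ j = 8 ∨ j = 9
      · rw [hx]; simp only [hj, if_true]
        rw [sub_self, abs_zero]; positivity
      · rw [hx]; simp only [hj, if_false]
        push Not at hj
        obtain ⟨h1, h2⟩ := hbox j hj.1 hj.2.1 hj.2.2
        refine (box h1 h2).trans_lt ?_
        calc (r : ℝ) = 1 * r := by ring
          _ < (h * ε) * r := mul_lt_mul_of_pos_right hlt hr0
          _ = ε * (h * r) := by ring)
    have hVx : dV x = ((dV b : ℤ) : ℝ) := by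
      rw [← cast_dV]; unfold dV; simp [hx]
    have hEx : EE x = ((EE b : ℤ) : ℝ) := by
      rw [← cast_EE]; unfold EE dV; simp [hx]
    rw [hVx, hEx] at hc
    obtain ⟨-, hV, hE⟩ := hc
    refine ⟨nz 0 (by decide) (by decide) (by decide) hξ.x0, nz 7 (by decide) (by decide) (by decide) hξ.x7, ?_, ?_⟩
    · intro h0
      rw [h0] at hE
      have hE' : 0 < |((EE ξ : ℤ) : ℝ)| := abs_pos.mpr (by exact_mod_cast hξ.en)
      have : 0 < |((EE ξ : ℤ) : ℝ)| / 2 * ((h : ℝ) * r) ^ 3 := by positivity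
      simp at hE
      linarith
    · intro h0
      rw [h0] at hV
      have hV' : (0 : ℝ) < ((dV ξ : ℤ) : ℝ) := by exact_mod_cast hξ.vp
      have : 0 < ((dV ξ : ℤ) : ℝ) / 2 * ((h : ℝ) * r) ^ 2 := by positivity
      simp at hV
      linarith

theorem good_xs : Good (![1, 1, -1, 1, 0, 0, 0, -1, -2, 0] : Fin 10 → ℤ) := by
  constructor
  · rw [FFe]; decide
  · rw [DD_expl]; unfold dV dW KK; decide
  · unfold dV; decide
  · unfold EE dV; decide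
  · decide
  · decide
  · decide
  · decide

theorem den_xs {h r : ℕ} (hh : 1 ≤ h) (hr : 1 ≤ r) {x : Fin 10 → ℤ}
    (hx : x ∈ XA (Ah h (![1, 1, -1, 1, 0, 0, 0, -1, -2, 0] : Fin 10 → ℤ)) r) (j : Fin 10) :
    |(x j : ℝ) - (h * r : ℝ) * (![1, 1, -1, 1, 0, 0, 0, -1, -2, 0] : Fin 10 → ℤ) j| ≤ 100 * r := by
  have hK : ∀ j, |((![1, 1, -1, 1, 0, 0, 0, -1, -2, 0] : Fin 10 → ℤ) j : ℝ)| ≤ (2 : ℝ) := by
    have h2 : ∀ j, |(![1, 1, -1, 1, 0, 0, 0, -1, -2, 0] : Fin 10 → ℤ) j| ≤ 2 := by decide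
    intro j
    exact_mod_cast h2 j
  refine (est good_xs.ff good_xs.x1 (by norm_num : (1 : ℝ) ≤ 2) hK hh hr hx j).trans ?_
  have : (0 : ℝ) ≤ r := by positivity
  linarith

end Pool.Agent.PP5LB
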