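import Pool.Agent.PP5LB.Bsc

set_option autoImplicit false

/-!
# Cvt: classes in `ZMod M` and integral representatives; two moduli (size 3)

PROOF. `exists_lift`: `c j = ((y j).val : ℤ)`; `FF` maps to `0` in `ZMod M` (`red_FF`, `ZMod.intCast_zmod_eq_zero_iff_dvd` or
`(ZMod.intCast_zmod_eq_zero_iff_dvd _ _).1`), and `a y1 + b y6 + d y7 = 1` lifts to integers up to a multiple of `M`.
`XC_eq`: `red M x = red M c ↔ ∀ j, M ∣ x j - c j` (`ZMod.intCast_eq_intCast_iff_dvd_sub` or `..intCast_cast..`).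
`exists_lift2`: take `c` coordinatewise by the Chinese remainder theorem (`Int`: `W` and `q` coprime: `c = c1 + W u (c2 - c1)`
with `u W ≡ 1` modulo `q`).  Then `FF c ≡ 0` modulo `W` and modulo `q`, hence modulo `W q`; and if
`a c1 + b c6 + d c7 ≡ 1` modulo `W` and `a' c1 + .. ≡ 1` modulo `q`, combine the coefficients by CRT.
`card_two`: `x ≡ c` modulo `Wq` iff modulo `W` and modulo `q`.
-/

namespace Pool.Agent.PP5LB

open Finset Pool.Agent.PP5L

private theorem Cvt_cast_eq {M : ℕ} (a b : ℤ) : ((a : ℤ) : ZMod M) = (b : ZMod M) ↔ (M : ℤ) ∣ a - b := by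
  rw [← sub_eq_zero, ← Int.cast_sub, ZMod.intCast_zmod_eq_zero_iff_dvd]

theorem red_eq_iff {M : ℕ} {x c : Fin 10 → ℤ} : red M x = red M c ↔ ∀ j, (M : ℤ) ∣ x j - c j := by
  unfold red
  rw [funext_iff]
  exact forall_congr' fun j => Cvt_cast_eq _ _

private theorem Cvt_red_val {M : ℕ} [NeZero M] (y : Fin 10 → ZMod M) :
    red M (fun j => ((y j).val : ℤ)) = y := by
  funext j
  show ((((y j).val : ℕ) : ℤ) : ZMod M) = y j
  rw [Int.cast_natCast, ZMod.natCast_zmod_val]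

private theorem Cvt_Cl_iff {M : ℕ} [NeZero M] {c : Fin 10 → ℤ} : Cl M c ↔ red M c ∈ VM M := by
  rw [mem_VM, red_FF, ZMod.intCast_zmod_eq_zero_iff_dvd]
  unfold Cl
  constructor
  · rintro ⟨h1, a, b, d, e, h⟩
    refine ⟨h1, a, b, d, ?_⟩
    have h2 : (((a * c 1 + b * c 6 + d * c 7 + e * M : ℤ)) : ZMod M) = ((1 : ℤ) : ZMod M) := by rw [h]
    unfold red
    push_cast at h2
    rw [ZMod.natCast_self, mul_zero, add_zero] at h2
    exact h2
  · rintro ⟨h1, a, b, d, h⟩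
    refine ⟨h1, ?_⟩
    have h2 : ((((a.val : ℤ) * c 1 + (b.val : ℤ) * c 6 + (d.val : ℤ) * c 7 : ℤ)) : ZMod M)
        = ((1 : ℤ) : ZMod M) := by
      push_cast
      rw [ZMod.natCast_zmod_val, ZMod.natCast_zmod_val, ZMod.natCast_zmod_val]
      exact h
    rw [Cvt_cast_eq] at h2
    obtain ⟨k, hk⟩ := h2
    refine ⟨(a.val : ℤ), (b.val : ℤ), (d.val : ℤ), -k, ?_⟩
    linear_combination hk

theorem exists_lift {M : ℕ} [NeZero M] {y : Fin 10 → ZMod M} (hy : y ∈ VM M) :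
    ∃ c : Fin 10 → ℤ, red M c = y ∧ Cl M c := by
  refine ⟨fun j => ((y j).val : ℤ), Cvt_red_val y, ?_⟩
  rw [Cvt_Cl_iff, Cvt_red_val]
  exact hy

theorem red_mem_of_Cl {M : ℕ} [NeZero M] {c : Fin 10 → ℤ} (h : Cl M c) : red M c ∈ VM M :=
  Cvt_Cl_iff.1 h

theorem XC_eq (A : Fin 10 → ℤ) (r M : ℕ) (c : Fin 10 → ℤ) : XC A r M (red M c) = XI A r M c := by
  ext x
  rw [mem_XC, mem_XI, red_eq_iff]

theorem exists_lift2 {W q : ℕ} [NeZero W] [NeZero q] (h : Nat.Coprime W q) {y : Fin 10 → ZMod W}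
    (hy : y ∈ VM W) {z : Fin 10 → ZMod q} (hz : z ∈ VM q) :
    ∃ c : Fin 10 → ℤ, red W c = y ∧ red q c = z ∧ Cl (W * q) c := by
  obtain ⟨c1, hc1, hC1⟩ := exists_lift hy
  obtain ⟨c2, hc2, hC2⟩ := exists_lift hz
  have hco : IsCoprime (W : ℤ) (q : ℤ) := Nat.isCoprime_iff_coprime.2 h
  obtain ⟨u, v, huv⟩ := hco
  -- `u W + v q = 1`
  set c : Fin 10 → ℤ := fun j => v * q * c1 j + u * W * c2 j with hc
  have e1 : red W c = red W c1 := by
    rw [red_eq_iff]
    intro j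
    refine ⟨u * (c2 j - c1 j), ?_⟩
    simp only [hc]
    linear_combination (c1 j) * huv
  have e2 : red q c = red q c2 := by
    rw [red_eq_iff]
    intro j
    refine ⟨v * (c1 j - c2 j), ?_⟩
    simp only [hc]
    linear_combination (c2 j) * huv
  have m1 : Cl W c := by rw [Cvt_Cl_iff, e1, hc1]; exact hy
  have m2 : Cl q c := by rw [Cvt_Cl_iff, e2, hc2]; exact hz
  refine ⟨c, e1.trans hc1, e2.trans hc2, ?_⟩
  obtain ⟨f1, a, b, d, e, h1⟩ := m1
  obtain ⟨f2, a', b', d', e', h2⟩ := m2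
  refine ⟨?_, ?_⟩
  · push_cast
    exact IsCoprime.mul_dvd ⟨u, v, huv⟩ f1 f2
  · -- `(a c1 + .. - 1) = - e W`, `(a' c1 + .. - 1) = - e' q`
    refine ⟨v * q * a + u * W * a', v * q * b + u * W * b', v * q * d + u * W * d', v * e + u * e', ?_⟩
    push_cast
    linear_combination (v * q) * h1 + (u * W) * h2 + huv

open scoped Classical in
theorem XI_two (A : Fin 10 → ℤ) (r : ℕ) {W q : ℕ} (h : Nat.Coprime W q) (c : Fin 10 → ℤ) :
    (XC A r W (red W c)).filter (fun x => red q x = red q c) = XI A r (W * q) c := by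
  ext x
  rw [Finset.mem_filter, mem_XC, mem_XI, red_eq_iff, red_eq_iff, and_assoc]
  refine and_congr_right fun _ => ?_
  have hco : IsCoprime (W : ℤ) (q : ℤ) := Nat.isCoprime_iff_coprime.2 h
  constructor
  · rintro ⟨h1, h2⟩ j
    push_cast
    exact hco.mul_dvd (h1 j) (h2 j)
  · intro h1
    constructor
    · intro j
      have := h1 j
      push_cast at this
      exact (dvd_mul_right _ _).trans this
    · intro j
      have := h1 j
      push_cast at this
      exact (dvd_mul_left _ _).trans this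

/-- sums over the cube of representatives and over `ZMod M` -/
theorem sum_cube {M : ℕ} [NeZero M] (f : (Fin 10 → ZMod M) → ℝ) :
    ∑ x ∈ Fintype.piFinset (fun _ : Fin 10 => Ico (0 : ℤ) (M : ℤ)), f (red M x) = ∑ y, f y := by
  refine Finset.sum_bij' (fun x _ => red M x) (fun y _ => fun j => ((y j).val : ℤ)) ?_ ?_ ?_ ?_ ?_
  · intro x _
    exact Finset.mem_univ _
  · intro y _
    rw [Fintype.mem_piFinset]
    intro j
    rw [Finset.mem_Ico]
    exact ⟨by positivity, by exact_mod_cast ZMod.val_lt (y j)⟩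
  · intro x hx
    rw [Fintype.mem_piFinset] at hx
    funext j
    obtain ⟨h0, h1⟩ := Finset.mem_Ico.1 (hx j)
    show (((((x j : ℤ) : ZMod M)).val : ℕ) : ℤ) = x j
    rw [ZMod.val_intCast]
    exact Int.emod_eq_of_lt h0 h1
  · intro y _
    exact Cvt_red_val y
  · intro x _
    rfl

end Pool.Agent.PP5LB
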