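import Pool.Agent.PP5LB.Szb
import Pool.Agent.PP5LB.Cvt

set_option autoImplicit false

/-!
# Lbd: lower bound for the family
-/

namespace Pool.Agent.PP5LB

open Finset Pool.Agent.PP5L

theorem lbd (A : Fin 10 → ℤ) (hA : 1 ≤ A 1) (W : ℕ) [NeZero W] : ∃ κ : ℝ, 0 < κ ∧ ∃ r0 : ℕ,
    ∀ r : ℕ, r0 ≤ r → ∀ c ∈ VM W, κ * (r : ℝ) ^ 8 ≤ (XC A r W c).card := by
  classical
  have h : ∀ c ∈ VM W, ∃ κ : ℝ, 0 < κ ∧ ∃ r0 : ℕ, ∀ r : ℕ, r0 ≤ r → κ * (r : ℝ) ^ 8 ≤ (XC A r W c).card := by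
    intro c hc
    obtain ⟨κ, hκ, r0, h⟩ := Szb hA W hc
    exact ⟨κ, hκ, r0, fun r hr => h r hr⟩
  have : ∀ S : Finset (Fin 10 → ZMod W), S ⊆ VM W → ∃ κ : ℝ, 0 < κ ∧ ∃ r0 : ℕ,
      ∀ r : ℕ, r0 ≤ r → ∀ c ∈ S, κ * (r : ℝ) ^ 8 ≤ (XC A r W c).card := by
    intro S
    induction S using Finset.induction_on with
    | empty => intro _; exact ⟨1, one_pos, 0, by simp⟩
    | insert a S ha ih =>
      intro hS
      obtain ⟨κ1, h1, r1, h2⟩ := ih (fun x hx => hS (Finset.mem_insert_of_mem hx))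
      obtain ⟨κ2, h3, r2, h4⟩ := h a (hS (Finset.mem_insert_self a S))
      refine ⟨min κ1 κ2, lt_min h1 h3, max r1 r2, ?_⟩
      intro r hr c hc
      rcases Finset.mem_insert.mp hc with rfl | hc
      · exact le_trans (mul_le_mul_of_nonneg_right (min_le_right _ _) (by positivity))
          (h4 r (le_trans (le_max_right _ _) hr))
      · exact le_trans (mul_le_mul_of_nonneg_right (min_le_left _ _) (by positivity))
          (h2 r (le_trans (le_max_left _ _) hr) c hc)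
  exact this (VM W) (Finset.Subset.refl _)

end Pool.Agent.PP5LB
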