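import Pool.Agent.PP5LB.Bsc

set_option autoImplicit false

/-!
# Df2: the bad classes and the result of the removal (definitions)
-/

namespace Pool.Agent.PP5LB

open Finset Pool.Agent.PP5L

/-- what is left after the removal (the same fields as `Pool.Agent.LB.Gx`) -/
structure Gd (r : ℕ) (x : Fin 10 → ℤ) : Prop where
  rk : ∀ p : ℕ, p.Prime → ∃ i j, ¬ (p : ℤ) ∣ (SS x).adjugate i j
  cp : ∀ p : ℕ, p.Prime → ¬ ((p : ℤ) ∣ dV x ∧ (p : ℤ) ∣ DD x)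
  nV : ∀ p : ℕ, p.Prime → ¬ ((p : ℤ) ∣ x 0 ∧ (p : ℤ) ∣ x 2 ∧ (p : ℤ) ∣ x 4 + x 5)
  sD : ∀ p : ℕ, p.Prime → (p : ℝ) ≤ (r : ℝ) ^ (1 / 100 : ℝ) → ¬ (p : ℤ) ^ 2 ∣ DD x

/-- bad modulo the prime `l` -/
def Bad1 (l : ℕ) (y : Fin 10 → ZMod l) : Prop :=
  (EE y = 0 ∧ MM y = 0) ∨ (dV y = 0 ∧ DD y = 0) ∨ (y 0 = 0 ∧ y 2 = 0 ∧ y 4 + y 5 = 0)

/-- bad modulo `l ^ 2` -/
def Bad2 (l : ℕ) (y : Fin 10 → ZMod (l ^ 2)) : Prop := DD y = 0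

end Pool.Agent.PP5LB
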