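import Pool.Agent.PP5LB.Bsc

set_option autoImplicit false

/-!
# LcB: `FF = dV = DD = 0` modulo an odd prime (size 4)

PROOF (`s = y4 + y5`, `d = y4 - y5`).
(a) `y0 = 0`: `s² = 0`, `s = 0`: as in `LcA` (c): `≤ 2 l⁷`.
(b) `y0 ≠ 0`: `y2 = s²/(4 y0)`.  Put `c = s y6 - 2 y0 y7`, `e = -(s y8) + 2 y0 y9`.  Identity (`ring`):
`2 y0 DD = 2 y0 dV dW + 2 y0 KK² + 2 (y3 c² + d c e + y1 e²) + dV (-2 y3 y6² + 2 d y6 y8 - 2 y1 y8²)`,
so `y3 c² + d c e + y1 e² = -y0 KK²`, and `dW = dV + 4 FF + 4 KK = 4 KK`, i.e. `d² - 4 y1 y3 = 4 KK`, where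
`2 y0 KK = y6 e + y8 c` is determined by `y0, y6, y8, c, e`.
The map `(y0, s, y6, y7, y8, y9) ↦ (y0, s, y6, y8, c, e)` is injective.  Given these six:
 - `(c,e) ≠ 0`: at most `2l` triples `(y1, y3, d)`: if `c ≠ 0`, `y3` is determined by `d, y1` and
   `d² - 4 y1 (..)/c² = ..` is a monic quadratic equation for `d` for each `y1`; if `c = 0`, `e ≠ 0`: `y1` is
   determined and `d² = 4 y1 y3 + 4 KK` for each `y3`.  Total `≤ l⁶ 2l`.
 - `c = e = 0`: `KK = 0`, `d² = 4 y1 y3`: `≤ 2 l²` triples (two `d` for each `y1, y3`).  Total `≤ l⁴ 2 l²`.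
-/

namespace Pool.Agent.PP5LB

open Finset Pool.Agent.PP5L

private theorem LcB_three {α F : Type*} [DecidableEq α] {T : Finset α} {g : α → F}
    (h : ∀ x ∈ T, ∀ y ∈ T, ∀ z ∈ T, g x ≠ g y → g x ≠ g z → g y = g z)
    (hg : ∀ x ∈ T, ∀ y ∈ T, g x = g y → x = y) : T.card ≤ 2 := by
  by_contra hc
  push Not at hc
  obtain ⟨a, ha, b, hb, c, hc', hab, hac, hbc⟩ := Finset.two_lt_card.1 hc
  exact hbc (hg b hb c hc' (h a ha b hb c hc' (fun e => hab (hg a ha b hb e)) (fun e => hac (hg a ha c hc' e))))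

section
variable {F : Type*} [Field F]

private theorem LcB_ext {y y' : Fin 10 → F} (h2 : (2 : F) ≠ 0) (h0 : y 0 = y' 0) (h1 : y 1 = y' 1) (h2' : y 2 = y' 2)
    (h3 : y 3 = y' 3) (hs : y 4 + y 5 = y' 4 + y' 5) (hd : y 4 - y 5 = y' 4 - y' 5) (h6 : y 6 = y' 6)
    (h7 : y 7 = y' 7) (h8 : y 8 = y' 8) (h9 : y 9 = y' 9) : y = y' := by
  have h4 : y 4 = y' 4 := by
    have : 2 * y 4 = 2 * y' 4 := by linear_combination hs + hd
    exact mul_left_cancel₀ h2 this
  have h5 : y 5 = y' 5 := by linear_combination hs - h4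
  funext j
  fin_cases j <;> assumption

private theorem LcB_id (y : Fin 10 → F) :
    2 * y 0 * DD y = 2 * y 0 * (dV y * dW y) + 2 * y 0 * KK y ^ 2
      + 2 * (y 3 * ((y 4 + y 5) * y 6 - 2 * y 0 * y 7) ^ 2
        + (y 4 - y 5) * ((y 4 + y 5) * y 6 - 2 * y 0 * y 7) * (-((y 4 + y 5) * y 8) + 2 * y 0 * y 9)
        + y 1 * (-((y 4 + y 5) * y 8) + 2 * y 0 * y 9) ^ 2)
      + dV y * (-2 * y 3 * y 6 ^ 2 + 2 * (y 4 - y 5) * y 6 * y 8 - 2 * y 1 * y 8 ^ 2) := by
  rw [DD_expl]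
  unfold dV dW KK
  ring

private theorem LcB_facts {y : Fin 10 → F} (h2 : (2 : F) ≠ 0) (hF : FF y = 0) (hV : dV y = 0) (hD : DD y = 0) :
    (y 4 + y 5) ^ 2 = 4 * y 0 * y 2 ∧ (y 4 - y 5) ^ 2 - 4 * y 1 * y 3 = 4 * KK y ∧
    y 3 * ((y 4 + y 5) * y 6 - 2 * y 0 * y 7) ^ 2
        + (y 4 - y 5) * ((y 4 + y 5) * y 6 - 2 * y 0 * y 7) * (-((y 4 + y 5) * y 8) + 2 * y 0 * y 9)
        + y 1 * (-((y 4 + y 5) * y 8) + 2 * y 0 * y 9) ^ 2 = -(y 0 * KK y ^ 2) ∧
    2 * y 0 * KK y = y 6 * (-((y 4 + y 5) * y 8) + 2 * y 0 * y 9) + y 8 * ((y 4 + y 5) * y 6 - 2 * y 0 * y 7) := by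
  refine ⟨?_, ?_, ?_, ?_⟩
  · unfold dV at hV; linear_combination hV
  · have h4 := FF4 y
    rw [hF, hV] at h4
    unfold dW at h4
    linear_combination -h4
  · have h := LcB_id y
    rw [hV, hD] at h
    apply mul_left_cancel₀ h2
    linear_combination -h
  · unfold KK; ring

end

open scoped Classical in
theorem lcB {l : ℕ} [Fact l.Prime] (hl : l ≠ 2) :
    ((univ : Finset (Fin 10 → ZMod l)).filter (fun y => FF y = 0 ∧ dV y = 0 ∧ DD y = 0)).card ≤
      5 * l ^ 7 := by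
  have h2 : (2 : ZMod l) ≠ 0 := by
    intro h
    have h' : ((2 : ℕ) : ZMod l) = 0 := by exact_mod_cast h
    rw [ZMod.natCast_eq_zero_iff] at h'
    exact hl ((Nat.prime_dvd_prime_iff_eq (Fact.out : l.Prime) Nat.prime_two).1 h')
  set S := (univ : Finset (Fin 10 → ZMod l)).filter (fun y => FF y = 0 ∧ dV y = 0 ∧ DD y = 0) with hS
  have hmem : ∀ y ∈ S, FF y = 0 ∧ dV y = 0 ∧ DD y = 0 := fun y hy => (Finset.mem_filter.1 hy).2
  let cc : (Fin 10 → ZMod l) → ZMod l := fun y => (y 4 + y 5) * y 6 - 2 * y 0 * y 7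
  let ee : (Fin 10 → ZMod l) → ZMod l := fun y => -((y 4 + y 5) * y 8) + 2 * y 0 * y 9
  let gg : (Fin 10 → ZMod l) → ZMod l := fun y => y 4 - y 5
  set S0 := S.filter (fun y => y 0 = 0) with hS0
  set S1 := S.filter (fun y => y 0 ≠ 0 ∧ ¬ (cc y = 0 ∧ ee y = 0)) with hS1
  set S2 := S.filter (fun y => y 0 ≠ 0 ∧ (cc y = 0 ∧ ee y = 0)) with hS2
  have hsub : S ⊆ S0 ∪ (S1 ∪ S2) := by
    intro y hy
    by_cases h0 : y 0 = 0
    · exact Finset.mem_union_left _ (Finset.mem_filter.2 ⟨hy, h0⟩)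
    · by_cases h1 : cc y = 0 ∧ ee y = 0
      · exact Finset.mem_union_right _ (Finset.mem_union_right _ (Finset.mem_filter.2 ⟨hy, h0, h1⟩))
      · exact Finset.mem_union_right _ (Finset.mem_union_left _ (Finset.mem_filter.2 ⟨hy, h0, h1⟩))
  have c7 : (univ : Finset (Fin 7 → ZMod l)).card = l ^ 7 := by
    rw [Finset.card_univ, Fintype.card_fun, ZMod.card, Fintype.card_fin]
  have c6 : (univ : Finset (Fin 6 → ZMod l)).card = l ^ 6 := by
    rw [Finset.card_univ, Fintype.card_fun, ZMod.card, Fintype.card_fin]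
  -- the part `y 0 = 0`
  have b0 : S0.card ≤ 2 * l ^ 7 := by
    rw [← c7]
    refine Finset.card_le_mul_card_image_of_maps_to
      (f := fun y : Fin 10 → ZMod l => (![y 1, y 2, y 3, y 6, y 7, y 8, y 9] : Fin 7 → ZMod l))
      (fun _ _ => Finset.mem_univ _) 2 (fun b _ => ?_)
    have key : ∀ y ∈ S0.filter (fun y : Fin 10 → ZMod l =>
        (![y 1, y 2, y 3, y 6, y 7, y 8, y 9] : Fin 7 → ZMod l) = b),
        y 0 = 0 ∧ y 4 + y 5 = 0 ∧ (y 4 - y 5) ^ 2 = 4 * (b 0 * b 2 + b 3 * b 6 - b 4 * b 5) ∧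
          y 1 = b 0 ∧ y 2 = b 1 ∧ y 3 = b 2 ∧ y 6 = b 3 ∧ y 7 = b 4 ∧ y 8 = b 5 ∧ y 9 = b 6 := by
      intro y hy
      rw [Finset.mem_filter, hS0, Finset.mem_filter] at hy
      obtain ⟨⟨hyS, h0⟩, hb⟩ := hy
      obtain ⟨hF, hV, -⟩ := hmem y hyS
      have e0 : y 1 = b 0 := congrFun hb 0
      have e1 : y 2 = b 1 := congrFun hb 1
      have e2 : y 3 = b 2 := congrFun hb 2
      have e3 : y 6 = b 3 := congrFun hb 3
      have e4 : y 7 = b 4 := congrFun hb 4
      have e5 : y 8 = b 5 := congrFun hb 5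
      have e6 : y 9 = b 6 := congrFun hb 6
      have hs : y 4 + y 5 = 0 := by
        unfold dV at hV
        rw [h0] at hV
        have : (y 4 + y 5) ^ 2 = 0 := by linear_combination hV
        exact pow_eq_zero_iff (two_ne_zero) |>.1 this
      refine ⟨h0, hs, ?_, e0, e1, e2, e3, e4, e5, e6⟩
      have h4 := FF4 y
      rw [hF, hV] at h4
      unfold dW KK at h4
      rw [← e0, ← e2, ← e3, ← e4, ← e5, ← e6]
      linear_combination -h4
    apply LcB_three (g := gg)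
    · intro x hx y hy z hz hxy hxz
      obtain ⟨-, -, qx, -⟩ := key x hx
      obtain ⟨-, -, qy, -⟩ := key y hy
      obtain ⟨-, -, qz, -⟩ := key z hz
      have p1 : (gg x - gg y) * (gg x + gg y) = 0 := by
        show ((x 4 - x 5) - (y 4 - y 5)) * ((x 4 - x 5) + (y 4 - y 5)) = 0
        linear_combination qx - qy
      have p2 : (gg x - gg z) * (gg x + gg z) = 0 := by
        show ((x 4 - x 5) - (z 4 - z 5)) * ((x 4 - x 5) + (z 4 - z 5)) = 0
        linear_combination qx - qz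
      have p1' := (mul_eq_zero.1 p1).resolve_left (sub_ne_zero.2 hxy)
      have p2' := (mul_eq_zero.1 p2).resolve_left (sub_ne_zero.2 hxz)
      linear_combination p1' - p2'
    · intro x hx y hy hxy
      obtain ⟨x0, xs, -, x1, x2, x3, x6, x7, x8, x9⟩ := key x hx
      obtain ⟨y0, ys, -, y1, y2, y3, y6, y7, y8, y9⟩ := key y hy
      exact LcB_ext h2 (x0.trans y0.symm) (x1.trans y1.symm) (x2.trans y2.symm) (x3.trans y3.symm)
        (xs.trans ys.symm) hxy (x6.trans y6.symm) (x7.trans y7.symm) (x8.trans y8.symm) (x9.trans y9.symm)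
  -- the part `y 0 ≠ 0`, `(c, e) ≠ 0`
  have b1 : S1.card ≤ 2 * l ^ 7 := by
    rw [← c7]
    refine Finset.card_le_mul_card_image_of_maps_to
      (f := fun y : Fin 10 → ZMod l =>
        (![y 0, y 4 + y 5, y 6, y 8, cc y, ee y, if cc y = 0 then y 3 else y 1] : Fin 7 → ZMod l))
      (fun _ _ => Finset.mem_univ _) 2 (fun b _ => ?_)
    have key : ∀ y ∈ S1.filter (fun y : Fin 10 → ZMod l =>
        (![y 0, y 4 + y 5, y 6, y 8, cc y, ee y, if cc y = 0 then y 3 else y 1] : Fin 7 → ZMod l) = b),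
        b 0 ≠ 0 ∧ ¬ (b 4 = 0 ∧ b 5 = 0) ∧ y 0 = b 0 ∧ y 4 + y 5 = b 1 ∧ y 6 = b 2 ∧ y 8 = b 3 ∧
          b 1 * y 6 - 2 * b 0 * y 7 = b 4 ∧ -(b 1 * y 8) + 2 * b 0 * y 9 = b 5 ∧
          (b 4 = 0 → y 3 = b 6) ∧ (b 4 ≠ 0 → y 1 = b 6) ∧
          b 1 ^ 2 = 4 * b 0 * y 2 ∧ (y 4 - y 5) ^ 2 - 4 * y 1 * y 3 = 4 * KK y ∧
          y 3 * b 4 ^ 2 + (y 4 - y 5) * b 4 * b 5 + y 1 * b 5 ^ 2 = -(b 0 * KK y ^ 2) ∧
          2 * b 0 * KK y = b 2 * b 5 + b 3 * b 4 := by
      intro y hy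
      rw [Finset.mem_filter, hS1, Finset.mem_filter] at hy
      obtain ⟨⟨hyS, h0, hce⟩, hb⟩ := hy
      obtain ⟨hF, hV, hD⟩ := hmem y hyS
      obtain ⟨f1, f2, f3, f4⟩ := LcB_facts h2 hF hV hD
      have e0 : y 0 = b 0 := congrFun hb 0
      have e1 : y 4 + y 5 = b 1 := congrFun hb 1
      have e2 : y 6 = b 2 := congrFun hb 2
      have e3 : y 8 = b 3 := congrFun hb 3
      have e4 : cc y = b 4 := congrFun hb 4
      have e5 : ee y = b 5 := congrFun hb 5
      have e6 : (if cc y = 0 then y 3 else y 1) = b 6 := congrFun hb 6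
      have e4' : (y 4 + y 5) * y 6 - 2 * y 0 * y 7 = b 4 := e4
      have e5' : -((y 4 + y 5) * y 8) + 2 * y 0 * y 9 = b 5 := e5
      rw [e4', e5'] at f3 f4
      rw [e1, e0] at e4' e5'
      rw [e1, e0] at f1
      rw [e0] at f3 f4
      rw [e2, e3] at f4
      refine ⟨e0 ▸ h0, ?_, e0, e1, e2, e3, e4', e5', ?_, ?_, f1, f2, f3, f4⟩
      · rw [← e4, ← e5]; exact hce
      · intro h; rw [e4, if_pos h] at e6; exact e6
      · intro h; rw [e4, if_neg h] at e6; exact e6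
    apply LcB_three (g := gg)
    · intro x hx y hy z hz hxy hxz
      obtain ⟨hb0, hbb, -, -, -, -, -, -, x3, x1, -, qx, tx, kx⟩ := key x hx
      obtain ⟨-, -, -, -, -, -, -, -, y3, y1, -, qy, ty, ky⟩ := key y hy
      obtain ⟨-, -, -, -, -, -, -, -, z3, z1, -, qz, tz, kz⟩ := key z hz
      have h20 : (2 : ZMod l) * b 0 ≠ 0 := mul_ne_zero h2 hb0
      have kxy : KK x = KK y := mul_left_cancel₀ h20 (kx.trans ky.symm)
      have kxz : KK x = KK z := mul_left_cancel₀ h20 (kx.trans kz.symm)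
      have nxy : (x 4 - x 5) - (y 4 - y 5) ≠ 0 := sub_ne_zero.2 hxy
      have nxz : (x 4 - x 5) - (z 4 - z 5) ≠ 0 := sub_ne_zero.2 hxz
      show y 4 - y 5 = z 4 - z 5
      by_cases h4 : b 4 = 0
      · have h5 : b 5 ≠ 0 := fun h => hbb ⟨h4, h⟩
        have h55 : b 5 ^ 2 ≠ 0 := pow_ne_zero 2 h5
        rw [h4] at tx ty tz
        rw [x3 h4] at qx tx
        rw [y3 h4] at qy ty
        rw [z3 h4] at qz tz
        have o1 : x 1 = y 1 := by
          apply mul_right_cancel₀ h55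
          rw [kxy] at tx
          linear_combination tx - ty
        have o2 : x 1 = z 1 := by
          apply mul_right_cancel₀ h55
          rw [kxz] at tx
          linear_combination tx - tz
        have p1 : ((x 4 - x 5) - (y 4 - y 5)) * ((x 4 - x 5) + (y 4 - y 5)) = 0 := by
          rw [kxy, o1] at qx
          linear_combination qx - qy
        have p2 : ((x 4 - x 5) - (z 4 - z 5)) * ((x 4 - x 5) + (z 4 - z 5)) = 0 := by
          rw [kxz, o2] at qx
          linear_combination qx - qz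
        have p1' := (mul_eq_zero.1 p1).resolve_left nxy
        have p2' := (mul_eq_zero.1 p2).resolve_left nxz
        linear_combination p1' - p2'
      · rw [x1 h4] at qx tx
        rw [y1 h4] at qy ty
        rw [z1 h4] at qz tz
        have h44 : b 4 ^ 2 ≠ 0 := pow_ne_zero 2 h4
        have main : ∀ w : Fin 10 → ZMod l, KK x = KK w → (x 4 - x 5) - (w 4 - w 5) ≠ 0 →
            (w 4 - w 5) ^ 2 - 4 * b 6 * w 3 = 4 * KK w →
            w 3 * b 4 ^ 2 + (w 4 - w 5) * b 4 * b 5 + b 6 * b 5 ^ 2 = -(b 0 * KK w ^ 2) →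
            b 4 ^ 2 * ((x 4 - x 5) + (w 4 - w 5)) = -(4 * b 6 * b 4 * b 5) := by
          intro w kw nw qw tw
          rw [← kw] at qw tw
          apply mul_left_cancel₀ nw
          linear_combination b 4 ^ 2 * qx - b 4 ^ 2 * qw + 4 * b 6 * tx - 4 * b 6 * tw
        have m1 := main y kxy nxy qy ty
        have m2 := main z kxz nxz qz tz
        have m3 : b 4 ^ 2 * (y 4 - y 5) = b 4 ^ 2 * (z 4 - z 5) := by linear_combination m1 - m2
        exact mul_left_cancel₀ h44 m3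
    · intro x hx y hy hxy
      obtain ⟨hb0, hbb, x0, xs, x6, x8, xc, xe, x3, x1, x2, qx, tx, kx⟩ := key x hx
      obtain ⟨-, -, y0, ys, y6, y8, yc, ye, y3, y1, y2, qy, ty, ky⟩ := key y hy
      have hxy' : x 4 - x 5 = y 4 - y 5 := hxy
      have h20 : (2 : ZMod l) * b 0 ≠ 0 := mul_ne_zero h2 hb0
      have h40 : (4 : ZMod l) * b 0 ≠ 0 := by
        have : (4 : ZMod l) = 2 * 2 := by norm_num
        rw [this]; exact mul_ne_zero (mul_ne_zero h2 h2) hb0
      have kxy : KK x = KK y := mul_left_cancel₀ h20 (kx.trans ky.symm)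
      have x7 : x 7 = y 7 := by
        apply mul_left_cancel₀ h20
        rw [x6] at xc
        rw [y6] at yc
        linear_combination yc - xc
      have x9 : x 9 = y 9 := by
        apply mul_left_cancel₀ h20
        rw [x8] at xe
        rw [y8] at ye
        linear_combination xe - ye
      have o2 : x 2 = y 2 := by
        apply mul_left_cancel₀ h40
        linear_combination y2 - x2
      have o13 : x 1 = y 1 ∧ x 3 = y 3 := by
        by_cases h4 : b 4 = 0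
        · have h5 : b 5 ≠ 0 := fun h => hbb ⟨h4, h⟩
          have h55 : b 5 ^ 2 ≠ 0 := pow_ne_zero 2 h5
          refine ⟨?_, (x3 h4).trans (y3 h4).symm⟩
          apply mul_right_cancel₀ h55
          rw [h4] at tx ty
          rw [kxy] at tx
          linear_combination tx - ty
        · have h44 : b 4 ^ 2 ≠ 0 := pow_ne_zero 2 h4
          refine ⟨(x1 h4).trans (y1 h4).symm, ?_⟩
          apply mul_right_cancel₀ h44
          rw [x1 h4, kxy, hxy'] at tx
          rw [y1 h4] at ty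
          linear_combination tx - ty
      exact LcB_ext h2 (x0.trans y0.symm) o13.1 o2 o13.2 (xs.trans ys.symm) hxy (x6.trans y6.symm) x7
        (x8.trans y8.symm) x9
  -- the part `y 0 ≠ 0`, `c = e = 0`
  have b2 : S2.card ≤ 2 * l ^ 6 := by
    rw [← c6]
    refine Finset.card_le_mul_card_image_of_maps_to
      (f := fun y : Fin 10 → ZMod l => (![y 0, y 4 + y 5, y 6, y 8, y 1, y 3] : Fin 6 → ZMod l))
      (fun _ _ => Finset.mem_univ _) 2 (fun b _ => ?_)
    have key : ∀ y ∈ S2.filter (fun y : Fin 10 → ZMod l =>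
        (![y 0, y 4 + y 5, y 6, y 8, y 1, y 3] : Fin 6 → ZMod l) = b),
        b 0 ≠ 0 ∧ y 0 = b 0 ∧ y 4 + y 5 = b 1 ∧ y 6 = b 2 ∧ y 8 = b 3 ∧ y 1 = b 4 ∧ y 3 = b 5 ∧
          b 1 * b 2 - 2 * b 0 * y 7 = 0 ∧ -(b 1 * b 3) + 2 * b 0 * y 9 = 0 ∧
          b 1 ^ 2 = 4 * b 0 * y 2 ∧ (y 4 - y 5) ^ 2 = 4 * b 4 * b 5 := by
      intro y hy
      rw [Finset.mem_filter, hS2, Finset.mem_filter] at hy
      obtain ⟨⟨hyS, h0, hc, he⟩, hb⟩ := hy
      obtain ⟨hF, hV, hD⟩ := hmem y hyS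
      obtain ⟨f1, f2, f3, f4⟩ := LcB_facts h2 hF hV hD
      have e0 : y 0 = b 0 := congrFun hb 0
      have e1 : y 4 + y 5 = b 1 := congrFun hb 1
      have e2 : y 6 = b 2 := congrFun hb 2
      have e3 : y 8 = b 3 := congrFun hb 3
      have e4 : y 1 = b 4 := congrFun hb 4
      have e5 : y 3 = b 5 := congrFun hb 5
      have hc' : (y 4 + y 5) * y 6 - 2 * y 0 * y 7 = 0 := hc
      have he' : -((y 4 + y 5) * y 8) + 2 * y 0 * y 9 = 0 := he
      rw [hc', he'] at f4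
      have hk : KK y = 0 := by
        have : 2 * y 0 * KK y = 0 := by rw [f4]; ring
        exact (mul_eq_zero.1 this).resolve_left (mul_ne_zero h2 h0)
      rw [hk, e4, e5] at f2
      rw [e1, e0, e2] at hc'
      rw [e1, e0, e3] at he'
      rw [e1, e0] at f1
      refine ⟨e0 ▸ h0, e0, e1, e2, e3, e4, e5, hc', he', f1, ?_⟩
      linear_combination f2
    apply LcB_three (g := gg)
    · intro x hx y hy z hz hxy hxz
      obtain ⟨-, -, -, -, -, -, -, -, -, -, qx⟩ := key x hx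
      obtain ⟨-, -, -, -, -, -, -, -, -, -, qy⟩ := key y hy
      obtain ⟨-, -, -, -, -, -, -, -, -, -, qz⟩ := key z hz
      have p1 : ((x 4 - x 5) - (y 4 - y 5)) * ((x 4 - x 5) + (y 4 - y 5)) = 0 := by
        linear_combination qx - qy
      have p2 : ((x 4 - x 5) - (z 4 - z 5)) * ((x 4 - x 5) + (z 4 - z 5)) = 0 := by
        linear_combination qx - qz
      have p1' := (mul_eq_zero.1 p1).resolve_left (sub_ne_zero.2 hxy)
      have p2' := (mul_eq_zero.1 p2).resolve_left (sub_ne_zero.2 hxz)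
      show y 4 - y 5 = z 4 - z 5
      linear_combination p1' - p2'
    · intro x hx y hy hxy
      obtain ⟨hb0, x0, xs, x6, x8, x1, x3, xc, xe, x2, -⟩ := key x hx
      obtain ⟨-, y0, ys, y6, y8, y1, y3, yc, ye, y2, -⟩ := key y hy
      have h20 : (2 : ZMod l) * b 0 ≠ 0 := mul_ne_zero h2 hb0
      have h40 : (4 : ZMod l) * b 0 ≠ 0 := by
        have : (4 : ZMod l) = 2 * 2 := by norm_num
        rw [this]; exact mul_ne_zero (mul_ne_zero h2 h2) hb0
      have x7 : x 7 = y 7 := by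
        apply mul_left_cancel₀ h20
        linear_combination yc - xc
      have x9 : x 9 = y 9 := by
        apply mul_left_cancel₀ h20
        linear_combination xe - ye
      have o2 : x 2 = y 2 := by
        apply mul_left_cancel₀ h40
        linear_combination y2 - x2
      exact LcB_ext h2 (x0.trans y0.symm) (x1.trans y1.symm) o2 (x3.trans y3.symm) (xs.trans ys.symm) hxy
        (x6.trans y6.symm) x7 (x8.trans y8.symm) x9
  have h67 : 2 * l ^ 6 ≤ l ^ 7 := by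
    rw [pow_succ l 6, mul_comm (l ^ 6) l]
    exact Nat.mul_le_mul_right _ (Fact.out : l.Prime).two_le
  calc S.card ≤ (S0 ∪ (S1 ∪ S2)).card := Finset.card_le_card hsub
    _ ≤ S0.card + (S1.card + S2.card) :=
        (Finset.card_union_le _ _).trans (Nat.add_le_add_left (Finset.card_union_le _ _) _)
    _ ≤ 2 * l ^ 7 + (2 * l ^ 7 + l ^ 7) := by omega
    _ = 5 * l ^ 7 := by ring

end Pool.Agent.PP5LB
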