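import Pool.Agent.PP5LB.Bsc

set_option autoImplicit false

/-!
# LcS: the block `V` vanishes modulo a prime (size 1)

PROOF. `y0 = y2 = 0`, `y5 = -y4`: `FF = -y1 y3 + y4² - y6 y9 + y7 y8`: for given `y1, y3, y6, .., y9` at most two `y4`:
`≤ 2 l⁶`.
-/

namespace Pool.Agent.PP5LB

open Finset Pool.Agent.PP5L

open scoped Classical in
theorem lcSV {l : ℕ} [Fact l.Prime] :
    ((univ : Finset (Fin 10 → ZMod l)).filter (fun y => FF y = 0 ∧ y 0 = 0 ∧ y 2 = 0 ∧
      y 4 + y 5 = 0)).card ≤ 2 * l ^ 6 := by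
  set f : (Fin 10 → ZMod l) → (Fin 6 → ZMod l) := fun y => ![y 1, y 3, y 6, y 7, y 8, y 9] with hf
  have h1 := Finset.card_le_mul_card_image_of_maps_to (s := (univ : Finset (Fin 10 → ZMod l)).filter
      (fun y => FF y = 0 ∧ y 0 = 0 ∧ y 2 = 0 ∧ y 4 + y 5 = 0)) (t := univ) (f := f)
      (fun a _ => Finset.mem_univ _) 2 (by
    intro b _
    set c : ZMod l := b 0 * b 1 + b 2 * b 5 - b 3 * b 4 with hc
    have h2 : (Polynomial.nthRoots 2 c).toFinset.card ≤ 2 :=
      (Multiset.toFinset_card_le _).trans (Polynomial.card_nthRoots 2 c)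
    refine le_trans (Finset.card_le_card_of_injOn (fun a => a 4) ?_ ?_) h2
    · intro a ha
      rw [Finset.mem_coe, Finset.mem_filter, Finset.mem_filter] at ha
      obtain ⟨⟨-, hF, h0, h2', h45⟩, hb⟩ := ha
      rw [Finset.mem_coe, Multiset.mem_toFinset, Polynomial.mem_nthRoots (by norm_num)]
      have e5 : a 5 = -a 4 := by linear_combination h45
      have hb0 : b 0 = a 1 := by rw [← hb]; rfl
      have hb1 : b 1 = a 3 := by rw [← hb]; rfl
      have hb2 : b 2 = a 6 := by rw [← hb]; rfl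
      have hb3 : b 3 = a 7 := by rw [← hb]; rfl
      have hb4 : b 4 = a 8 := by rw [← hb]; rfl
      have hb5 : b 5 = a 9 := by rw [← hb]; rfl
      have hF' : a 0 * a 2 - a 1 * a 3 - a 4 * a 5 - a 6 * a 9 + a 7 * a 8 = 0 := hF
      rw [hc, hb0, hb1, hb2, hb3, hb4, hb5]
      rw [h0, h2', e5] at hF'
      linear_combination hF'
    · intro a ha a' ha' h4
      rw [Finset.mem_coe, Finset.mem_filter, Finset.mem_filter] at ha ha'
      obtain ⟨⟨-, -, h0, h2', h45⟩, hb⟩ := ha
      obtain ⟨⟨-, -, h0', h2'', h45'⟩, hb'⟩ := ha'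
      have h4' : a 4 = a' 4 := h4
      have hff : f a = f a' := hb.trans hb'.symm
      have e (i : Fin 6) : f a i = f a' i := congrFun hff i
      funext j
      fin_cases j
      · show a 0 = a' 0
        rw [h0, h0']
      · exact e 0
      · show a 2 = a' 2
        rw [h2', h2'']
      · exact e 1
      · exact h4'
      · show a 5 = a' 5
        linear_combination h45 - h45' - h4'
      · exact e 2
      · exact e 3
      · exact e 4
      · exact e 5)
  have h3 : (univ : Finset (Fin 6 → ZMod l)).card = l ^ 6 := by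
    rw [Finset.card_univ, Fintype.card_fun, ZMod.card, Fintype.card_fin]
  rw [h3] at h1
  exact h1

end Pool.Agent.PP5LB
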