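import Pool.Agent.PP5LB.LcA
import Pool.Agent.PP5LB.LcB
import Pool.Agent.PP5LB.LcS
import Pool.Agent.PP5LB.Df2

set_option autoImplicit false

/-!
# Lc1: the bad classes modulo `l` (size 1)

PROOF. `VM l` is contained in `{FF = 0}` (`mem_VM`); add `lcA`, `lcB`, `lcSV`: `5 + 5 + 2 = 12` (`l ^ 6 ≤ l ^ 7`).
-/

namespace Pool.Agent.PP5LB

open Finset Pool.Agent.PP5L

open scoped Classical in
theorem lc1 {l : ℕ} [NeZero l] (hl : l.Prime) (h2 : l ≠ 2) :
    ((VM l).filter (fun y => Bad1 l y)).card ≤ 12 * l ^ 7 := by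
  have := Fact.mk hl
  have hA := lcA (l := l) h2
  have hB := lcB (l := l) h2
  have hS := lcSV (l := l)
  have hsub : (VM l).filter (fun y => Bad1 l y) ⊆
      ((univ : Finset (Fin 10 → ZMod l)).filter (fun y => FF y = 0 ∧ EE y = 0 ∧ MM y = 0)) ∪
      (((univ : Finset (Fin 10 → ZMod l)).filter (fun y => FF y = 0 ∧ dV y = 0 ∧ DD y = 0)) ∪
      ((univ : Finset (Fin 10 → ZMod l)).filter (fun y => FF y = 0 ∧ y 0 = 0 ∧ y 2 = 0 ∧
        y 4 + y 5 = 0))) := by
    intro y hy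
    rw [mem_filter] at hy
    have hF : FF y = 0 := by
      have h := hy.1
      unfold VM at h
      rw [mem_filter] at h
      exact h.2.1
    rw [mem_union, mem_union, mem_filter, mem_filter, mem_filter]
    rcases hy.2 with h | h | h
    · exact Or.inl ⟨mem_univ _, hF, h⟩
    · exact Or.inr (Or.inl ⟨mem_univ _, hF, h⟩)
    · exact Or.inr (Or.inr ⟨mem_univ _, hF, h⟩)
  have h3 := (card_le_card hsub).trans ((card_union_le _ _).trans
    (Nat.add_le_add_left (card_union_le _ _) _))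
  have h4 : l ^ 6 ≤ l ^ 7 := Nat.pow_le_pow_right hl.pos (by norm_num)
  refine h3.trans ?_
  calc _ ≤ 5 * l ^ 7 + (5 * l ^ 7 + 2 * l ^ 6) := Nat.add_le_add hA (Nat.add_le_add hB hS)
    _ ≤ 12 * l ^ 7 := by omega

end Pool.Agent.PP5LB
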