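import Pool.Agent.PP5LB.Bsc

set_option autoImplicit false

/-!
# LcDb: `l² ∣ D`, `y 1` not a unit (size 5)

PROOF. `R = ZMod (l²)`, `π : R → ZMod l`, `π y1 = 0`; then `π y6 ≠ 0` or `π y7 ≠ 0` (`Uni`).  `N = y0y2 - y4y5`,
`FF = 0` reads `y1 y3 + y6 y9 - y7 y8 = N`.  Say `y6` is a unit (the other case is the same with `y8` instead of `y9`):
`y9 = (N - y1 y3 + y7 y8)/y6`, so `(y3, y8)` are free, and `π y9 = π((N + y7 y8)/y6)` does not depend on `y3`.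
 (2a) `π EE ≠ 0`: `DD = -4 y3 EE + (terms without y3)` (as a polynomial in `y3`, `DD_expl`), so modulo `l`, for given `y8`, the
   class of `y3` modulo `l` is determined: `≤ l² · l` pairs `(y8,y3)`; bases (`y0,y1,y2,y4,y5,y6,y7` with `π y1 = 0`)
   `≤ l^13`: total `l^16` (twice: `y6` unit, `y7` unit: `2 l^16`).
 (2b) `π EE = 0`: modulo `l`, `EE = -(y0 y7² - s y6 y7 + y2 y6²)`, linear in `(y0, s, y2)` with a nonzero coefficient
   (`y7²` or `y6²`): bases `≤ l^12`, fibre `≤ l⁴` (`y3, y8` free): `l^16` (twice).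
-/

namespace Pool.Agent.PP5LB

open Finset Pool.Agent.PP5L

private noncomputable def LcDb_pi (l : ℕ) : ZMod (l ^ 2) →+* ZMod l :=
  ZMod.castHom (dvd_pow_self l two_ne_zero) (ZMod l)

private theorem LcDb_pi_val {l : ℕ} [NeZero (l ^ 2)] (a : ZMod (l ^ 2)) :
    LcDb_pi l a = ((a.val : ℕ) : ZMod l) := by
  unfold LcDb_pi
  rw [ZMod.castHom_apply, ZMod.natCast_val]

private noncomputable def LcDb_dg {l : ℕ} (a : ZMod (l ^ 2)) : ZMod l := ((a.val / l : ℕ) : ZMod l)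

private theorem LcDb_inj {l : ℕ} [NeZero (l ^ 2)] (hl : l.Prime) {a b : ZMod (l ^ 2)}
    (h1 : LcDb_pi l a = LcDb_pi l b) (h2 : LcDb_dg a = LcDb_dg b) : a = b := by
  rw [LcDb_pi_val, LcDb_pi_val, ZMod.natCast_eq_natCast_iff] at h1
  unfold LcDb_dg at h2
  rw [ZMod.natCast_eq_natCast_iff] at h2
  have h3 : ∀ c : ZMod (l ^ 2), c.val / l < l := by
    intro c
    rw [Nat.div_lt_iff_lt_mul hl.pos, ← sq]
    exact ZMod.val_lt c
  have h4 : a.val / l = b.val / l := by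
    have := h2
    unfold Nat.ModEq at this
    rw [Nat.mod_eq_of_lt (h3 a), Nat.mod_eq_of_lt (h3 b)] at this
    exact this
  apply ZMod.val_injective
  rw [← Nat.div_add_mod a.val l, ← Nat.div_add_mod b.val l, h4, h1]

private theorem LcDb_unit {l : ℕ} [NeZero (l ^ 2)] (hl : l.Prime) {a : ZMod (l ^ 2)}
    (h : LcDb_pi l a ≠ 0) : IsUnit a := by
  rw [LcDb_pi_val, Ne, ZMod.natCast_eq_zero_iff] at h
  rw [← ZMod.natCast_zmod_val a, ZMod.isUnit_iff_coprime]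
  exact Nat.Coprime.pow_right 2 ((Nat.Prime.coprime_iff_not_dvd hl).2 h).symm

private theorem LcDb_ne {l : ℕ} (hl : l.Prime) {a : ZMod (l ^ 2)} (h : IsUnit a) :
    LcDb_pi l a ≠ 0 := by
  have : Fact l.Prime := ⟨hl⟩
  exact (h.map (LcDb_pi l)).ne_zero

private theorem LcDb_card {l : ℕ} [NeZero (l ^ 2)] [NeZero l] :
    Fintype.card ((Fin 7 → ZMod (l ^ 2)) × ZMod l × ZMod l) = l ^ 16 := by
  rw [Fintype.card_prod, Fintype.card_prod, Fintype.card_fun, Fintype.card_fin, ZMod.card,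
    ZMod.card]
  ring

open scoped Classical in
private theorem LcDb_a {l : ℕ} [NeZero (l ^ 2)] (hl : l.Prime) (h2 : l ≠ 2) :
    ((univ : Finset (Fin 10 → ZMod (l ^ 2))).filter (fun y => FF y = 0 ∧ DD y = 0 ∧
      LcDb_pi l (y 1) = 0 ∧ LcDb_pi l (y 6) ≠ 0 ∧ LcDb_pi l (EE y) ≠ 0)).card ≤ l ^ 16 := by
  have : Fact l.Prime := ⟨hl⟩
  have : NeZero l := ⟨hl.ne_zero⟩
  rw [← LcDb_card (l := l), ← Finset.card_univ]
  refine Finset.card_le_card_of_injOn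
    (fun y => ((fun i : Fin 7 => y (![0, 2, 4, 5, 6, 7, 8] i)), LcDb_dg (y 1), LcDb_dg (y 3)))
    (fun _ _ => Finset.mem_coe.2 (Finset.mem_univ _)) ?_
  intro y hy z hz h
  rw [Finset.mem_coe, Finset.mem_filter] at hy hz
  obtain ⟨-, hy1, hy2, hy3, hy4, hy5⟩ := hy
  obtain ⟨-, hz1, hz2, hz3, -, -⟩ := hz
  rw [Prod.mk.injEq, Prod.mk.injEq] at h
  obtain ⟨h0, h11, h33⟩ := h
  have e0 : y 0 = z 0 := congrFun h0 0
  have e2 : y 2 = z 2 := congrFun h0 1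
  have e4 : y 4 = z 4 := congrFun h0 2
  have e5 : y 5 = z 5 := congrFun h0 3
  have e6 : y 6 = z 6 := congrFun h0 4
  have e7 : y 7 = z 7 := congrFun h0 5
  have e8 : y 8 = z 8 := congrFun h0 6
  have e1 : y 1 = z 1 := LcDb_inj hl (hy3.trans hz3.symm) h11
  have F1 : FF (fun j => LcDb_pi l (y j)) = 0 := by rw [map_FF, hy1, map_zero]
  have F2 : FF (fun j => LcDb_pi l (z j)) = 0 := by rw [map_FF, hz1, map_zero]
  have D1 : DD (fun j => LcDb_pi l (y j)) = 0 := by rw [map_DD, hy2, map_zero]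
  have D2 : DD (fun j => LcDb_pi l (z j)) = 0 := by rw [map_DD, hz2, map_zero]
  have E1 : EE (fun j => LcDb_pi l (y j)) ≠ 0 := by rw [map_EE]; exact hy5
  unfold FF at F1 F2
  simp only [← e0, ← e1, ← e2, ← e4, ← e5, ← e6, ← e7, ← e8, hy3] at F1 F2
  have e9 : LcDb_pi l (y 9) = LcDb_pi l (z 9) := by
    refine mul_left_cancel₀ hy4 ?_
    linear_combination F2 - F1
  have two : (2 : ZMod l) ≠ 0 := by
    intro h
    have h' : ((2 : ℕ) : ZMod l) = 0 := by exact_mod_cast h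
    rw [ZMod.natCast_eq_zero_iff] at h'
    exact h2 ((Nat.prime_dvd_prime_iff_eq hl Nat.prime_two).1 h')
  have e3 : LcDb_pi l (y 3) = LcDb_pi l (z 3) := by
    rw [DD_expl] at D1 D2
    unfold EE dV at E1
    unfold dV dW KK at D1 D2
    simp only [← e0, ← e1, ← e2, ← e4, ← e5, ← e6, ← e7, ← e8, ← e9] at D2
    have h4 : (2 * 2 * (LcDb_pi l (y 1) * ((LcDb_pi l (y 4) + LcDb_pi l (y 5)) ^ 2
        - 4 * LcDb_pi l (y 0) * LcDb_pi l (y 2)) - LcDb_pi l (y 0) * LcDb_pi l (y 7) ^ 2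
        + (LcDb_pi l (y 4) + LcDb_pi l (y 5)) * LcDb_pi l (y 6) * LcDb_pi l (y 7)
        - LcDb_pi l (y 2) * LcDb_pi l (y 6) ^ 2)) ≠ 0 := mul_ne_zero (mul_ne_zero two two) E1
    refine mul_left_cancel₀ h4 ?_
    linear_combination D2 - D1
  have e3' : y 3 = z 3 := LcDb_inj hl e3 h33
  have e9' : y 9 = z 9 := by
    refine (LcDb_unit hl hy4).mul_left_cancel ?_
    unfold FF at hy1 hz1
    rw [← e0, ← e1, ← e2, ← e3', ← e4, ← e5, ← e6, ← e7, ← e8] at hz1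
    linear_combination hz1 - hy1
  funext j
  fin_cases j
  · exact e0
  · exact e1
  · exact e2
  · exact e3'
  · exact e4
  · exact e5
  · exact e6
  · exact e7
  · exact e8
  · exact e9'

open scoped Classical in
private theorem LcDb_b {l : ℕ} [NeZero (l ^ 2)] (hl : l.Prime) :
    ((univ : Finset (Fin 10 → ZMod (l ^ 2))).filter (fun y => FF y = 0 ∧
      LcDb_pi l (y 1) = 0 ∧ LcDb_pi l (y 6) ≠ 0 ∧ LcDb_pi l (EE y) = 0)).card ≤ l ^ 16 := by
  have : Fact l.Prime := ⟨hl⟩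
  have : NeZero l := ⟨hl.ne_zero⟩
  rw [← LcDb_card (l := l), ← Finset.card_univ]
  refine Finset.card_le_card_of_injOn
    (fun y => ((fun i : Fin 7 => y (![0, 3, 4, 5, 6, 7, 8] i)), LcDb_dg (y 1), LcDb_dg (y 2)))
    (fun _ _ => Finset.mem_coe.2 (Finset.mem_univ _)) ?_
  intro y hy z hz h
  rw [Finset.mem_coe, Finset.mem_filter] at hy hz
  obtain ⟨-, hy1, hy3, hy4, hy5⟩ := hy
  obtain ⟨-, hz1, hz3, -, hz5⟩ := hz
  rw [Prod.mk.injEq, Prod.mk.injEq] at h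
  obtain ⟨h0, h11, h22⟩ := h
  have e0 : y 0 = z 0 := congrFun h0 0
  have e3 : y 3 = z 3 := congrFun h0 1
  have e4 : y 4 = z 4 := congrFun h0 2
  have e5 : y 5 = z 5 := congrFun h0 3
  have e6 : y 6 = z 6 := congrFun h0 4
  have e7 : y 7 = z 7 := congrFun h0 5
  have e8 : y 8 = z 8 := congrFun h0 6
  have e1 : y 1 = z 1 := LcDb_inj hl (hy3.trans hz3.symm) h11
  have E1 : EE (fun j => LcDb_pi l (y j)) = 0 := by rw [map_EE]; exact hy5
  have E2 : EE (fun j => LcDb_pi l (z j)) = 0 := by rw [map_EE]; exact hz5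
  have e2' : LcDb_pi l (y 2) = LcDb_pi l (z 2) := by
    unfold EE dV at E1 E2
    simp only [← e0, ← e1, ← e4, ← e5, ← e6, ← e7, hy3] at E1 E2
    refine mul_left_cancel₀ (pow_ne_zero 2 hy4) ?_
    linear_combination E2 - E1
  have e2 : y 2 = z 2 := LcDb_inj hl e2' h22
  have e9 : y 9 = z 9 := by
    refine (LcDb_unit hl hy4).mul_left_cancel ?_
    unfold FF at hy1 hz1
    rw [← e0, ← e1, ← e2, ← e3, ← e4, ← e5, ← e6, ← e7, ← e8] at hz1
    linear_combination hz1 - hy1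
  funext j
  fin_cases j
  · exact e0
  · exact e1
  · exact e2
  · exact e3
  · exact e4
  · exact e5
  · exact e6
  · exact e7
  · exact e8
  · exact e9

private def LcDb_tau {R : Type*} [CommRing R] (y : Fin 10 → R) : Fin 10 → R :=
  ![y 2, y 1, y 0, y 3, y 5, y 4, y 7, y 6, -y 9, -y 8]

private theorem LcDb_tau_FF {R : Type*} [CommRing R] (y : Fin 10 → R) :
    FF (LcDb_tau y) = FF y := by
  have h : FF (LcDb_tau y) = y 2 * y 0 - y 1 * y 3 - y 5 * y 4 - y 7 * (-y 8) + y 6 * (-y 9) := rfl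
  rw [h]
  unfold FF
  ring

private theorem LcDb_tau_DD {R : Type*} [CommRing R] (y : Fin 10 → R) :
    DD (LcDb_tau y) = DD y := by
  rw [DD_expl, DD_expl]
  have h : dV (LcDb_tau y) = (y 5 + y 4) ^ 2 - 4 * y 2 * y 0 := rfl
  have h' : dW (LcDb_tau y) = (y 5 - y 4) ^ 2 - 4 * y 1 * y 3 := rfl
  have h'' : KK (LcDb_tau y) = y 7 * (-y 8) - y 6 * (-y 9) := rfl
  rw [h, h', h'']
  change _ + _ + 4 * y 0 * (y 3 * y 7 ^ 2 - (y 5 - y 4) * y 7 * (-y 9) + y 1 * (-y 9) ^ 2)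
    - 2 * (y 5 + y 4) * (2 * y 3 * y 7 * y 6 - (y 5 - y 4) * y 7 * (-y 8)
      - (y 5 - y 4) * y 6 * (-y 9) + 2 * y 1 * (-y 9) * (-y 8))
    + 4 * y 2 * (y 3 * y 6 ^ 2 - (y 5 - y 4) * y 6 * (-y 8) + y 1 * (-y 8) ^ 2) = _
  unfold dV dW KK
  ring

private theorem LcDb_tau_inj {R : Type*} [CommRing R] :
    Function.Injective (LcDb_tau (R := R)) := by
  intro y z h
  have h0 : y 2 = z 2 := congrFun h 0
  have h1 : y 1 = z 1 := congrFun h 1
  have h2 : y 0 = z 0 := congrFun h 2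
  have h3 : y 3 = z 3 := congrFun h 3
  have h4 : y 5 = z 5 := congrFun h 4
  have h5 : y 4 = z 4 := congrFun h 5
  have h6 : y 7 = z 7 := congrFun h 6
  have h7 : y 6 = z 6 := congrFun h 7
  have h8 : -y 9 = -z 9 := congrFun h 8
  have h9 : -y 8 = -z 8 := congrFun h 9
  funext j
  fin_cases j
  · exact h2
  · exact h1
  · exact h0
  · exact h3
  · exact h5
  · exact h4
  · exact h7
  · exact h6
  · exact neg_injective h9
  · exact neg_injective h8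

open scoped Classical in
private theorem LcDb_6 {l : ℕ} [NeZero (l ^ 2)] (hl : l.Prime) (h2 : l ≠ 2) :
    ((univ : Finset (Fin 10 → ZMod (l ^ 2))).filter (fun y => FF y = 0 ∧ DD y = 0 ∧
      LcDb_pi l (y 1) = 0 ∧ LcDb_pi l (y 6) ≠ 0)).card ≤ 2 * l ^ 16 := by
  have h : (univ : Finset (Fin 10 → ZMod (l ^ 2))).filter (fun y => FF y = 0 ∧ DD y = 0 ∧
      LcDb_pi l (y 1) = 0 ∧ LcDb_pi l (y 6) ≠ 0)
      ⊆ (univ : Finset (Fin 10 → ZMod (l ^ 2))).filter (fun y => FF y = 0 ∧ DD y = 0 ∧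
      LcDb_pi l (y 1) = 0 ∧ LcDb_pi l (y 6) ≠ 0 ∧ LcDb_pi l (EE y) ≠ 0)
      ∪ (univ : Finset (Fin 10 → ZMod (l ^ 2))).filter (fun y => FF y = 0 ∧
      LcDb_pi l (y 1) = 0 ∧ LcDb_pi l (y 6) ≠ 0 ∧ LcDb_pi l (EE y) = 0) := by
    intro y hy
    rw [Finset.mem_filter] at hy
    obtain ⟨-, a, b, c, d⟩ := hy
    rw [Finset.mem_union, Finset.mem_filter, Finset.mem_filter]
    by_cases hE : LcDb_pi l (EE y) = 0
    · exact Or.inr ⟨Finset.mem_univ _, a, c, d, hE⟩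
    · exact Or.inl ⟨Finset.mem_univ _, a, b, c, d, hE⟩
  refine (Finset.card_le_card h).trans ((Finset.card_union_le _ _).trans ?_)
  have := LcDb_a hl h2
  have := LcDb_b hl
  omega

open scoped Classical in
theorem lcDb {l : ℕ} [NeZero (l ^ 2)] (hl : l.Prime) (h2 : l ≠ 2) :
    ((univ : Finset (Fin 10 → ZMod (l ^ 2))).filter (fun y => FF y = 0 ∧ Uni y ∧ ¬ IsUnit (y 1) ∧
      DD y = 0)).card ≤ 4 * l ^ 16 := by
  have : Fact l.Prime := ⟨hl⟩
  have h : (univ : Finset (Fin 10 → ZMod (l ^ 2))).filter (fun y => FF y = 0 ∧ Uni y ∧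
      ¬ IsUnit (y 1) ∧ DD y = 0)
      ⊆ (univ : Finset (Fin 10 → ZMod (l ^ 2))).filter (fun y => FF y = 0 ∧ DD y = 0 ∧
      LcDb_pi l (y 1) = 0 ∧ LcDb_pi l (y 6) ≠ 0)
      ∪ (univ : Finset (Fin 10 → ZMod (l ^ 2))).filter (fun y => FF y = 0 ∧ DD y = 0 ∧
      LcDb_pi l (y 1) = 0 ∧ LcDb_pi l (y 7) ≠ 0) := by
    intro y hy
    rw [Finset.mem_filter] at hy
    obtain ⟨-, a, ⟨p, q, r, hpqr⟩, c, d⟩ := hy
    have h1 : LcDb_pi l (y 1) = 0 := by
      by_contra hc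
      exact c (LcDb_unit hl hc)
    rw [Finset.mem_union, Finset.mem_filter, Finset.mem_filter]
    by_cases h6 : LcDb_pi l (y 6) = 0
    · refine Or.inr ⟨Finset.mem_univ _, a, d, h1, fun h7 => ?_⟩
      have h8 := congrArg (LcDb_pi l) hpqr
      rw [map_add, map_add, map_mul, map_mul, map_mul, h1, h6, h7, map_one] at h8
      simp at h8
    · exact Or.inl ⟨Finset.mem_univ _, a, d, h1, h6⟩
  refine (Finset.card_le_card h).trans ((Finset.card_union_le _ _).trans ?_)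
  have h6 := LcDb_6 hl h2
  have h7 : ((univ : Finset (Fin 10 → ZMod (l ^ 2))).filter (fun y => FF y = 0 ∧ DD y = 0 ∧
      LcDb_pi l (y 1) = 0 ∧ LcDb_pi l (y 7) ≠ 0)).card ≤ 2 * l ^ 16 := by
    refine le_trans (Finset.card_le_card_of_injOn LcDb_tau ?_ LcDb_tau_inj.injOn) h6
    intro y hy
    rw [Finset.mem_coe, Finset.mem_filter] at hy ⊢
    obtain ⟨-, a, b, c, d⟩ := hy
    exact ⟨Finset.mem_univ _, by rw [LcDb_tau_FF, a], by rw [LcDb_tau_DD, b], c, d⟩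
  omega

end Pool.Agent.PP5LB
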