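import Pool.Agent.PP5LB.LcDa
import Pool.Agent.PP5LB.LcDb
import Pool.Agent.PP5LB.Df2

set_option autoImplicit false

/-!
# LcD: the bad classes modulo `l²` (size 1)

PROOF. `lcDa` and `lcDb` (`mem_VM`).
-/

namespace Pool.Agent.PP5LB

open Finset Pool.Agent.PP5L

open scoped Classical in
theorem lcD {l : ℕ} [NeZero (l ^ 2)] (hl : l.Prime) (h2 : l ≠ 2) :
    ((VM (l ^ 2)).filter (fun y => Bad2 l y)).card ≤ 12 * l ^ 16 := by
  have hsub : (VM (l ^ 2)).filter (fun y => Bad2 l y) ⊆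
      ((univ : Finset (Fin 10 → ZMod (l ^ 2))).filter (fun y => FF y = 0 ∧ IsUnit (y 1) ∧ DD y = 0)) ∪
      ((univ : Finset (Fin 10 → ZMod (l ^ 2))).filter (fun y => FF y = 0 ∧ Uni y ∧ ¬ IsUnit (y 1) ∧
        DD y = 0)) := by
    intro y hy
    rw [mem_filter, mem_VM] at hy
    obtain ⟨⟨hF, hU⟩, hD⟩ := hy
    rw [mem_union, mem_filter, mem_filter]
    by_cases h1 : IsUnit (y 1)
    · exact Or.inl ⟨mem_univ _, hF, h1, hD⟩
    · exact Or.inr ⟨mem_univ _, hF, hU, h1, hD⟩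
  have h3 := (card_le_card hsub).trans (card_union_le _ _)
  have h4 := lcDa (l := l) hl h2
  have h5 := lcDb (l := l) hl h2
  omega

end Pool.Agent.PP5LB
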