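import Pool.Agent.PP5LB.Df2

set_option autoImplicit false

/-!
# Nce: what the residue class gives at `p ≤ w`, and the passage to `Gd` (size 3)

PROOF. `x ≡ c` modulo `Wf w = 4 primorial w`, which is divisible by `8` and by all odd primes `p ≤ w` (`w ≥ 2`).  So modulo
`8`: `dV x ≡ dW x ≡ DD x ≡ 5` (they are polynomials), and for odd `p ≤ w` the symbols `(dV x/p)`, `(dW x/p)`, `(DD x/p)` are
those of `c`, i.e. `-1`; in particular `p ∤ dV x, dW x, DD x` for all primes `p ≤ w`.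
`p ≤ w`: rk: if `p` divides all entries of `adj S`, then `p ∣ (S adj S)_{00} = DD x`, no.  cp: `p ∤ DD x`.
nV: `p ∣ x0, x2, x4+x5` gives `p ∣ dV x`, no; sD: `p ∤ DD x`.
`p > w` (so `p` odd): rk: `adj33 = 2 EE`, `adj22 = 2 MM`: if `p` divides all the entries, `p ∣ EE x` and `p ∣ MM x`, excluded by
hypothesis for all `p > w` (for `p ≤ r^(1/100)` by `h1`, else by `h3`); cp, nV, sD: by hypothesis (`Bad1`, `Bad2` via `red_EE` etc.,
`ZMod.intCast_zmod_eq_zero_iff_dvd`).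
-/

namespace Pool.Agent.PP5LB

open Finset Pool.Agent.PP5L

private theorem red_of_dvd {W M : ℕ} (hM : M ∣ W) {x c : Fin 10 → ℤ} (hx : red W x = red W c) :
    red M x = red M c := by
  funext j
  have h := congrFun hx j
  unfold red at h ⊢
  rw [← sub_eq_zero, ← Int.cast_sub, ZMod.intCast_zmod_eq_zero_iff_dvd] at h
  rw [← sub_eq_zero, ← Int.cast_sub, ZMod.intCast_zmod_eq_zero_iff_dvd]
  exact (Int.natCast_dvd_natCast.mpr hM).trans h

private theorem cast_emod {M : ℕ} {a b : ℤ} (h : ((a : ℤ) : ZMod M) = ((b : ℤ) : ZMod M)) :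
    a % (M : ℤ) = b % (M : ℤ) := (ZMod.intCast_eq_intCast_iff a b M).mp h

private theorem prime_dvd_Wf {w p : ℕ} (hp : p.Prime) (hpw : p ≤ w) : p ∣ Wf w := by
  unfold Wf primorial
  refine Dvd.dvd.mul_left ?_ 4
  exact Finset.dvd_prod_of_mem _ (by simp [hp]; omega)

private theorem eight_dvd_Wf {w : ℕ} (hw : 2 ≤ w) : 8 ∣ Wf w := by
  have h2 : 2 ∣ primorial w := by
    unfold primorial
    exact Finset.dvd_prod_of_mem _ (by simp [Nat.prime_two]; omega)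
  obtain ⟨k, hk⟩ := h2
  unfold Wf
  exact ⟨k, by rw [hk]; ring⟩

theorem res_x {w : ℕ} (hw : 2 ≤ w) {c x : Fin 10 → ℤ} (hc : Res w c) (hx : red (Wf w) x = red (Wf w) c) :
    dV x % 8 = 5 ∧ dW x % 8 = 5 ∧ DD x % 8 = 5 ∧ ∀ p : ℕ, p.Prime → p ≠ 2 → p ≤ w →
      jacobiSym (dV x) p = -1 ∧ jacobiSym (dW x) p = -1 ∧ jacobiSym (DD x) p = -1 := by
  have key : ∀ M : ℕ, M ∣ Wf w → dV x % (M : ℤ) = dV c % (M : ℤ) ∧ dW x % (M : ℤ) = dW c % (M : ℤ) ∧
      DD x % (M : ℤ) = DD c % (M : ℤ) := by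
    intro M hM
    have h := red_of_dvd hM hx
    refine ⟨cast_emod ?_, cast_emod ?_, cast_emod ?_⟩
    · rw [← red_dV, ← red_dV, h]
    · rw [← red_dW, ← red_dW, h]
    · rw [← red_DD, ← red_DD, h]
  have h8 := key 8 (eight_dvd_Wf hw)
  refine ⟨?_, ?_, ?_, ?_⟩
  · have := h8.1; push_cast at this; rw [this]; exact hc.v8
  · have := h8.2.1; push_cast at this; rw [this]; exact hc.w8
  · have := h8.2.2; push_cast at this; rw [this]; exact hc.d8
  · intro p hp hp2 hpw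
    have hk := key p (prime_dvd_Wf hp hpw)
    refine ⟨?_, ?_, ?_⟩
    · rw [jacobiSym.mod_left' hk.1]; exact hc.vp p hp hp2 hpw
    · rw [jacobiSym.mod_left' hk.2.1]; exact hc.wp p hp hp2 hpw
    · rw [jacobiSym.mod_left' hk.2.2]; exact hc.dp p hp hp2 hpw

private theorem not_dvd_of_jac {a : ℤ} {p : ℕ} (hp : p.Prime) (h : jacobiSym a p = -1) : ¬ (p : ℤ) ∣ a := by
  intro hd
  rw [jacobiSym.mod_left, Int.emod_eq_zero_of_dvd hd, jacobiSym.zero_left hp.one_lt] at h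
  norm_num at h

theorem nce {w r : ℕ} (hw : 2 ≤ w) {c x : Fin 10 → ℤ} (hc : Res w c) (hx : red (Wf w) x = red (Wf w) c)
    (h1 : ¬ ∃ l : ℕ, l.Prime ∧ w < l ∧ (l : ℝ) ≤ (r : ℝ) ^ (1 / 100 : ℝ) ∧ Bad1 l (red l x))
    (h2 : ¬ ∃ l : ℕ, l.Prime ∧ w < l ∧ (l : ℝ) ≤ (r : ℝ) ^ (1 / 100 : ℝ) ∧ Bad2 l (red (l ^ 2) x))
    (h3 : ¬ ∃ l : ℕ, l.Prime ∧ l ≠ 2 ∧ (r : ℝ) ^ (1 / 100 : ℝ) < l ∧ (l : ℤ) ∣ EE x ∧ (l : ℤ) ∣ MM x)
    (h4 : ¬ ∃ l : ℕ, l.Prime ∧ l ≠ 2 ∧ (r : ℝ) ^ (1 / 100 : ℝ) < l ∧ (l : ℤ) ∣ dV x ∧ (l : ℤ) ∣ DD x)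
    (h5 : ¬ ∃ l : ℕ, l.Prime ∧ (r : ℝ) ^ (1 / 100 : ℝ) < l ∧ (l : ℤ) ∣ x 0 ∧ (l : ℤ) ∣ x 2 ∧
      (l : ℤ) ∣ x 4 + x 5) :
    Gd r x := by
  obtain ⟨hv8, hw8, hd8, hj⟩ := res_x hw hc hx
  have hD : ∀ p : ℕ, p.Prime → p ≤ w → ¬ (p : ℤ) ∣ DD x := by
    intro p hp hpw hd
    by_cases h : p = 2
    · subst h
      have : (2 : ℤ) ∣ DD x := by exact_mod_cast hd
      omega
    · exact not_dvd_of_jac hp (hj p hp h hpw).2.2 hd
  have hV : ∀ p : ℕ, p.Prime → p ≤ w → ¬ (p : ℤ) ∣ dV x := by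
    intro p hp hpw hd
    by_cases h : p = 2
    · subst h
      have : (2 : ℤ) ∣ dV x := by exact_mod_cast hd
      omega
    · exact not_dvd_of_jac hp (hj p hp h hpw).1 hd
  refine ⟨?_, ?_, ?_, ?_⟩
  · intro p hp
    by_contra hcon
    push Not at hcon
    rcases Nat.lt_or_ge w p with hpw | hpw
    · have hp2 : p ≠ 2 := by omega
      have hpi : Prime (p : ℤ) := Nat.prime_iff_prime_int.mp hp
      have hn2 : ¬ (p : ℤ) ∣ 2 := by
        intro h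
        have h' : p ∣ 2 := by exact_mod_cast h
        have := Nat.le_of_dvd (by norm_num) h'
        have := hp.two_le
        omega
      have hE : (p : ℤ) ∣ EE x := by
        have := hcon 3 3
        rw [adj33] at this
        exact (hpi.dvd_mul.mp this).resolve_left hn2
      have hM : (p : ℤ) ∣ MM x := by
        have := hcon 2 2
        rw [adj22] at this
        exact (hpi.dvd_mul.mp this).resolve_left hn2
      rcases le_or_gt (p : ℝ) ((r : ℝ) ^ (1 / 100 : ℝ)) with hr | hr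
      · refine h1 ⟨p, hp, hpw, hr, Or.inl ⟨?_, ?_⟩⟩
        · rw [red_EE, ZMod.intCast_zmod_eq_zero_iff_dvd]; exact hE
        · rw [red_MM, ZMod.intCast_zmod_eq_zero_iff_dvd]; exact hM
      · exact h3 ⟨p, hp, hp2, hr, hE, hM⟩
    · refine hD p hp hpw ?_
      have h := congrFun (congrFun (Matrix.mul_adjugate (SS x)) 0) 0
      rw [Matrix.mul_apply] at h
      have h' : DD x = ∑ j, SS x 0 j * (SS x).adjugate j 0 := by
        rw [h]; simp [DD]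
      rw [h']
      exact Finset.dvd_sum fun j _ => Dvd.dvd.mul_left (hcon j 0) _
  · rintro p hp ⟨ha, hb⟩
    rcases Nat.lt_or_ge w p with hpw | hpw
    · rcases le_or_gt (p : ℝ) ((r : ℝ) ^ (1 / 100 : ℝ)) with hr | hr
      · refine h1 ⟨p, hp, hpw, hr, Or.inr (Or.inl ⟨?_, ?_⟩)⟩
        · rw [red_dV, ZMod.intCast_zmod_eq_zero_iff_dvd]; exact ha
        · rw [red_DD, ZMod.intCast_zmod_eq_zero_iff_dvd]; exact hb
      · exact h4 ⟨p, hp, by omega, hr, ha, hb⟩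
    · exact hD p hp hpw hb
  · rintro p hp ⟨ha, hb, hc'⟩
    rcases Nat.lt_or_ge w p with hpw | hpw
    · rcases le_or_gt (p : ℝ) ((r : ℝ) ^ (1 / 100 : ℝ)) with hr | hr
      · refine h1 ⟨p, hp, hpw, hr, Or.inr (Or.inr ⟨?_, ?_, ?_⟩)⟩
        · unfold red; rw [ZMod.intCast_zmod_eq_zero_iff_dvd]; exact ha
        · unfold red; rw [ZMod.intCast_zmod_eq_zero_iff_dvd]; exact hb
        · unfold red; rw [← Int.cast_add, ZMod.intCast_zmod_eq_zero_iff_dvd]; exact hc'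
      · exact h5 ⟨p, hp, hr, ha, hb, hc'⟩
    · refine hV p hp hpw ?_
      unfold dV
      refine dvd_sub (dvd_pow hc' (by norm_num)) ?_
      exact Dvd.dvd.mul_left hb _
  · intro p hp hr hd
    rcases Nat.lt_or_ge w p with hpw | hpw
    · refine h2 ⟨p, hp, hpw, hr, ?_⟩
      unfold Bad2
      rw [red_DD, ZMod.intCast_zmod_eq_zero_iff_dvd]
      push_cast
      exact hd
    · exact hD p hp hpw ((dvd_pow_self _ (by norm_num)).trans hd)

theorem res_mem {w : ℕ} {c : Fin 10 → ℤ} (hc : Res w c) : red (Wf w) c ∈ VM (Wf w) := by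
  rw [mem_VM]
  refine ⟨by rw [red_FF, hc.ff]; simp, 1, 0, 0, ?_⟩
  unfold red
  rw [hc.c1]
  simp

end Pool.Agent.PP5LB
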