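import Pool.Agent.PP5LB.Sml
import Pool.Agent.PP5LB.Lc1
import Pool.Agent.PP5LB.LcD
import Pool.Agent.PP5LB.Big
import Pool.Agent.PP5LB.Den
import Pool.Agent.PP5LB.Nce
import Pool.Agent.PP5LB.Lbd

set_option autoImplicit false

/-!
# Fin: the removal theorem (size 2)

PROOF. `A = Ah h ξ`, `h ≥ h0` (`den_Nz`), `X = XC A r W c`.  By `nce` an `x ∈ X` which is not `Gd` is in one of five sets:
`sml1` with `P = Bad1` and `C0 = 12` (`lc1`), `sml2` with `P = Bad2` and `C0 = 12` (`lcD`), `bgA`, `bgB`, `bgC` with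
`δ = 1/100` (`X ⊆ XA A r`).  Together `≤ (48/w) #X + C(A) (r^(159/20) + r^(8 - 1/100))`, and by `lbd` (`res_mem`) the last
terms are `≤ (1/w) #X` for `r ≥ r0`.  So `C = 49`.
-/

namespace Pool.Agent.PP5LB

open Finset Pool.Agent.PP5L

private theorem Fin_lim {C κ : ℝ} (hκ : 0 < κ) : ∃ r0 : ℕ, ∀ r : ℕ, r0 ≤ r →
    C * (r : ℝ) ^ (8 - 1 / 100 : ℝ) ≤ κ * (r : ℝ) ^ 8 := by
  have h1 : Filter.Tendsto (fun r : ℕ => (r : ℝ) ^ (1 / 100 : ℝ)) Filter.atTop Filter.atTop :=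
    (tendsto_rpow_atTop (by norm_num)).comp tendsto_natCast_atTop_atTop
  obtain ⟨r0, hr0⟩ := Filter.eventually_atTop.mp (h1.eventually_ge_atTop (C / κ))
  refine ⟨max r0 1, fun r hr => ?_⟩
  have hr1 : (0 : ℝ) < r := by
    have : 1 ≤ r := le_trans (le_max_right _ _) hr
    exact_mod_cast this
  have h2 := hr0 r (le_trans (le_max_left _ _) hr)
  have h3 : C ≤ κ * (r : ℝ) ^ (1 / 100 : ℝ) := by
    rw [div_le_iff₀ hκ] at h2
    linarith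
  have h4 : (r : ℝ) ^ 8 = (r : ℝ) ^ (1 / 100 : ℝ) * (r : ℝ) ^ (8 - 1 / 100 : ℝ) := by
    rw [← Real.rpow_add hr1, ← Real.rpow_natCast]
    norm_num
  rw [h4, ← mul_assoc]
  exact mul_le_mul_of_nonneg_right h3 (Real.rpow_nonneg hr1.le _)

open scoped Classical in
theorem removal {ξ : Fin 10 → ℤ} (hξ : Good ξ) : ∃ h0 : ℕ, 1 ≤ h0 ∧ ∀ h : ℕ, h0 ≤ h → ∀ w : ℕ, 2 ≤ w →
    ∃ r0 : ℕ, ∀ r : ℕ, r0 ≤ r → ∀ c : Fin 10 → ℤ, Res w c →
    (((XC (Ah h ξ) r (Wf w) (red (Wf w) c)).filter (fun x => ¬ Gd r x)).card : ℝ) ≤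
      49 / w * (XC (Ah h ξ) r (Wf w) (red (Wf w) c)).card := by
  obtain ⟨h0, hh0, hN⟩ := den_Nz hξ
  refine ⟨h0, hh0, fun h hh w hw => ?_⟩
  have hA : 1 ≤ Ah h ξ 1 := (hN h 1 hh le_rfl).1
  obtain ⟨C1, hC1, S1⟩ := sml1 (Ah h ξ) hA
  obtain ⟨r1, S1⟩ := S1 w hw
  obtain ⟨C2, hC2, S2⟩ := sml2 (Ah h ξ) hA
  obtain ⟨r2, S2⟩ := S2 w hw
  obtain ⟨C3, hC3, S3⟩ := bgA (Ah h ξ) hA (1 / 100) (by norm_num) (by norm_num)
  obtain ⟨C4, hC4, S4⟩ := bgB (Ah h ξ) hA (1 / 100) (by norm_num) (by norm_num)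
  obtain ⟨C5, hC5, S5⟩ := bgC (Ah h ξ) hA (1 / 100) (by norm_num) (by norm_num)
  obtain ⟨κ, hκ, r3, L3⟩ := lbd (Ah h ξ) hA (Wf w)
  have hw0 : (0 : ℝ) < w := by exact_mod_cast (by omega : 0 < w)
  have hκw : 0 < κ / w := div_pos hκ hw0
  obtain ⟨r4, L4⟩ := Fin_lim (C := 12 * C1 + 12 * C2 + C3 + C4 + C5) hκw
  refine ⟨max 1 (max (max r1 r2) (max r3 r4)), fun r hr c hc => ?_⟩
  have hr0 : 1 ≤ r := le_trans (le_max_left _ _) hr
  have hrm := le_trans (le_max_right _ _) hr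
  have hr1 : r1 ≤ r := le_trans (le_max_left _ _) (le_trans (le_max_left _ _) hrm)
  have hr2 : r2 ≤ r := le_trans (le_max_right _ _) (le_trans (le_max_left _ _) hrm)
  have hr3 : r3 ≤ r := le_trans (le_max_left _ _) (le_trans (le_max_right _ _) hrm)
  have hr4 : r4 ≤ r := le_trans (le_max_right _ _) (le_trans (le_max_right _ _) hrm)
  have hcm := res_mem hc
  have hNz : Nz (Ah h ξ) r := (hN h r hh hr0).2
  have T1 := S1 r hr1 _ hcm (fun l y => Bad1 l y) 12 (by norm_num) (by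
    intro l _ hl hwl
    have := lc1 hl (by omega : l ≠ 2)
    have : (((VM l).filter (fun y => Bad1 l y)).card : ℝ) ≤ ((12 * l ^ 7 : ℕ) : ℝ) := by exact_mod_cast this
    push_cast at this
    exact this)
  have T2 := S2 r hr2 _ hcm (fun l y => Bad2 l y) 12 (by norm_num) (by
    intro l _ hl hwl
    have := lcD hl (by omega : l ≠ 2)
    have : (((VM (l ^ 2)).filter (fun y => Bad2 l y)).card : ℝ) ≤ ((12 * l ^ 16 : ℕ) : ℝ) := by exact_mod_cast this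
    push_cast at this
    exact this)
  have T3 := S3 r hr0 hNz
  have T4 := S4 r hr0 hNz
  have T5 := S5 r hr0 hNz
  have T6 := L3 r hr3 _ hcm
  have T7 := L4 r hr4
  set X := XC (Ah h ξ) r (Wf w) (red (Wf w) c) with hX
  set F1 := X.filter (fun x => ∃ l : ℕ, l.Prime ∧ w < l ∧ (l : ℝ) ≤ (r : ℝ) ^ (1 / 100 : ℝ) ∧
      Bad1 l (red l x)) with hF1
  set F2 := X.filter (fun x => ∃ l : ℕ, l.Prime ∧ w < l ∧ (l : ℝ) ≤ (r : ℝ) ^ (1 / 100 : ℝ) ∧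
      Bad2 l (red (l ^ 2) x)) with hF2
  set F3 := (XA (Ah h ξ) r).filter (fun x => ∃ l : ℕ, l.Prime ∧ l ≠ 2 ∧ (r : ℝ) ^ (1 / 100 : ℝ) < l ∧
      (l : ℤ) ∣ EE x ∧ (l : ℤ) ∣ MM x) with hF3
  set F4 := (XA (Ah h ξ) r).filter (fun x => ∃ l : ℕ, l.Prime ∧ l ≠ 2 ∧ (r : ℝ) ^ (1 / 100 : ℝ) < l ∧
      (l : ℤ) ∣ dV x ∧ (l : ℤ) ∣ DD x) with hF4
  set F5 := (XA (Ah h ξ) r).filter (fun x => ∃ l : ℕ, l.Prime ∧ (r : ℝ) ^ (1 / 100 : ℝ) < l ∧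
      (l : ℤ) ∣ x 0 ∧ (l : ℤ) ∣ x 2 ∧ (l : ℤ) ∣ x 4 + x 5) with hF5
  have hsub : X.filter (fun x => ¬ Gd r x) ⊆ F1 ∪ (F2 ∪ (F3 ∪ (F4 ∪ F5))) := by
    intro x hx
    obtain ⟨hxX, hxG⟩ := Finset.mem_filter.mp hx
    have hxA : x ∈ XA (Ah h ξ) r ∧ red (Wf w) x = red (Wf w) c := by
      have := Finset.mem_filter.mp hxX
      exact this
    by_contra hcon
    simp only [Finset.mem_union, not_or] at hcon
    obtain ⟨n1, n2, n3, n4, n5⟩ := hcon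
    apply hxG
    refine nce hw hc hxA.2 ?_ ?_ ?_ ?_ ?_
    · exact fun e => n1 (Finset.mem_filter.mpr ⟨hxX, e⟩)
    · exact fun e => n2 (Finset.mem_filter.mpr ⟨hxX, e⟩)
    · exact fun e => n3 (Finset.mem_filter.mpr ⟨hxA.1, e⟩)
    · exact fun e => n4 (Finset.mem_filter.mpr ⟨hxA.1, e⟩)
    · exact fun e => n5 (Finset.mem_filter.mpr ⟨hxA.1, e⟩)
  have hcard : (X.filter (fun x => ¬ Gd r x)).card ≤ F1.card + (F2.card + (F3.card + (F4.card + F5.card))) := by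
    refine (Finset.card_le_card hsub).trans ?_
    refine (Finset.card_union_le _ _).trans (Nat.add_le_add_left ?_ _)
    refine (Finset.card_union_le _ _).trans (Nat.add_le_add_left ?_ _)
    refine (Finset.card_union_le _ _).trans (Nat.add_le_add_left ?_ _)
    exact Finset.card_union_le _ _
  have hcardR : ((X.filter (fun x => ¬ Gd r x)).card : ℝ) ≤ F1.card + (F2.card + (F3.card + (F4.card + F5.card))) := by
    exact_mod_cast hcard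
  have hrR : (1 : ℝ) ≤ r := by exact_mod_cast hr0
  have hpow : (r : ℝ) ^ (159 / 20 : ℝ) ≤ (r : ℝ) ^ (8 - 1 / 100 : ℝ) :=
    Real.rpow_le_rpow_of_exponent_le hrR (by norm_num)
  have e1 : 12 * C1 * (r : ℝ) ^ (159 / 20 : ℝ) ≤ 12 * C1 * (r : ℝ) ^ (8 - 1 / 100 : ℝ) :=
    mul_le_mul_of_nonneg_left hpow (by positivity)
  have e2 : 12 * C2 * (r : ℝ) ^ (159 / 20 : ℝ) ≤ 12 * C2 * (r : ℝ) ^ (8 - 1 / 100 : ℝ) :=
    mul_le_mul_of_nonneg_left hpow (by positivity)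
  have e3 : κ / w * (r : ℝ) ^ 8 ≤ 1 / w * (X.card : ℝ) := by
    have : κ / w * (r : ℝ) ^ 8 = 1 / w * (κ * (r : ℝ) ^ 8) := by ring
    rw [this]
    exact mul_le_mul_of_nonneg_left T6 (by positivity)
  have e4 : (49 : ℝ) / w * (X.card : ℝ) = 2 * 12 / w * (X.card : ℝ) + 2 * 12 / w * (X.card : ℝ) + 1 / w * (X.card : ℝ) := by
    ring
  rw [e4]
  nlinarith [hcardR, T1, T2, T3, T4, T5, T7, e1, e2, e3]

end Pool.Agent.PP5LB
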