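import Mathlib
import Pool.Agent.PP5.LDefs

/-!
# LB5, section B (the family of the `x`), definitions

Notation (`FF`, `SS` from `Pool.Agent.PP5.LDefs`): `DD x = det S(x)`, `dV`, `dW` the discriminants of the two binary
blocks, `2 EE`, `2 MM` the principal minors of `S(x)` without the last, without the third index.
`XA A r`: the zeros of `FF` in the box `A_j r ≤ x_j < (A_j+1) r` (`j ≠ 3`) with `(x1,x6,x7)` unimodular;
`XC A r M y`: those in the class `y` modulo `M`; `XI A r M c` the same with an integral representative `c`.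
`Gam n a b = {(u,v) : n ∣ a u + b v}`, `lam n a b` its smallest sup norm.
-/

set_option autoImplicit false

namespace Pool.Agent.PP5LB

open Pool.Agent.PP5L Finset

section
variable {R : Type*} [CommRing R]

/-- `D(x) = det S(x)` -/
def DD (x : Fin 10 → R) : R := (SS x).det

/-- discriminant of the block `V` -/
def dV (x : Fin 10 → R) : R := (x 4 + x 5) ^ 2 - 4 * x 0 * x 2

/-- discriminant of the block `W` -/
def dW (x : Fin 10 → R) : R := (x 4 - x 5) ^ 2 - 4 * x 1 * x 3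

/-- half of the minor of rows and columns `0, 1, 2` -/
def EE (x : Fin 10 → R) : R :=
  x 1 * dV x - x 0 * x 7 ^ 2 + (x 4 + x 5) * x 6 * x 7 - x 2 * x 6 ^ 2

/-- half of the minor of rows and columns `0, 1, 3` -/
def MM (x : Fin 10 → R) : R :=
  x 3 * dV x - x 0 * x 9 ^ 2 + (x 4 + x 5) * x 8 * x 9 - x 2 * x 8 ^ 2

/-- the determinant of the off-diagonal block -/
def KK (x : Fin 10 → R) : R := x 6 * x 9 - x 7 * x 8

/-- `(x1, x6, x7)` is unimodular -/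
def Uni (x : Fin 10 → R) : Prop := ∃ a b c : R, a * x 1 + b * x 6 + c * x 7 = 1

end

open scoped Classical in
/-- the unimodular zeros of `FF` modulo `M` -/
noncomputable def VM (M : ℕ) [NeZero M] : Finset (Fin 10 → ZMod M) :=
  univ.filter (fun y => FF y = 0 ∧ Uni y)

/-- reduction modulo `M` -/
def red (M : ℕ) (x : Fin 10 → ℤ) : Fin 10 → ZMod M := fun j => ((x j : ℤ) : ZMod M)

/-- bound for `x3` -/
def BB (A : Fin 10 → ℤ) : ℤ := 4 * (∑ j, (|A j| + 1)) ^ 2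

/-- the box -/
noncomputable def Bx (A : Fin 10 → ℤ) (r : ℕ) (j : Fin 10) : Finset ℤ :=
  if j = 3 then Icc (-(BB A * r)) (BB A * r) else Ico (A j * r) ((A j + 1) * r)

open scoped Classical in
/-- the family without congruences -/
noncomputable def XA (A : Fin 10 → ℤ) (r : ℕ) : Finset (Fin 10 → ℤ) :=
  (Fintype.piFinset (Bx A r)).filter (fun x => FF x = 0 ∧ Uni x)

open scoped Classical in
/-- the family in the class `y` modulo `M` -/
noncomputable def XC (A : Fin 10 → ℤ) (r M : ℕ) (y : Fin 10 → ZMod M) : Finset (Fin 10 → ℤ) :=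
  (XA A r).filter (fun x => red M x = y)

open scoped Classical in
/-- the family in the class of `c` modulo `M` -/
noncomputable def XI (A : Fin 10 → ℤ) (r M : ℕ) (c : Fin 10 → ℤ) : Finset (Fin 10 → ℤ) :=
  (XA A r).filter (fun x => ∀ j, (M : ℤ) ∣ x j - c j)

/-- the classes which occur -/
def Cl (M : ℕ) (c : Fin 10 → ℤ) : Prop :=
  (M : ℤ) ∣ FF c ∧ ∃ a b d e : ℤ, a * c 1 + b * c 6 + d * c 7 + e * M = 1

/-- the integers of the `j`-th interval in the class of `c j` -/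
noncomputable def IM (A : Fin 10 → ℤ) (r M : ℕ) (c : Fin 10 → ℤ) (j : Fin 10) : Finset ℤ :=
  (Ico (A j * r) ((A j + 1) * r)).filter (fun n => (M : ℤ) ∣ n - c j)

/-- the triples `(x1, x6, x7)` -/
noncomputable def Tr (A : Fin 10 → ℤ) (r : ℕ) : Finset (ℤ × ℤ × ℤ) :=
  Ico (A 1 * r) ((A 1 + 1) * r) ×ˢ Ico (A 6 * r) ((A 6 + 1) * r) ×ˢ Ico (A 7 * r) ((A 7 + 1) * r)

open scoped Classical in
/-- the unimodular triples in the class of `c` -/
noncomputable def TrC (A : Fin 10 → ℤ) (r M : ℕ) (c : Fin 10 → ℤ) : Finset (ℤ × ℤ × ℤ) :=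
  (Tr A r).filter (fun t => ((M : ℤ) ∣ t.1 - c 1 ∧ (M : ℤ) ∣ t.2.1 - c 6 ∧ (M : ℤ) ∣ t.2.2 - c 7) ∧
    ∃ a b d : ℤ, a * t.1 + b * t.2.1 + d * t.2.2 = 1)

/-- the sum of `1/x1` over the triples -/
noncomputable def Hs (A : Fin 10 → ℤ) (r M : ℕ) (c : Fin 10 → ℤ) : ℝ :=
  ∑ t ∈ TrC A r M c, 1 / (t.1 : ℝ)

/-- the smallest sup norm of a nonzero vector of `{(u,v) : n ∣ a u + b v}` -/
noncomputable def lam (n a b : ℤ) : ℕ :=
  sInf {k : ℕ | ∃ p q : ℤ, ¬ (p = 0 ∧ q = 0) ∧ n ∣ a * p + b * q ∧ |p| ≤ k ∧ |q| ≤ k}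

/-- `lam` for the lattice `{(u,v) : x1 ∣ x6 v - x7 u}` of the triple `t = (x1,x6,x7)` -/
noncomputable def lt (t : ℤ × ℤ × ℤ) : ℕ := lam t.1 (-t.2.2) t.2.1

/-- `(p,q)` is a primitive vector of `{(u,v) : n ∣ a u + b v}` -/
def Prm (n a b p q : ℤ) : Prop :=
  n ∣ a * p + b * q ∧ ∀ k : ℤ, 2 ≤ k → ¬ (k ∣ p ∧ k ∣ q ∧ n ∣ a * (p / k) + b * (q / k))

/-- `v = (v3,v8,v9)` is a good direction of the fibre over `(x1,x6,x7) = t` -/
def Vsp (t v : ℤ × ℤ × ℤ) : Prop :=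
  t.1 * v.1 = t.2.2 * v.2.1 - t.2.1 * v.2.2 ∧ ¬ (v.2.1 = 0 ∧ v.2.2 = 0) ∧
    Prm t.1 (-t.2.2) t.2.1 v.2.1 v.2.2 ∧ v.2.1 ^ 2 ≤ t.1 ∧ v.2.2 ^ 2 ≤ t.1

open scoped Classical in
/-- the chosen direction -/
noncomputable def vv (t : ℤ × ℤ × ℤ) : ℤ × ℤ × ℤ := if h : ∃ v, Vsp t v then h.choose else 0

/-- the quadratic form `V(v) = x2 v8^2 - s v8 v9 + x0 v9^2` -/
def Vq (x : Fin 10 → ℤ) (v : ℤ × ℤ × ℤ) : ℤ :=
  x 2 * v.2.1 ^ 2 - (x 4 + x 5) * v.2.1 * v.2.2 + x 0 * v.2.2 ^ 2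

/-- the same for the chosen direction of the base -/
noncomputable def Vf (x : Fin 10 → ℤ) : ℤ := Vq x (vv (x 1, x 6, x 7))

/-- the first coordinate of the chosen direction of the base -/
noncomputable def v3 (x : Fin 10 → ℤ) : ℤ := (vv (x 1, x 6, x 7)).1

/-- the base of `x` (the coordinates `3, 8, 9` are replaced by `0`) -/
def bs (x : Fin 10 → ℤ) : Fin 10 → ℤ := fun j => if j = 3 ∨ j = 8 ∨ j = 9 then 0 else x j

open scoped Classical in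
/-- the bases -/
noncomputable def Bs (A : Fin 10 → ℤ) (r : ℕ) : Finset (Fin 10 → ℤ) :=
  (Fintype.piFinset (fun j : Fin 10 => if j = 3 ∨ j = 8 ∨ j = 9 then ({0} : Finset ℤ)
    else Ico (A j * r) ((A j + 1) * r))).filter (fun b => Uni b)

/-- nonvanishing on the box -/
def Nz (A : Fin 10 → ℤ) (r : ℕ) : Prop :=
  ∀ b ∈ Bs A r, b 0 ≠ 0 ∧ b 7 ≠ 0 ∧ EE b ≠ 0 ∧ dV b ≠ 0

/-- the fibre over the base `x` in the coordinates `(x8, x9)` -/
noncomputable def Fb (A : Fin 10 → ℤ) (r : ℕ) (x : Fin 10 → ℤ) : Finset (ℤ × ℤ) :=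
  (Ico (A 8 * r) ((A 8 + 1) * r) ×ˢ Ico (A 9 * r) ((A 9 + 1) * r)).filter
    (fun z => x 1 ∣ x 0 * x 2 - x 4 * x 5 - x 6 * z.2 + x 7 * z.1)

/-- the point over `x` with the coordinates `z = (x8, x9)` -/
def up (x : Fin 10 → ℤ) (z : ℤ × ℤ) : Fin 10 → ℤ := fun j =>
  if j = 3 then (x 0 * x 2 - x 4 * x 5 - x 6 * z.2 + x 7 * z.1) / x 1
  else if j = 8 then z.1 else if j = 9 then z.2 else x j

/-- the modulus `W = 8 ∏_{3 ≤ p ≤ w} p` -/
def Wf (w : ℕ) : ℕ := 4 * primorial w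

instance (w : ℕ) : NeZero (Wf w) :=
  ⟨by unfold Wf; exact Nat.mul_ne_zero (by norm_num) (primorial_pos w).ne'⟩

/-- the residue class modulo `Wf w` -/
structure Res (w : ℕ) (c : Fin 10 → ℤ) : Prop where
  ff : FF c = 0
  c0 : c 0 = 1
  c1 : c 1 = 1
  v8 : dV c % 8 = 5
  w8 : dW c % 8 = 5
  d8 : DD c % 8 = 5
  vp : ∀ p : ℕ, p.Prime → p ≠ 2 → p ≤ w → jacobiSym (dV c) p = -1
  wp : ∀ p : ℕ, p.Prime → p ≠ 2 → p ≤ w → jacobiSym (dW c) p = -1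
  dp : ∀ p : ℕ, p.Prime → p ≠ 2 → p ≤ w → jacobiSym (DD c) p = -1

/-- the conditions on the direction `ξ` of the cone -/
structure Good (ξ : Fin 10 → ℤ) : Prop where
  ff : FF ξ = 0
  dn : DD ξ < 0
  vp : 0 < dV ξ
  en : EE ξ ≠ 0
  x1 : 0 < ξ 1
  x0 : ξ 0 ≠ 0
  x2 : ξ 2 ≠ 0
  x7 : ξ 7 ≠ 0

/-- the box around `h r ξ` -/
def Ah (h : ℕ) (ξ : Fin 10 → ℤ) : Fin 10 → ℤ := fun j => (h : ℤ) * ξ j

/-- what is left after the removal -/
structure Nice (r : ℕ) (x : Fin 10 → ℤ) : Prop where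
  rk : ∀ p : ℕ, p.Prime → ∃ i j, ¬ (p : ℤ) ∣ (SS x).adjugate i j
  sq : Squarefree (dV x)
  co : IsCoprime (dV x) (DD x)
  dd : ∀ p : ℕ, p.Prime → (p : ℝ) ≤ (r : ℝ) ^ (1 / 100 : ℝ) → ¬ (p : ℤ) ^ 2 ∣ DD x

end Pool.Agent.PP5LB
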