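import Pool.Agent.PP5LB.Bsc

set_option autoImplicit false

/-!
# Vlo: lower bound for the number of classes (size 2)

PROOF. The `y` with `y 1` a unit: `y 3 = (y0y2 - y4y5 - y6y9 + y7y8) / y1` is determined by the other nine coordinates, and
`Uni y` holds (`a = y1⁻¹`).  So the injective map from `(ZMod M)ˣ × (the other eight coordinates)` to `VM M` gives
`φ(M) M⁸ ≤ #VM M` (`ZMod.card_units_eq_totient`, `ZMod.card`).
-/

namespace Pool.Agent.PP5LB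

open Finset Pool.Agent.PP5L

private def Vlo_map (M : ℕ) [NeZero M] (q : (ZMod M)ˣ × (Fin 8 → ZMod M)) : Fin 10 → ZMod M :=
  ![q.2 0, (q.1 : ZMod M), q.2 1,
    ((q.1⁻¹ : (ZMod M)ˣ) : ZMod M) * (q.2 0 * q.2 1 - q.2 2 * q.2 3 - q.2 4 * q.2 7 + q.2 5 * q.2 6),
    q.2 2, q.2 3, q.2 4, q.2 5, q.2 6, q.2 7]

private theorem Vlo_inj (M : ℕ) [NeZero M] : Function.Injective (Vlo_map M) := by
  rintro ⟨u, z⟩ ⟨u', z'⟩ h
  have h0 := congrFun h 0
  have h1 := congrFun h 1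
  have h2 := congrFun h 2
  have h4 := congrFun h 4
  have h5 := congrFun h 5
  have h6 := congrFun h 6
  have h7 := congrFun h 7
  have h8 := congrFun h 8
  have h9 := congrFun h 9
  simp only [Vlo_map] at h0 h1 h2 h4 h5 h6 h7 h8 h9
  have e1 : u = u' := Units.ext h1
  have e2 : z = z' := by
    funext i
    fin_cases i
    · exact h0
    · exact h2
    · exact h4
    · exact h5
    · exact h6
    · exact h7
    · exact h8
    · exact h9
  rw [e1, e2]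

private theorem Vlo_mem (M : ℕ) [NeZero M] (q : (ZMod M)ˣ × (Fin 8 → ZMod M)) : Vlo_map M q ∈ VM M := by
  classical
  unfold VM
  refine Finset.mem_filter.2 ⟨Finset.mem_univ _, ?_, ((q.1⁻¹ : (ZMod M)ˣ) : ZMod M), 0, 0, ?_⟩
  · have h : (q.1 : ZMod M) * ((q.1⁻¹ : (ZMod M)ˣ) : ZMod M) = 1 := Units.mul_inv q.1
    have e : FF (Vlo_map M q) = q.2 0 * q.2 1 - (q.1 : ZMod M) * (((q.1⁻¹ : (ZMod M)ˣ) : ZMod M) *
        (q.2 0 * q.2 1 - q.2 2 * q.2 3 - q.2 4 * q.2 7 + q.2 5 * q.2 6)) - q.2 2 * q.2 3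
        - q.2 4 * q.2 7 + q.2 5 * q.2 6 := rfl
    rw [e, ← mul_assoc, h]
    ring
  · have e : Vlo_map M q 1 = (q.1 : ZMod M) := rfl
    rw [e, Units.inv_mul]
    ring

theorem vlo (M : ℕ) [NeZero M] : Nat.totient M * M ^ 8 ≤ (VM M).card := by
  have h := Finset.card_le_card_of_injOn (s := (Finset.univ : Finset ((ZMod M)ˣ × (Fin 8 → ZMod M))))
    (t := VM M) (Vlo_map M) (fun q _ => Vlo_mem M q) (fun a _ b _ hab => Vlo_inj M hab)
  rwa [Finset.card_univ, Fintype.card_prod, ZMod.card_units_eq_totient, Fintype.card_fun, ZMod.card,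
    Fintype.card_fin] at h

theorem vlo_prime {l : ℕ} [NeZero l] (hl : l.Prime) : (l : ℝ) ^ 9 / 2 ≤ (VM l).card := by
  have h := vlo l
  rw [Nat.totient_prime hl] at h
  have h1 : (((l - 1) * l ^ 8 : ℕ) : ℝ) ≤ ((VM l).card : ℝ) := by exact_mod_cast h
  rw [Nat.cast_mul, Nat.cast_sub hl.one_le, Nat.cast_pow, Nat.cast_one] at h1
  have h2 : (2 : ℝ) ≤ l := by exact_mod_cast hl.two_le
  refine le_trans ?_ h1
  have h3 : (0 : ℝ) ≤ (l : ℝ) ^ 8 := by positivity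
  nlinarith

theorem vlo_sq {l : ℕ} [NeZero (l ^ 2)] (hl : l.Prime) : (l : ℝ) ^ 18 / 2 ≤ (VM (l ^ 2)).card := by
  have h := vlo (l ^ 2)
  rw [Nat.totient_prime_pow hl (by norm_num)] at h
  have h1 : ((l ^ (2 - 1) * (l - 1) * (l ^ 2) ^ 8 : ℕ) : ℝ) ≤ ((VM (l ^ 2)).card : ℝ) := by exact_mod_cast h
  rw [Nat.cast_mul, Nat.cast_mul, Nat.cast_sub hl.one_le, Nat.cast_pow, Nat.cast_pow, Nat.cast_pow, Nat.cast_one] at h1
  have h2 : (2 : ℝ) ≤ l := by exact_mod_cast hl.two_le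
  refine le_trans ?_ h1
  have h3 : (0 : ℝ) ≤ (l : ℝ) ^ 17 := by positivity
  have h4 : (l : ℝ) ^ (2 - 1) * ((l : ℝ) - 1) * ((l : ℝ) ^ 2) ^ 8 = (l : ℝ) ^ 17 * ((l : ℝ) - 1) := by
    norm_num; ring
  rw [h4]
  nlinarith

end Pool.Agent.PP5LB
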