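import Pool.Agent.PP5LB.Eqd
import Pool.Agent.PP5LB.Lbd
import Pool.Agent.PP5LB.Vlo

set_option autoImplicit false

/-!
# Eq2: equidistribution in relative form (size 2)

PROOF. `eqd`: `|#X_y - #X/#VM q| ≤ C r^(31/4)` (`Wf w q ≤ r` for `r ≥ r0`), and `r^8 ≤ κ⁻¹ #X` (`lbd`), so the error is
`≤ C κ⁻¹ r^(-1/4) #X ≤ r^(-1/5) #X` for `r ≥ r0`.  `eq2le`: `#VM q ≥ φ(q) q⁸` (`vlo`), `q ≤ r^(1/100)`, so
`r^(-1/5) ≤ 1/q^9 ≤ 1/(φ(q) q⁸)`; if `y ∉ VM q` the set is empty (`red_mem_VM`).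
-/

namespace Pool.Agent.PP5LB

open Finset Pool.Agent.PP5L

open scoped Classical in
theorem eq2 (A : Fin 10 → ℤ) (hA : 1 ≤ A 1) (w : ℕ) : ∃ r0 : ℕ, ∀ r : ℕ, r0 ≤ r → ∀ c ∈ VM (Wf w),
    ∀ (q : ℕ) [NeZero q], Nat.Coprime (Wf w) q → (q : ℝ) ≤ (r : ℝ) ^ (1 / 100 : ℝ) → ∀ y ∈ VM q,
    |(((XC A r (Wf w) c).filter (fun x => red q x = y)).card : ℝ) - (XC A r (Wf w) c).card / (VM q).card| ≤
      (r : ℝ) ^ (-(1 / 5) : ℝ) * (XC A r (Wf w) c).card := by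
  obtain ⟨C, hC0, hC⟩ := eqd A hA
  obtain ⟨κ, hκ, r1, hκr⟩ := lbd A hA (Wf w)
  have hWpos : 0 < Wf w := Nat.pos_of_ne_zero (NeZero.ne _)
  -- large `r`
  have ht1 : Filter.Tendsto (fun r : ℕ => (r : ℝ) ^ (1 / 20 : ℝ)) Filter.atTop Filter.atTop :=
    (tendsto_rpow_atTop (by norm_num)).comp tendsto_natCast_atTop_atTop
  have ht2 : Filter.Tendsto (fun r : ℕ => (r : ℝ) ^ (99 / 100 : ℝ)) Filter.atTop Filter.atTop :=
    (tendsto_rpow_atTop (by norm_num)).comp tendsto_natCast_atTop_atTop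
  obtain ⟨r2, hr2⟩ := Filter.eventually_atTop.1 (ht1.eventually_ge_atTop (C * κ⁻¹))
  obtain ⟨r3, hr3⟩ := Filter.eventually_atTop.1 (ht2.eventually_ge_atTop (Wf w : ℝ))
  refine ⟨r1 + r2 + r3 + 1, fun r hr c hc q _ hcop hq y hy => ?_⟩
  have h1 := hκr r (by omega) c hc
  have h2 := hr2 r (by omega)
  have h3 := hr3 r (by omega)
  have hr0 : (0 : ℝ) < r := by
    have : 0 < r := by omega
    exact_mod_cast this
  have hWq : Wf w * q ≤ r := by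
    have h4 : ((Wf w * q : ℕ) : ℝ) ≤ (r : ℝ) := by
      push_cast
      calc (Wf w : ℝ) * q ≤ (r : ℝ) ^ (99 / 100 : ℝ) * (r : ℝ) ^ (1 / 100 : ℝ) :=
            mul_le_mul h3 hq (Nat.cast_nonneg _) (Real.rpow_nonneg hr0.le _)
        _ = (r : ℝ) := by
            rw [← Real.rpow_add hr0]
            norm_num
    exact_mod_cast h4
  refine (hC r (Wf w) q hcop hWq c hc y hy).trans ?_
  have e1 : (r : ℝ) ^ (31 / 4 : ℝ) = (r : ℝ) ^ (-(1 / 4) : ℝ) * (r : ℝ) ^ 8 := by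
    rw [← Real.rpow_natCast, ← Real.rpow_add hr0]
    norm_num
  have e2 : (r : ℝ) ^ (-(1 / 5) : ℝ) = (r : ℝ) ^ (1 / 20 : ℝ) * (r : ℝ) ^ (-(1 / 4) : ℝ) := by
    rw [← Real.rpow_add hr0]
    norm_num
  have h5 : (r : ℝ) ^ 8 ≤ κ⁻¹ * (XC A r (Wf w) c).card := by
    rw [inv_mul_eq_div, le_div_iff₀ hκ]
    linarith
  have hp : 0 ≤ (r : ℝ) ^ (-(1 / 4) : ℝ) := Real.rpow_nonneg hr0.le _
  calc C * (r : ℝ) ^ (31 / 4 : ℝ) = C * ((r : ℝ) ^ (-(1 / 4) : ℝ) * (r : ℝ) ^ 8) := by rw [e1]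
    _ ≤ C * ((r : ℝ) ^ (-(1 / 4) : ℝ) * (κ⁻¹ * (XC A r (Wf w) c).card)) :=
        mul_le_mul_of_nonneg_left (mul_le_mul_of_nonneg_left h5 hp) hC0
    _ = (C * κ⁻¹) * ((r : ℝ) ^ (-(1 / 4) : ℝ) * (XC A r (Wf w) c).card) := by ring
    _ ≤ (r : ℝ) ^ (1 / 20 : ℝ) * ((r : ℝ) ^ (-(1 / 4) : ℝ) * (XC A r (Wf w) c).card) :=
        mul_le_mul_of_nonneg_right h2 (mul_nonneg hp (Nat.cast_nonneg _))
    _ = (r : ℝ) ^ (-(1 / 5) : ℝ) * (XC A r (Wf w) c).card := by rw [e2]; ring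

open scoped Classical in
theorem eq2le (A : Fin 10 → ℤ) (hA : 1 ≤ A 1) (w : ℕ) : ∃ r0 : ℕ, ∀ r : ℕ, r0 ≤ r → ∀ c ∈ VM (Wf w),
    ∀ (q : ℕ) [NeZero q], Nat.Coprime (Wf w) q → (q : ℝ) ≤ (r : ℝ) ^ (1 / 100 : ℝ) →
    ∀ y : Fin 10 → ZMod q, (((XC A r (Wf w) c).filter (fun x => red q x = y)).card : ℝ) ≤
      2 * (XC A r (Wf w) c).card / ((Nat.totient q : ℝ) * (q : ℝ) ^ 8) := by
  obtain ⟨r0, h0⟩ := eq2 A hA w
  refine ⟨r0 + 1, fun r hr c hc q _ hcop hq y => ?_⟩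
  have hr1 : (1 : ℝ) ≤ r := by
    have : 1 ≤ r := by omega
    exact_mod_cast this
  have hr0 : (0 : ℝ) < r := by linarith
  have hq0 : 0 < q := Nat.pos_of_ne_zero (NeZero.ne _)
  have hq1 : (1 : ℝ) ≤ q := by exact_mod_cast hq0
  have hφ : (0 : ℝ) < (Nat.totient q : ℝ) := by exact_mod_cast Nat.totient_pos.2 hq0
  have hφq : (0 : ℝ) < (Nat.totient q : ℝ) * (q : ℝ) ^ 8 := by positivity
  have hX : (0 : ℝ) ≤ ((XC A r (Wf w) c).card : ℝ) := Nat.cast_nonneg _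
  by_cases hy : y ∈ VM q
  · have h1 := h0 r (by omega) c hc q hcop hq y hy
    have h2 := (abs_le.1 h1).2
    have h3 : ((XC A r (Wf w) c).card : ℝ) / (VM q).card ≤
        (XC A r (Wf w) c).card / ((Nat.totient q : ℝ) * (q : ℝ) ^ 8) := by
      apply div_le_div_of_nonneg_left hX hφq
      exact_mod_cast vlo q
    have h4 : (r : ℝ) ^ (-(1 / 5) : ℝ) ≤ 1 / ((Nat.totient q : ℝ) * (q : ℝ) ^ 8) := by
      rw [Real.rpow_neg hr0.le, ← one_div]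
      apply one_div_le_one_div_of_le hφq
      have h5 : (Nat.totient q : ℝ) ≤ q := by exact_mod_cast Nat.totient_le q
      calc (Nat.totient q : ℝ) * (q : ℝ) ^ 8 ≤ (q : ℝ) * (q : ℝ) ^ 8 :=
            mul_le_mul_of_nonneg_right h5 (by positivity)
        _ = (q : ℝ) ^ 9 := by ring
        _ ≤ ((r : ℝ) ^ (1 / 100 : ℝ)) ^ 9 := pow_le_pow_left₀ (by positivity) hq 9
        _ = (r : ℝ) ^ (9 / 100 : ℝ) := by
            rw [← Real.rpow_natCast, ← Real.rpow_mul hr0.le]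
            norm_num
        _ ≤ (r : ℝ) ^ (1 / 5 : ℝ) := Real.rpow_le_rpow_of_exponent_le hr1 (by norm_num)
    have h6 : (r : ℝ) ^ (-(1 / 5) : ℝ) * (XC A r (Wf w) c).card ≤
        (XC A r (Wf w) c).card / ((Nat.totient q : ℝ) * (q : ℝ) ^ 8) := by
      calc (r : ℝ) ^ (-(1 / 5) : ℝ) * (XC A r (Wf w) c).card ≤
            1 / ((Nat.totient q : ℝ) * (q : ℝ) ^ 8) * (XC A r (Wf w) c).card :=
            mul_le_mul_of_nonneg_right h4 hX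
        _ = _ := by ring
    calc (((XC A r (Wf w) c).filter (fun x => red q x = y)).card : ℝ) ≤
          (XC A r (Wf w) c).card / (VM q).card + (r : ℝ) ^ (-(1 / 5) : ℝ) * (XC A r (Wf w) c).card := by
            linarith
      _ ≤ (XC A r (Wf w) c).card / ((Nat.totient q : ℝ) * (q : ℝ) ^ 8) +
          (XC A r (Wf w) c).card / ((Nat.totient q : ℝ) * (q : ℝ) ^ 8) := add_le_add h3 h6
      _ = 2 * (XC A r (Wf w) c).card / ((Nat.totient q : ℝ) * (q : ℝ) ^ 8) := by ring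
  · have h1 : (XC A r (Wf w) c).filter (fun x => red q x = y) = ∅ := by
      rw [Finset.filter_eq_empty_iff]
      intro x hx he
      apply hy
      rw [← he]
      exact red_mem_VM q (mem_XC.1 hx).1
    rw [h1]
    simp only [Finset.card_empty, Nat.cast_zero]
    positivity

end Pool.Agent.PP5LB
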