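import Pool.Agent.PP5LB.Ln6
import Pool.Agent.PP5LB.Ppf
import Pool.Agent.PP5LB.Lin

set_option autoImplicit false

/-!
# BdA: the bad bases for (r1) (size 5)

`S` = the bases `b` with a prime `l > T = r^δ`, `l ≠ 2`, dividing `EE b` and `Vf b` (`v = vv (b1,b6,b7)`, `Vsp`, by `vsp`).
PROOF. Small `r` (`r < 2`): enlarge `C`.  All `|b j| ≤ C r`.  Three sets, `S ⊆ Sa ∪ Sc ∪ Sb`:
(a) `l ∣ b 1`: `L b = ` prime factors `> T` of `b 1 ≠ 0` (`ppf`, at most `2/δ` or so).  `EE b ≡ -(b0 b7² - s b6 b7 + b2 b6²)`.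
   If `l ∤ b 6`: `b 2` is in one class (`cla` with `j = 2`); if `l ∣ b 6`: `cla` with `j = 6` (`P l b := l ∣ b 6`).
(c) `l ∣ b 0`: `L b = ` prime factors `> T` of `b 0 ≠ 0` (`Nz`).  `EE b ≡ b1 s² + s b6 b7 - b2 b6²`: `l ∤ b 6`: `j = 2`;
   `l ∣ b 6`: `j = 6`.
(b) `l ∤ b 0 b 1`: identity (`ring`, with `b1 v3 = b7 v8 - b6 v9`)
   `v8² EE + (4 b0 b1 + b6²) V = b1 P1`, `P1 = (s v8 - 2 b0 v9)² - v3 (b0 (b6 v9 + b7 v8) - s b6 v8)`, so `l ∣ P1`.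
   If `P1 = 0`: at most two `b 0` on each line `j = 0` (leading coefficient `4 v9²`; if `v9 = 0`, then `v8 ≠ 0`,
   `b1 v3 = b7 v8 ≠ 0` (`Nz`: `b7 ≠ 0`) and the coefficient of `b0` is `-v3 b7 v8 ≠ 0`): `ln6` with `m = 2`.
   (`P1` depends on `b 0` only through the explicit `b0`: `v`, `s`, `b6`, `b7` do not depend on `b 0`.)
   If `P1 ≠ 0`: `L b = ` prime factors `> T` of `P1` (`|P1| ≤ C r⁴`), which does not depend on `b 2`; `l ∤ v8`
   (else `l ∣ b0 v9²`, so `l ∣ v9`, then `l ∣ b1 v3`, `l ∣ v3`, contradiction to `vsp_prime`), so `l ∣ V` puts `b 2` in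
   one class: `cla` with `j = 2`.
Each part is `≤ C (r/T + 1) r⁶ ≤ 2 C r^(7-δ)`.
-/

namespace Pool.Agent.PP5LB

open Finset Pool.Agent.PP5L

private theorem BdA_upd {b b' : Fin 10 → ℤ} {j : Fin 10}
    (h : Function.update b' j 0 = Function.update b j 0) {i : Fin 10} (hi : i ≠ j) : b' i = b i := by
  have := congrFun h i
  rwa [Function.update_of_ne hi, Function.update_of_ne hi] at this

private theorem BdA_ext {b b' : Fin 10 → ℤ} {j : Fin 10}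
    (h : Function.update b' j 0 = Function.update b j 0) (hj : b' j = b j) : b' = b := by
  funext i
  by_cases hi : i = j
  · rw [hi]; exact hj
  · exact BdA_upd h hi

private theorem BdA_mem {A : Fin 10 → ℤ} {r : ℕ} {b : Fin 10 → ℤ} (hb : b ∈ Bs A r) (j : Fin 10)
    (h3 : j ≠ 3) (h8 : j ≠ 8) (h9 : j ≠ 9) : A j * r ≤ b j ∧ b j < (A j + 1) * r := by
  classical
  unfold Bs at hb
  have h1 := (@Finset.mem_filter _ _ (_) _ _).1 hb
  have h2 := (Fintype.mem_piFinset.1 h1.1) j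
  rw [if_neg (by tauto), Finset.mem_Ico] at h2
  exact h2

/-- the constant -/
private def BdA_K (A : Fin 10 → ℤ) : ℕ := ∑ j, ((A j).natAbs + 1)

private theorem BdA_K1 (A : Fin 10 → ℤ) : 1 ≤ BdA_K A := by
  unfold BdA_K
  have : ∑ _j : Fin 10, 1 ≤ ∑ j : Fin 10, ((A j).natAbs + 1) := Finset.sum_le_sum fun j _ => by omega
  simp only [Finset.sum_const, Finset.card_univ, Fintype.card_fin, smul_eq_mul] at this
  omega

private theorem BdA_size {A : Fin 10 → ℤ} {r : ℕ} {b : Fin 10 → ℤ} (hb : b ∈ Bs A r) (j : Fin 10)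
    (h3 : j ≠ 3) (h8 : j ≠ 8) (h9 : j ≠ 9) : |b j| ≤ (BdA_K A : ℤ) * r := by
  obtain ⟨h1, h2⟩ := BdA_mem hb j h3 h8 h9
  have h4 : (A j).natAbs + 1 ≤ BdA_K A :=
    Finset.single_le_sum (f := fun j => (A j).natAbs + 1) (fun i _ => Nat.zero_le _)
      (Finset.mem_univ j)
  have h5 : |A j| + 1 ≤ (BdA_K A : ℤ) := by
    have : (((A j).natAbs + 1 : ℕ) : ℤ) ≤ (BdA_K A : ℤ) := by exact_mod_cast h4
    push_cast at this
    exact this
  have hr : (0 : ℤ) ≤ r := Int.natCast_nonneg _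
  have h6 : (|A j| + 1) * (r : ℤ) ≤ (BdA_K A : ℤ) * r := mul_le_mul_of_nonneg_right h5 hr
  have h7 := neg_abs_le (A j)
  have h8 := le_abs_self (A j)
  rw [abs_le]
  constructor <;> nlinarith

private theorem BdA_part {A : Fin 10 → ℤ} {r : ℕ} {δ : ℝ} (hr : 2 ≤ r) (hδ : 0 < δ) (hδ1 : δ ≤ 1)
    {j : Fin 10} (hj : j ≠ 3 ∧ j ≠ 8 ∧ j ≠ 9) {S : Finset (Fin 10 → ℤ)} (hS : S ⊆ Bs A r)
    (N : (Fin 10 → ℤ) → ℤ) {B : ℝ} (hB : 0 ≤ B) (hN0 : ∀ b ∈ S, N b ≠ 0)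
    (hNB : ∀ b ∈ S, |((N b : ℤ) : ℝ)| ≤ (r : ℝ) ^ B)
    (hNj : ∀ b ∈ S, ∀ b' ∈ S, Function.update b' j 0 = Function.update b j 0 → N b' = N b)
    (P : ℕ → (Fin 10 → ℤ) → Prop)
    (hP : ∀ b ∈ S, ∃ l : ℕ, l.Prime ∧ (r : ℝ) ^ δ < l ∧ (l : ℤ) ∣ N b ∧ P l b)
    (hc : ∀ b ∈ S, ∀ b' ∈ S, Function.update b' j 0 = Function.update b j 0 →
      ∀ l : ℕ, l.Prime → P l b → P l b' → (l : ℤ) ∣ b j - b' j) :
    (S.card : ℝ) ≤ 2 * (B / δ) * (r : ℝ) ^ (7 - δ) := by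
  classical
  have hr1 : (1 : ℝ) ≤ r := by exact_mod_cast (by omega : 1 ≤ r)
  have hr0 : (0 : ℝ) < r := by linarith
  have hT : 1 ≤ (r : ℝ) ^ δ := Real.one_le_rpow hr1 hδ.le
  have hk : 0 ≤ B / δ := by positivity
  have h1 := cla hj hS hT hk
    (fun b => (N b).natAbs.primeFactors.filter (fun l : ℕ => (r : ℝ) ^ δ < (l : ℝ))) P
    (fun b hb b' hb' h => by simp only [hNj b hb b' hb' h])
    (fun b hb => by
      have h2 := ppf (δ := δ) (B := B) hδ hB hr (hN0 b hb) (hNB b hb)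
      convert h2)
    (fun b _ l hl => (Finset.mem_filter.1 hl).2.le)
    (fun b hb => by
      obtain ⟨l, hl, hlT, hd, hp⟩ := hP b hb
      refine ⟨l, Finset.mem_filter.2 ⟨?_, hlT⟩, hp⟩
      rw [Nat.mem_primeFactors]
      exact ⟨hl, Int.natCast_dvd.1 hd, Int.natAbs_ne_zero.2 (hN0 b hb)⟩)
    (fun b hb b' hb' h l hl h2 h3 =>
      hc b hb b' hb' h l (Nat.prime_of_mem_primeFactors (Finset.mem_filter.1 hl).1) h2 h3)
  refine h1.trans ?_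
  have h2 : (r : ℝ) / (r : ℝ) ^ δ = (r : ℝ) ^ (1 - δ) := by
    rw [Real.rpow_sub hr0, Real.rpow_one]
  have h3 : 1 ≤ (r : ℝ) ^ (1 - δ) := Real.one_le_rpow hr1 (by linarith)
  have h4 : (r : ℝ) ^ (7 - δ) = (r : ℝ) ^ (1 - δ) * (r : ℝ) ^ 6 := by
    rw [← Real.rpow_natCast, ← Real.rpow_add hr0]
    congr 1
    norm_num
    ring
  rw [h2, h4]
  have h5 : 0 ≤ B / δ * (r : ℝ) ^ 6 := by positivity
  nlinarith

private theorem BdA_pow {A : Fin 10 → ℤ} {r : ℕ} (hr : 2 ≤ r) :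
    ((BdA_K A : ℕ) : ℝ) * r ≤ (r : ℝ) ^ (BdA_K A + 1) := by
  have h1 : BdA_K A ≤ r ^ BdA_K A :=
    (Nat.lt_two_pow_self).le.trans (Nat.pow_le_pow_left hr _)
  rw [pow_succ]
  have h2 : ((BdA_K A : ℕ) : ℝ) ≤ (r : ℝ) ^ BdA_K A := by exact_mod_cast h1
  exact mul_le_mul_of_nonneg_right h2 (Nat.cast_nonneg _)

/-- the polynomial `P1` -/
private noncomputable def BdA_P (b : Fin 10 → ℤ) : ℤ :=
  ((b 4 + b 5) * (vv (b 1, b 6, b 7)).2.1 - 2 * b 0 * (vv (b 1, b 6, b 7)).2.2) ^ 2 -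
    (vv (b 1, b 6, b 7)).1 * (b 0 * (b 6 * (vv (b 1, b 6, b 7)).2.2 + b 7 * (vv (b 1, b 6, b 7)).2.1) -
      (b 4 + b 5) * b 6 * (vv (b 1, b 6, b 7)).2.1)

private theorem BdA_quad {α β γ x y z : ℤ} (hx : α * x ^ 2 + β * x + γ = 0)
    (hy : α * y ^ 2 + β * y + γ = 0) (hz : α * z ^ 2 + β * z + γ = 0) (hxy : x ≠ y) (hxz : x ≠ z)
    (hyz : y ≠ z) : α = 0 ∧ β = 0 := by
  have h1 : (x - y) * (α * (x + y) + β) = 0 := by linear_combination hx - hy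
  have h2 : (x - z) * (α * (x + z) + β) = 0 := by linear_combination hx - hz
  have h3 := (mul_eq_zero.1 h1).resolve_left (sub_ne_zero.2 hxy)
  have h4 := (mul_eq_zero.1 h2).resolve_left (sub_ne_zero.2 hxz)
  have h5 : α * (y - z) = 0 := by linear_combination h3 - h4
  have h6 := (mul_eq_zero.1 h5).resolve_right (sub_ne_zero.2 hyz)
  rw [h6] at h3
  exact ⟨h6, by linarith⟩

private theorem BdA_mul {a b p q : ℤ} (ha : |a| ≤ p) (hb : |b| ≤ q) : |a * b| ≤ p * q := by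
  rw [abs_mul]
  exact mul_le_mul ha hb (abs_nonneg _) ((abs_nonneg _).trans ha)

private theorem BdA_Pb {b0 s b6 b7 v3 v8 v9 M : ℤ} (hM : 1 ≤ M) (h0 : |b0| ≤ M) (hs : |s| ≤ 2 * M)
    (h6 : |b6| ≤ M) (h7 : |b7| ≤ M) (h3 : |v3| ≤ 2 * M ^ 2) (h8 : |v8| ≤ M) (h9 : |v9| ≤ M) :
    |(s * v8 - 2 * b0 * v9) ^ 2 - v3 * (b0 * (b6 * v9 + b7 * v8) - s * b6 * v8)| ≤ 24 * M ^ 5 := by
  have e1 : |s * v8 - 2 * b0 * v9| ≤ 4 * M ^ 2 := by
    have a1 := BdA_mul hs h8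
    have a2 := BdA_mul (BdA_mul (a := 2) (p := 2) (by norm_num) h0) h9
    have a3 := abs_sub (s * v8) (2 * b0 * v9)
    nlinarith
  have e2 : |(s * v8 - 2 * b0 * v9) ^ 2| ≤ 16 * M ^ 4 := by
    have a1 := BdA_mul e1 e1
    rw [← sq] at a1
    nlinarith
  have e3 : |b0 * (b6 * v9 + b7 * v8) - s * b6 * v8| ≤ 4 * M ^ 3 := by
    have a1 : |b6 * v9 + b7 * v8| ≤ 2 * M ^ 2 := by
      have c1 := BdA_mul h6 h9
      have c2 := BdA_mul h7 h8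
      have c3 := abs_add_le (b6 * v9) (b7 * v8)
      nlinarith
    have a2 := BdA_mul h0 a1
    have a3 := BdA_mul (BdA_mul hs h6) h8
    have a4 := abs_sub (b0 * (b6 * v9 + b7 * v8)) (s * b6 * v8)
    nlinarith
  have e4 := BdA_mul h3 e3
  have e5 := abs_sub ((s * v8 - 2 * b0 * v9) ^ 2) (v3 * (b0 * (b6 * v9 + b7 * v8) - s * b6 * v8))
  have e6 : M ^ 4 ≤ M ^ 5 := pow_le_pow_right₀ hM (by norm_num)
  nlinarith

private theorem BdA_vs {A : Fin 10 → ℤ} (hA : 1 ≤ A 1) {r : ℕ} (hr : 1 ≤ r) {b : Fin 10 → ℤ}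
    (hb : b ∈ Bs A r) : (r : ℤ) ≤ b 1 ∧ Vsp (b 1, b 6, b 7) (vv (b 1, b 6, b 7)) := by
  have h1 := (BdA_mem hb 1 (by decide) (by decide) (by decide)).1
  have hr' : (1 : ℤ) ≤ r := by exact_mod_cast hr
  have h2 : (r : ℤ) ≤ b 1 := by nlinarith
  exact ⟨h2, vsp (by show 1 ≤ b 1; linarith)⟩

private theorem BdA_Psize {A : Fin 10 → ℤ} (hA : 1 ≤ A 1) {r : ℕ} (hr : 2 ≤ r) {b : Fin 10 → ℤ}
    (hb : b ∈ Bs A r) : |((BdA_P b : ℤ) : ℝ)| ≤ (r : ℝ) ^ (5 * (BdA_K A + 1) + 5) := by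
  obtain ⟨h1, h2, -, -, h8, h9⟩ := BdA_vs hA (by omega : 1 ≤ r) hb
  simp only at h2 h8 h9
  set v := vv (b 1, b 6, b 7) with hv
  set M : ℤ := (BdA_K A : ℤ) * r with hM
  have hK : (1 : ℤ) ≤ (BdA_K A : ℤ) := by exact_mod_cast BdA_K1 A
  have hr' : (2 : ℤ) ≤ r := by exact_mod_cast hr
  have hM1 : 1 ≤ M := by nlinarith
  have s0 := BdA_size hb 0 (by decide) (by decide) (by decide)
  have s1 := BdA_size hb 1 (by decide) (by decide) (by decide)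
  have s4 := BdA_size hb 4 (by decide) (by decide) (by decide)
  have s5 := BdA_size hb 5 (by decide) (by decide) (by decide)
  have s6 := BdA_size hb 6 (by decide) (by decide) (by decide)
  have s7 := BdA_size hb 7 (by decide) (by decide) (by decide)
  rw [← hM] at s0 s1 s4 s5 s6 s7
  have hs : |b 4 + b 5| ≤ 2 * M := (abs_add_le _ _).trans (by linarith)
  have hsq : ∀ a : ℤ, a ^ 2 ≤ b 1 → |a| ≤ M := by
    intro a ha
    have c1 : |a| ≤ a ^ 2 := by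
      rw [← sq_abs]
      have c2 := abs_nonneg a
      by_cases c3 : |a| = 0
      · rw [c3]; norm_num
      · have c4 : 1 ≤ |a| := by omega
        nlinarith
    exact c1.trans (ha.trans ((le_abs_self _).trans s1))
  have t8 := hsq _ h8
  have t9 := hsq _ h9
  have t3 : |v.1| ≤ 2 * M ^ 2 := by
    have c1 := BdA_mul s7 t8
    have c2 := BdA_mul s6 t9
    have c3 := abs_sub (b 7 * v.2.1) (b 6 * v.2.2)
    rw [← h2, abs_mul] at c3
    have c4 : 1 ≤ |b 1| := by rw [abs_of_pos (by linarith)]; linarith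
    have c5 := abs_nonneg v.1
    nlinarith
  have h10 := BdA_Pb hM1 s0 hs s6 s7 t3 t8 t9
  have h11 : |((BdA_P b : ℤ) : ℝ)| ≤ 24 * ((BdA_K A : ℝ) * r) ^ 5 := by
    have : ((|BdA_P b| : ℤ) : ℝ) ≤ ((24 * M ^ 5 : ℤ) : ℝ) := by
      exact_mod_cast h10
    rw [hM] at this
    push_cast at this
    exact this
  refine h11.trans ?_
  have h12 := BdA_pow (A := A) hr
  have hr2 : (2 : ℝ) ≤ r := by exact_mod_cast hr
  have h13 : (24 : ℝ) ≤ (r : ℝ) ^ 5 := by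
    have := pow_le_pow_left₀ (by norm_num : (0 : ℝ) ≤ 2) hr2 5
    linarith
  have h14 : ((BdA_K A : ℝ) * r) ^ 5 ≤ ((r : ℝ) ^ (BdA_K A + 1)) ^ 5 :=
    pow_le_pow_left₀ (by positivity) h12 5
  have h15 : (r : ℝ) ^ (5 * (BdA_K A + 1) + 5) = (r : ℝ) ^ 5 * ((r : ℝ) ^ (BdA_K A + 1)) ^ 5 := by
    rw [← pow_mul, ← pow_add]
    congr 1
    ring
  rw [h15]
  exact mul_le_mul h13 h14 (by positivity) (by positivity)

private theorem BdA_id {b : Fin 10 → ℤ} {v : ℤ × ℤ × ℤ}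
    (h : b 1 * v.1 = b 7 * v.2.1 - b 6 * v.2.2) :
    v.2.1 ^ 2 * EE b + (4 * b 0 * b 1 + b 6 ^ 2) *
      (b 2 * v.2.1 ^ 2 - (b 4 + b 5) * v.2.1 * v.2.2 + b 0 * v.2.2 ^ 2) =
    b 1 * (((b 4 + b 5) * v.2.1 - 2 * b 0 * v.2.2) ^ 2 -
      v.1 * (b 0 * (b 6 * v.2.2 + b 7 * v.2.1) - (b 4 + b 5) * b 6 * v.2.1)) := by
  unfold EE dV
  linear_combination (b 0 * (b 6 * v.2.2 + b 7 * v.2.1) - (b 4 + b 5) * b 6 * v.2.1) * h

private theorem BdA_S1 {A : Fin 10 → ℤ} (hA : 1 ≤ A 1) {r : ℕ} {δ : ℝ} (hr : 2 ≤ r) (hδ : 0 < δ)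
    (hδ1 : δ ≤ 1) (hNz : Nz A r) {i : Fin 10} (hi : i = 0 ∨ i = 1) {S : Finset (Fin 10 → ℤ)}
    (hS : S ⊆ Bs A r)
    (h : ∀ b ∈ S, ∃ l : ℕ, l.Prime ∧ (r : ℝ) ^ δ < l ∧ (l : ℤ) ∣ b i ∧ (l : ℤ) ∣ EE b ∧
      ¬ (l : ℤ) ∣ b 6) :
    (S.card : ℝ) ≤ 2 * (((BdA_K A + 1 : ℕ) : ℝ) / δ) * (r : ℝ) ^ (7 - δ) := by
  refine BdA_part hr hδ hδ1 (j := 2) (by decide) hS (fun b => b i) (Nat.cast_nonneg _) ?_ ?_ ?_
    (fun l b => (l : ℤ) ∣ b i ∧ (l : ℤ) ∣ EE b ∧ ¬ (l : ℤ) ∣ b 6) ?_ ?_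
  · intro b hb
    rcases hi with rfl | rfl
    · exact (hNz b (hS hb)).1
    · have h1 := (BdA_vs hA (by omega : 1 ≤ r) (hS hb)).1
      have h2 : (2 : ℤ) ≤ r := by exact_mod_cast hr
      intro h3
      have h4 : b 1 = 0 := h3
      omega
  · intro b hb
    have h1 : |b i| ≤ (BdA_K A : ℤ) * r := by
      rcases hi with rfl | rfl
      · exact BdA_size (hS hb) 0 (by decide) (by decide) (by decide)
      · exact BdA_size (hS hb) 1 (by decide) (by decide) (by decide)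
    have h2 : |((b i : ℤ) : ℝ)| ≤ (BdA_K A : ℝ) * r := by
      have : ((|b i| : ℤ) : ℝ) ≤ (((BdA_K A : ℤ) * r : ℤ) : ℝ) := by exact_mod_cast h1
      push_cast at this
      exact this
    refine h2.trans ?_
    rw [Real.rpow_natCast]
    exact BdA_pow hr
  · intro b _ b' _ h1
    have : i ≠ 2 := by rcases hi with rfl | rfl <;> decide
    exact BdA_upd h1 this
  · intro b hb
    obtain ⟨l, hl, hT, h1, h2, h3⟩ := h b hb
    exact ⟨l, hl, hT, h1, h1, h2, h3⟩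
  · intro b _ b' _ hu l hl h1 h2
    obtain ⟨h3, h4, h5⟩ := h1
    obtain ⟨-, h6, -⟩ := h2
    have hp : Prime (l : ℤ) := Nat.prime_iff_prime_int.1 hl
    have hE : EE b - EE b' = -(b 2 - b' 2) * (4 * b 0 * b 1 + b 6 ^ 2) := by
      unfold EE dV
      rw [BdA_upd hu (i := 0) (by decide), BdA_upd hu (i := 1) (by decide),
        BdA_upd hu (i := 4) (by decide), BdA_upd hu (i := 5) (by decide),
        BdA_upd hu (i := 6) (by decide), BdA_upd hu (i := 7) (by decide)]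
      ring
    have h7 : (l : ℤ) ∣ 4 * b 0 * b 1 := by
      rcases hi with rfl | rfl
      · exact Dvd.dvd.mul_right (Dvd.dvd.mul_left h3 4) _
      · exact Dvd.dvd.mul_left h3 _
    have h8 : (l : ℤ) ∣ (b 2 - b' 2) * b 6 ^ 2 := by
      have h9 := dvd_add (dvd_neg.2 (dvd_sub h4 h6))
        (dvd_neg.2 (Dvd.dvd.mul_left h7 (b 2 - b' 2)))
      rw [hE] at h9
      have e : -(-(b 2 - b' 2) * (4 * b 0 * b 1 + b 6 ^ 2)) + -((b 2 - b' 2) * (4 * b 0 * b 1)) =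
        (b 2 - b' 2) * b 6 ^ 2 := by ring
      rwa [e] at h9
    rcases hp.dvd_or_dvd h8 with h9 | h9
    · exact h9
    · exact absurd (hp.dvd_of_dvd_pow h9) h5

private theorem BdA_S2 {A : Fin 10 → ℤ} (hA : 1 ≤ A 1) {r : ℕ} {δ : ℝ} (hr : 2 ≤ r) (hδ : 0 < δ)
    (hδ1 : δ ≤ 1) (hNz : Nz A r) {i : Fin 10} (hi : i = 0 ∨ i = 1) {S : Finset (Fin 10 → ℤ)}
    (hS : S ⊆ Bs A r)
    (h : ∀ b ∈ S, ∃ l : ℕ, l.Prime ∧ (r : ℝ) ^ δ < l ∧ (l : ℤ) ∣ b i ∧ (l : ℤ) ∣ b 6) :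
    (S.card : ℝ) ≤ 2 * (((BdA_K A + 1 : ℕ) : ℝ) / δ) * (r : ℝ) ^ (7 - δ) := by
  refine BdA_part hr hδ hδ1 (j := 6) (by decide) hS (fun b => b i) (Nat.cast_nonneg _) ?_ ?_ ?_
    (fun l b => (l : ℤ) ∣ b 6) ?_ ?_
  · intro b hb
    rcases hi with rfl | rfl
    · exact (hNz b (hS hb)).1
    · have h1 := (BdA_vs hA (by omega : 1 ≤ r) (hS hb)).1
      have h2 : (2 : ℤ) ≤ r := by exact_mod_cast hr
      intro h3
      have h4 : b 1 = 0 := h3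
      omega
  · intro b hb
    have h1 : |b i| ≤ (BdA_K A : ℤ) * r := by
      rcases hi with rfl | rfl
      · exact BdA_size (hS hb) 0 (by decide) (by decide) (by decide)
      · exact BdA_size (hS hb) 1 (by decide) (by decide) (by decide)
    have h2 : |((b i : ℤ) : ℝ)| ≤ (BdA_K A : ℝ) * r := by
      have : ((|b i| : ℤ) : ℝ) ≤ (((BdA_K A : ℤ) * r : ℤ) : ℝ) := by exact_mod_cast h1
      push_cast at this
      exact this
    refine h2.trans ?_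
    rw [Real.rpow_natCast]
    exact BdA_pow hr
  · intro b _ b' _ h1
    have : i ≠ 6 := by rcases hi with rfl | rfl <;> decide
    exact BdA_upd h1 this
  · intro b hb
    obtain ⟨l, hl, hT, h1, h2⟩ := h b hb
    exact ⟨l, hl, hT, h1, h2⟩
  · intro b _ b' _ _ l _ h1 h2
    exact dvd_sub h1 h2

private theorem BdA_S3 {A : Fin 10 → ℤ} (hA : 1 ≤ A 1) {r : ℕ} (hr : 2 ≤ r)
    (hNz : Nz A r) {S : Finset (Fin 10 → ℤ)} (hS : S ⊆ Bs A r) (h : ∀ b ∈ S, BdA_P b = 0) :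
    (S.card : ℝ) ≤ 2 * (r : ℝ) ^ 6 := by
  classical
  refine ln6 (j := 0) (by decide) hS (by norm_num) ?_
  intro b hb
  have key : ((S.filter (fun b' => Function.update b' 0 0 = Function.update b 0 0)).card) ≤ 2 := by
    by_contra hcon
    push Not at hcon
    obtain ⟨x, hx, y, hy, z, hz, hxy, hxz, hyz⟩ := Finset.two_lt_card.1 hcon
    rw [Finset.mem_filter] at hx hy hz
    obtain ⟨hb1, hv1, hv2, -, -, -⟩ := BdA_vs hA (by omega : 1 ≤ r) (hS hb)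
    simp only at hv1 hv2
    have hb7 := (hNz b (hS hb)).2.1
    have hr' : (2 : ℤ) ≤ r := by exact_mod_cast hr
    have hpoly : ∀ x : Fin 10 → ℤ, x ∈ S → Function.update x 0 0 = Function.update b 0 0 →
        4 * (vv (b 1, b 6, b 7)).2.2 ^ 2 * x 0 ^ 2 +
        (-(4 * (b 4 + b 5) * (vv (b 1, b 6, b 7)).2.1 * (vv (b 1, b 6, b 7)).2.2 +
          (vv (b 1, b 6, b 7)).1 * (b 6 * (vv (b 1, b 6, b 7)).2.2 +
            b 7 * (vv (b 1, b 6, b 7)).2.1))) * x 0 +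
        ((b 4 + b 5) ^ 2 * (vv (b 1, b 6, b 7)).2.1 ^ 2 +
          (vv (b 1, b 6, b 7)).1 * ((b 4 + b 5) * b 6 * (vv (b 1, b 6, b 7)).2.1)) = 0 := by
      intro x hxS hu
      have h1 := h x hxS
      unfold BdA_P at h1
      rw [BdA_upd hu (i := 1) (by decide),
        BdA_upd hu (i := 4) (by decide), BdA_upd hu (i := 5) (by decide),
        BdA_upd hu (i := 6) (by decide), BdA_upd hu (i := 7) (by decide)] at h1
      linear_combination h1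
    have hne : ∀ x y : Fin 10 → ℤ, Function.update x 0 0 = Function.update b 0 0 →
        Function.update y 0 0 = Function.update b 0 0 → x ≠ y → x 0 ≠ y 0 := by
      intro x y hx hy hxy h0
      exact hxy (BdA_ext (hx.trans hy.symm) h0)
    obtain ⟨h1, h2⟩ := BdA_quad (hpoly x hx.1 hx.2) (hpoly y hy.1 hy.2) (hpoly z hz.1 hz.2)
      (hne _ _ hx.2 hy.2 hxy) (hne _ _ hx.2 hz.2 hxz) (hne _ _ hy.2 hz.2 hyz)
    set v := vv (b 1, b 6, b 7) with hv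
    have h3 : v.2.2 = 0 := by
      have : v.2.2 ^ 2 = 0 := by linarith
      exact pow_eq_zero_iff (two_ne_zero) |>.1 this
    have h4 : v.2.1 ≠ 0 := fun h => hv2 ⟨h, h3⟩
    rw [h3] at h2 hv1
    have h5 : v.1 * (b 7 * v.2.1) = 0 := by linear_combination -h2
    have h6 : v.1 = 0 := (mul_eq_zero.1 h5).resolve_right (mul_ne_zero hb7 h4)
    rw [h6] at hv1
    have h7 : b 7 * v.2.1 = 0 := by linear_combination -hv1
    exact mul_ne_zero hb7 h4 h7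
  exact_mod_cast key

private theorem BdA_S4 {A : Fin 10 → ℤ} (hA : 1 ≤ A 1) {r : ℕ} {δ : ℝ} (hr : 2 ≤ r) (hδ : 0 < δ)
    (hδ1 : δ ≤ 1) {S : Finset (Fin 10 → ℤ)}
    (hS : S ⊆ Bs A r)
    (h : ∀ b ∈ S, BdA_P b ≠ 0 ∧ ∃ l : ℕ, l.Prime ∧ (r : ℝ) ^ δ < l ∧ (l : ℤ) ∣ EE b ∧
      (l : ℤ) ∣ Vf b ∧ ¬ (l : ℤ) ∣ b 0 ∧ ¬ (l : ℤ) ∣ b 1) :
    (S.card : ℝ) ≤ 2 * (((5 * (BdA_K A + 1) + 5 : ℕ) : ℝ) / δ) * (r : ℝ) ^ (7 - δ) := by
  refine BdA_part hr hδ hδ1 (j := 2) (by decide) hS BdA_P (Nat.cast_nonneg _) ?_ ?_ ?_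
    (fun l b => (l : ℤ) ∣ Vf b ∧ ¬ (l : ℤ) ∣ (vv (b 1, b 6, b 7)).2.1) ?_ ?_
  · intro b hb
    exact (h b hb).1
  · intro b hb
    rw [Real.rpow_natCast]
    exact BdA_Psize hA hr (hS hb)
  · intro b _ b' _ hu
    unfold BdA_P
    rw [BdA_upd hu (i := 0) (by decide), BdA_upd hu (i := 1) (by decide),
      BdA_upd hu (i := 4) (by decide), BdA_upd hu (i := 5) (by decide),
      BdA_upd hu (i := 6) (by decide), BdA_upd hu (i := 7) (by decide)]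
  · intro b hb
    obtain ⟨-, l, hl, hT, h1, h2, h3, h4⟩ := h b hb
    have hp : Prime (l : ℤ) := Nat.prime_iff_prime_int.1 hl
    obtain ⟨hb1, hvsp⟩ := BdA_vs hA (by omega : 1 ≤ r) (hS hb)
    have hv1 := hvsp.1
    simp only at hv1
    have hid := BdA_id hv1
    have h1' : (1 : ℤ) ≤ b 1 := by
      have : (2 : ℤ) ≤ r := by exact_mod_cast hr
      linarith
    refine ⟨l, hl, hT, ?_, h2, ?_⟩
    · have h5 : (l : ℤ) ∣ b 1 * BdA_P b := by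
        unfold BdA_P
        rw [← hid]
        exact dvd_add (Dvd.dvd.mul_left h1 _) (Dvd.dvd.mul_left h2 _)
      exact (hp.dvd_or_dvd h5).resolve_left h4
    · intro h8
      have hV : Vf b = b 2 * (vv (b 1, b 6, b 7)).2.1 ^ 2 - (b 4 + b 5) * (vv (b 1, b 6, b 7)).2.1 *
        (vv (b 1, b 6, b 7)).2.2 + b 0 * (vv (b 1, b 6, b 7)).2.2 ^ 2 := rfl
      set v := vv (b 1, b 6, b 7) with hv
      have h9 : (l : ℤ) ∣ b 0 * v.2.2 ^ 2 := by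
        have e : b 0 * v.2.2 ^ 2 = Vf b - v.2.1 * (b 2 * v.2.1 - (b 4 + b 5) * v.2.2) := by
          rw [hV]; ring
        rw [e]
        exact dvd_sub h2 (Dvd.dvd.mul_right h8 _)
      have h10 : (l : ℤ) ∣ v.2.2 := hp.dvd_of_dvd_pow ((hp.dvd_or_dvd h9).resolve_left h3)
      have h11 : (l : ℤ) ∣ b 1 * v.1 := by
        rw [hv1]
        exact dvd_sub (Dvd.dvd.mul_left h8 _) (Dvd.dvd.mul_left h10 _)
      have h12 : (l : ℤ) ∣ v.1 := (hp.dvd_or_dvd h11).resolve_left h4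
      exact vsp_prime (t := (b 1, b 6, b 7)) h1' hvsp hl ⟨h12, h8, h10⟩
  · intro b _ b' _ hu l hl h1 h2
    obtain ⟨h3, h4⟩ := h1
    obtain ⟨h5, -⟩ := h2
    have hp : Prime (l : ℤ) := Nat.prime_iff_prime_int.1 hl
    have hE : Vf b - Vf b' = (b 2 - b' 2) * (vv (b 1, b 6, b 7)).2.1 ^ 2 := by
      unfold Vf Vq
      rw [BdA_upd hu (i := 0) (by decide), BdA_upd hu (i := 1) (by decide),
        BdA_upd hu (i := 4) (by decide), BdA_upd hu (i := 5) (by decide),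
        BdA_upd hu (i := 6) (by decide), BdA_upd hu (i := 7) (by decide)]
      ring
    have h6 := dvd_sub h3 h5
    rw [hE] at h6
    rcases hp.dvd_or_dvd h6 with h9 | h9
    · exact h9
    · exact absurd (hp.dvd_of_dvd_pow h9) h4

open scoped Classical in
theorem bdA (A : Fin 10 → ℤ) (hA : 1 ≤ A 1) (δ : ℝ) (hδ : 0 < δ) (hδ1 : δ ≤ 1) : ∃ C : ℝ, 0 ≤ C ∧
    ∀ r : ℕ, 1 ≤ r → Nz A r →
    (((Bs A r).filter (fun b => ∃ l : ℕ, l.Prime ∧ l ≠ 2 ∧ (r : ℝ) ^ δ < l ∧ (l : ℤ) ∣ EE b ∧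
      (l : ℤ) ∣ Vf b)).card : ℝ) ≤ C * (r : ℝ) ^ (7 - δ) := by
  refine ⟨(Bs A 1).card + 4 * (2 * (((BdA_K A + 1 : ℕ) : ℝ) / δ)) +
    2 * (((5 * (BdA_K A + 1) + 5 : ℕ) : ℝ) / δ) + 2, by positivity, ?_⟩
  intro r hr hNz
  have k1 : 0 ≤ 2 * (((BdA_K A + 1 : ℕ) : ℝ) / δ) := by positivity
  have k2 : 0 ≤ 2 * (((5 * (BdA_K A + 1) + 5 : ℕ) : ℝ) / δ) := by positivity
  set c1 := 2 * (((BdA_K A + 1 : ℕ) : ℝ) / δ) with hc1
  set c2 := 2 * (((5 * (BdA_K A + 1) + 5 : ℕ) : ℝ) / δ) with hc2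
  rcases Nat.lt_or_ge r 2 with hlt | hr2
  · have h1 : r = 1 := by omega
    subst h1
    have h2 : ((((Bs A 1).filter (fun b => ∃ l : ℕ, l.Prime ∧ l ≠ 2 ∧ ((1 : ℕ) : ℝ) ^ δ < l ∧
      (l : ℤ) ∣ EE b ∧ (l : ℤ) ∣ Vf b)).card : ℕ) : ℝ) ≤ (Bs A 1).card := by
      exact_mod_cast Finset.card_filter_le _ _
    refine h2.trans ?_
    rw [Nat.cast_one, Real.one_rpow]
    linarith
  · set S := (Bs A r).filter (fun b => ∃ l : ℕ, l.Prime ∧ l ≠ 2 ∧ (r : ℝ) ^ δ < l ∧ (l : ℤ) ∣ EE b ∧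
      (l : ℤ) ∣ Vf b) with hS
    set Sa : Fin 10 → Finset (Fin 10 → ℤ) := fun i => (Bs A r).filter (fun b => ∃ l : ℕ, l.Prime ∧
      (r : ℝ) ^ δ < l ∧ (l : ℤ) ∣ b i ∧ (l : ℤ) ∣ EE b ∧ ¬ (l : ℤ) ∣ b 6) with hSa
    set Sb : Fin 10 → Finset (Fin 10 → ℤ) := fun i => (Bs A r).filter (fun b => ∃ l : ℕ, l.Prime ∧
      (r : ℝ) ^ δ < l ∧ (l : ℤ) ∣ b i ∧ (l : ℤ) ∣ b 6) with hSb
    set Sc := (Bs A r).filter (fun b => BdA_P b = 0) with hSc
    set Sd := (Bs A r).filter (fun b => BdA_P b ≠ 0 ∧ ∃ l : ℕ, l.Prime ∧ (r : ℝ) ^ δ < l ∧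
      (l : ℤ) ∣ EE b ∧ (l : ℤ) ∣ Vf b ∧ ¬ (l : ℤ) ∣ b 0 ∧ ¬ (l : ℤ) ∣ b 1) with hSd
    have hsub : S ⊆ (Sa 0 ∪ Sb 0) ∪ (Sa 1 ∪ Sb 1) ∪ (Sc ∪ Sd) := by
      intro b hb
      rw [hS, Finset.mem_filter] at hb
      obtain ⟨hb1, l, hl, -, hT, hE, hV⟩ := hb
      by_cases h0 : (l : ℤ) ∣ b 0
      · by_cases h6 : (l : ℤ) ∣ b 6
        · exact Finset.mem_union_left _ (Finset.mem_union_left _ (Finset.mem_union_right _
            (Finset.mem_filter.2 ⟨hb1, l, hl, hT, h0, h6⟩)))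
        · exact Finset.mem_union_left _ (Finset.mem_union_left _ (Finset.mem_union_left _
            (Finset.mem_filter.2 ⟨hb1, l, hl, hT, h0, hE, h6⟩)))
      · by_cases h1 : (l : ℤ) ∣ b 1
        · by_cases h6 : (l : ℤ) ∣ b 6
          · exact Finset.mem_union_left _ (Finset.mem_union_right _ (Finset.mem_union_right _
              (Finset.mem_filter.2 ⟨hb1, l, hl, hT, h1, h6⟩)))
          · exact Finset.mem_union_left _ (Finset.mem_union_right _ (Finset.mem_union_left _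
              (Finset.mem_filter.2 ⟨hb1, l, hl, hT, h1, hE, h6⟩)))
        · by_cases hP : BdA_P b = 0
          · exact Finset.mem_union_right _ (Finset.mem_union_left _
              (Finset.mem_filter.2 ⟨hb1, hP⟩))
          · exact Finset.mem_union_right _ (Finset.mem_union_right _
              (Finset.mem_filter.2 ⟨hb1, hP, l, hl, hT, hE, hV, h0, h1⟩))
    have hcard : S.card ≤ ((Sa 0).card + (Sb 0).card) + ((Sa 1).card + (Sb 1).card) +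
        (Sc.card + Sd.card) := by
      refine (Finset.card_le_card hsub).trans ((Finset.card_union_le _ _).trans ?_)
      refine Nat.add_le_add ((Finset.card_union_le _ _).trans ?_) (Finset.card_union_le _ _)
      exact Nat.add_le_add (Finset.card_union_le _ _) (Finset.card_union_le _ _)
    have hcard' : (S.card : ℝ) ≤ (((Sa 0).card : ℝ) + (Sb 0).card) + (((Sa 1).card : ℝ) + (Sb 1).card) +
        ((Sc.card : ℝ) + Sd.card) := by exact_mod_cast hcard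
    have p1 : ∀ i : Fin 10, (i = 0 ∨ i = 1) → ((Sa i).card : ℝ) ≤ c1 * (r : ℝ) ^ (7 - δ) := by
      intro i hi
      exact BdA_S1 hA hr2 hδ hδ1 hNz hi (Finset.filter_subset _ _)
        (fun b hb => (Finset.mem_filter.1 hb).2)
    have p2 : ∀ i : Fin 10, (i = 0 ∨ i = 1) → ((Sb i).card : ℝ) ≤ c1 * (r : ℝ) ^ (7 - δ) := by
      intro i hi
      exact BdA_S2 hA hr2 hδ hδ1 hNz hi (Finset.filter_subset _ _)
        (fun b hb => (Finset.mem_filter.1 hb).2)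
    have p3 : (Sc.card : ℝ) ≤ 2 * (r : ℝ) ^ (7 - δ) := by
      refine (BdA_S3 hA hr2 hNz (Finset.filter_subset _ _)
        (fun b hb => (Finset.mem_filter.1 hb).2)).trans ?_
      have hr1 : (1 : ℝ) ≤ r := by exact_mod_cast hr
      have h1 : (r : ℝ) ^ 6 = (r : ℝ) ^ (6 : ℝ) := by
        rw [← Real.rpow_natCast]
        norm_num
      rw [h1]
      exact mul_le_mul_of_nonneg_left (Real.rpow_le_rpow_of_exponent_le hr1 (by linarith))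
        (by norm_num)
    have p4 : (Sd.card : ℝ) ≤ c2 * (r : ℝ) ^ (7 - δ) :=
      BdA_S4 hA hr2 hδ hδ1 (Finset.filter_subset _ _) (fun b hb => (Finset.mem_filter.1 hb).2)
    have q1 := p1 0 (Or.inl rfl)
    have q2 := p1 1 (Or.inr rfl)
    have q3 := p2 0 (Or.inl rfl)
    have q4 := p2 1 (Or.inr rfl)
    have q5 : 0 ≤ ((Bs A 1).card : ℝ) * (r : ℝ) ^ (7 - δ) :=
      mul_nonneg (Nat.cast_nonneg _) (Real.rpow_nonneg (Nat.cast_nonneg _) _)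
    nlinarith

end Pool.Agent.PP5LB
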