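import Pool.Agent.PP5LB.Defs

set_option autoImplicit false

namespace Pool.Agent.PP5LB

open Pool.Agent.PP5L Finset

section
variable {R S : Type*} [CommRing R] [CommRing S]

theorem FF4 (x : Fin 10 → R) : 4 * FF x = dW x - dV x - 4 * KK x := by
  unfold FF dW dV KK; ring

theorem DD_expl (x : Fin 10 → R) : DD x = dV x * dW x + KK x ^ 2
    + 4 * x 2 * (x 3 * x 6 ^ 2 - (x 4 - x 5) * x 6 * x 8 + x 1 * x 8 ^ 2)
    - 2 * (x 4 + x 5) * (2 * x 3 * x 6 * x 7 - (x 4 - x 5) * x 6 * x 9 - (x 4 - x 5) * x 7 * x 8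
      + 2 * x 1 * x 8 * x 9)
    + 4 * x 0 * (x 3 * x 7 ^ 2 - (x 4 - x 5) * x 7 * x 9 + x 1 * x 9 ^ 2) := by
  unfold DD SS dV dW KK
  rw [Matrix.det_succ_row_zero]
  simp [Fin.sum_univ_succ, Matrix.det_fin_three, Fin.succAbove, Matrix.submatrix]
  ring

theorem adj33 (x : Fin 10 → R) : (SS x).adjugate 3 3 = 2 * EE x := by
  unfold SS EE dV
  rw [Matrix.adjugate_apply, Matrix.det_succ_row_zero]
  simp [Fin.sum_univ_succ, Matrix.det_fin_three, Fin.succAbove, Matrix.submatrix, Matrix.updateRow_apply, Pi.single_apply]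
  ring

theorem adj22 (x : Fin 10 → R) : (SS x).adjugate 2 2 = 2 * MM x := by
  unfold SS MM dV
  rw [Matrix.adjugate_apply, Matrix.det_succ_row_zero]
  simp [Fin.sum_univ_succ, Matrix.det_fin_three, Fin.succAbove, Matrix.submatrix, Matrix.updateRow_apply, Pi.single_apply]
  ring

theorem map_FF (f : R →+* S) (x : Fin 10 → R) : FF (fun j => f (x j)) = f (FF x) := by
  unfold FF; simp [map_add, map_sub, map_mul]

theorem map_dV (f : R →+* S) (x : Fin 10 → R) : dV (fun j => f (x j)) = f (dV x) := by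
  unfold dV; simp [map_add, map_sub, map_mul, map_pow, map_ofNat]

theorem map_dW (f : R →+* S) (x : Fin 10 → R) : dW (fun j => f (x j)) = f (dW x) := by
  unfold dW; simp [map_add, map_sub, map_mul, map_pow, map_ofNat]

theorem map_EE (f : R →+* S) (x : Fin 10 → R) : EE (fun j => f (x j)) = f (EE x) := by
  unfold EE dV; simp [map_add, map_sub, map_mul, map_pow, map_ofNat]

theorem map_MM (f : R →+* S) (x : Fin 10 → R) : MM (fun j => f (x j)) = f (MM x) := by
  unfold MM dV; simp [map_add, map_sub, map_mul, map_pow, map_ofNat]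

theorem map_KK (f : R →+* S) (x : Fin 10 → R) : KK (fun j => f (x j)) = f (KK x) := by
  unfold KK; simp [map_sub, map_mul]

theorem map_DD (f : R →+* S) (x : Fin 10 → R) : DD (fun j => f (x j)) = f (DD x) := by
  rw [DD_expl, DD_expl, map_dV, map_dW, map_KK]
  simp [map_add, map_sub, map_mul, map_pow, map_ofNat]

theorem map_Uni (f : R →+* S) (x : Fin 10 → R) (h : Uni x) : Uni (fun j => f (x j)) := by
  obtain ⟨a, b, c, h⟩ := h
  exact ⟨f a, f b, f c, by rw [← map_mul, ← map_mul, ← map_mul, ← map_add, ← map_add, h, map_one]⟩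

end

section red
variable (M : ℕ) (x : Fin 10 → ℤ)

theorem red_FF : FF (red M x) = ((FF x : ℤ) : ZMod M) := map_FF (Int.castRingHom (ZMod M)) x
theorem red_dV : dV (red M x) = ((dV x : ℤ) : ZMod M) := map_dV (Int.castRingHom (ZMod M)) x
theorem red_dW : dW (red M x) = ((dW x : ℤ) : ZMod M) := map_dW (Int.castRingHom (ZMod M)) x
theorem red_EE : EE (red M x) = ((EE x : ℤ) : ZMod M) := map_EE (Int.castRingHom (ZMod M)) x
theorem red_MM : MM (red M x) = ((MM x : ℤ) : ZMod M) := map_MM (Int.castRingHom (ZMod M)) x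
theorem red_KK : KK (red M x) = ((KK x : ℤ) : ZMod M) := map_KK (Int.castRingHom (ZMod M)) x
theorem red_DD : DD (red M x) = ((DD x : ℤ) : ZMod M) := map_DD (Int.castRingHom (ZMod M)) x

theorem red_Uni {x : Fin 10 → ℤ} (h : Uni x) : Uni (red M x) := map_Uni (Int.castRingHom (ZMod M)) x h

end red

theorem mem_VM {M : ℕ} [NeZero M] {y : Fin 10 → ZMod M} : y ∈ VM M ↔ FF y = 0 ∧ Uni y := by
  unfold VM; simp

theorem memXA {A : Fin 10 → ℤ} {r : ℕ} {x : Fin 10 → ℤ} :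
    x ∈ XA A r ↔ (∀ j, x j ∈ Bx A r j) ∧ FF x = 0 ∧ Uni x := by
  unfold XA; simp [Fintype.mem_piFinset]

theorem mem_XC {A : Fin 10 → ℤ} {r M : ℕ} {y : Fin 10 → ZMod M} {x : Fin 10 → ℤ} :
    x ∈ XC A r M y ↔ x ∈ XA A r ∧ red M x = y := by
  unfold XC; simp

theorem mem_XI {A : Fin 10 → ℤ} {r M : ℕ} {c : Fin 10 → ℤ} {x : Fin 10 → ℤ} :
    x ∈ XI A r M c ↔ x ∈ XA A r ∧ ∀ j, (M : ℤ) ∣ x j - c j := by
  unfold XI; simp

theorem red_mem_VM {A : Fin 10 → ℤ} {r : ℕ} {x : Fin 10 → ℤ} (M : ℕ) [NeZero M] (h : x ∈ XA A r) :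
    red M x ∈ VM M := by
  rw [memXA] at h
  rw [mem_VM]
  exact ⟨by rw [red_FF, h.2.1]; simp, red_Uni M h.2.2⟩

/-- the bound for `x3` is automatic -/
theorem x3_bd {A : Fin 10 → ℤ} {r : ℕ} {x : Fin 10 → ℤ} (hA : 1 ≤ A 1) (hr : 1 ≤ r)
    (hx : ∀ j, j ≠ 3 → A j * r ≤ x j ∧ x j < (A j + 1) * r) (hF : FF x = 0) :
    |x 3| ≤ BB A * r := by
  set m : ℤ := ∑ j, (|A j| + 1) with hm
  have hrz : (1 : ℤ) ≤ r := by exact_mod_cast hr
  have hmj : ∀ j, |A j| + 1 ≤ m := fun j =>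
    Finset.single_le_sum (f := fun j => |A j| + 1) (fun i _ => by positivity) (Finset.mem_univ j)
  have hxj : ∀ j, j ≠ 3 → |x j| ≤ m * r := by
    intro j hj
    obtain ⟨h1, h2⟩ := hx j hj
    have h3 := hmj j
    have h4 : |x j| ≤ (|A j| + 1) * r := by
      rw [abs_le]
      constructor
      · nlinarith [neg_abs_le (A j), abs_nonneg (A j)]
      · nlinarith [le_abs_self (A j), abs_nonneg (A j)]
    exact h4.trans (by nlinarith)
  have h1 : (r : ℤ) ≤ x 1 := by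
    have := (hx 1 (by decide)).1
    nlinarith
  have hkey : x 1 * x 3 = x 0 * x 2 - x 4 * x 5 - x 6 * x 9 + x 7 * x 8 := by
    have : FF x = x 0 * x 2 - x 1 * x 3 - x 4 * x 5 - x 6 * x 9 + x 7 * x 8 := rfl
    linarith [this, hF]
  have hm0 : 0 ≤ m := by
    have := hmj 0
    have := abs_nonneg (A 0)
    linarith
  have hmul : ∀ i j, i ≠ 3 → j ≠ 3 → |x i * x j| ≤ (m * r) ^ 2 := by
    intro i j hi hj
    rw [abs_mul, sq]
    exact mul_le_mul (hxj i hi) (hxj j hj) (abs_nonneg _) (by positivity)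
  have h4 : |x 1 * x 3| ≤ 4 * (m * r) ^ 2 := by
    rw [hkey]
    have a1 := abs_le.mp (hmul 0 2 (by decide) (by decide))
    have a2 := abs_le.mp (hmul 4 5 (by decide) (by decide))
    have a3 := abs_le.mp (hmul 6 9 (by decide) (by decide))
    have a4 := abs_le.mp (hmul 7 8 (by decide) (by decide))
    rw [abs_le]
    constructor <;> linarith [a1.1, a1.2, a2.1, a2.2, a3.1, a3.2, a4.1, a4.2]
  have h5 : (r : ℤ) * |x 3| ≤ |x 1 * x 3| := by
    rw [abs_mul, abs_of_pos (by linarith : (0:ℤ) < x 1)]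
    exact mul_le_mul_of_nonneg_right h1 (abs_nonneg _)
  have h6 : (r : ℤ) * |x 3| ≤ r * (BB A * r) := by
    calc (r : ℤ) * |x 3| ≤ 4 * (m * r) ^ 2 := h5.trans h4
      _ = r * (BB A * r) := by unfold BB; rw [← hm]; ring
  exact le_of_mul_le_mul_left h6 (by linarith)

/-- membership without the condition on `x3` -/
theorem memXAb {A : Fin 10 → ℤ} {r : ℕ} {x : Fin 10 → ℤ} (hA : 1 ≤ A 1) (hr : 1 ≤ r) :
    x ∈ XA A r ↔ (∀ j, j ≠ 3 → A j * r ≤ x j ∧ x j < (A j + 1) * r) ∧ FF x = 0 ∧ Uni x := by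
  rw [memXA]
  constructor
  · rintro ⟨h1, h2, h3⟩
    refine ⟨fun j hj => ?_, h2, h3⟩
    have := h1 j
    unfold Bx at this
    rw [if_neg hj] at this
    exact Finset.mem_Ico.mp this
  · rintro ⟨h1, h2, h3⟩
    refine ⟨fun j => ?_, h2, h3⟩
    unfold Bx
    by_cases hj : j = 3
    · rw [if_pos hj, Finset.mem_Icc, hj]
      exact abs_le.mp (x3_bd hA hr h1 h2)
    · rw [if_neg hj]
      exact Finset.mem_Ico.mpr (h1 j hj)

theorem BB_pos (A : Fin 10 → ℤ) (j : Fin 10) : 4 * (|A j| + 1) ≤ BB A := by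
  set m : ℤ := ∑ j, (|A j| + 1) with hm
  have hmj : |A j| + 1 ≤ m :=
    Finset.single_le_sum (f := fun j => |A j| + 1) (fun i _ => by positivity) (Finset.mem_univ j)
  have h0 := abs_nonneg (A j)
  unfold BB
  rw [← hm]
  nlinarith

/-- size of all the coordinates -/
theorem XA_size {A : Fin 10 → ℤ} {r : ℕ} {x : Fin 10 → ℤ} (h : x ∈ XA A r) (j : Fin 10) :
    |x j| ≤ BB A * r := by
  rw [memXA] at h
  have h1 := h.1 j
  unfold Bx at h1
  by_cases hj : j = 3
  · rw [if_pos hj] at h1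
    exact abs_le.mpr (Finset.mem_Icc.mp h1)
  · rw [if_neg hj] at h1
    obtain ⟨h2, h3⟩ := Finset.mem_Ico.mp h1
    have h4 := BB_pos A j
    have hr : (0 : ℤ) ≤ r := by positivity
    rw [abs_le]
    constructor
    · nlinarith [neg_abs_le (A j), abs_nonneg (A j)]
    · nlinarith [le_abs_self (A j), abs_nonneg (A j)]

end Pool.Agent.PP5LB
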