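import Mathlib

/-!
# LB5, section B: points of a coset of a two dimensional lattice in a rectangle
-/

set_option autoImplicit false

namespace Pool.Agent.PP5LB

/-- number of points `(u, v)` of the rectangle `[a, a+L1) × [b, b+L2)` with `n ∣ al u + be v - c` -/
noncomputable def cnt (al be n c a b : ℤ) (L1 L2 : ℕ) : ℕ :=
  ((Finset.Ico a (a + L1) ×ˢ Finset.Ico b (b + L2)).filter
    (fun z : ℤ × ℤ => n ∣ al * z.1 + be * z.2 - c)).card

private theorem Cst_mod {n : ℤ} (hn : 0 < n) (t0 A B : ℤ) :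
    ((B - A : ℤ) : ℝ) / n - 1 ≤ (((Finset.Ico A B).filter (fun t => n ∣ t - t0)).card : ℝ) ∧
    (0 ≤ ((B - A : ℤ) : ℝ) / n + 1 →
    (((Finset.Ico A B).filter (fun t => n ∣ t - t0)).card : ℝ) ≤ ((B - A : ℤ) : ℝ) / n + 1) := by
  have h := Int.Ico_filter_modEq_card A B hn t0
  have he : (Finset.Ico A B).filter (fun t => n ∣ t - t0) = (Finset.Ico A B).filter (fun t => t ≡ t0 [ZMOD n]) := by
    apply Finset.filter_congr
    intro t _
    rw [Int.modEq_iff_dvd, ← dvd_neg, neg_sub]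
  rw [he]
  have hnR : (0 : ℝ) < n := by exact_mod_cast hn
  have hnQ : (0 : ℚ) < n := by exact_mod_cast hn
  set N := ((Finset.Ico A B).filter (fun t => t ≡ t0 [ZMOD n])).card with hN
  have h1 : ((N : ℤ) : ℚ) = max ((⌈((B : ℚ) - t0) / n⌉ : ℚ) - ⌈((A : ℚ) - t0) / n⌉) 0 := by
    rw [h]; push_cast; rfl
  have c1 := Int.le_ceil (((B : ℚ) - t0) / n)
  have c2 := Int.ceil_lt_add_one (((B : ℚ) - t0) / n)
  have c3 := Int.le_ceil (((A : ℚ) - t0) / n)
  have c4 := Int.ceil_lt_add_one (((A : ℚ) - t0) / n)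
  have e1 : ((B : ℚ) - t0) / n - ((A : ℚ) - t0) / n = ((B : ℚ) - A) / n := by ring
  have lo : ((B : ℚ) - A) / n - 1 ≤ (N : ℚ) := by
    have : ((N : ℤ) : ℚ) = (N : ℚ) := by push_cast; rfl
    rw [← this, h1]
    refine le_trans ?_ (le_max_left _ _)
    linarith
  have hi : 0 ≤ ((B : ℚ) - A) / n + 1 → (N : ℚ) ≤ ((B : ℚ) - A) / n + 1 := by
    intro h0
    have : ((N : ℤ) : ℚ) = (N : ℚ) := by push_cast; rfl
    rw [← this, h1]
    refine max_le ?_ h0
    linarith
  constructor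
  · have := (Rat.cast_le (K := ℝ)).mpr lo
    push_cast at this ⊢
    exact this
  · intro h0
    have h0' : 0 ≤ ((B : ℚ) - A) / n + 1 := by
      have : ((0 : ℚ) : ℝ) ≤ (((B : ℚ) - A) / n + 1 : ℚ) := by
        push_cast; push_cast at h0; exact h0
      exact_mod_cast this
    have := (Rat.cast_le (K := ℝ)).mpr (hi h0')
    push_cast at this ⊢
    exact this

private theorem Cst_bez (p q m : ℤ) (h : ∀ g : ℤ, g ∣ p → g ∣ q → g ∣ m → IsUnit g) :
    ∃ x y z : ℤ, x * p + y * q + z * m = 1 := by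
  have h1 := Int.gcd_eq_gcd_ab p q
  have h2 := Int.gcd_eq_gcd_ab (Int.gcd p q : ℤ) m
  have hg : IsUnit ((Int.gcd (Int.gcd p q : ℤ) m : ℕ) : ℤ) := by
    apply h
    · exact (Int.gcd_dvd_left ..).trans (Int.gcd_dvd_left ..)
    · exact (Int.gcd_dvd_left ..).trans (Int.gcd_dvd_right ..)
    · exact Int.gcd_dvd_right ..
  have hg1 : ((Int.gcd (Int.gcd p q : ℤ) m : ℕ) : ℤ) = 1 := by
    rcases Int.isUnit_iff.mp hg with h | h
    · exact h
    · have : (0 : ℤ) ≤ ((Int.gcd (Int.gcd p q : ℤ) m : ℕ) : ℤ) := Int.natCast_nonneg _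
      omega
  rw [hg1, h1] at h2
  refine ⟨Int.gcdA p q * Int.gcdA (p * Int.gcdA p q + q * Int.gcdB p q) m,
    Int.gcdB p q * Int.gcdA (p * Int.gcdA p q + q * Int.gcdB p q) m,
    Int.gcdB (p * Int.gcdA p q + q * Int.gcdB p q) m, ?_⟩
  linear_combination -h2

/-- the set of points of a slab -/
private theorem Cst_slab {al be n c a b p q : ℤ} {L2 : ℕ} (hn : 0 < n)
    (hu : ∃ x y z : ℤ, x * al + y * be + z * n = 1) (hp : 0 < p) (hq : |q| ≤ p) (hpq : n ∣ al * p + be * q)
    (hpn : p * p ≤ n) (hs : ∀ u v : ℤ, |u| < p → |v| < p → n ∣ al * u + be * v → u = 0 ∧ v = 0) :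
    |(((Finset.Ico a (a + p) ×ˢ Finset.Ico b (b + L2)).filter
    (fun z : ℤ × ℤ => n ∣ al * z.1 + be * z.2 - c)).card : ℝ) - p * L2 / n| ≤ 3 := by
  obtain ⟨x, y, z, hxyz⟩ := hu
  obtain ⟨m, hm⟩ := hpq
  -- the determinant of two points of the coset
  have hdet : ∀ u v : ℤ, n ∣ al * u + be * v → n ∣ p * v - q * u := by
    rintro u v ⟨k, hk⟩
    refine ⟨x * (m * v - q * k) + y * (p * k - m * u) + z * (p * v - q * u), ?_⟩
    linear_combination (-(p * v - q * u)) * hxyz + (x * v - y * u) * hm + (y * p - x * q) * hk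
  -- a second basis vector
  obtain ⟨b2u, b2v, hb2, hb2d⟩ : ∃ u v : ℤ, n ∣ al * u + be * v ∧ p * v - q * u = n := by
    obtain ⟨X, Y, Z, hXYZ⟩ := Cst_bez p q m (by
      rintro g ⟨p', hp'⟩ ⟨q', hq'⟩ ⟨m', hm'⟩
      have hg0 : g ≠ 0 := by rintro rfl; simp at hp'; omega
      have h1 : n ∣ al * p' + be * q' := by
        refine ⟨m', ?_⟩
        apply mul_left_cancel₀ hg0
        rw [hp', hq', hm'] at hm
        linear_combination hm
      by_contra hgu
      have hg2 : 2 ≤ |g| := by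
        have h0 : 0 < |g| := abs_pos.mpr hg0
        have h1 : |g| ≠ 1 := by
          intro h
          apply hgu
          rw [Int.isUnit_iff_abs_eq]
          exact h
        omega
      have hpa : |p| = |g| * |p'| := by rw [hp', abs_mul]
      have hqa : |q| = |g| * |q'| := by rw [hq', abs_mul]
      have hpp : |p| = p := abs_of_pos hp
      have hp'0 : 0 < |p'| := by
        apply abs_pos.mpr; rintro rfl; simp at hp'; omega
      have e1 : |p'| < p := by nlinarith
      have e2 : |q'| < p := by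
        have := abs_nonneg q'
        nlinarith
      have := (hs p' q' e1 e2 h1).1
      rw [this] at hp'0
      simp at hp'0)
    refine ⟨-Y * n - Z * be, X * n + Z * al, ⟨-al * Y + be * X, by ring⟩, ?_⟩
    linear_combination n * hXYZ + Z * hm
  -- a point of the coset
  have hz0 : n ∣ al * (c * x) + be * (c * y) - c := ⟨-c * z, by linear_combination c * hxyz⟩
  set u0 := c * x with hu0
  set v0 := c * y with hv0
  set t0 := p * v0 - q * u0 with ht0
  set S := (Finset.Ico a (a + p) ×ˢ Finset.Ico b (b + L2)).filter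
    (fun z : ℤ × ℤ => n ∣ al * z.1 + be * z.2 - c) with hS
  have hqa : -p ≤ q ∧ q ≤ p := abs_le.mp hq
  -- injectivity
  have hinj : Set.InjOn (fun z : ℤ × ℤ => p * z.2 - q * z.1) (S : Set (ℤ × ℤ)) := by
    rintro ⟨u, v⟩ h1 ⟨u', v'⟩ h2 h12
    simp only [hS, Finset.coe_filter, Finset.mem_product, Finset.mem_Ico, Set.mem_ofPred_eq] at h1 h2
    simp only at h12
    obtain ⟨⟨⟨h1a, h1b⟩, h1c, h1d⟩, h1e⟩ := h1
    obtain ⟨⟨⟨h2a, h2b⟩, h2c, h2d⟩, h2e⟩ := h2
    have hd : n ∣ al * (u - u') + be * (v - v') := by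
      have := dvd_sub h1e h2e
      have e : al * u + be * v - c - (al * u' + be * v' - c) = al * (u - u') + be * (v - v') := by ring
      rwa [e] at this
    have hu : |u - u'| < p := by rw [abs_lt]; constructor <;> omega
    have hv : |v - v'| < p := by
      have e : p * (v - v') = q * (u - u') := by linear_combination h12
      have e2 : p * |v - v'| = |q| * |u - u'| := by
        have h1 : |p * (v - v')| = |q * (u - u')| := by rw [e]
        rw [abs_mul, abs_mul, abs_of_pos hp] at h1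
        exact h1
      have e3 : |q| * |u - u'| ≤ p * |u - u'| := mul_le_mul_of_nonneg_right hq (abs_nonneg _)
      have e4 : p * |v - v'| ≤ p * |u - u'| := by rw [e2]; exact e3
      have e5 : |v - v'| ≤ |u - u'| := le_of_mul_le_mul_left e4 hp
      omega
    obtain ⟨ha, hb⟩ := hs _ _ hu hv hd
    have : u = u' := by omega
    have : v = v' := by omega
    simp [*]
  have hcard : (S.image (fun z : ℤ × ℤ => p * z.2 - q * z.1)).card = S.card :=
    Finset.card_image_of_injOn hinj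
  -- upper inclusion
  have hup : S.image (fun z : ℤ × ℤ => p * z.2 - q * z.1) ⊆
      (Finset.Ico (p * b - q * a - p * p) (p * b - q * a + p * L2 + p * p)).filter (fun t => n ∣ t - t0) := by
    intro t ht
    obtain ⟨⟨u, v⟩, h1, rfl⟩ := Finset.mem_image.mp ht
    simp only [hS, Finset.mem_filter, Finset.mem_product, Finset.mem_Ico] at h1
    obtain ⟨⟨⟨h1a, h1b⟩, h1c, h1d⟩, h1e⟩ := h1
    simp only [Finset.mem_filter, Finset.mem_Ico]
    refine ⟨⟨?_, ?_⟩, ?_⟩
    · linarith [mul_nonneg (sub_nonneg.mpr hqa.2) (sub_nonneg.mpr h1a), mul_nonneg hp.le (sub_nonneg.mpr h1c),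
        mul_pos hp (sub_pos.mpr h1b)]
    · linarith [mul_nonneg (by linarith : (0 : ℤ) ≤ q + p) (sub_nonneg.mpr h1a), mul_pos hp (sub_pos.mpr h1d),
        mul_pos hp (sub_pos.mpr h1b)]
    · have h2 : n ∣ al * (u - u0) + be * (v - v0) := by
        have := dvd_sub h1e hz0
        have e : al * u + be * v - c - (al * u0 + be * v0 - c) = al * (u - u0) + be * (v - v0) := by ring
        rwa [e] at this
      have h3 := hdet _ _ h2
      have e : p * v - q * u - t0 = p * (v - v0) - q * (u - u0) := by rw [ht0]; ring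
      rw [e]; exact h3
  -- lower inclusion
  have hlo : (Finset.Ico (p * b - q * a + p * p) (p * b - q * a + p * L2 - p * p)).filter (fun t => n ∣ t - t0) ⊆
      S.image (fun z : ℤ × ℤ => p * z.2 - q * z.1) := by
    intro t ht
    simp only [Finset.mem_filter, Finset.mem_Ico] at ht
    obtain ⟨⟨ht1, ht2⟩, j, hj⟩ := ht
    -- the point z0 + j b2 + i b1
    set w := u0 + j * b2u - a with hw
    have hdiv := Int.emod_add_mul_ediv w p
    have hm0 := Int.emod_nonneg w hp.ne'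
    have hm1 := Int.emod_lt_of_pos w hp
    set i := w / p with hi
    set rr := w % p with hrr
    have hU : u0 + j * b2u - i * p = a + rr := by rw [hw] at hdiv; linarith
    have ht' : p * (v0 + j * b2v - i * q) - q * (u0 + j * b2u - i * p) = t := by
      have : t = t0 + n * j := by linarith
      rw [this, ht0]
      linear_combination j * hb2d
    refine Finset.mem_image.mpr ⟨(u0 + j * b2u - i * p, v0 + j * b2v - i * q), ?_, ht'⟩
    simp only [hS, Finset.mem_filter, Finset.mem_product, Finset.mem_Ico]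
    set V := v0 + j * b2v - i * q with hV
    rw [hU] at ht' ⊢
    refine ⟨⟨⟨by omega, by omega⟩, ?_, ?_⟩, ?_⟩
    · -- b ≤ V
      have : p * b ≤ p * V := by
        linarith [mul_nonneg (sub_nonneg.mpr hqa.2) hm0, mul_nonneg (by linarith : (0 : ℤ) ≤ q + p) hm0,
          mul_pos hp (sub_pos.mpr hm1)]
      exact le_of_mul_le_mul_left this hp
    · have : p * V < p * (b + L2) := by
        linarith [mul_nonneg (sub_nonneg.mpr hqa.2) hm0, mul_nonneg (by linarith : (0 : ℤ) ≤ q + p) hm0,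
          mul_pos hp (sub_pos.mpr hm1)]
      exact lt_of_mul_lt_mul_left this hp.le
    · rw [← hU]
      obtain ⟨k0, hk0⟩ := hz0
      obtain ⟨k2, hk2⟩ := hb2
      refine ⟨k0 + j * k2 - i * m, ?_⟩
      rw [hV]
      linear_combination hk0 + j * hk2 - i * hm
  have hnR : (0 : ℝ) < n := by exact_mod_cast hn
  have hpR : (0 : ℝ) < p := by exact_mod_cast hp
  have hpnR : (p : ℝ) * p ≤ n := by exact_mod_cast hpn
  have hpp1 : (p : ℝ) * p / n ≤ 1 := by rw [div_le_one hnR]; exact hpnR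
  have hpp0 : 0 ≤ (p : ℝ) * p / n := by positivity
  have hL0 : 0 ≤ (p : ℝ) * L2 / n := by positivity
  have hU1 := (Cst_mod hn t0 (p * b - q * a - p * p) (p * b - q * a + p * L2 + p * p)).2
  have hL1 := (Cst_mod hn t0 (p * b - q * a + p * p) (p * b - q * a + p * L2 - p * p)).1
  have e1 : ((p * b - q * a + p * L2 + p * p - (p * b - q * a - p * p) : ℤ) : ℝ) / n =
      p * L2 / n + 2 * (p * p / n) := by push_cast; ring
  have e2 : ((p * b - q * a + p * L2 - p * p - (p * b - q * a + p * p) : ℤ) : ℝ) / n =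
      p * L2 / n - 2 * (p * p / n) := by push_cast; ring
  rw [e1] at hU1
  rw [e2] at hL1
  have hU2 := hU1 (by positivity)
  have c1 : (S.card : ℝ) ≤ p * L2 / n + 3 := by
    have := Finset.card_le_card hup
    rw [hcard] at this
    have : (S.card : ℝ) ≤ _ := Nat.cast_le.mpr this
    linarith
  have c2 : p * L2 / n - 3 ≤ (S.card : ℝ) := by
    have := Finset.card_le_card hlo
    rw [hcard] at this
    have : _ ≤ (S.card : ℝ) := Nat.cast_le.mpr this
    linarith
  rw [abs_le]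
  constructor <;> linarith

private theorem Cst_add (al be n c a b : ℤ) (L L' L2 : ℕ) :
    cnt al be n c a b (L + L') L2 = cnt al be n c a b L L2 + cnt al be n c (a + L) b L' L2 := by
  unfold cnt
  have e : Finset.Ico a (a + ((L + L' : ℕ) : ℤ)) ×ˢ Finset.Ico b (b + (L2 : ℤ)) =
      (Finset.Ico a (a + (L : ℤ)) ×ˢ Finset.Ico b (b + (L2 : ℤ))) ∪
      (Finset.Ico (a + (L : ℤ)) (a + (L : ℤ) + (L' : ℤ)) ×ˢ Finset.Ico b (b + (L2 : ℤ))) := by
    ext ⟨u, v⟩
    simp only [Finset.mem_union, Finset.mem_product, Finset.mem_Ico]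
    push_cast
    constructor
    · rintro ⟨⟨h1, h2⟩, h3⟩
      by_cases h : u < a + L
      · left; exact ⟨⟨h1, h⟩, h3⟩
      · right; exact ⟨⟨by omega, by omega⟩, h3⟩
    · rintro (⟨⟨h1, h2⟩, h3⟩ | ⟨⟨h1, h2⟩, h3⟩)
      · exact ⟨⟨h1, by omega⟩, h3⟩
      · exact ⟨⟨by omega, by omega⟩, h3⟩
  rw [e, Finset.filter_union, Finset.card_union_of_disjoint]
  rw [Finset.disjoint_left]
  rintro ⟨u, v⟩ h1 h2
  simp only [Finset.mem_filter, Finset.mem_product, Finset.mem_Ico] at h1 h2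
  omega

private theorem Cst_swap (al be n c a b : ℤ) (L1 L2 : ℕ) :
    cnt al be n c a b L1 L2 = cnt be al n c b a L2 L1 := by
  unfold cnt
  refine Finset.card_bij (fun z _ => (z.2, z.1)) ?_ ?_ ?_
  · rintro ⟨u, v⟩ h
    simp only [Finset.mem_filter, Finset.mem_product, Finset.mem_Ico] at h ⊢
    refine ⟨⟨h.1.2, h.1.1⟩, ?_⟩
    have e : be * v + al * u - c = al * u + be * v - c := by ring
    rw [e]; exact h.2
  · rintro ⟨u, v⟩ _ ⟨u', v'⟩ _ h
    simp only [Prod.mk.injEq] at h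
    simp [h.1, h.2]
  · rintro ⟨u, v⟩ h
    simp only [Finset.mem_filter, Finset.mem_product, Finset.mem_Ico] at h
    refine ⟨(v, u), ?_, rfl⟩
    simp only [Finset.mem_filter, Finset.mem_product, Finset.mem_Ico]
    refine ⟨⟨h.1.2, h.1.1⟩, ?_⟩
    have e : al * v + be * u - c = be * u + al * v - c := by ring
    rw [e]; exact h.2

private theorem Cst_rows {al be n c b : ℤ} {p L2 : ℕ} (hslab : ∀ a : ℤ,
    |(cnt al be n c a b p L2 : ℝ) - p * L2 / n| ≤ 3) (m : ℕ) : ∀ a : ℤ,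
    |(cnt al be n c a b (m * p) L2 : ℝ) - m * p * L2 / n| ≤ 3 * m := by
  induction m with
  | zero =>
    intro a
    simp [cnt]
  | succ m ih =>
    intro a
    have e : (m + 1) * p = m * p + p := by ring
    rw [e, Cst_add]
    have h1 := ih a
    have h2 := hslab (a + ((m * p : ℕ) : ℤ))
    push_cast at h1 h2 ⊢
    rw [abs_le] at h1 h2 ⊢
    have e2 : ((m : ℝ) + 1) * p * L2 / n = m * p * L2 / n + p * L2 / n := by ring
    rw [e2]
    constructor <;> linarith [h1.1, h1.2, h2.1, h2.2]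

private theorem Cst_main {al be n c b : ℤ} {p L2 : ℕ} (hp : 0 < p) (hn : 0 < n) (hpn : (p : ℤ) * p ≤ n)
    (hslab : ∀ a : ℤ, |(cnt al be n c a b p L2 : ℝ) - p * L2 / n| ≤ 3) (a : ℤ) (L1 : ℕ) :
    |(cnt al be n c a b L1 L2 : ℝ) - L1 * L2 / n| ≤ (3 * L1 + L2) / p + 3 := by
  set m := L1 / p with hm
  have h1 : m * p ≤ L1 := Nat.div_mul_le_self _ _
  have h2 : L1 < (m + 1) * p := by
    have := Nat.lt_div_mul_add (a := L1) hp
    rw [← hm] at this
    linarith
  have hlo : cnt al be n c a b (m * p) L2 ≤ cnt al be n c a b L1 L2 := by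
    have : L1 = m * p + (L1 - m * p) := by omega
    rw [this, Cst_add]
    omega
  have hhi : cnt al be n c a b L1 L2 ≤ cnt al be n c a b ((m + 1) * p) L2 := by
    have : (m + 1) * p = L1 + ((m + 1) * p - L1) := by omega
    rw [this, Cst_add]
    omega
  have r1 := Cst_rows hslab m a
  have r2 := Cst_rows hslab (m + 1) a
  have hlo' : (cnt al be n c a b (m * p) L2 : ℝ) ≤ cnt al be n c a b L1 L2 := by exact_mod_cast hlo
  have hhi' : (cnt al be n c a b L1 L2 : ℝ) ≤ cnt al be n c a b ((m + 1) * p) L2 := by exact_mod_cast hhi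
  have hpR : (0 : ℝ) < p := by exact_mod_cast hp
  have hnR : (0 : ℝ) < n := by exact_mod_cast hn
  have hpnR : (p : ℝ) * p ≤ n := by exact_mod_cast hpn
  have h1R : (m : ℝ) * p ≤ L1 := by exact_mod_cast h1
  have h2R : (L1 : ℝ) < (m + 1) * p := by exact_mod_cast h2
  have hmle : (m : ℝ) ≤ L1 / p := by rw [le_div_iff₀ hpR]; exact h1R
  have hL2 : (0 : ℝ) ≤ L2 := Nat.cast_nonneg _
  have hpL : (p : ℝ) * L2 / n ≤ L2 / p := by
    rw [div_le_div_iff₀ hnR hpR]
    nlinarith
  have e1 : (m : ℝ) * p * L2 / n ≤ L1 * L2 / n := by gcongr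
  have e2 : (L1 : ℝ) * L2 / n ≤ (m : ℝ) * p * L2 / n + p * L2 / n := by
    rw [← add_div]
    gcongr
    nlinarith
  have e3 : ((m : ℝ) + 1) * p * L2 / n = m * p * L2 / n + p * L2 / n := by ring
  have e4 : (3 * (L1 : ℝ) + L2) / p = 3 * (L1 / p) + L2 / p := by ring
  push_cast at r1 r2
  rw [abs_le] at r1 r2 ⊢
  rw [e3] at r2
  rw [e4]
  constructor <;> linarith [r1.1, r1.2, r2.1, r2.2]

/-- Points of a coset of a lattice in a rectangle. -/
theorem Cst {al be n c a b : ℤ} {L1 L2 K : ℕ} (hn : 0 < n) (hu : ∃ x y z : ℤ, x * al + y * be + z * n = 1)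
    (hK : 1 ≤ K)
    (hs : ∀ u v : ℤ, |u| < K → |v| < K → n ∣ al * u + be * v → u = 0 ∧ v = 0) :
    |(cnt al be n c a b L1 L2 : ℝ) - L1 * L2 / n| ≤ 4 * max L1 L2 / K + 3 := by
  classical
  -- the minimal norm
  let Q : ℕ → Prop := fun k => ∃ u v : ℤ, (u ≠ 0 ∨ v ≠ 0) ∧ |u| ≤ k ∧ |v| ≤ k ∧ n ∣ al * u + be * v
  have hQ : ∃ k, Q k := ⟨n.natAbs, n, 0, Or.inl hn.ne', by simp [abs_of_pos hn], by simp, ⟨al, by ring⟩⟩
  set p := Nat.find hQ with hp
  obtain ⟨u, v, huv, hu1, hv1, hd⟩ : Q p := Nat.find_spec hQ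
  have hmin : ∀ u v : ℤ, |u| < p → |v| < p → n ∣ al * u + be * v → u = 0 ∧ v = 0 := by
    intro u v h1 h2 h3
    by_contra hc
    have hc' : u ≠ 0 ∨ v ≠ 0 := by tauto
    have h0 := abs_nonneg u
    have h0' := abs_nonneg v
    have : Q (p - 1) := ⟨u, v, hc', by omega, by omega, h3⟩
    exact Nat.find_min hQ (by omega) this
  have hp0 : 0 < p := by
    rcases Nat.eq_zero_or_pos p with h | h
    · rw [h] at hu1 hv1
      have : u = 0 := abs_eq_zero.mp (le_antisymm (by simpa using hu1) (abs_nonneg _))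
      have : v = 0 := abs_eq_zero.mp (le_antisymm (by simpa using hv1) (abs_nonneg _))
      tauto
    · exact h
  have hKp : K ≤ p := by
    by_contra hc
    have := hs u v (by omega) (by omega) hd
    tauto
  -- Thue
  have hpn : (p : ℤ) * p ≤ n := by
    by_contra hc
    push Not at hc
    obtain ⟨N, rfl⟩ : ∃ N : ℕ, n = N := ⟨n.toNat, by omega⟩
    have hN : N < p * p := by exact_mod_cast hc
    have hmaps : ∀ z ∈ Finset.range p ×ˢ Finset.range p,
        ((al * (z.1 : ℤ) + be * (z.2 : ℤ)) % (N : ℤ)).toNat ∈ Finset.range N := by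
      intro z _
      rw [Finset.mem_range]
      have h1 := Int.emod_nonneg (al * (z.1 : ℤ) + be * (z.2 : ℤ)) hn.ne'
      have h2 := Int.emod_lt_of_pos (al * (z.1 : ℤ) + be * (z.2 : ℤ)) hn
      omega
    obtain ⟨z, hz, z', hz', hne, he⟩ := Finset.exists_ne_map_eq_of_card_lt_of_maps_to (by simpa using hN) hmaps
    simp only [Finset.mem_product, Finset.mem_range] at hz hz'
    have h1 := Int.emod_nonneg (al * (z.1 : ℤ) + be * (z.2 : ℤ)) hn.ne'
    have h2 := Int.emod_nonneg (al * (z'.1 : ℤ) + be * (z'.2 : ℤ)) hn.ne'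
    have h3 : (al * (z.1 : ℤ) + be * (z.2 : ℤ)) % (N : ℤ) = (al * (z'.1 : ℤ) + be * (z'.2 : ℤ)) % (N : ℤ) := by
      omega
    have h4 : (N : ℤ) ∣ al * ((z.1 : ℤ) - z'.1) + be * ((z.2 : ℤ) - z'.2) := by
      have h5 := Int.ModEq.dvd (show (al * (z'.1 : ℤ) + be * (z'.2 : ℤ)) ≡ (al * (z.1 : ℤ) + be * (z.2 : ℤ)) [ZMOD (N : ℤ)] from h3.symm)
      have e : al * (z.1 : ℤ) + be * (z.2 : ℤ) - (al * (z'.1 : ℤ) + be * (z'.2 : ℤ)) =
        al * ((z.1 : ℤ) - z'.1) + be * ((z.2 : ℤ) - z'.2) := by ring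
      rwa [e] at h5
    have h5 := hmin _ _ (by rw [abs_lt]; constructor <;> omega) (by rw [abs_lt]; constructor <;> omega) h4
    apply hne
    ext <;> omega
  rw [Nat.cast_max]
  have hmaxR1 : (L1 : ℝ) ≤ max (L1 : ℝ) L2 := le_max_left _ _
  have hmaxR2 : (L2 : ℝ) ≤ max (L1 : ℝ) L2 := le_max_right _ _
  have hM0 : (0 : ℝ) ≤ max (L1 : ℝ) L2 := le_trans (Nat.cast_nonneg _) hmaxR1
  have hKR : (0 : ℝ) < K := by exact_mod_cast hK
  have hKpR : (K : ℝ) ≤ p := by exact_mod_cast hKp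
  have hfin : ∀ A B : ℝ, 0 ≤ A → 0 ≤ B → A ≤ max (L1 : ℝ) L2 → B ≤ max (L1 : ℝ) L2 →
      (3 * A + B) / p + 3 ≤ 4 * max (L1 : ℝ) L2 / K + 3 := by
    intro A B hA0 hB0 hA hB
    have : (3 * A + B) / p ≤ 4 * max (L1 : ℝ) L2 / K := by
      apply div_le_div₀ (by linarith) (by linarith) hKR hKpR
    linarith
  -- the two cases
  have hcase : ∀ (al be a b : ℤ) (L1 L2 : ℕ) (u v : ℤ), (∃ x y z : ℤ, x * al + y * be + z * n = 1) →
      (∀ u v : ℤ, |u| < p → |v| < p → n ∣ al * u + be * v → u = 0 ∧ v = 0) → |u| = p → |v| ≤ p →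
      n ∣ al * u + be * v →
      |(cnt al be n c a b L1 L2 : ℝ) - L1 * L2 / n| ≤ (3 * L1 + L2) / p + 3 := by
    intro al be a b L1 L2 u v hu hmin hup hvp hd
    apply Cst_main hp0 hn hpn
    intro a
    have hp0' : (0 : ℤ) < p := by exact_mod_cast hp0
    rcases abs_choice u with h | h
    · have e : u = p := by rw [← h, hup]
      rw [e] at hd
      have := Cst_slab (a := a) (b := b) (c := c) (L2 := L2) hn hu hp0' hvp hd hpn hmin
      simpa [cnt] using this
    · have e : u = -p := by rw [← hup, h]; ring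
      rw [e] at hd
      have hd' : n ∣ al * (p : ℤ) + be * (-v) := by
        have := (dvd_neg (a := n)).mpr hd
        have e : -(al * -(p : ℤ) + be * v) = al * (p : ℤ) + be * (-v) := by ring
        rwa [e] at this
      have := Cst_slab (a := a) (b := b) (c := c) (L2 := L2) hn hu hp0' (by rwa [abs_neg]) hd' hpn hmin
      simpa [cnt] using this
  have hor : |u| = p ∨ |v| = p := by
    by_contra hc
    push Not at hc
    have := hmin u v (lt_of_le_of_ne hu1 hc.1) (lt_of_le_of_ne hv1 hc.2) hd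
    tauto
  rcases hor with h | h
  · exact (hcase al be a b L1 L2 u v hu hmin h hv1 hd).trans
      (hfin L1 L2 (Nat.cast_nonneg _) (Nat.cast_nonneg _) hmaxR1 hmaxR2)
  · have h1 := hcase be al b a L2 L1 v u
      (by obtain ⟨x, y, z, h⟩ := hu; exact ⟨y, x, z, by linear_combination h⟩)
      (by
        intro u v h1 h2 h3
        have := hmin v u h2 h1 (by rwa [add_comm] at h3)
        exact ⟨this.2, this.1⟩) h hu1 (by rwa [add_comm] at hd)
    rw [Cst_swap, mul_comm (L1 : ℝ) L2]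
    exact h1.trans (hfin L2 L1 (Nat.cast_nonneg _) (Nat.cast_nonneg _) hmaxR2 hmaxR1)

end Pool.Agent.PP5LB
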