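import Pool.Agent.PP5LB.Ucm
import Pool.Agent.PP5LB.Cvt

/-!
# Eqd: equidistribution of the family in the classes of `VM q`, relative to a class modulo `W`
-/

set_option autoImplicit false

namespace Pool.Agent.PP5LB

open Finset Pool.Agent.PP5L

/-- `red M x = red M c` in terms of divisibility -/
private theorem Eqd_red {M : ℕ} {x c : Fin 10 → ℤ} : red M x = red M c ↔ ∀ j, (M : ℤ) ∣ x j - c j := by
  unfold red
  rw [funext_iff]
  refine forall_congr' fun j => ?_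
  rw [eq_comm, ZMod.intCast_eq_intCast_iff_dvd_sub]

private theorem Eqd_XC {A : Fin 10 → ℤ} {r M : ℕ} {c : Fin 10 → ℤ} : XC A r M (red M c) = XI A r M c := by
  classical
  unfold XC XI
  refine Finset.filter_congr fun x _ => Eqd_red

private theorem Eqd_FF {M : ℕ} (x : Fin 10 → ℤ) : FF (red M x) = ((FF x : ℤ) : ZMod M) := by
  unfold FF red
  push_cast
  rfl

/-- every class has an integral representative -/
private theorem Eqd_surj {M : ℕ} [NeZero M] (y : Fin 10 → ZMod M) : ∃ c : Fin 10 → ℤ, red M c = y := by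
  refine ⟨fun j => ((y j).val : ℤ), ?_⟩
  funext j
  simp [red]

private theorem Eqd_VM {M : ℕ} [NeZero M] {c : Fin 10 → ℤ} : red M c ∈ VM M ↔ Cl M c := by
  classical
  unfold VM Cl
  rw [Finset.mem_filter]
  simp only [Finset.mem_univ, true_and]
  rw [Eqd_FF, ZMod.intCast_zmod_eq_zero_iff_dvd]
  refine and_congr_right fun _ => ?_
  unfold Uni
  constructor
  · rintro ⟨a, b, d, h⟩
    have h1 : (((a.val : ℤ) * c 1 + (b.val : ℤ) * c 6 + (d.val : ℤ) * c 7 : ℤ) : ZMod M) = ((1 : ℤ) : ZMod M) := by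
      push_cast
      simp only [ZMod.natCast_val, ZMod.cast_id', id_eq]
      exact h
    rw [ZMod.intCast_eq_intCast_iff_dvd_sub] at h1
    obtain ⟨e, he⟩ := h1
    exact ⟨a.val, b.val, d.val, e, by linear_combination -he⟩
  · rintro ⟨a, b, d, e, h⟩
    refine ⟨(a : ZMod M), (b : ZMod M), (d : ZMod M), ?_⟩
    have h1 : ((a * c 1 + b * c 6 + d * c 7 + e * M : ℤ) : ZMod M) = ((1 : ℤ) : ZMod M) := by rw [h]
    push_cast at h1
    rw [ZMod.natCast_self, mul_zero, add_zero] at h1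
    exact h1

private theorem Eqd_crt {W q : ℕ} (hco : Nat.Coprime W q) (c y : Fin 10 → ℤ) : ∃ d : Fin 10 → ℤ,
    (∀ j, (W : ℤ) ∣ d j - c j) ∧ (∀ j, (q : ℤ) ∣ d j - y j) := by
  obtain ⟨u, v, huv⟩ : IsCoprime (W : ℤ) (q : ℤ) := Nat.isCoprime_iff_coprime.mpr hco
  refine ⟨fun j => c j * (v * q) + y j * (u * W), ?_, ?_⟩
  · intro j
    exact ⟨u * (y j - c j), by linear_combination c j * huv⟩
  · intro j
    exact ⟨v * (c j - y j), by linear_combination y j * huv⟩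

private theorem Eqd_Cl {W q : ℕ} (hco : Nat.Coprime W q) {d c y : Fin 10 → ℤ} (hc : Cl W c) (hy : Cl q y)
    (h1 : ∀ j, (W : ℤ) ∣ d j - c j) (h2 : ∀ j, (q : ℤ) ∣ d j - y j) : Cl (W * q) d := by
  have hcop : IsCoprime (W : ℤ) (q : ℤ) := Nat.isCoprime_iff_coprime.mpr hco
  have key : ∀ {M : ℕ} {c : Fin 10 → ℤ}, Cl M c → (∀ j, (M : ℤ) ∣ d j - c j) → Cl M d := by
    intro M c hc h
    choose k hk using h
    have hd : ∀ j, d j = c j + M * k j := fun j => by linarith [hk j]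
    obtain ⟨⟨f, hf⟩, a, b, e, g, h4⟩ := hc
    constructor
    · refine ⟨f + (k 0 * c 2 + c 0 * k 2 + M * k 0 * k 2) - (k 1 * c 3 + c 1 * k 3 + M * k 1 * k 3) -
        (k 4 * c 5 + c 4 * k 5 + M * k 4 * k 5) - (k 6 * c 9 + c 6 * k 9 + M * k 6 * k 9) +
        (k 7 * c 8 + c 7 * k 8 + M * k 7 * k 8), ?_⟩
      unfold FF at hf ⊢
      rw [hd 0, hd 1, hd 2, hd 3, hd 4, hd 5, hd 6, hd 7, hd 8, hd 9]
      linear_combination hf
    · refine ⟨a, b, e, g - a * k 1 - b * k 6 - e * k 7, ?_⟩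
      rw [hd 1, hd 6, hd 7]
      linear_combination h4
  obtain ⟨f1, a1, b1, e1, g1, k1⟩ := key hc h1
  obtain ⟨f2, a2, b2, e2, g2, k2⟩ := key hy h2
  refine ⟨by push_cast; exact IsCoprime.mul_dvd hcop f1 f2, ?_⟩
  refine ⟨a1 + a2 - a1 * (a2 * d 1 + b2 * d 6 + e2 * d 7), b1 + b2 - b1 * (a2 * d 1 + b2 * d 6 + e2 * d 7),
    e1 + e2 - e1 * (a2 * d 1 + b2 * d 6 + e2 * d 7), g1 * g2, ?_⟩
  push_cast
  have e1' : g1 * (W : ℤ) = 1 - (a1 * d 1 + b1 * d 6 + e1 * d 7) := by linarith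
  have e2' : g2 * (q : ℤ) = 1 - (a2 * d 1 + b2 * d 6 + e2 * d 7) := by linarith
  have e3 : g1 * g2 * ((W : ℤ) * q) = (1 - (a1 * d 1 + b1 * d 6 + e1 * d 7)) * (1 - (a2 * d 1 + b2 * d 6 + e2 * d 7)) := by
    rw [← e1', ← e2']; ring
  rw [e3]; ring

open scoped Classical in
private theorem Eqd_filter {A : Fin 10 → ℤ} {r W q : ℕ} (hco : Nat.Coprime W q) {d c y : Fin 10 → ℤ}
    (h1 : ∀ j, (W : ℤ) ∣ d j - c j) (h2 : ∀ j, (q : ℤ) ∣ d j - y j) :
    (XC A r W (red W c)).filter (fun x => red q x = red q y) = XI A r (W * q) d := by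
  have hcop : IsCoprime (W : ℤ) (q : ℤ) := Nat.isCoprime_iff_coprime.mpr hco
  rw [Eqd_XC]
  unfold XI
  rw [Finset.filter_filter]
  refine Finset.filter_congr fun x _ => ?_
  rw [Eqd_red]
  constructor
  · rintro ⟨h3, h4⟩ j
    push_cast
    refine IsCoprime.mul_dvd hcop ?_ ?_
    · have := dvd_sub (h3 j) (h1 j)
      have e : x j - c j - (d j - c j) = x j - d j := by ring
      rwa [e] at this
    · have := dvd_sub (h4 j) (h2 j)
      have e : x j - y j - (d j - y j) = x j - d j := by ring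
      rwa [e] at this
  · intro h3
    constructor
    · intro j
      have h5 : (W : ℤ) ∣ x j - d j := (Dvd.intro _ (by push_cast; rfl)).trans (h3 j)
      have := dvd_add h5 (h1 j)
      have e : x j - d j + (d j - c j) = x j - c j := by ring
      rwa [e] at this
    · intro j
      have h5 : (q : ℤ) ∣ x j - d j := (Dvd.intro_left _ (by push_cast; rfl)).trans (h3 j)
      have := dvd_add h5 (h2 j)
      have e : x j - d j + (d j - y j) = x j - y j := by ring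
      rwa [e] at this

/-- the elements of the family lie in the classes of `VM q` -/
private theorem Eqd_mem {A : Fin 10 → ℤ} {r q : ℕ} [NeZero q] {x : Fin 10 → ℤ} (hx : x ∈ XA A r) : red q x ∈ VM q := by
  classical
  rw [Eqd_VM]
  unfold XA at hx
  obtain ⟨_, h1, a, b, d, h2⟩ := Finset.mem_filter.mp hx
  exact ⟨by rw [h1]; exact dvd_zero _, a, b, d, 0, by linear_combination h2⟩

open scoped Classical in
theorem eqd (A : Fin 10 → ℤ) (hA : 1 ≤ A 1) : ∃ C : ℝ, 0 ≤ C ∧ ∀ (r W q : ℕ) [NeZero W] [NeZero q],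
    Nat.Coprime W q → W * q ≤ r → ∀ c ∈ VM W, ∀ y ∈ VM q,
    |(((XC A r W c).filter (fun x => red q x = y)).card : ℝ) -
      (XC A r W c).card / (VM q).card| ≤ C * (r : ℝ) ^ (31 / 4 : ℝ) := by
  obtain ⟨C, hC, h⟩ := Ucm hA
  refine ⟨C, hC.le, ?_⟩
  intro r W q _ _ hco hWr c hc y hy
  obtain ⟨c, rfl⟩ := Eqd_surj c
  have hcC := Eqd_VM.mp hc
  have hWq : 1 ≤ W * q := Nat.mul_pos (Nat.pos_of_ne_zero (NeZero.ne W)) (Nat.pos_of_ne_zero (NeZero.ne q))
  have hr : 1 ≤ r := hWq.trans hWr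
  set N : (Fin 10 → ZMod q) → ℝ := fun y => (((XC A r W (red W c)).filter (fun x => red q x = y)).card : ℝ) with hN
  have hcmp : ∀ y' ∈ VM q, |N y - N y'| ≤ C * (r : ℝ) ^ (31 / 4 : ℝ) := by
    intro y' hy'
    obtain ⟨y, rfl⟩ := Eqd_surj y
    obtain ⟨y', rfl⟩ := Eqd_surj y'
    obtain ⟨d, hd1, hd2⟩ := Eqd_crt hco c y
    obtain ⟨d', hd1', hd2'⟩ := Eqd_crt hco c y'
    simp only [hN]
    rw [Eqd_filter hco hd1 hd2, Eqd_filter hco hd1' hd2']
    exact h r (W * q) hr hWq d d' (Eqd_Cl hco hcC (Eqd_VM.mp hy) hd1 hd2)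
      (Eqd_Cl hco hcC (Eqd_VM.mp hy') hd1' hd2')
  have hsum : ∑ y' ∈ VM q, N y' = ((XC A r W (red W c)).card : ℝ) := by
    simp only [hN]
    rw [Finset.card_eq_sum_card_fiberwise (f := fun x => red q x) (s := XC A r W (red W c)) (t := VM q)]
    · push_cast; rfl
    · intro x hx
      rw [Finset.mem_coe] at hx ⊢
      exact Eqd_mem (Finset.mem_filter.mp hx).1
  have hv : (0 : ℝ) < (VM q).card := by
    exact_mod_cast Finset.card_pos.mpr ⟨y, hy⟩
  have e : N y - ((XC A r W (red W c)).card : ℝ) / (VM q).card = (∑ y' ∈ VM q, (N y - N y')) / (VM q).card := by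
    rw [Finset.sum_sub_distrib, hsum, Finset.sum_const, nsmul_eq_mul]
    field_simp
  show |N y - _| ≤ _
  rw [e, abs_div, abs_of_pos hv, div_le_iff₀ hv]
  refine (Finset.abs_sum_le_sum_abs _ _).trans ((Finset.sum_le_card_nsmul _ _ _ hcmp).trans ?_)
  rw [nsmul_eq_mul]
  linarith

end Pool.Agent.PP5LB
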