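import Pool.Agent.PP5LB.Bsc

set_option autoImplicit false

/-!
# Lam: properties of `lam` and of the primitive shortest vector (size 4)

`lam n a b` = smallest `k` such that some `(p,q) ≠ 0` with `n ∣ a p + b q` has `|p|, |q| ≤ k` (the set of these `k` is
upward closed and nonempty: it contains `n`, by `(n,0)`).

PROOF. `lam_pos`: `k = 0` forces `p = q = 0`.  `lam_min`: if `|u|,|v| < lam`, then `max |u| |v| ≤ lam - 1` would be in the
set.  `lam_sq` (Thue): with `m = ⌊√n⌋`, the `(m+1)² > n` values `a u + b v`, `0 ≤ u,v ≤ m` cannot be distinct modulo `n`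
(`Finset.exists_ne_map_eq_of_card_lt_of_maps_to`); the difference of two such pairs has `|p|,|q| ≤ m`.
`vsp`: take `(p,q) = (v8,v9)` attaining `lam` for `n = x1`, `a = -x7`, `b = x6`: `x1 ∣ x6 q - x7 p`, so
`v3 := (x7 v8 - x6 v9)/x1`.  Primitive: if `k ≥ 2` divides `p, q` and `(p/k, q/k)` is in the lattice, it has a smaller
sup norm (`|p/k| < |p|` or `p = 0`, ..), so `max |p/k| |q/k| < lam`, contradiction to `lam_min`.
`vsp_prime`: if a prime `l` divides `v3, v8, v9`, then `x1 (v3/l) = x7 (v8/l) - x6 (v9/l)`, so `(v8/l, v9/l)` is in the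
lattice, contradiction to `Prm`.  `v3_size`: `x1 |v3| ≤ |x7||v8| + |x6||v9|`.
-/

namespace Pool.Agent.PP5LB

open Finset

private theorem Lam_mem {n a b : ℤ} (hn : 1 ≤ n) : lam n a b ∈
    {k : ℕ | ∃ p q : ℤ, ¬ (p = 0 ∧ q = 0) ∧ n ∣ a * p + b * q ∧ |p| ≤ k ∧ |q| ≤ k} := by
  refine Nat.sInf_mem ⟨n.toNat, n, 0, ?_, ?_, ?_, ?_⟩
  · rintro ⟨h, -⟩
    omega
  · simp
  · rw [abs_of_nonneg (by omega)]
    omega
  · simp

private theorem Lam_le {n a b : ℤ} {k : ℕ} (p q : ℤ) (h : ¬ (p = 0 ∧ q = 0))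
    (hd : n ∣ a * p + b * q) (hp : |p| ≤ k) (hq : |q| ≤ k) : lam n a b ≤ k :=
  Nat.sInf_le ⟨p, q, h, hd, hp, hq⟩

theorem lam_mem {n a b : ℤ} (hn : 1 ≤ n) : ∃ p q : ℤ, ¬ (p = 0 ∧ q = 0) ∧ n ∣ a * p + b * q ∧
    |p| ≤ lam n a b ∧ |q| ≤ lam n a b := Lam_mem hn

theorem lam_pos {n a b : ℤ} (hn : 1 ≤ n) : 1 ≤ lam n a b := by
  obtain ⟨p, q, h0, -, hp, hq⟩ := lam_mem (a := a) (b := b) hn
  by_contra hc
  have h1 : lam n a b = 0 := by omega
  rw [h1] at hp hq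
  refine h0 ⟨?_, ?_⟩
  · exact abs_nonpos_iff.1 (by exact_mod_cast hp)
  · exact abs_nonpos_iff.1 (by exact_mod_cast hq)

theorem lam_min {n a b : ℤ} (hn : 1 ≤ n) (u v : ℤ) (hu : |u| < lam n a b) (hv : |v| < lam n a b)
    (h : n ∣ a * u + b * v) : u = 0 ∧ v = 0 := by
  have _ := hn
  by_contra h0
  have h1 : lam n a b ≤ max u.natAbs v.natAbs := by
    refine Lam_le u v h0 h ?_ ?_
    · rw [Int.abs_eq_natAbs]
      exact_mod_cast le_max_left _ _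
    · rw [Int.abs_eq_natAbs]
      exact_mod_cast le_max_right _ _
  rw [Int.abs_eq_natAbs] at hu hv
  have h2 : u.natAbs < lam n a b := by exact_mod_cast hu
  have h3 : v.natAbs < lam n a b := by exact_mod_cast hv
  have h4 := max_lt h2 h3
  omega

theorem lam_sq {n a b : ℤ} (hn : 1 ≤ n) : ((lam n a b : ℕ) : ℤ) ^ 2 ≤ n := by
  obtain ⟨N, hN⟩ : ∃ N : ℕ, (N : ℤ) = n := ⟨n.toNat, by omega⟩
  have hN1 : 1 ≤ N := by omega
  have : NeZero N := ⟨by omega⟩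
  obtain ⟨m, hm⟩ : ∃ m : ℕ, m = Nat.sqrt N := ⟨_, rfl⟩
  have hm1 : m * m ≤ N := by rw [hm]; exact Nat.sqrt_le N
  have hm2 : N < (m + 1) * (m + 1) := by rw [hm]; exact Nat.lt_succ_sqrt N
  obtain ⟨x, hx, y, hy, hne, hxy⟩ := Finset.exists_ne_map_eq_of_card_lt_of_maps_to
    (s := Finset.range (m + 1) ×ˢ Finset.range (m + 1)) (t := (Finset.univ : Finset (ZMod N)))
    (f := fun z : ℕ × ℕ => (((a * z.1 + b * z.2 : ℤ)) : ZMod N))
    (by rw [Finset.card_univ, ZMod.card, Finset.card_product, Finset.card_range]; exact hm2)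
    (fun z _ => Finset.mem_univ _)
  rw [Finset.mem_product, Finset.mem_range, Finset.mem_range] at hx hy
  have hd : (N : ℤ) ∣ (a * y.1 + b * y.2) - (a * x.1 + b * x.2) :=
    (ZMod.intCast_eq_intCast_iff_dvd_sub _ _ N).1 hxy
  have hle : lam n a b ≤ m := by
    refine Lam_le ((y.1 : ℤ) - x.1) ((y.2 : ℤ) - x.2) ?_ ?_ ?_ ?_
    · rintro ⟨e1, e2⟩
      refine hne (Prod.ext ?_ ?_)
      · omega
      · omega
    · rw [← hN]
      have e : a * ((y.1 : ℤ) - x.1) + b * ((y.2 : ℤ) - x.2)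
          = (a * y.1 + b * y.2) - (a * x.1 + b * x.2) := by ring
      rw [e]
      exact hd
    · rw [abs_le]; omega
    · rw [abs_le]; omega
  have h2 : lam n a b * lam n a b ≤ N := (Nat.mul_le_mul hle hle).trans hm1
  calc ((lam n a b : ℕ) : ℤ) ^ 2 = ((lam n a b * lam n a b : ℕ) : ℤ) := by
        push_cast; ring
    _ ≤ (N : ℤ) := by exact_mod_cast h2
    _ = n := hN

theorem vsp {t : ℤ × ℤ × ℤ} (h1 : 1 ≤ t.1) : Vsp t (vv t) := by
  have hex : ∃ v, Vsp t v := by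
    obtain ⟨p, q, h0, hd, hp, hq⟩ := lam_mem (a := -t.2.2) (b := t.2.1) h1
    have hsq := lam_sq (a := -t.2.2) (b := t.2.1) h1
    have hpos : (1 : ℤ) ≤ lam t.1 (-t.2.2) t.2.1 := by exact_mod_cast lam_pos h1
    obtain ⟨L, hL⟩ : ∃ L : ℤ, L = ((lam t.1 (-t.2.2) t.2.1 : ℕ) : ℤ) := ⟨_, rfl⟩
    rw [← hL] at hp hq hsq hpos
    have hd' := hd
    obtain ⟨c, hc⟩ := hd'
    refine ⟨(-c, p, q), ?_, h0, ⟨hd, ?_⟩, ?_, ?_⟩
    · show t.1 * -c = t.2.2 * p - t.2.1 * q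
      linear_combination hc
    · rintro k hk ⟨⟨p', rfl⟩, ⟨q', rfl⟩, h3⟩
      have hk0 : k ≠ 0 := by omega
      rw [Int.mul_ediv_cancel_left _ hk0, Int.mul_ediv_cancel_left _ hk0] at h3
      have key : ∀ x : ℤ, |k * x| ≤ L → |x| < L := by
        intro x hx
        rw [abs_mul, abs_of_nonneg (by omega : (0 : ℤ) ≤ k)] at hx
        have := abs_nonneg x
        by_cases hx0 : |x| = 0
        · rw [hx0]; omega
        · have : 1 ≤ |x| := by omega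
          nlinarith
      have h4 := lam_min h1 p' q' (by rw [← hL]; exact key p' hp) (by rw [← hL]; exact key q' hq) h3
      exact h0 ⟨by rw [h4.1, mul_zero], by rw [h4.2, mul_zero]⟩
    · show p ^ 2 ≤ t.1
      refine le_trans ?_ hsq
      rw [← sq_abs p]
      exact pow_le_pow_left₀ (abs_nonneg p) hp 2
    · show q ^ 2 ≤ t.1
      refine le_trans ?_ hsq
      rw [← sq_abs q]
      exact pow_le_pow_left₀ (abs_nonneg q) hq 2
  rw [vv, dif_pos hex]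
  exact hex.choose_spec

theorem vsp_prime {t v : ℤ × ℤ × ℤ} (h1 : 1 ≤ t.1) (h : Vsp t v) {l : ℕ} (hl : l.Prime) :
    ¬ ((l : ℤ) ∣ v.1 ∧ (l : ℤ) ∣ v.2.1 ∧ (l : ℤ) ∣ v.2.2) := by
  have _ := h1
  rintro ⟨⟨a, ha⟩, ⟨b, hb⟩, ⟨c, hc⟩⟩
  obtain ⟨e, -, hP, -, -⟩ := h
  have hl2 : (2 : ℤ) ≤ l := by exact_mod_cast hl.two_le
  have hl0 : (l : ℤ) ≠ 0 := by omega
  refine hP.2 l hl2 ⟨⟨b, hb⟩, ⟨c, hc⟩, ?_⟩
  rw [hb, hc, Int.mul_ediv_cancel_left _ hl0, Int.mul_ediv_cancel_left _ hl0]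
  rw [ha, hb, hc] at e
  refine ⟨-a, mul_left_cancel₀ hl0 ?_⟩
  linear_combination e

end Pool.Agent.PP5LB
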