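import Pool.Agent.PP5LB.Shv

/-!
# LB5, section B: the sum of `1 / x1` over a residue class of coprime triples
-/

set_option autoImplicit false

namespace Pool.Agent.PP5LB

/-- the sum of `1 / x1` over the coprime triples `(x1, x6, x7)` of the box congruent to `(y1, y6, y7)` mod `M` -/
noncomputable def HsT (A1 A6 A7 : ℤ) (r M : ℕ) (y : ℤ × ℤ × ℤ) : ℝ :=
  ∑ x ∈ (BxT A1 A6 A7 r).filter (fun x => ((M : ℤ) ∣ x.1 - y.1 ∧ (M : ℤ) ∣ x.2.1 - y.2.1 ∧ (M : ℤ) ∣ x.2.2 - y.2.2) ∧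
    Int.gcd (Int.gcd x.1 x.2.1) x.2.2 = 1), (1 : ℝ) / x.1

theorem gcd_one_iff {a b c : ℤ} : Int.gcd (Int.gcd a b) c = 1 ↔ ∃ x y z : ℤ, x * a + y * b + z * c = 1 := by
  constructor
  · intro h
    have h1 := Int.gcd_eq_gcd_ab a b
    have h2 := Int.gcd_eq_gcd_ab (Int.gcd a b : ℤ) c
    rw [h] at h2
    refine ⟨Int.gcdA a b * Int.gcdA (Int.gcd a b : ℤ) c, Int.gcdB a b * Int.gcdA (Int.gcd a b : ℤ) c,
      Int.gcdB (Int.gcd a b : ℤ) c, ?_⟩
    push_cast at h2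
    linear_combination -h2 - Int.gcdA (Int.gcd a b : ℤ) c * h1
  · rintro ⟨x, y, z, h⟩
    have ha : ((Int.gcd (Int.gcd a b : ℤ) c : ℕ) : ℤ) ∣ a := (Int.gcd_dvd_left ..).trans (Int.gcd_dvd_left ..)
    have hb : ((Int.gcd (Int.gcd a b : ℤ) c : ℕ) : ℤ) ∣ b := (Int.gcd_dvd_left ..).trans (Int.gcd_dvd_right ..)
    have hc : ((Int.gcd (Int.gcd a b : ℤ) c : ℕ) : ℤ) ∣ c := Int.gcd_dvd_right ..
    have h1 : ((Int.gcd (Int.gcd a b : ℤ) c : ℕ) : ℤ) ∣ 1 := by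
      rw [← h]
      exact dvd_add (dvd_add (ha.mul_left _) (hb.mul_left _)) (hc.mul_left _)
    have h2 : Int.gcd (Int.gcd a b : ℤ) c ∣ 1 := by exact_mod_cast h1
    exact Nat.dvd_one.mp h2

/-- weighted sums over a progression -/
private noncomputable def Hcm_S (a b : ℤ) (M e : ℕ) (y : ℤ) (f : ℤ → ℝ) : ℝ :=
  ∑ x ∈ (Finset.Ico a b).filter (fun x => (M : ℤ) ∣ x - y ∧ (e : ℤ) ∣ x), f x

private theorem Hcm_nonneg {a b : ℤ} {M e : ℕ} {y : ℤ} {f : ℤ → ℝ} (hf : ∀ x, a ≤ x → x < b → 0 ≤ f x) :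
    0 ≤ Hcm_S a b M e y f := by
  refine Finset.sum_nonneg ?_
  intro x hx
  have := Finset.mem_Ico.mp (Finset.mem_filter.mp hx).1
  exact hf x this.1 this.2

private theorem Hcm_count {e : ℕ} (he : 1 ≤ e) {a b : ℤ} (hab : a ≤ b) :
    (((Finset.Ico a b).filter (fun x => (e : ℤ) ∣ x)).card : ℝ) ≤ ((b - a : ℤ) : ℝ) / e + 1 := by
  have heZ : (0 : ℤ) < e := by exact_mod_cast he
  have heQ : (0 : ℚ) < ((e : ℤ) : ℚ) := by exact_mod_cast heZ
  have h := Int.Ico_filter_modEq_card a b heZ 0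
  have h0 : (Finset.Ico a b).filter (fun x => (e : ℤ) ∣ x) = (Finset.Ico a b).filter (fun x => x ≡ 0 [ZMOD (e : ℤ)]) := by
    apply Finset.filter_congr
    intro t _
    rw [Int.modEq_zero_iff_dvd]
  rw [h0]
  set N := ((Finset.Ico a b).filter (fun x => x ≡ 0 [ZMOD (e : ℤ)])).card with hN
  have h1 : ((N : ℤ) : ℚ) = max ((⌈((b : ℚ) - (0 : ℤ)) / (e : ℤ)⌉ : ℚ) - ⌈((a : ℚ) - (0 : ℤ)) / (e : ℤ)⌉) 0 := by
    rw [h]; push_cast; rfl
  have c2 := Int.ceil_lt_add_one (((b : ℚ) - (0 : ℤ)) / (e : ℤ))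
  have c3 := Int.le_ceil (((a : ℚ) - (0 : ℤ)) / (e : ℤ))
  have e1 : ((b : ℚ) - (0 : ℤ)) / (e : ℤ) - ((a : ℚ) - (0 : ℤ)) / (e : ℤ) = ((b : ℚ) - a) / (e : ℤ) := by ring
  have hab' : (a : ℚ) ≤ b := by exact_mod_cast hab
  have h2 : 0 ≤ ((b : ℚ) - a) / (e : ℤ) := div_nonneg (by linarith) heQ.le
  have h3 : (N : ℚ) ≤ ((b : ℚ) - a) / (e : ℤ) + 1 := by
    have : ((N : ℤ) : ℚ) = (N : ℚ) := by push_cast; rfl
    rw [← this, h1]
    refine max_le ?_ (by linarith)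
    linarith
  have := (Rat.cast_le (K := ℝ)).mpr h3
  push_cast at this ⊢
  exact this

private theorem Hcm_le {a b : ℤ} (hab : a ≤ b) {M e : ℕ} (he : 1 ≤ e) {y : ℤ} {f : ℤ → ℝ} {F : ℝ} (hF : 0 ≤ F)
    (hf : ∀ x, a ≤ x → x < b → f x ≤ F) : Hcm_S a b M e y f ≤ F * (((b - a : ℤ) : ℝ) / e + 1) := by
  unfold Hcm_S
  refine (Finset.sum_le_card_nsmul _ _ F ?_).trans ?_
  · intro x hx
    have := Finset.mem_Ico.mp (Finset.mem_filter.mp hx).1
    exact hf x this.1 this.2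
  · rw [nsmul_eq_mul, mul_comm]
    refine mul_le_mul_of_nonneg_left ?_ hF
    refine le_trans ?_ (Hcm_count he hab)
    exact_mod_cast Finset.card_le_card (by
      intro x hx
      rw [Finset.mem_filter] at hx ⊢
      exact ⟨hx.1, hx.2.2⟩)

private theorem Hcm_shift {a b D w w' : ℤ} (hD : 0 < D) {f : ℤ → ℝ} (ha : 0 ≤ f a)
    (hf : ∀ x, a ≤ x → x < b → 0 ≤ f x) (hm : ∀ x y, a ≤ x → x ≤ y → y < b → f y ≤ f x) :
    ∑ x ∈ (Finset.Ico a b).filter (fun x => D ∣ x - w'), f x ≤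
      ∑ x ∈ (Finset.Ico a b).filter (fun x => D ∣ x - w), f x + f a := by
  set δ := (w' - w) % D with hδ
  have h0 := Int.emod_nonneg (w' - w) hD.ne'
  have h1 := Int.emod_lt_of_pos (w' - w) hD
  have h2 : D ∣ w' - w - δ := Int.dvd_self_sub_emod
  rw [← Finset.sum_filter_add_sum_filter_not _ (fun x => a ≤ x - δ)]
  refine add_le_add ?_ ?_
  · calc ∑ x ∈ ((Finset.Ico a b).filter (fun x => D ∣ x - w')).filter (fun x => a ≤ x - δ), f x
        ≤ ∑ x ∈ ((Finset.Ico a b).filter (fun x => D ∣ x - w')).filter (fun x => a ≤ x - δ), f (x - δ) := by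
          refine Finset.sum_le_sum ?_
          intro x hx
          simp only [Finset.mem_filter, Finset.mem_Ico] at hx
          exact hm _ _ hx.2 (by omega) hx.1.1.2
      _ = ∑ x ∈ (((Finset.Ico a b).filter (fun x => D ∣ x - w')).filter (fun x => a ≤ x - δ)).image (fun x => x - δ), f x := by
          rw [Finset.sum_image]
          intro x _ y _ h
          simpa using h
      _ ≤ ∑ x ∈ (Finset.Ico a b).filter (fun x => D ∣ x - w), f x := by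
          refine Finset.sum_le_sum_of_subset_of_nonneg ?_ ?_
          · intro x hx
            obtain ⟨y, hy, rfl⟩ := Finset.mem_image.mp hx
            simp only [Finset.mem_filter, Finset.mem_Ico] at hy ⊢
            refine ⟨⟨hy.2, by omega⟩, ?_⟩
            have e : y - δ - w = (y - w') + (w' - w - δ) := by ring
            rw [e]
            exact dvd_add hy.1.2 h2
          · intro x hx _
            have := Finset.mem_Ico.mp (Finset.mem_filter.mp hx).1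
            exact hf x this.1 this.2
  · have hcard : (((Finset.Ico a b).filter (fun x => D ∣ x - w')).filter (fun x => ¬ a ≤ x - δ)).card ≤ 1 := by
      rw [Finset.card_le_one]
      intro x hx y hy
      simp only [Finset.mem_filter, Finset.mem_Ico] at hx hy
      have h3 : D ∣ x - y := by
        have := dvd_sub hx.1.2 hy.1.2
        have e : x - w' - (y - w') = x - y := by ring
        rwa [e] at this
      have h4 : |x - y| < D := by rw [abs_lt]; constructor <;> omega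
      have := Int.eq_zero_of_abs_lt_dvd h3 h4
      omega
    refine (Finset.sum_le_card_nsmul _ _ (f a) ?_).trans ?_
    · intro x hx
      simp only [Finset.mem_filter, Finset.mem_Ico] at hx
      exact hm _ _ le_rfl hx.1.1.1 hx.1.1.2
    · rw [nsmul_eq_mul]
      have : ((((Finset.Ico a b).filter (fun x => D ∣ x - w')).filter (fun x => ¬ a ≤ x - δ)).card : ℝ) ≤ 1 := by
        exact_mod_cast hcard
      nlinarith

private theorem Hcm_crt {M e : ℕ} (hco : Nat.Coprime e M) (y : ℤ) : ∃ w : ℤ, ∀ x : ℤ,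
    ((M : ℤ) ∣ x - y ∧ (e : ℤ) ∣ x) ↔ ((e * M : ℕ) : ℤ) ∣ x - w := by
  have hc : IsCoprime (e : ℤ) (M : ℤ) := Nat.isCoprime_iff_coprime.mpr hco
  obtain ⟨u, v, huv⟩ := hc
  refine ⟨y * (u * e), ?_⟩
  intro x
  push_cast
  constructor
  · rintro ⟨⟨s, hs⟩, ⟨t, ht⟩⟩
    refine IsCoprime.mul_dvd ⟨u, v, huv⟩ ?_ ?_
    · exact ⟨t - y * u, by rw [ht]; ring⟩
    · exact ⟨s + y * v, by linear_combination hs + (-y) * huv⟩
  · rintro ⟨s, hs⟩
    constructor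
    · exact ⟨e * s - y * v, by linear_combination hs + y * huv⟩
    · exact ⟨M * s + y * u, by linear_combination hs⟩

private theorem Hcm_cmp {a b : ℤ} {M e : ℕ} (hM : 1 ≤ M) (he : 1 ≤ e) (hco : Nat.Coprime e M) (y y' : ℤ)
    {f : ℤ → ℝ} (ha : 0 ≤ f a)
    (hf : ∀ x, a ≤ x → x < b → 0 ≤ f x) (hm : ∀ x y, a ≤ x → x ≤ y → y < b → f y ≤ f x) :
    |Hcm_S a b M e y f - Hcm_S a b M e y' f| ≤ f a := by
  obtain ⟨w, hw⟩ := Hcm_crt hco y
  obtain ⟨w', hw'⟩ := Hcm_crt hco y'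
  have hD : (0 : ℤ) < ((e * M : ℕ) : ℤ) := by exact_mod_cast Nat.mul_pos (by omega) (by omega)
  have e1 : Hcm_S a b M e y f = ∑ x ∈ (Finset.Ico a b).filter (fun x => ((e * M : ℕ) : ℤ) ∣ x - w), f x := by
    unfold Hcm_S
    refine Finset.sum_congr (Finset.filter_congr fun x _ => hw x) (fun _ _ => rfl)
  have e2 : Hcm_S a b M e y' f = ∑ x ∈ (Finset.Ico a b).filter (fun x => ((e * M : ℕ) : ℤ) ∣ x - w'), f x := by
    unfold Hcm_S
    refine Finset.sum_congr (Finset.filter_congr fun x _ => hw' x) (fun _ _ => rfl)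
  rw [e1, e2, abs_le]
  have h1 := Hcm_shift (w := w) (w' := w') hD ha hf hm
  have h2 := Hcm_shift (w := w') (w' := w) hD ha hf hm
  constructor <;> linarith

private theorem Hcm_prod {A1 A6 A7 : ℤ} {r M e : ℕ} {y : ℤ × ℤ × ℤ} :
    ∑ x ∈ (BxT A1 A6 A7 r).filter (fun x => ((M : ℤ) ∣ x.1 - y.1 ∧ (M : ℤ) ∣ x.2.1 - y.2.1 ∧ (M : ℤ) ∣ x.2.2 - y.2.2) ∧
      e ∣ Int.gcd (Int.gcd x.1 x.2.1) x.2.2), (1 : ℝ) / x.1 =
    Hcm_S (A1 * r) ((A1 + 1) * r) M e y.1 (fun x => 1 / (x : ℝ)) *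
      (Hcm_S (A6 * r) ((A6 + 1) * r) M e y.2.1 (fun _ => 1) * Hcm_S (A7 * r) ((A7 + 1) * r) M e y.2.2 (fun _ => 1)) := by
  have hs : (BxT A1 A6 A7 r).filter (fun x => ((M : ℤ) ∣ x.1 - y.1 ∧ (M : ℤ) ∣ x.2.1 - y.2.1 ∧ (M : ℤ) ∣ x.2.2 - y.2.2) ∧
      e ∣ Int.gcd (Int.gcd x.1 x.2.1) x.2.2) =
      ((Finset.Ico (A1 * r) ((A1 + 1) * (r : ℤ))).filter (fun x => (M : ℤ) ∣ x - y.1 ∧ (e : ℤ) ∣ x)) ×ˢ
      ((Finset.Ico (A6 * r) ((A6 + 1) * (r : ℤ))).filter (fun x => (M : ℤ) ∣ x - y.2.1 ∧ (e : ℤ) ∣ x)) ×ˢ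
      ((Finset.Ico (A7 * r) ((A7 + 1) * (r : ℤ))).filter (fun x => (M : ℤ) ∣ x - y.2.2 ∧ (e : ℤ) ∣ x)) := by
    ext ⟨u, v, w⟩
    have hg : e ∣ Int.gcd (Int.gcd u v) w ↔ (e : ℤ) ∣ u ∧ (e : ℤ) ∣ v ∧ (e : ℤ) ∣ w := by
      constructor
      · intro h
        have h' : (e : ℤ) ∣ ((Int.gcd (Int.gcd u v) w : ℕ) : ℤ) := by exact_mod_cast h
        exact ⟨h'.trans ((Int.gcd_dvd_left ..).trans (Int.gcd_dvd_left ..)),
          h'.trans ((Int.gcd_dvd_left ..).trans (Int.gcd_dvd_right ..)), h'.trans (Int.gcd_dvd_right ..)⟩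
      · rintro ⟨h1, h2, h3⟩
        have h4 : (e : ℤ) ∣ ((Int.gcd u v : ℕ) : ℤ) := Int.dvd_coe_gcd h1 h2
        have h5 : (e : ℤ) ∣ ((Int.gcd (Int.gcd u v) w : ℕ) : ℤ) := Int.dvd_coe_gcd h4 h3
        exact_mod_cast h5
    simp only [Finset.mem_filter, Finset.mem_product, mem_BxT, Finset.mem_Ico, hg]
    tauto
  rw [hs, Finset.sum_product]
  unfold Hcm_S
  rw [Finset.sum_mul]
  refine Finset.sum_congr rfl ?_
  intro x _
  rw [Finset.sum_product, Finset.sum_mul_sum, Finset.mul_sum]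
  refine Finset.sum_congr rfl ?_
  intro z _
  rw [Finset.mul_sum]
  refine Finset.sum_congr rfl ?_
  intro _ _
  ring

private theorem Hcm_mob {E g : ℕ} (hg : 1 ≤ g) (hgE : g ≤ E) :
    (∑ e ∈ Finset.Icc 1 E, if e ∣ g then (ArithmeticFunction.moebius e : ℝ) else 0) = if g = 1 then 1 else 0 := by
  rw [← Finset.sum_filter]
  have h1 : (Finset.Icc 1 E).filter (fun e => e ∣ g) = g.divisors := by
    ext e
    simp only [Finset.mem_filter, Finset.mem_Icc, Nat.mem_divisors]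
    constructor
    · rintro ⟨_, h⟩
      exact ⟨h, by omega⟩
    · rintro ⟨h, _⟩
      have := Nat.le_of_dvd (by omega) h
      have := Nat.pos_of_dvd_of_pos h (by omega)
      exact ⟨⟨by omega, by omega⟩, h⟩
  rw [h1]
  have h2 : ((ArithmeticFunction.moebius * (ArithmeticFunction.zeta : ArithmeticFunction ℤ)) g : ℤ) = if g = 1 then 1 else 0 := by
    rw [ArithmeticFunction.moebius_mul_coe_zeta, ArithmeticFunction.one_apply]
  rw [ArithmeticFunction.coe_mul_zeta_apply] at h2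
  have h3 : ((∑ i ∈ g.divisors, ArithmeticFunction.moebius i : ℤ) : ℝ) = ((if g = 1 then 1 else 0 : ℤ) : ℝ) := by
    rw [h2]
  push_cast at h3
  exact h3

private theorem Hcm_expand {A1 A6 A7 : ℤ} (hA : 1 ≤ A1) {r M : ℕ} (hr : 1 ≤ r) {y : ℤ × ℤ × ℤ} {E : ℕ}
    (hE : (E : ℤ) = (A1 + 1) * r) :
    HsT A1 A6 A7 r M y = ∑ e ∈ Finset.Icc 1 E, (ArithmeticFunction.moebius e : ℝ) *
      (Hcm_S (A1 * r) ((A1 + 1) * r) M e y.1 (fun x => 1 / (x : ℝ)) *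
      (Hcm_S (A6 * r) ((A6 + 1) * r) M e y.2.1 (fun _ => 1) * Hcm_S (A7 * r) ((A7 + 1) * r) M e y.2.2 (fun _ => 1))) := by
  have hrZ : (0 : ℤ) < r := by exact_mod_cast hr
  have e1 : ∀ e ∈ Finset.Icc 1 E, (ArithmeticFunction.moebius e : ℝ) *
      (Hcm_S (A1 * r) ((A1 + 1) * r) M e y.1 (fun x => 1 / (x : ℝ)) *
      (Hcm_S (A6 * r) ((A6 + 1) * r) M e y.2.1 (fun _ => 1) * Hcm_S (A7 * r) ((A7 + 1) * r) M e y.2.2 (fun _ => 1))) =
      ∑ x ∈ (BxT A1 A6 A7 r).filter (fun x => ((M : ℤ) ∣ x.1 - y.1 ∧ (M : ℤ) ∣ x.2.1 - y.2.1 ∧ (M : ℤ) ∣ x.2.2 - y.2.2)),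
        (if e ∣ Int.gcd (Int.gcd x.1 x.2.1) x.2.2 then (ArithmeticFunction.moebius e : ℝ) else 0) * ((1 : ℝ) / x.1) := by
    intro e _
    rw [← Hcm_prod, ← Finset.filter_filter, Finset.sum_filter (fun x : ℤ × ℤ × ℤ => e ∣ Int.gcd (Int.gcd x.1 x.2.1) x.2.2), Finset.mul_sum]
    refine Finset.sum_congr rfl ?_
    intro x _
    by_cases h : e ∣ Int.gcd (Int.gcd x.1 x.2.1) x.2.2
    · rw [if_pos h, if_pos h]
    · rw [if_neg h, if_neg h]; ring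
  rw [Finset.sum_congr rfl e1, Finset.sum_comm]
  unfold HsT
  rw [← Finset.filter_filter, Finset.sum_filter (fun x : ℤ × ℤ × ℤ => Int.gcd (Int.gcd x.1 x.2.1) x.2.2 = 1)]
  refine Finset.sum_congr rfl ?_
  intro x hx
  have hxB := (Finset.mem_filter.mp hx).1
  rw [mem_BxT] at hxB
  have hx1 : 0 < x.1 := by nlinarith [hxB.1.1]
  rw [← Finset.sum_mul]
  have hgd : ((Int.gcd (Int.gcd x.1 x.2.1) x.2.2 : ℕ) : ℤ) ∣ x.1 :=
    (Int.gcd_dvd_left ..).trans (Int.gcd_dvd_left ..)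
  have hg1 : 1 ≤ Int.gcd (Int.gcd x.1 x.2.1) x.2.2 := by
    rcases Nat.eq_zero_or_pos (Int.gcd (Int.gcd x.1 x.2.1) x.2.2) with h | h
    · rw [h] at hgd
      simp at hgd
      omega
    · exact h
  have hgE : Int.gcd (Int.gcd x.1 x.2.1) x.2.2 ≤ E := by
    have := Int.le_of_dvd hx1 hgd
    have h2 := hxB.1.2
    omega
  rw [Hcm_mob hg1 hgE]
  by_cases h : Int.gcd (Int.gcd x.1 x.2.1) x.2.2 = 1
  · rw [if_pos h, if_pos h, one_mul]
  · rw [if_neg h, if_neg h, zero_mul]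

private theorem Hcm_zero {A1 A6 A7 : ℤ} {r M e : ℕ} {y : ℤ × ℤ × ℤ} (hco : ¬ Nat.Coprime e M)
    (hy : ∃ a b c d : ℤ, a * y.1 + b * y.2.1 + c * y.2.2 + d * M = 1) :
    (Hcm_S (A1 * r) ((A1 + 1) * r) M e y.1 (fun x => 1 / (x : ℝ)) *
      (Hcm_S (A6 * r) ((A6 + 1) * r) M e y.2.1 (fun _ => 1) * Hcm_S (A7 * r) ((A7 + 1) * r) M e y.2.2 (fun _ => 1))) = 0 := by
  by_contra hne
  have h1 : Hcm_S (A1 * r) ((A1 + 1) * r) M e y.1 (fun x => 1 / (x : ℝ)) ≠ 0 := fun h => hne (by rw [h]; ring)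
  have h6 : Hcm_S (A6 * r) ((A6 + 1) * r) M e y.2.1 (fun _ => 1) ≠ 0 := fun h => hne (by rw [h]; ring)
  have h7 : Hcm_S (A7 * r) ((A7 + 1) * r) M e y.2.2 (fun _ => 1) ≠ 0 := fun h => hne (by rw [h]; ring)
  obtain ⟨x1, hx1, -⟩ := Finset.exists_ne_zero_of_sum_ne_zero h1
  obtain ⟨x6, hx6, -⟩ := Finset.exists_ne_zero_of_sum_ne_zero h6
  obtain ⟨x7, hx7, -⟩ := Finset.exists_ne_zero_of_sum_ne_zero h7
  have d1 := (Finset.mem_filter.mp hx1).2
  have d6 := (Finset.mem_filter.mp hx6).2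
  have d7 := (Finset.mem_filter.mp hx7).2
  have hl1 : ((Nat.gcd e M : ℕ) : ℤ) ∣ (e : ℤ) := by exact_mod_cast Nat.gcd_dvd_left e M
  have hl2 : ((Nat.gcd e M : ℕ) : ℤ) ∣ (M : ℤ) := by exact_mod_cast Nat.gcd_dvd_right e M
  have key : ∀ x y : ℤ, (M : ℤ) ∣ x - y → (e : ℤ) ∣ x → ((Nat.gcd e M : ℕ) : ℤ) ∣ y := by
    intro x y h1 h2
    have := dvd_sub (hl1.trans h2) (hl2.trans h1)
    have e : x - (x - y) = y := by ring
    rwa [e] at this
  obtain ⟨a, b, c, d, h⟩ := hy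
  have : ((Nat.gcd e M : ℕ) : ℤ) ∣ 1 := by
    rw [← h]
    exact dvd_add (dvd_add (dvd_add ((key _ _ d1.1 d1.2).mul_left _) ((key _ _ d6.1 d6.2).mul_left _))
      ((key _ _ d7.1 d7.2).mul_left _)) (hl2.mul_left _)
  have h2 : Nat.gcd e M ∣ 1 := by exact_mod_cast this
  exact hco (Nat.dvd_one.mp h2)

private theorem Hcm_arith {P P' Q Q' R R' p t : ℝ} (hp : 0 ≤ p) (ht : 1 ≤ t) (hP : |P - P'| ≤ p) (hQ : |Q - Q'| ≤ 1)
    (hR : |R - R'| ≤ 1) (hP1 : 0 ≤ P') (hP2 : P' ≤ p * t) (hQ0 : 0 ≤ Q) (hQ1 : Q ≤ t) (hQ2 : 0 ≤ Q') (hQ3 : Q' ≤ t)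
    (hR0 : 0 ≤ R) (hR1 : R ≤ t) : |P * (Q * R) - P' * (Q' * R')| ≤ 3 * p * t ^ 2 := by
  have e : P * (Q * R) - P' * (Q' * R') = (P - P') * (Q * R) + P' * ((Q - Q') * R) + P' * (Q' * (R - R')) := by ring
  rw [e]
  have a1 : |(P - P') * (Q * R)| ≤ p * (t * t) := by
    rw [abs_mul, abs_of_nonneg (mul_nonneg hQ0 hR0)]
    exact mul_le_mul hP (mul_le_mul hQ1 hR1 hR0 (by linarith)) (mul_nonneg hQ0 hR0) hp
  have a2 : |P' * ((Q - Q') * R)| ≤ (p * t) * (1 * t) := by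
    rw [abs_mul, abs_mul, abs_of_nonneg hP1, abs_of_nonneg hR0]
    exact mul_le_mul hP2 (mul_le_mul hQ hR1 hR0 (by norm_num)) (by positivity) (by positivity)
  have a3 : |P' * (Q' * (R - R'))| ≤ (p * t) * (t * 1) := by
    rw [abs_mul, abs_mul, abs_of_nonneg hP1, abs_of_nonneg hQ2]
    exact mul_le_mul hP2 (mul_le_mul hQ3 hR (abs_nonneg _) (by linarith)) (by positivity) (by positivity)
  calc |(P - P') * (Q * R) + P' * ((Q - Q') * R) + P' * (Q' * (R - R'))|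
      ≤ |(P - P') * (Q * R)| + |P' * ((Q - Q') * R)| + |P' * (Q' * (R - R'))| := abs_add_three _ _ _
    _ ≤ p * (t * t) + (p * t) * (1 * t) + (p * t) * (t * 1) := by linarith
    _ = 3 * p * t ^ 2 := by ring

/-- The sum hardly depends on the class. -/
theorem Hcm {A1 : ℤ} (A6 A7 : ℤ) (hA : 1 ≤ A1) {r M : ℕ} (hr : 1 ≤ r) (hM : 1 ≤ M) {y y' : ℤ × ℤ × ℤ}
    (hy : ∃ a b c d : ℤ, a * y.1 + b * y.2.1 + c * y.2.2 + d * M = 1)
    (hy' : ∃ a b c d : ℤ, a * y'.1 + b * y'.2.1 + c * y'.2.2 + d * M = 1) :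
    |HsT A1 A6 A7 r M y - HsT A1 A6 A7 r M y'| ≤ 6 * (A1 + 2 : ℤ) ^ 2 * r := by
  obtain ⟨E, hE⟩ : ∃ E : ℕ, (E : ℤ) = (A1 + 1) * r :=
    ⟨((A1 + 1) * r).toNat, Int.toNat_of_nonneg (by positivity)⟩
  have hrZ : (0 : ℤ) < r := by exact_mod_cast hr
  have hrR : (0 : ℝ) < r := by exact_mod_cast hr
  have hr1 : (1 : ℝ) ≤ r := by exact_mod_cast hr
  have hAR : (1 : ℝ) ≤ A1 := by exact_mod_cast hA
  have hER : (E : ℝ) = (A1 + 1) * r := by exact_mod_cast hE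
  have hE1 : 1 ≤ E := by
    have : (1 : ℤ) ≤ E := by rw [hE]; nlinarith
    exact_mod_cast this
  rw [Hcm_expand hA hr hE, Hcm_expand hA hr hE, ← Finset.sum_sub_distrib]
  refine (Finset.abs_sum_le_sum_abs _ _).trans ?_
  have hterm : ∀ e ∈ Finset.Icc 1 E, |(ArithmeticFunction.moebius e : ℝ) *
      (Hcm_S (A1 * r) ((A1 + 1) * r) M e y.1 (fun x => 1 / (x : ℝ)) *
      (Hcm_S (A6 * r) ((A6 + 1) * r) M e y.2.1 (fun _ => 1) * Hcm_S (A7 * r) ((A7 + 1) * r) M e y.2.2 (fun _ => 1))) -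
      (ArithmeticFunction.moebius e : ℝ) *
      (Hcm_S (A1 * r) ((A1 + 1) * r) M e y'.1 (fun x => 1 / (x : ℝ)) *
      (Hcm_S (A6 * r) ((A6 + 1) * r) M e y'.2.1 (fun _ => 1) * Hcm_S (A7 * r) ((A7 + 1) * r) M e y'.2.2 (fun _ => 1)))| ≤
      3 * (A1 + 2) ^ 2 * r * ((e : ℝ) ^ 2)⁻¹ := by
    intro e he
    obtain ⟨he1, he2⟩ := Finset.mem_Icc.mp he
    have heR : (0 : ℝ) < e := by exact_mod_cast he1
    by_cases hco : Nat.Coprime e M
    · rw [← mul_sub, abs_mul]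
      have hmu : |(ArithmeticFunction.moebius e : ℝ)| ≤ 1 := by
        have := ArithmeticFunction.abs_moebius_le_one (n := e)
        exact_mod_cast this
      set t : ℝ := r / e + 1 with ht
      have ht1 : 1 ≤ t := by rw [ht]; have : 0 ≤ (r : ℝ) / e := by positivity
                             linarith
      have hfl : ∀ A : ℤ, (((A + 1) * (r : ℤ) - A * r : ℤ) : ℝ) / e + 1 = t := by
        intro A
        have : (A + 1) * (r : ℤ) - A * r = r := by ring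
        rw [this, ht]; push_cast; rfl
      have hab : ∀ A : ℤ, A * (r : ℤ) ≤ (A + 1) * r := by intro A; nlinarith
      have hpos : ∀ x : ℤ, A1 * r ≤ x → (0 : ℝ) < x := by
        intro x hx
        have : 0 < x := by nlinarith
        exact_mod_cast this
      have hA1r : (0 : ℝ) < ((A1 * r : ℤ) : ℝ) := hpos _ le_rfl
      have hcmp1 := Hcm_cmp (a := A1 * r) (b := (A1 + 1) * r) hM he1 hco y.1 y'.1 (f := fun x => 1 / (x : ℝ))
        (by positivity) (fun x hx _ => by have := hpos x hx; positivity)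
        (fun x z hx hxz _ => by
          apply one_div_le_one_div_of_le (hpos x hx)
          exact_mod_cast hxz)
      have hcmp6 := Hcm_cmp (a := A6 * r) (b := (A6 + 1) * r) hM he1 hco y.2.1 y'.2.1 (f := fun _ => 1)
        (by norm_num) (fun _ _ _ => by norm_num) (fun _ _ _ _ _ => le_rfl)
      have hcmp7 := Hcm_cmp (a := A7 * r) (b := (A7 + 1) * r) hM he1 hco y.2.2 y'.2.2 (f := fun _ => 1)
        (by norm_num) (fun _ _ _ => by norm_num) (fun _ _ _ _ _ => le_rfl)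
      have hP1 := Hcm_nonneg (a := A1 * r) (b := (A1 + 1) * r) (M := M) (e := e) (y := y'.1)
        (f := fun x => 1 / (x : ℝ)) (fun x hx _ => by have := hpos x hx; positivity)
      have hP2 := Hcm_le (hab A1) (M := M) he1 (y := y'.1) (f := fun x => 1 / (x : ℝ))
        (F := 1 / ((A1 * r : ℤ) : ℝ)) (by positivity) (fun x hx _ => by
          apply one_div_le_one_div_of_le hA1r
          exact_mod_cast hx)
      rw [hfl] at hP2
      have hQn : ∀ (A : ℤ) (z : ℤ), 0 ≤ Hcm_S (A * r) ((A + 1) * r) M e z (fun _ => 1) :=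
        fun A z => Hcm_nonneg (fun _ _ _ => by norm_num)
      have hQt : ∀ (A : ℤ) (z : ℤ), Hcm_S (A * r) ((A + 1) * r) M e z (fun _ => 1) ≤ t := by
        intro A z
        have := Hcm_le (hab A) (M := M) he1 (y := z) (f := fun _ => 1) (F := 1) (by norm_num) (fun _ _ _ => le_rfl)
        rwa [hfl, one_mul] at this
      have hmain := Hcm_arith (p := 1 / ((A1 * r : ℤ) : ℝ)) (by positivity) ht1 hcmp1 hcmp6 hcmp7 hP1 hP2
        (hQn A6 _) (hQt A6 _) (hQn A6 _) (hQt A6 _) (hQn A7 _) (hQt A7 _)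
      refine (mul_le_of_le_one_left (abs_nonneg _) hmu).trans (hmain.trans ?_)
      have hp : 1 / ((A1 * r : ℤ) : ℝ) ≤ 1 / r := by
        apply one_div_le_one_div_of_le hrR
        push_cast
        nlinarith
      have ht2 : t ≤ (A1 + 2) * r / e := by
        rw [ht, le_div_iff₀ heR]
        have : (e : ℝ) ≤ (A1 + 1) * r := by rw [← hER]; exact_mod_cast he2
        have e1 : ((r : ℝ) / e + 1) * e = r + e := by field_simp
        rw [e1]; linarith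
      calc 3 * (1 / ((A1 * r : ℤ) : ℝ)) * t ^ 2 ≤ 3 * (1 / r) * ((A1 + 2) * r / e) ^ 2 := by gcongr
        _ = 3 * (A1 + 2) ^ 2 * r * ((e : ℝ) ^ 2)⁻¹ := by field_simp
    · rw [Hcm_zero hco hy, Hcm_zero hco hy']
      simp only [mul_zero, sub_zero, abs_zero]
      positivity
  refine (Finset.sum_le_sum hterm).trans ?_
  rw [← Finset.mul_sum]
  have hsum : ∑ i ∈ Finset.Icc 1 E, ((i : ℝ) ^ 2)⁻¹ ≤ 2 := by
    have h1 : Finset.Icc 1 E = insert 1 (Finset.Ioc 1 E) := by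
      ext i
      simp only [Finset.mem_Icc, Finset.mem_insert, Finset.mem_Ioc]
      omega
    rw [h1, Finset.sum_insert (by simp)]
    have h2 := sum_Ioc_inv_sq_le_sub (α := ℝ) (k := 1) (n := E) (by norm_num) hE1
    have h3 : (0 : ℝ) ≤ (E : ℝ)⁻¹ := by positivity
    push_cast at h2 ⊢
    norm_num at h2 ⊢
    linarith
  have h3 : 0 ≤ 3 * ((A1 : ℝ) + 2) ^ 2 * r := by positivity
  calc 3 * ((A1 : ℝ) + 2) ^ 2 * r * ∑ i ∈ Finset.Icc 1 E, ((i : ℝ) ^ 2)⁻¹ ≤ 3 * ((A1 : ℝ) + 2) ^ 2 * r * 2 :=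
        mul_le_mul_of_nonneg_left hsum h3
    _ = 6 * (A1 + 2 : ℤ) ^ 2 * r := by push_cast; ring

end Pool.Agent.PP5LB
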