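import Pool.Agent.PP5LB.Defs
import Pool.Agent.PP5LB.Cst
import Pool.Agent.PP5LB.Hcm

/-!
# LB5, section B: the number of points hardly depends on the class (theorem `Ucm`)
-/

set_option autoImplicit false

namespace Pool.Agent.PP5LB

open Pool.Agent.PP5L Finset

private theorem Ucm_prog {M : ℕ} (hM : 1 ≤ M) (p q c : ℤ) (hpq : p ≤ q) :
    ∃ (a : ℤ) (l : ℕ), (∀ z : ℤ, (a ≤ z ∧ z < a + l) ↔ (p ≤ c + M * z ∧ c + M * z < q)) ∧
      ((Ico p q).filter (fun n => (M : ℤ) ∣ n - c)).card = l := by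
  have hMZ : (0 : ℤ) < M := by exact_mod_cast hM
  have h1 : ∀ p z : ℤ, -((c - p) / M) ≤ z ↔ p ≤ c + M * z := by
    intro p z
    rw [neg_le, Int.le_ediv_iff_mul_le hMZ]
    constructor <;> intro h <;> nlinarith
  have h2 : (c - q) / (M : ℤ) ≤ (c - p) / M := Int.ediv_le_ediv hMZ (by omega)
  have key : ∀ z : ℤ, (-((c - p) / M) ≤ z ∧ z < -((c - p) / M) +
      (((c - p) / M - (c - q) / M).toNat : ℕ)) ↔ (p ≤ c + M * z ∧ c + M * z < q) := by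
    intro z
    have e : -((c - p) / (M : ℤ)) + (((c - p) / M - (c - q) / M).toNat : ℕ) = -((c - q) / M) := by
      rw [Int.toNat_of_nonneg (by omega)]; ring
    rw [e, h1, ← not_le, h1 q z, not_le]
  refine ⟨-((c - p) / M), ((c - p) / M - (c - q) / M).toNat, key, ?_⟩
  have himg : (Ico p q).filter (fun n => (M : ℤ) ∣ n - c) =
      (Ico (-((c - p) / (M : ℤ))) (-((c - p) / (M : ℤ)) + (((c - p) / M - (c - q) / M).toNat : ℕ))).image
        (fun z => c + M * z) := by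
    ext n
    simp only [Finset.mem_filter, Finset.mem_Ico, Finset.mem_image]
    constructor
    · rintro ⟨⟨h3, h4⟩, z, hz⟩
      have e : c + M * z = n := by linarith
      exact ⟨z, (key z).mpr (by rw [e]; exact ⟨h3, h4⟩), e⟩
    · rintro ⟨z, hz, rfl⟩
      exact ⟨(key z).mp hz, ⟨z, by ring⟩⟩
  rw [himg, Finset.card_image_of_injective]
  · rw [Int.card_Ico]
    have e : -((c - p) / (M : ℤ)) + (((c - p) / M - (c - q) / M).toNat : ℕ) - -((c - p) / (M : ℤ)) =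
      (((c - p) / M - (c - q) / M).toNat : ℕ) := by ring
    rw [e, Int.toNat_natCast]
  · intro z z' h
    simp only at h
    have : (M : ℤ) * z = M * z' := by linarith
    exact mul_left_cancel₀ hMZ.ne' this

private theorem Ucm_fib {A : Fin 10 → ℤ} {r M : ℕ} (hM : 1 ≤ M) {c : Fin 10 → ℤ} (hc : (M : ℤ) ∣ FF c)
    {x0 x2 x4 x5 x1 x6 x7 : ℤ} (h0 : (M : ℤ) ∣ x0 - c 0) (h2 : (M : ℤ) ∣ x2 - c 2) (h4 : (M : ℤ) ∣ x4 - c 4)
    (h5 : (M : ℤ) ∣ x5 - c 5) (h1 : (M : ℤ) ∣ x1 - c 1) (h6 : (M : ℤ) ∣ x6 - c 6) (h7 : (M : ℤ) ∣ x7 - c 7)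
    (hx1 : 0 < x1) (hu : ∃ a b d : ℤ, a * x1 + b * x6 + d * x7 = 1) {K : ℕ} (hK : 1 ≤ K)
    (hs : ∀ u v : ℤ, |u| < K → |v| < K → x1 ∣ x7 * u - x6 * v → u = 0 ∧ v = 0) :
    |((((IM A r M c 8) ×ˢ (IM A r M c 9)).filter
      (fun z : ℤ × ℤ => x1 * M ∣ x0 * x2 - x4 * x5 - x6 * z.2 + x7 * z.1 - x1 * c 3)).card : ℝ) -
      (IM A r M c 8).card * (IM A r M c 9).card / x1| ≤
      4 * max ((IM A r M c 8).card : ℝ) ((IM A r M c 9).card) / K + 3 := by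
  have hMZ : (0 : ℤ) < M := by exact_mod_cast hM
  have hrZ : (0 : ℤ) ≤ r := Int.natCast_nonneg _
  obtain ⟨a8, l8, k8, e8⟩ := Ucm_prog hM (A 8 * r) ((A 8 + 1) * r) (c 8) (by nlinarith)
  obtain ⟨a9, l9, k9, e9⟩ := Ucm_prog hM (A 9 * r) ((A 9 + 1) * r) (c 9) (by nlinarith)
  have e8' : (IM A r M c 8).card = l8 := e8
  have e9' : (IM A r M c 9).card = l9 := e9
  obtain ⟨n0, hn0⟩ : (M : ℤ) ∣ x0 * x2 - x4 * x5 - x6 * c 9 + x7 * c 8 - x1 * c 3 := by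
    obtain ⟨k, hk⟩ := hc
    obtain ⟨k0, h0⟩ := h0
    obtain ⟨k2, h2⟩ := h2
    obtain ⟨k4, h4⟩ := h4
    obtain ⟨k5, h5⟩ := h5
    obtain ⟨k1, h1⟩ := h1
    obtain ⟨k6, h6⟩ := h6
    obtain ⟨k7, h7⟩ := h7
    unfold FF at hk
    refine ⟨k + (k0 * x2 + c 0 * k2) - (k4 * x5 + c 4 * k5) - k6 * c 9 + k7 * c 8 - k1 * c 3, ?_⟩
    linear_combination hk + x2 * h0 + c 0 * h2 - x5 * h4 - c 4 * h5 - c 9 * h6 + c 8 * h7 - c 3 * h1
  have hcard : (((IM A r M c 8) ×ˢ (IM A r M c 9)).filter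
      (fun z : ℤ × ℤ => x1 * M ∣ x0 * x2 - x4 * x5 - x6 * z.2 + x7 * z.1 - x1 * c 3)).card =
      cnt x7 (-x6) x1 (-n0) a8 a9 l8 l9 := by
    unfold cnt
    symm
    refine Finset.card_bij (fun z _ => (c 8 + M * z.1, c 9 + M * z.2)) ?_ ?_ ?_
    · rintro ⟨u, v⟩ h
      simp only [Finset.mem_filter, Finset.mem_product, Finset.mem_Ico, IM] at h ⊢
      obtain ⟨⟨hu, hv⟩, hd⟩ := h
      refine ⟨⟨⟨(k8 u).mp hu, ⟨u, by ring⟩⟩, ⟨(k9 v).mp hv, ⟨v, by ring⟩⟩⟩, ?_⟩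
      obtain ⟨k, hk⟩ := hd
      exact ⟨k, by linear_combination hn0 + (M : ℤ) * hk⟩
    · rintro ⟨u, v⟩ _ ⟨u', v'⟩ _ h
      simp only [Prod.mk.injEq] at h
      have e1 : u = u' := mul_left_cancel₀ hMZ.ne' (by linarith [h.1])
      have e2 : v = v' := mul_left_cancel₀ hMZ.ne' (by linarith [h.2])
      rw [e1, e2]
    · rintro ⟨p, q⟩ h
      simp only [Finset.mem_filter, Finset.mem_product, Finset.mem_Ico, IM] at h
      obtain ⟨⟨⟨hp1, u, hu⟩, ⟨hq1, v, hv⟩⟩, k, hk⟩ := h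
      have hp : p = c 8 + M * u := by linarith
      have hq : q = c 9 + M * v := by linarith
      refine ⟨(u, v), ?_, by rw [hp, hq]⟩
      simp only [Finset.mem_filter, Finset.mem_product, Finset.mem_Ico]
      refine ⟨⟨(k8 u).mpr (by rw [← hp]; exact hp1), (k9 v).mpr (by rw [← hq]; exact hq1)⟩, k, ?_⟩
      apply mul_left_cancel₀ hMZ.ne'
      rw [hp, hq] at hk
      linear_combination hk - hn0
  rw [hcard, e8', e9']
  have := Cst (al := x7) (be := -x6) (n := x1) (c := -n0) (a := a8) (b := a9) (L1 := l8) (L2 := l9) hx1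
    (by obtain ⟨a, b, d, h⟩ := hu; exact ⟨d, -b, a, by linear_combination h⟩) hK
    (by
      intro u v h1 h2 h3
      refine hs u v h1 h2 ?_
      have e : x7 * u - x6 * v = x7 * u + -x6 * v := by ring
      rw [e]; exact h3)
  rw [Nat.cast_max] at this
  exact this

private theorem Ucm_abs {A x : ℤ} {r : ℕ} (h1 : A * r ≤ x) (h2 : x < (A + 1) * r) : |x| ≤ (|A| + 1) * r := by
  have hr : (0 : ℤ) ≤ r := Int.natCast_nonneg _
  have h3 : A * r ≤ |A| * r := mul_le_mul_of_nonneg_right (le_abs_self A) hr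
  have h4 : -|A| * r ≤ A * r := mul_le_mul_of_nonneg_right (neg_abs_le A) hr
  rw [abs_le]
  constructor <;> nlinarith

private theorem Ucm_x3 {A : Fin 10 → ℤ} (hA : 1 ≤ A 1) {r : ℕ} (hr : 1 ≤ r) {x : Fin 10 → ℤ}
    (hx : ∀ j, j ≠ 3 → A j * r ≤ x j ∧ x j < (A j + 1) * r) (hF : FF x = 0) : |x 3| ≤ BB A * r := by
  have hrZ : (0 : ℤ) < r := by exact_mod_cast hr
  have hx1 : (r : ℤ) ≤ x 1 := by have := (hx 1 (by decide)).1; nlinarith
  have hx10 : 0 < x 1 := by linarith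
  set S : ℤ := ∑ j, (|A j| + 1) with hS
  have hle : ∀ j, |A j| + 1 ≤ S := by
    intro j
    exact Finset.single_le_sum (f := fun j => |A j| + 1) (fun i _ => by positivity) (Finset.mem_univ j)
  have hb : ∀ j, j ≠ 3 → |x j| ≤ S * r := by
    intro j hj
    refine (Ucm_abs (hx j hj).1 (hx j hj).2).trans ?_
    exact mul_le_mul_of_nonneg_right (hle j) hrZ.le
  have hS0 : 0 ≤ S := by
    have := hle 0
    have := abs_nonneg (A 0)
    linarith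
  have hp : ∀ i j, i ≠ 3 → j ≠ 3 → |x i * x j| ≤ (S * r) * (S * r) := by
    intro i j hi hj
    rw [abs_mul]
    exact mul_le_mul (hb i hi) (hb j hj) (abs_nonneg _) (by positivity)
  have e : x 1 * x 3 = x 0 * x 2 - x 4 * x 5 - x 6 * x 9 + x 7 * x 8 := by
    unfold FF at hF; linarith
  have h1 : |x 1 * x 3| ≤ 4 * ((S * r) * (S * r)) := by
    rw [e]
    have a1 := abs_le.mp (hp 0 2 (by decide) (by decide))
    have a2 := abs_le.mp (hp 4 5 (by decide) (by decide))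
    have a3 := abs_le.mp (hp 6 9 (by decide) (by decide))
    have a4 := abs_le.mp (hp 7 8 (by decide) (by decide))
    rw [abs_le]
    constructor <;> linarith [a1.1, a1.2, a2.1, a2.2, a3.1, a3.2, a4.1, a4.2]
  rw [abs_mul, abs_of_pos hx10] at h1
  have h2 : (r : ℤ) * |x 3| ≤ r * (BB A * r) := by
    calc (r : ℤ) * |x 3| ≤ x 1 * |x 3| := mul_le_mul_of_nonneg_right hx1 (abs_nonneg _)
      _ ≤ 4 * ((S * r) * (S * r)) := h1
      _ = r * (BB A * r) := by unfold BB; rw [← hS]; ring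
  exact le_of_mul_le_mul_left h2 hrZ

theorem mem_XA {A : Fin 10 → ℤ} (hA : 1 ≤ A 1) {r : ℕ} (hr : 1 ≤ r) {x : Fin 10 → ℤ} :
    x ∈ XA A r ↔ (∀ j, j ≠ 3 → A j * r ≤ x j ∧ x j < (A j + 1) * r) ∧ FF x = 0 ∧ Uni x := by
  classical
  unfold XA
  rw [Finset.mem_filter, Fintype.mem_piFinset]
  constructor
  · rintro ⟨h1, h2, h3⟩
    refine ⟨?_, h2, h3⟩
    intro j hj
    have := h1 j
    unfold Bx at this
    rw [if_neg hj, Finset.mem_Ico] at this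
    exact this
  · rintro ⟨h1, h2, h3⟩
    refine ⟨?_, h2, h3⟩
    intro j
    unfold Bx
    by_cases hj : j = 3
    · rw [if_pos hj, Finset.mem_Icc]
      have := abs_le.mp (Ucm_x3 hA hr h1 h2)
      rw [hj]; exact this
    · rw [if_neg hj, Finset.mem_Ico]
      exact h1 j hj

private noncomputable def Ucm_P (A : Fin 10 → ℤ) (r M : ℕ) (c : Fin 10 → ℤ) :
    Finset (ℤ × ℤ × ℤ × ℤ × (ℤ × ℤ × ℤ)) :=
  IM A r M c 0 ×ˢ IM A r M c 2 ×ˢ IM A r M c 4 ×ˢ IM A r M c 5 ×ˢ TrC A r M c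

private noncomputable def Ucm_F (A : Fin 10 → ℤ) (r M : ℕ) (c : Fin 10 → ℤ) (b : ℤ × ℤ × ℤ × ℤ × (ℤ × ℤ × ℤ)) :
    Finset (ℤ × ℤ) :=
  ((IM A r M c 8) ×ˢ (IM A r M c 9)).filter
      (fun z : ℤ × ℤ => b.2.2.2.2.1 * M ∣ b.1 * b.2.1 - b.2.2.1 * b.2.2.2.1 - b.2.2.2.2.2.1 * z.2 +
        b.2.2.2.2.2.2 * z.1 - b.2.2.2.2.1 * c 3)

private theorem Ucm_card {A : Fin 10 → ℤ} (hA : 1 ≤ A 1) {r M : ℕ} (hr : 1 ≤ r) (c : Fin 10 → ℤ) :
    (XI A r M c).card = ∑ b ∈ Ucm_P A r M c, (Ucm_F A r M c b).card := by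
  classical
  have hrZ : (0 : ℤ) < r := by exact_mod_cast hr
  rw [Finset.card_eq_sum_card_fiberwise (f := fun x : Fin 10 → ℤ => (x 0, x 2, x 4, x 5, (x 1, x 6, x 7)))
    (t := Ucm_P A r M c)]
  · refine Finset.sum_congr rfl ?_
    rintro ⟨x0, x2, x4, x5, x1, x6, x7⟩ hb
    simp only [Ucm_P, Finset.mem_product, IM, TrC, Tr, Finset.mem_filter, Finset.mem_Ico] at hb
    obtain ⟨⟨b0, d0⟩, ⟨b2, d2⟩, ⟨b4, d4⟩, ⟨b5, d5⟩, ⟨⟨b1, b6, b7⟩, ⟨d1, d6, d7⟩, hu⟩⟩ := hb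
    refine Finset.card_bij (fun x _ => (x 8, x 9)) ?_ ?_ ?_
    · intro x hx
      rw [Finset.mem_filter, XI, Finset.mem_filter, mem_XA hA hr] at hx
      obtain ⟨⟨⟨hx1, hx2, hx3⟩, hx4⟩, hx5⟩ := hx
      simp only [Prod.mk.injEq] at hx5
      obtain ⟨rfl, rfl, rfl, rfl, rfl, rfl, rfl⟩ := hx5
      simp only [Ucm_F, Finset.mem_filter, Finset.mem_product, IM, Finset.mem_Ico]
      refine ⟨⟨⟨hx1 8 (by decide), hx4 8⟩, ⟨hx1 9 (by decide), hx4 9⟩⟩, ?_⟩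
      obtain ⟨k, hk⟩ := hx4 3
      refine ⟨k, ?_⟩
      unfold FF at hx2
      linear_combination hx2 + x 1 * hk
    · intro x hx y hy hxy
      rw [Finset.mem_filter, XI, Finset.mem_filter, mem_XA hA hr] at hx hy
      obtain ⟨⟨⟨hx1, hx2, hx3⟩, hx4⟩, hx5⟩ := hx
      obtain ⟨⟨⟨hy1, hy2, hy3⟩, hy4⟩, hy5⟩ := hy
      simp only [Prod.mk.injEq] at hx5 hy5 hxy
      obtain ⟨e0, e2, e4, e5, e1, e6, e7⟩ := hx5
      obtain ⟨f0, f2, f4, f5, f1, f6, f7⟩ := hy5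
      obtain ⟨g8, g9⟩ := hxy
      have hx10 : x1 ≠ 0 := by nlinarith [b1.1]
      have e3 : x 3 = y 3 := by
        apply mul_left_cancel₀ hx10
        unfold FF at hx2 hy2
        rw [e0, e2, e4, e5, e1, e6, e7, g8, g9] at hx2
        rw [f0, f2, f4, f5, f1, f6, f7] at hy2
        linarith
      funext j
      fin_cases j
      · exact e0.trans f0.symm
      · exact e1.trans f1.symm
      · exact e2.trans f2.symm
      · exact e3
      · exact e4.trans f4.symm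
      · exact e5.trans f5.symm
      · exact e6.trans f6.symm
      · exact e7.trans f7.symm
      · exact g8
      · exact g9
    · rintro ⟨z8, z9⟩ hz
      simp only [Ucm_F, Finset.mem_filter, Finset.mem_product, IM, Finset.mem_Ico] at hz
      obtain ⟨⟨⟨b8, d8⟩, ⟨b9, d9⟩⟩, k, hk⟩ := hz
      have hx10 : 0 < x1 := by nlinarith [b1.1]
      refine ⟨![x0, x1, x2, c 3 + M * k, x4, x5, x6, x7, z8, z9], ?_, rfl⟩
      rw [Finset.mem_filter, XI, Finset.mem_filter, mem_XA hA hr]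
      refine ⟨⟨⟨?_, ?_, ?_⟩, ?_⟩, rfl⟩
      · intro j hj
        fin_cases j
        · exact b0
        · exact b1
        · exact b2
        · exact absurd rfl hj
        · exact b4
        · exact b5
        · exact b6
        · exact b7
        · exact b8
        · exact b9
      · show x0 * x2 - x1 * (c 3 + M * k) - x4 * x5 - x6 * z9 + x7 * z8 = 0
        linear_combination hk
      · exact hu
      · intro j
        fin_cases j
        · exact d0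
        · exact d1
        · exact d2
        · exact ⟨k, by show c 3 + M * k - c 3 = M * k; ring⟩
        · exact d4
        · exact d5
        · exact d6
        · exact d7
        · exact d8
        · exact d9
  · intro x hx
    have hx' : x ∈ XI A r M c := hx
    rw [XI, Finset.mem_filter, mem_XA hA hr] at hx'
    obtain ⟨⟨hx1, hx2, hx3⟩, hx4⟩ := hx'
    show (x 0, x 2, x 4, x 5, (x 1, x 6, x 7)) ∈ (Ucm_P A r M c : Set _)
    rw [Finset.mem_coe]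
    simp only [Ucm_P, Finset.mem_product, IM, TrC, Tr, Finset.mem_filter, Finset.mem_Ico]
    exact ⟨⟨hx1 0 (by decide), hx4 0⟩, ⟨hx1 2 (by decide), hx4 2⟩, ⟨hx1 4 (by decide), hx4 4⟩,
      ⟨hx1 5 (by decide), hx4 5⟩, ⟨⟨hx1 1 (by decide), hx1 6 (by decide), hx1 7 (by decide)⟩,
      ⟨hx4 1, hx4 6, hx4 7⟩, hx3⟩⟩

private theorem Ucm_IMr {A : Fin 10 → ℤ} {r M : ℕ} {c : Fin 10 → ℤ} (j : Fin 10) : (IM A r M c j).card ≤ r := by
  refine (Finset.card_filter_le _ _).trans ?_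
  rw [Int.card_Ico]
  have : (A j + 1) * (r : ℤ) - A j * r = r := by ring
  rw [this]; simp

private theorem Ucm_sumP {A : Fin 10 → ℤ} {r M : ℕ} {c : Fin 10 → ℤ} (g : ℤ × ℤ × ℤ → ℝ) :
    ∑ b ∈ Ucm_P A r M c, g b.2.2.2.2 = ((IM A r M c 0).card * (IM A r M c 2).card * (IM A r M c 4).card *
      (IM A r M c 5).card : ℝ) * ∑ t ∈ TrC A r M c, g t := by
  unfold Ucm_P
  rw [Finset.sum_product]
  simp only [Finset.sum_product, Finset.sum_const, nsmul_eq_mul]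
  ring

private theorem Ucm_Hs {A : Fin 10 → ℤ} {r M : ℕ} {c : Fin 10 → ℤ} :
    Hs A r M c = HsT (A 1) (A 6) (A 7) r M (c 1, c 6, c 7) := by
  classical
  unfold Hs HsT TrC Tr BxT
  refine Finset.sum_congr ?_ (fun _ _ => rfl)
  ext t
  simp only [Finset.mem_filter]
  rw [gcd_one_iff]

/-- the triples of the box with a short vector -/
private def Ucm_sh (K : ℕ) (x : ℤ × ℤ × ℤ) : Prop :=
  ∃ u v : ℤ, (u ≠ 0 ∨ v ≠ 0) ∧ |u| < K ∧ |v| < K ∧ x.1 ∣ x.2.2 * u - x.2.1 * v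

open Classical in
private noncomputable def Ucm_err (r K : ℕ) (x : ℤ × ℤ × ℤ) : ℝ :=
  if Ucm_sh K x then 4 * r + 3 else 4 * r / K + 3

private theorem Ucm_err_nonneg (r K : ℕ) (x : ℤ × ℤ × ℤ) : 0 ≤ Ucm_err r K x := by
  unfold Ucm_err
  split_ifs <;> positivity

private theorem Ucm_errsum {A : Fin 10 → ℤ} (hA : 1 ≤ A 1) {r M K : ℕ} (hr : 1 ≤ r) (hK : 1 ≤ K) {c : Fin 10 → ℤ} :
    ∑ t ∈ TrC A r M c, Ucm_err r K t ≤ r ^ 3 * (4 * r / K + 3) +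
      12 * (|A 6| + |A 7| + 2 : ℤ) * K ^ 3 * r ^ 2 * (4 * r + 3) := by
  classical
  have h1 : ∑ t ∈ TrC A r M c, Ucm_err r K t ≤ ∑ t ∈ Tr A r, Ucm_err r K t :=
    Finset.sum_le_sum_of_subset_of_nonneg (Finset.filter_subset _ _) (fun t _ _ => Ucm_err_nonneg r K t)
  refine h1.trans ?_
  have h2 : ∀ t ∈ Tr A r, Ucm_err r K t ≤ (4 * r / K + 3) + (if Ucm_sh K t then (4 * r + 3 : ℝ) else 0) := by
    intro t _
    unfold Ucm_err
    split_ifs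
    · have : (0 : ℝ) ≤ 4 * r / K + 3 := by positivity
      linarith
    · linarith
  refine (Finset.sum_le_sum h2).trans ?_
  rw [Finset.sum_add_distrib, Finset.sum_const, ← Finset.sum_filter, Finset.sum_const, nsmul_eq_mul, nsmul_eq_mul]
  have hc : ∀ B : ℤ, (Finset.Ico (B * r) ((B + 1) * (r : ℤ))).card = r := by
    intro B
    rw [Int.card_Ico]
    have : (B + 1) * (r : ℤ) - B * r = r := by ring
    rw [this]; simp
  have h3 : (Tr A r).card = r ^ 3 := by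
    unfold Tr
    rw [Finset.card_product, Finset.card_product, hc, hc, hc]; ring
  rw [h3]
  have h4 := Shv (A 6) (A 7) hA hr hK
  have h5 : ((Tr A r).filter (fun t => Ucm_sh K t)).card = ((BxT (A 1) (A 6) (A 7) r).filter (fun x => ∃ u v : ℤ, (u ≠ 0 ∨ v ≠ 0) ∧ |u| < K ∧ |v| < K ∧
      x.1 ∣ x.2.2 * u - x.2.1 * v)).card := by
    congr 1
  rw [h5]
  push_cast at h4 ⊢
  have h6 : (0 : ℝ) ≤ 4 * r + 3 := by positivity
  nlinarith [mul_le_mul_of_nonneg_right h4 h6]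

private theorem Ucm_asym {A : Fin 10 → ℤ} (hA : 1 ≤ A 1) {r M K : ℕ} (hr : 1 ≤ r) (hM : 1 ≤ M) (hK : 1 ≤ K)
    {c : Fin 10 → ℤ} (hc : Cl M c) :
    |((XI A r M c).card : ℝ) - ((IM A r M c 0).card * (IM A r M c 2).card * (IM A r M c 4).card *
      (IM A r M c 5).card * (IM A r M c 8).card * (IM A r M c 9).card) * Hs A r M c| ≤
      r ^ 4 * (r ^ 3 * (4 * r / K + 3) + 12 * (|A 6| + |A 7| + 2 : ℤ) * K ^ 3 * r ^ 2 * (4 * r + 3)) := by
  classical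
  have hrZ : (0 : ℤ) < r := by exact_mod_cast hr
  set L := ((IM A r M c 0).card * (IM A r M c 2).card * (IM A r M c 4).card * (IM A r M c 5).card : ℝ) with hL
  set l8 := ((IM A r M c 8).card : ℝ) with hl8
  set l9 := ((IM A r M c 9).card : ℝ) with hl9
  have e1 : L * l8 * l9 * Hs A r M c = ∑ b ∈ Ucm_P A r M c, (l8 * l9 / (b.2.2.2.2.1 : ℝ)) := by
    rw [Ucm_sumP (fun t => l8 * l9 / (t.1 : ℝ))]
    unfold Hs
    rw [← hL, Finset.mul_sum, Finset.mul_sum]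
    refine Finset.sum_congr rfl ?_
    intro t _
    ring
  rw [e1, Ucm_card hA hr, Nat.cast_sum, ← Finset.sum_sub_distrib]
  refine (Finset.abs_sum_le_sum_abs _ _).trans ?_
  have hb : ∀ b ∈ Ucm_P A r M c, |((Ucm_F A r M c b).card : ℝ) - l8 * l9 / (b.2.2.2.2.1 : ℝ)| ≤
      Ucm_err r K b.2.2.2.2 := by
    rintro ⟨x0, x2, x4, x5, x1, x6, x7⟩ hb
    simp only [Ucm_P, Finset.mem_product, IM, TrC, Tr, Finset.mem_filter, Finset.mem_Ico] at hb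
    obtain ⟨⟨b0, d0⟩, ⟨b2, d2⟩, ⟨b4, d4⟩, ⟨b5, d5⟩, ⟨⟨b1, b6, b7⟩, ⟨d1, d6, d7⟩, hu⟩⟩ := hb
    have hx1 : 0 < x1 := by nlinarith [b1.1]
    have hm8 : l8 ≤ r := by rw [hl8]; exact_mod_cast Ucm_IMr 8
    have hm9 : l9 ≤ r := by rw [hl9]; exact_mod_cast Ucm_IMr 9
    have hm : max l8 l9 ≤ r := max_le hm8 hm9
    by_cases hs : Ucm_sh K (x1, x6, x7)
    · have := Ucm_fib (A := A) (r := r) hM hc.1 d0 d2 d4 d5 d1 d6 d7 hx1 hu (K := 1) le_rfl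
        (by
          intro u v h1 h2 _
          simp only [Nat.cast_one, Int.abs_lt_one_iff] at h1 h2
          exact ⟨h1, h2⟩)
      refine this.trans ?_
      simp only [Ucm_err]
      rw [if_pos hs]
      push_cast
      linarith
    · have := Ucm_fib (A := A) (r := r) hM hc.1 d0 d2 d4 d5 d1 d6 d7 hx1 hu (K := K) hK
        (by
          intro u v h1 h2 h3
          by_contra hcon
          exact hs ⟨u, v, by tauto, h1, h2, h3⟩)
      refine this.trans ?_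
      simp only [Ucm_err]
      rw [if_neg hs]
      have : 4 * max l8 l9 / K ≤ 4 * r / K := by gcongr
      linarith
  refine (Finset.sum_le_sum hb).trans ?_
  rw [Ucm_sumP (fun t => Ucm_err r K t), ← hL]
  have h1 := Ucm_errsum (M := M) hA hr hK (c := c)
  have h0 : 0 ≤ ∑ t ∈ TrC A r M c, Ucm_err r K t := Finset.sum_nonneg (fun t _ => Ucm_err_nonneg r K t)
  have hL4 : L ≤ r ^ 4 := by
    rw [hL]
    have a0 : ((IM A r M c 0).card : ℝ) ≤ r := by exact_mod_cast Ucm_IMr 0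
    have a2 : ((IM A r M c 2).card : ℝ) ≤ r := by exact_mod_cast Ucm_IMr 2
    have a4 : ((IM A r M c 4).card : ℝ) ≤ r := by exact_mod_cast Ucm_IMr 4
    have a5 : ((IM A r M c 5).card : ℝ) ≤ r := by exact_mod_cast Ucm_IMr 5
    calc ((IM A r M c 0).card * (IM A r M c 2).card * (IM A r M c 4).card * (IM A r M c 5).card : ℝ)
        ≤ r * r * r * r := by gcongr
      _ = (r : ℝ) ^ 4 := by ring
  exact mul_le_mul hL4 h1 h0 (by positivity)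

/-- the number of points of a class, asymptotically -/
theorem UcA {A : Fin 10 → ℤ} (hA : 1 ≤ A 1) : ∃ C : ℝ, 0 < C ∧ ∀ r M : ℕ, 1 ≤ r → 1 ≤ M →
    ∀ c : Fin 10 → ℤ, Cl M c →
      |((XI A r M c).card : ℝ) - ((IM A r M c 0).card * (IM A r M c 2).card * (IM A r M c 4).card *
      (IM A r M c 5).card * (IM A r M c 8).card * (IM A r M c 9).card) * Hs A r M c| ≤ C * (r : ℝ) ^ (31 / 4 : ℝ) := by
  set B : ℝ := ((|A 6| + |A 7| + 2 : ℤ) : ℝ) with hB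
  have hB0 : 0 ≤ B := by rw [hB]; exact_mod_cast (by positivity : (0 : ℤ) ≤ |A 6| + |A 7| + 2)
  refine ⟨7 + 672 * B, by positivity, ?_⟩
  intro r M hr hM c hc
  have hr1 : (1 : ℝ) ≤ r := by exact_mod_cast hr
  have hr0 : (0 : ℝ) ≤ r := by linarith
  set s : ℝ := (r : ℝ) ^ (1 / 4 : ℝ) with hs
  have hs1 : 1 ≤ s := Real.one_le_rpow hr1 (by norm_num)
  have hs4 : s ^ 4 = r := by
    rw [hs, ← Real.rpow_natCast, ← Real.rpow_mul hr0]; norm_num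
  have hs31 : (r : ℝ) ^ (31 / 4 : ℝ) = s ^ 31 := by
    rw [hs, ← Real.rpow_natCast, ← Real.rpow_mul hr0]; norm_num
  set K := ⌈s⌉₊ with hK
  have hKs : s ≤ K := Nat.le_ceil s
  have hK2 : (K : ℝ) ≤ 2 * s := by
    have := Nat.ceil_lt_add_one (by linarith : 0 ≤ s)
    rw [← hK] at this
    linarith
  have hK1 : 1 ≤ K := by
    have : (0 : ℝ) < K := by linarith
    exact_mod_cast this
  have hK0 : (0 : ℝ) < K := by linarith
  refine (Ucm_asym hA hr hM hK1 hc).trans ?_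
  rw [hs31, ← hs4]
  have h1 : 4 * s ^ 4 / K + 3 ≤ 7 * s ^ 3 := by
    have : 4 * s ^ 4 / K ≤ 4 * s ^ 3 := by
      rw [div_le_iff₀ hK0]
      calc 4 * s ^ 4 = 4 * s ^ 3 * s := by ring
        _ ≤ 4 * s ^ 3 * K := by gcongr
    have h3 : 1 ≤ s ^ 3 := one_le_pow₀ hs1
    linarith
  have h2 : (K : ℝ) ^ 3 ≤ 8 * s ^ 3 := by
    calc (K : ℝ) ^ 3 ≤ (2 * s) ^ 3 := by gcongr
      _ = 8 * s ^ 3 := by ring
  have h3 : 4 * s ^ 4 + 3 ≤ 7 * s ^ 4 := by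
    have : 1 ≤ s ^ 4 := one_le_pow₀ hs1
    linarith
  calc (s ^ 4) ^ 4 * ((s ^ 4) ^ 3 * (4 * s ^ 4 / K + 3) + 12 * B * K ^ 3 * (s ^ 4) ^ 2 * (4 * s ^ 4 + 3))
      ≤ (s ^ 4) ^ 4 * ((s ^ 4) ^ 3 * (7 * s ^ 3) + 12 * B * (8 * s ^ 3) * (s ^ 4) ^ 2 * (7 * s ^ 4)) := by gcongr
    _ = (7 + 672 * B) * s ^ 31 := by ring

private theorem Ucm_IMcmp {A : Fin 10 → ℤ} {r M : ℕ} (hM : 1 ≤ M) (c c' : Fin 10 → ℤ) (j : Fin 10) :
    ((IM A r M c j).card : ℝ) ≤ (IM A r M c' j).card + 1 := by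
  have hMZ : (0 : ℤ) < M := by exact_mod_cast hM
  have h := Int.Ico_filter_modEq_card (A j * r) ((A j + 1) * r) hMZ (c j)
  have h' := Int.Ico_filter_modEq_card (A j * r) ((A j + 1) * r) hMZ (c' j)
  have e : ∀ c : Fin 10 → ℤ, IM A r M c j = (Finset.Ico (A j * r) ((A j + 1) * (r : ℤ))).filter (fun n => n ≡ c j [ZMOD (M : ℤ)]) := by
    intro c
    apply Finset.filter_congr
    intro t _
    rw [Int.modEq_iff_dvd, ← dvd_neg, neg_sub]
  rw [← e c] at h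
  rw [← e c'] at h'
  have hMQ : (0 : ℚ) < ((M : ℤ) : ℚ) := by exact_mod_cast hMZ
  have hr0 : (0 : ℚ) ≤ r := Nat.cast_nonneg _
  have e1 : (((A j + 1) * r : ℤ) : ℚ) - (((A j) * r : ℤ) : ℚ) = r := by push_cast; ring
  have bd : ∀ c : ℤ, (r : ℚ) / (M : ℤ) - 1 < ((⌈((((A j + 1) * r : ℤ) : ℚ) - c) / (M : ℤ)⌉ : ℤ) : ℚ) - ((⌈((((A j) * r : ℤ) : ℚ) - c) / (M : ℤ)⌉ : ℤ) : ℚ) ∧
    ((⌈((((A j + 1) * r : ℤ) : ℚ) - c) / (M : ℤ)⌉ : ℤ) : ℚ) - ((⌈((((A j) * r : ℤ) : ℚ) - c) / (M : ℤ)⌉ : ℤ) : ℚ) < (r : ℚ) / (M : ℤ) + 1 := by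
    intro c
    have c1 := Int.le_ceil (((((A j + 1) * r : ℤ) : ℚ) - c) / (M : ℤ))
    have c2 := Int.ceil_lt_add_one (((((A j + 1) * r : ℤ) : ℚ) - c) / (M : ℤ))
    have c3 := Int.le_ceil (((((A j) * r : ℤ) : ℚ) - c) / (M : ℤ))
    have c4 := Int.ceil_lt_add_one (((((A j) * r : ℤ) : ℚ) - c) / (M : ℤ))
    have e2 : ((((A j + 1) * r : ℤ) : ℚ) - c) / (M : ℤ) - ((((A j) * r : ℤ) : ℚ) - c) / (M : ℤ) = (r : ℚ) / (M : ℤ) := by
      rw [← sub_div]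
      congr 1
      rw [← e1]; ring
    constructor <;> linarith
  have b1 := bd (c j)
  have b2 := bd (c' j)
  have b3 : ((⌈((((A j + 1) * r : ℤ) : ℚ) - (c j : ℤ)) / (M : ℤ)⌉ - ⌈((((A j) * r : ℤ) : ℚ) - (c j : ℤ)) / (M : ℤ)⌉ : ℤ) : ℚ) <
    ((⌈((((A j + 1) * r : ℤ) : ℚ) - (c' j : ℤ)) / (M : ℤ)⌉ - ⌈((((A j) * r : ℤ) : ℚ) - (c' j : ℤ)) / (M : ℤ)⌉ : ℤ) : ℚ) + 2 := by
    push_cast at b1 b2 ⊢
    linarith [b1.2, b2.1]
  have b4 : ⌈((((A j + 1) * r : ℤ) : ℚ) - (c j : ℤ)) / (M : ℤ)⌉ - ⌈((((A j) * r : ℤ) : ℚ) - (c j : ℤ)) / (M : ℤ)⌉ <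
    ⌈((((A j + 1) * r : ℤ) : ℚ) - (c' j : ℤ)) / (M : ℤ)⌉ - ⌈((((A j) * r : ℤ) : ℚ) - (c' j : ℤ)) / (M : ℤ)⌉ + 2 := by
    exact_mod_cast b3
  have b5 : ((IM A r M c j).card : ℤ) ≤ (IM A r M c' j).card + 1 := by
    rw [h, h']
    omega
  exact_mod_cast b5

private theorem Ucm_prodcmp {r a0 a1 a2 a3 a4 a5 b0 b1 b2 b3 b4 b5 : ℝ} (hr : 1 ≤ r)
    (p0 : 0 ≤ a0) (p1 : 0 ≤ a1) (p2 : 0 ≤ a2) (p3 : 0 ≤ a3) (p4 : 0 ≤ a4) (p5 : 0 ≤ a5)
    (q0 : 0 ≤ b0) (q1 : 0 ≤ b1) (q2 : 0 ≤ b2) (q3 : 0 ≤ b3) (q4 : 0 ≤ b4) (q5 : 0 ≤ b5)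
    (s0 : a0 ≤ r) (s1 : a1 ≤ r) (s2 : a2 ≤ r) (s3 : a3 ≤ r) (s4 : a4 ≤ r) (s5 : a5 ≤ r)
    (t0 : b0 ≤ r) (t1 : b1 ≤ r) (t2 : b2 ≤ r) (t3 : b3 ≤ r) (t4 : b4 ≤ r) (t5 : b5 ≤ r)
    (u0 : a0 ≤ b0 + 1) (u1 : a1 ≤ b1 + 1) (u2 : a2 ≤ b2 + 1) (u3 : a3 ≤ b3 + 1) (u4 : a4 ≤ b4 + 1)
    (u5 : a5 ≤ b5 + 1) :
    a0 * a1 * a2 * a3 * a4 * a5 - b0 * b1 * b2 * b3 * b4 * b5 ≤ 6 * r ^ 5 := by
  have hr0 : 0 ≤ r := by linarith
  have key : ∀ (k : ℕ) (n a b X Y : ℝ), 0 ≤ a → 0 ≤ b → a ≤ r → b ≤ r → a ≤ b + 1 → 0 ≤ X → 0 ≤ Y →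
      X ≤ r ^ (k + 1) → X - Y ≤ n * r ^ k → 0 ≤ n → X * a - Y * b ≤ (n + 1) * r ^ (k + 1) := by
    intro k n a b X Y ha hb har hbr hab hX hY hXr hXY hn
    have e : X * a - Y * b = X * (a - b) + (X - Y) * b := by ring
    rw [e]
    have h1 : X * (a - b) ≤ r ^ (k + 1) * 1 := by
      calc X * (a - b) ≤ X * 1 := mul_le_mul_of_nonneg_left (by linarith) hX
        _ ≤ r ^ (k + 1) * 1 := by linarith
    have h2 : (X - Y) * b ≤ n * r ^ (k + 1) := by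
      calc (X - Y) * b ≤ (n * r ^ k) * b := mul_le_mul_of_nonneg_right hXY hb
        _ ≤ (n * r ^ k) * r := mul_le_mul_of_nonneg_left hbr (by positivity)
        _ = n * r ^ (k + 1) := by ring
    linarith
  have z1 : a0 * a1 ≤ r ^ 2 := by
    calc a0 * a1 ≤ r * r := by gcongr
      _ = r ^ 2 := by ring
  have z2 : a0 * a1 * a2 ≤ r ^ 3 := by
    calc a0 * a1 * a2 ≤ r ^ 2 * r := by gcongr
      _ = r ^ 3 := by ring
  have z3 : a0 * a1 * a2 * a3 ≤ r ^ 4 := by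
    calc a0 * a1 * a2 * a3 ≤ r ^ 3 * r := by gcongr
      _ = r ^ 4 := by ring
  have z4 : a0 * a1 * a2 * a3 * a4 ≤ r ^ 5 := by
    calc a0 * a1 * a2 * a3 * a4 ≤ r ^ 4 * r := by gcongr
      _ = r ^ 5 := by ring
  have k1 := key 0 1 a1 b1 a0 b0 p1 q1 s1 t1 u1 p0 q0 (by rw [zero_add, pow_one]; exact s0)
    (by rw [pow_zero]; linarith) (by norm_num)
  have k2 := key 1 2 a2 b2 (a0 * a1) (b0 * b1) p2 q2 s2 t2 u2 (by positivity) (by positivity) z1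
    (by rw [zero_add] at k1; linarith) (by norm_num)
  have k3 := key 2 3 a3 b3 (a0 * a1 * a2) (b0 * b1 * b2) p3 q3 s3 t3 u3 (by positivity) (by positivity) z2
    (by norm_num at k2 ⊢; linarith) (by norm_num)
  have k4 := key 3 4 a4 b4 (a0 * a1 * a2 * a3) (b0 * b1 * b2 * b3) p4 q4 s4 t4 u4 (by positivity) (by positivity) z3
    (by norm_num at k3 ⊢; linarith) (by norm_num)
  have k5 := key 4 5 a5 b5 (a0 * a1 * a2 * a3 * a4) (b0 * b1 * b2 * b3 * b4) p5 q5 s5 t5 u5 (by positivity)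
    (by positivity) z4 (by norm_num at k4 ⊢; linarith) (by norm_num)
  norm_num at k5
  linarith

/-- the number of points hardly depends on the class -/
theorem Ucm {A : Fin 10 → ℤ} (hA : 1 ≤ A 1) : ∃ C : ℝ, 0 < C ∧ ∀ r M : ℕ, 1 ≤ r → 1 ≤ M →
    ∀ c c' : Fin 10 → ℤ, Cl M c → Cl M c' →
      |((XI A r M c).card : ℝ) - (XI A r M c').card| ≤ C * (r : ℝ) ^ (31 / 4 : ℝ) := by
  classical
  obtain ⟨C, hC, h⟩ := UcA hA
  have hA2 : (0 : ℝ) ≤ ((A 1 + 2 : ℤ) : ℝ) ^ 2 := by positivity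
  refine ⟨2 * C + 6 + 6 * ((A 1 + 2 : ℤ) : ℝ) ^ 2, by positivity, ?_⟩
  intro r M hr hM
  have hr1 : (1 : ℝ) ≤ r := by exact_mod_cast hr
  have hr0 : (0 : ℝ) < r := by linarith
  have hrZ : (0 : ℤ) < r := by exact_mod_cast hr
  have hHs : ∀ c : Fin 10 → ℤ, 0 ≤ Hs A r M c ∧ Hs A r M c ≤ (r : ℝ) ^ 2 := by
    intro c
    have hpos : ∀ t ∈ TrC A r M c, (r : ℝ) ≤ t.1 := by
      intro t ht
      have h1 := (Finset.mem_filter.mp ht).1
      unfold Tr at h1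
      simp only [Finset.mem_product, Finset.mem_Ico] at h1
      have : (r : ℤ) ≤ t.1 := by nlinarith [h1.1.1]
      exact_mod_cast this
    constructor
    · refine Finset.sum_nonneg ?_
      intro t ht
      have := hpos t ht
      have : (0 : ℝ) < t.1 := by linarith
      positivity
    · refine (Finset.sum_le_card_nsmul _ _ (1 / (r : ℝ)) ?_).trans ?_
      · intro t ht
        exact one_div_le_one_div_of_le hr0 (hpos t ht)
      · rw [nsmul_eq_mul]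
        have hc : ∀ B : ℤ, (Finset.Ico (B * r) ((B + 1) * (r : ℤ))).card = r := by
          intro B
          rw [Int.card_Ico]
          have : (B + 1) * (r : ℤ) - B * r = r := by ring
          rw [this]; simp
        have h3 : (Tr A r).card = r ^ 3 := by
          unfold Tr
          rw [Finset.card_product, Finset.card_product, hc, hc, hc]; ring
        have h4 : ((TrC A r M c).card : ℝ) ≤ (r : ℝ) ^ 3 := by
          have : (TrC A r M c).card ≤ (Tr A r).card := Finset.card_filter_le _ _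
          rw [h3] at this
          exact_mod_cast this
        calc ((TrC A r M c).card : ℝ) * (1 / r) ≤ (r : ℝ) ^ 3 * (1 / r) := by gcongr
          _ = (r : ℝ) ^ 2 := by field_simp
  have hle : ∀ c c' : Fin 10 → ℤ, Cl M c → Cl M c' →
      ((XI A r M c).card : ℝ) - (XI A r M c').card ≤ (2 * C + 6 + 6 * ((A 1 + 2 : ℤ) : ℝ) ^ 2) * (r : ℝ) ^ (31 / 4 : ℝ) := by
    intro c c' hc hc'
    have h1 := abs_le.mp (h r M hr hM c hc)
    have h2 := abs_le.mp (h r M hr hM c' hc')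
    have hL : ∀ (c : Fin 10 → ℤ) (j : Fin 10), ((IM A r M c j).card : ℝ) ≤ r := fun c j => by exact_mod_cast Ucm_IMr j
    have h0 : ∀ (c : Fin 10 → ℤ) (j : Fin 10), (0 : ℝ) ≤ ((IM A r M c j).card : ℝ) := fun c j => Nat.cast_nonneg _
    have h3 := Ucm_prodcmp hr1 (h0 c 0) (h0 c 2) (h0 c 4) (h0 c 5) (h0 c 8) (h0 c 9) (h0 c' 0) (h0 c' 2) (h0 c' 4)
      (h0 c' 5) (h0 c' 8) (h0 c' 9) (hL c 0) (hL c 2) (hL c 4) (hL c 5) (hL c 8) (hL c 9) (hL c' 0) (hL c' 2)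
      (hL c' 4) (hL c' 5) (hL c' 8) (hL c' 9) (Ucm_IMcmp hM c c' 0) (Ucm_IMcmp hM c c' 2) (Ucm_IMcmp hM c c' 4)
      (Ucm_IMcmp hM c c' 5) (Ucm_IMcmp hM c c' 8) (Ucm_IMcmp hM c c' 9)
    set P := ((IM A r M c 0).card * (IM A r M c 2).card * (IM A r M c 4).card *
      (IM A r M c 5).card * (IM A r M c 8).card * (IM A r M c 9).card : ℝ) with hP
    set P' := ((IM A r M c' 0).card * (IM A r M c' 2).card * (IM A r M c' 4).card *
      (IM A r M c' 5).card * (IM A r M c' 8).card * (IM A r M c' 9).card : ℝ) with hP'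
    have hP'0 : 0 ≤ P' := by rw [hP']; positivity
    have hP'r : P' ≤ (r : ℝ) ^ 6 := by
      rw [hP']
      calc ((IM A r M c' 0).card * (IM A r M c' 2).card * (IM A r M c' 4).card *
        (IM A r M c' 5).card * (IM A r M c' 8).card * (IM A r M c' 9).card : ℝ) ≤ r * r * r * r * r * r := by
            gcongr <;> exact Ucm_IMr _
        _ = (r : ℝ) ^ 6 := by ring
    have hH := Hcm (A 6) (A 7) hA hr hM (y := (c 1, c 6, c 7)) (y' := (c' 1, c' 6, c' 7)) hc.2 hc'.2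
    rw [← Ucm_Hs, ← Ucm_Hs] at hH
    have hH1 := (abs_le.mp hH).2
    have hHc := hHs c
    have e : P * Hs A r M c - P' * Hs A r M c' ≤ 6 * (r : ℝ) ^ 7 + 6 * ((A 1 + 2 : ℤ) : ℝ) ^ 2 * (r : ℝ) ^ 7 := by
      have e1 : P * Hs A r M c - P' * Hs A r M c' = (P - P') * Hs A r M c + P' * (Hs A r M c - Hs A r M c') := by ring
      rw [e1]
      have h4 : (P - P') * Hs A r M c ≤ 6 * (r : ℝ) ^ 7 := by
        calc (P - P') * Hs A r M c ≤ (6 * (r : ℝ) ^ 5) * Hs A r M c := mul_le_mul_of_nonneg_right h3 hHc.1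
          _ ≤ (6 * (r : ℝ) ^ 5) * (r : ℝ) ^ 2 := mul_le_mul_of_nonneg_left hHc.2 (by positivity)
          _ = 6 * (r : ℝ) ^ 7 := by ring
      have h5 : P' * (Hs A r M c - Hs A r M c') ≤ 6 * ((A 1 + 2 : ℤ) : ℝ) ^ 2 * (r : ℝ) ^ 7 := by
        calc P' * (Hs A r M c - Hs A r M c') ≤ P' * (6 * ((A 1 + 2 : ℤ) : ℝ) ^ 2 * r) := mul_le_mul_of_nonneg_left hH1 hP'0
          _ ≤ (r : ℝ) ^ 6 * (6 * ((A 1 + 2 : ℤ) : ℝ) ^ 2 * r) := mul_le_mul_of_nonneg_right hP'r (by positivity)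
          _ = 6 * ((A 1 + 2 : ℤ) : ℝ) ^ 2 * (r : ℝ) ^ 7 := by ring
      linarith
    have h7 : (r : ℝ) ^ 7 ≤ (r : ℝ) ^ (31 / 4 : ℝ) := by
      rw [← Real.rpow_natCast]
      exact Real.rpow_le_rpow_of_exponent_le hr1 (by norm_num)
    have h8 : 6 * (r : ℝ) ^ 7 + 6 * ((A 1 + 2 : ℤ) : ℝ) ^ 2 * (r : ℝ) ^ 7 ≤
        (6 + 6 * ((A 1 + 2 : ℤ) : ℝ) ^ 2) * (r : ℝ) ^ (31 / 4 : ℝ) := by
      have : (6 + 6 * ((A 1 + 2 : ℤ) : ℝ) ^ 2) * (r : ℝ) ^ 7 ≤ (6 + 6 * ((A 1 + 2 : ℤ) : ℝ) ^ 2) * (r : ℝ) ^ (31 / 4 : ℝ) :=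
        mul_le_mul_of_nonneg_left h7 (by positivity)
      linarith
    have h9 : (2 * C + 6 + 6 * ((A 1 + 2 : ℤ) : ℝ) ^ 2) * (r : ℝ) ^ (31 / 4 : ℝ) = C * (r : ℝ) ^ (31 / 4 : ℝ) +
      C * (r : ℝ) ^ (31 / 4 : ℝ) + (6 + 6 * ((A 1 + 2 : ℤ) : ℝ) ^ 2) * (r : ℝ) ^ (31 / 4 : ℝ) := by ring
    rw [h9]
    linarith [h1.1, h1.2, h2.1, h2.2]
  intro c c' hc hc'
  rw [abs_le]
  constructor
  · linarith [hle c' c hc' hc]
  · exact hle c c' hc hc'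

end Pool.Agent.PP5LB
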