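import Pool.Agent.PP5LB.Cst
import Pool.Agent.PP5LB.Lam
import Pool.Agent.PP5LB.Ivc
import Pool.Agent.PP5LB.Ucm

set_option autoImplicit false

/-!
# Fbs: bases and fibres (size 3)

PROOF. `bs_mem`: the coordinates `j ≠ 3, 8, 9` of `x ∈ XA A r` are in the box and `Uni (bs x)` is `Uni x`.
`card_le`: `x ↦ (x 8, x 9)` is injective on `{x ∈ XA A r : bs x = b}` with values in `Fb A r b` (`x 3` is determined by
`FF x = 0`, `x 1 = b 1 ≥ r ≥ 1`), and `x = up b (x 8, x 9)`.  So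
`#{x ∈ XA A r : P x} ≤ ∑_{b ∈ Bs A r} #{z ∈ Fb A r b : P (up b z)}`.
`Fb_card`: `Fb A r b` is the set counted by `Cst` (`cnt (-b7) b6 b1 (b0b2 - b4b5) ..`,
`L1 = L2 = r`): `≤ r²/b1 + 4 r/K + 3 ≤ r + 4r + 3r` (`b1 ≥ r`, `K = 1`).
`Bs_card`: seven coordinates with `r` values each.
-/

namespace Pool.Agent.PP5LB

open Finset Pool.Agent.PP5L

theorem mem_Bs {A : Fin 10 → ℤ} {r : ℕ} {b : Fin 10 → ℤ} : b ∈ Bs A r ↔
    (∀ j, j ≠ 3 → j ≠ 8 → j ≠ 9 → A j * r ≤ b j ∧ b j < (A j + 1) * r) ∧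
      b 3 = 0 ∧ b 8 = 0 ∧ b 9 = 0 ∧ Uni b := by
  classical
  unfold Bs
  rw [Finset.mem_filter, Fintype.mem_piFinset]
  constructor
  · rintro ⟨h1, h2⟩
    refine ⟨?_, ?_, ?_, ?_, h2⟩
    · intro j h3 h8 h9
      have := h1 j
      rw [if_neg (by tauto), Finset.mem_Ico] at this
      exact this
    · have := h1 3
      simpa using this
    · have := h1 8
      simpa using this
    · have := h1 9
      simpa using this
  · rintro ⟨h1, h3, h8, h9, h2⟩
    refine ⟨?_, h2⟩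
    intro j
    by_cases hj : j = 3 ∨ j = 8 ∨ j = 9
    · rw [if_pos hj, Finset.mem_singleton]
      rcases hj with rfl | rfl | rfl
      · exact h3
      · exact h8
      · exact h9
    · rw [if_neg hj, Finset.mem_Ico]
      push Not at hj
      exact h1 j hj.1 hj.2.1 hj.2.2

theorem bs_mem {A : Fin 10 → ℤ} {r : ℕ} (hA : 1 ≤ A 1) (hr : 1 ≤ r) {x : Fin 10 → ℤ} (hx : x ∈ XA A r) :
    bs x ∈ Bs A r ∧ (x 8, x 9) ∈ Fb A r (bs x) ∧ up (bs x) (x 8, x 9) = x := by
  classical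
  obtain ⟨hb, hF, hU⟩ := (mem_XA hA hr).mp hx
  have hr0 : (1 : ℤ) ≤ r := by exact_mod_cast hr
  have hx1 : 1 ≤ x 1 := by
    have h1 := (hb 1 (by decide)).1
    have h2 : (1 : ℤ) * 1 ≤ A 1 * r := mul_le_mul hA hr0 (by norm_num) (by linarith)
    linarith
  have hF' : x 0 * x 2 - x 4 * x 5 - x 6 * x 9 + x 7 * x 8 = x 1 * x 3 := by
    unfold FF at hF
    linear_combination hF
  refine ⟨?_, ?_, ?_⟩
  · rw [mem_Bs]
    refine ⟨?_, by simp [bs], by simp [bs], by simp [bs], ?_⟩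
    · intro j h3 h8 h9
      have : bs x j = x j := by simp [bs, h3, h8, h9]
      rw [this]; exact hb j h3
    · obtain ⟨a, b, c, h⟩ := hU
      refine ⟨a, b, c, ?_⟩
      have e1 : bs x 1 = x 1 := by simp [bs]
      have e6 : bs x 6 = x 6 := by simp [bs]
      have e7 : bs x 7 = x 7 := by simp [bs]
      rw [e1, e6, e7]; exact h
  · unfold Fb
    rw [Finset.mem_filter, Finset.mem_product, Finset.mem_Ico, Finset.mem_Ico]
    refine ⟨⟨hb 8 (by decide), hb 9 (by decide)⟩, ?_⟩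
    refine ⟨x 3, ?_⟩
    simp only [bs]
    simp
    exact hF'
  · funext j
    unfold up
    by_cases h3 : j = 3
    · subst h3
      rw [if_pos rfl]
      have e : (bs x 0 * bs x 2 - bs x 4 * bs x 5 - bs x 6 * (x 8, x 9).2 + bs x 7 * (x 8, x 9).1)
          = x 1 * x 3 := by
        simp only [bs]
        simp
        exact hF'
      have e1 : bs x 1 = x 1 := by simp [bs]
      rw [e, e1]
      exact Int.mul_ediv_cancel_left _ (by omega)
    · rw [if_neg h3]
      by_cases h8 : j = 8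
      · subst h8; simp
      · rw [if_neg h8]
        by_cases h9 : j = 9
        · subst h9; simp
        · rw [if_neg h9]
          simp [bs, h3, h8, h9]

open scoped Classical in
theorem card_le_sum {A : Fin 10 → ℤ} {r : ℕ} (hA : 1 ≤ A 1) (hr : 1 ≤ r) (P : (Fin 10 → ℤ) → Prop) :
    ((XA A r).filter P).card ≤ ∑ b ∈ Bs A r, ((Fb A r b).filter (fun z => P (up b z))).card := by
  rw [Finset.card_eq_sum_card_fiberwise (f := bs) (t := Bs A r) (fun x hx => by
    have hx' := (Finset.mem_filter.mp (Finset.mem_coe.mp hx)).1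
    exact Finset.mem_coe.mpr (bs_mem hA hr hx').1)]
  apply Finset.sum_le_sum
  intro b _
  apply Finset.card_le_card_of_injOn (fun x => (x 8, x 9))
  · intro x hx
    obtain ⟨hx1, hx2⟩ := Finset.mem_filter.mp (Finset.mem_coe.mp hx)
    obtain ⟨hx3, hx4⟩ := Finset.mem_filter.mp hx1
    obtain ⟨_, h2, h3⟩ := bs_mem hA hr hx3
    rw [hx2] at h2 h3
    refine Finset.mem_coe.mpr (Finset.mem_filter.mpr ⟨h2, ?_⟩)
    show P (up b (x 8, x 9))
    rw [h3]; exact hx4
  · intro x hx y hy hxy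
    obtain ⟨hx1, hx2⟩ := Finset.mem_filter.mp (Finset.mem_coe.mp hx)
    obtain ⟨hx3, _⟩ := Finset.mem_filter.mp hx1
    obtain ⟨hy1, hy2⟩ := Finset.mem_filter.mp (Finset.mem_coe.mp hy)
    obtain ⟨hy3, _⟩ := Finset.mem_filter.mp hy1
    have ex := (bs_mem hA hr hx3).2.2
    have ey := (bs_mem hA hr hy3).2.2
    rw [hx2] at ex
    rw [hy2] at ey
    have hxy' : (x 8, x 9) = (y 8, y 9) := hxy
    rw [← ex, ← ey, hxy']

theorem Fb_card {A : Fin 10 → ℤ} {r : ℕ} (hA : 1 ≤ A 1) (hr : 1 ≤ r) {b : Fin 10 → ℤ} (hb : b ∈ Bs A r) :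
    (Fb A r b).card ≤ 8 * r := by
  classical
  obtain ⟨h1, h3, h8, h9, hU⟩ := mem_Bs.mp hb
  have hr0 : (1 : ℤ) ≤ r := by exact_mod_cast hr
  have hb1 : (r : ℤ) ≤ b 1 := by
    have h := (h1 1 (by decide) (by decide) (by decide)).1
    have h2 : (1 : ℤ) * r ≤ A 1 * r := mul_le_mul_of_nonneg_right hA (by linarith)
    linarith
  have hn : 0 < b 1 := by linarith
  have hu : ∃ x y z : ℤ, x * b 7 + y * (-b 6) + z * b 1 = 1 := by
    obtain ⟨a, d, c, h⟩ := hU
    exact ⟨c, -d, a, by linear_combination h⟩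
  have hC := Cst (al := b 7) (be := -b 6) (n := b 1) (c := -(b 0 * b 2 - b 4 * b 5)) (a := A 8 * r)
    (b := A 9 * r) (L1 := r) (L2 := r) (K := 1) hn hu le_rfl (by
      intro u v hu hv _
      constructor
      · have : |u| < 1 := by exact_mod_cast hu
        exact Int.abs_lt_one_iff.mp this
      · have : |v| < 1 := by exact_mod_cast hv
        exact Int.abs_lt_one_iff.mp this)
  have hE : cnt (b 7) (-b 6) (b 1) (-(b 0 * b 2 - b 4 * b 5)) (A 8 * r) (A 9 * r) r r
      = (Fb A r b).card := by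
    unfold cnt Fb
    have e8 : (A 8 + 1) * (r : ℤ) = A 8 * r + r := by ring
    have e9 : (A 9 + 1) * (r : ℤ) = A 9 * r + r := by ring
    rw [e8, e9]
    congr 1
    apply Finset.filter_congr
    intro z _
    have : b 7 * z.1 + -b 6 * z.2 - -(b 0 * b 2 - b 4 * b 5)
        = b 0 * b 2 - b 4 * b 5 - b 6 * z.2 + b 7 * z.1 := by ring
    rw [this]
  rw [hE] at hC
  have hrR : (1 : ℝ) ≤ r := by exact_mod_cast hr
  have hbR : (r : ℝ) ≤ b 1 := by exact_mod_cast hb1
  have h4 : (r : ℝ) * r / b 1 ≤ r := by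
    rw [div_le_iff₀ (by linarith)]
    exact mul_le_mul_of_nonneg_left hbR (by linarith)
  have h5 := (abs_le.mp hC).2
  have h6 : ((max r r : ℕ) : ℝ) = r := by simp
  have h7 : ((Fb A r b).card : ℝ) ≤ 8 * r := by
    simp only [max_self, Nat.cast_one, div_one] at h5
    linarith
  exact_mod_cast h7

theorem Bs_card (A : Fin 10 → ℤ) (r : ℕ) : (Bs A r).card ≤ r ^ 7 := by
  classical
  unfold Bs
  refine (Finset.card_filter_le _ _).trans ?_
  rw [Fintype.card_piFinset]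
  have h : ∀ j : Fin 10, (if j = 3 ∨ j = 8 ∨ j = 9 then ({0} : Finset ℤ)
      else Ico (A j * r) ((A j + 1) * r)).card = if j = 3 ∨ j = 8 ∨ j = 9 then 1 else r := by
    intro j
    split_ifs with hj
    · simp
    · rw [Int.card_Ico]
      have : (A j + 1) * (r : ℤ) - A j * r = r := by ring
      rw [this]; simp
  rw [Finset.prod_congr rfl (fun j _ => h j)]
  rw [Fin.prod_univ_succ, Fin.prod_univ_succ, Fin.prod_univ_succ, Fin.prod_univ_succ,
    Fin.prod_univ_succ, Fin.prod_univ_succ, Fin.prod_univ_succ, Fin.prod_univ_succ,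
    Fin.prod_univ_succ, Fin.prod_univ_succ]
  apply le_of_eq
  simp [Fin.ext_iff]
  ring

/-- `EE`, `dV` of a point are those of its base -/
theorem EE_up (b : Fin 10 → ℤ) (z : ℤ × ℤ) : EE (up b z) = EE b := by
  simp [EE, dV, up]

theorem dV_up (b : Fin 10 → ℤ) (z : ℤ × ℤ) : dV (up b z) = dV b := by
  simp [dV, up]

end Pool.Agent.PP5LB
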