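import Pool.Agent.PP5LB.Bsc

set_option autoImplicit false

/-!
# LcA: `FF = EE = MM = 0` modulo an odd prime (size 3)

PROOF (`s = y4 + y5`, `d = y4 - y5`; `(y4,y5) ↔ (s,d)` is a bijection, `2 ≠ 0`).
(a) `dV y ≠ 0`: `EE = 0` determines `y1 = (y0 y7² - s y6 y7 + y2 y6²)/dV`, `MM = 0` determines
`y3 = (y0 y9² - s y8 y9 + y2 y8²)/dV` (both by `y0, y2, s, y6, y7, y8, y9`), and by `FF4`:
`d² = dV + 4 y1 y3 + 4 KK`: at most two `d`.  So `≤ 2 l⁷`.
(b) `dV y = 0`, `y0 ≠ 0`: `y2 = s²/(4 y0)` and `4 y0 EE = -(2 y0 y7 - s y6)²` (using `dV = 0`),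
`4 y0 MM = -(2 y0 y9 - s y8)²`, so `y7, y9` are determined; free: `y0, s, y6, y8, y1, y3, d`: `≤ l⁷`.
(c) `dV y = 0`, `y0 = 0`: `s = 0`, so `y5 = -y4` and `FF = -y1 y3 + y4² - y6 y9 + y7 y8 = 0`: for given
`y1, y2, y3, y6, .., y9` at most two `y4`: `≤ 2 l⁷`.
-/

namespace Pool.Agent.PP5LB

open Finset Pool.Agent.PP5L

private theorem LcA_fib {l k : ℕ} [Fact l.Prime] (S : Finset (Fin 10 → ZMod l))
    (f : (Fin 10 → ZMod l) → (Fin 7 → ZMod l))
    (h : ∀ x ∈ S, (S.filter (fun y => f y = f x)).card ≤ k) : S.card ≤ k * l ^ 7 := by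
  classical
  have h1 := Finset.card_le_mul_card_image (f := f) S k (by
    intro a ha
    obtain ⟨x, hx, rfl⟩ := Finset.mem_image.mp ha
    exact h x hx)
  have h2 : (S.image f).card ≤ l ^ 7 := by
    calc (S.image f).card ≤ Fintype.card (Fin 7 → ZMod l) := Finset.card_le_univ _
      _ = l ^ 7 := by simp [ZMod.card]
  exact h1.trans (Nat.mul_le_mul_left k h2)

private theorem LcA_two {l : ℕ} [Fact l.Prime] (S : Finset (Fin 10 → ZMod l))
    (f : (Fin 10 → ZMod l) → (Fin 7 → ZMod l))
    (h : ∀ x ∈ S, ∀ y ∈ S, f y = f x →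
      (y 4 = x 4 ∧ y 5 = x 5 ∨ y 4 = x 5 ∧ y 5 = x 4) ∧
        ∀ j, j ≠ 4 → j ≠ 5 → y j = x j) : S.card ≤ 2 * l ^ 7 := by
  classical
  refine LcA_fib S f fun x hx => ?_
  have hsub : S.filter (fun y => f y = f x) ⊆ {x, fun j => x (Equiv.swap 4 5 j)} := by
    intro y hy
    rw [Finset.mem_filter] at hy
    obtain ⟨h1, h2⟩ := h x hx y hy.1 hy.2
    rw [Finset.mem_insert, Finset.mem_singleton]
    rcases h1 with h1 | h1
    · left
      funext j
      by_cases hj : j = 4
      · rw [hj]; exact h1.1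
      · by_cases hj' : j = 5
        · rw [hj']; exact h1.2
        · exact h2 j hj hj'
    · right
      funext j
      by_cases hj : j = 4
      · rw [hj, Equiv.swap_apply_left]; exact h1.1
      · by_cases hj' : j = 5
        · rw [hj', Equiv.swap_apply_right]; exact h1.2
        · rw [Equiv.swap_apply_of_ne_of_ne hj hj']; exact h2 j hj hj'
  exact (Finset.card_le_card hsub).trans Finset.card_le_two

private theorem LcA_quad {F : Type*} [Field F] {a b c d : F} (h1 : a + b = c + d)
    (h2 : a * b = c * d) : a = c ∧ b = d ∨ a = d ∧ b = c := by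
  have h3 : (a - c) * (a - d) = 0 := by
    linear_combination a * h1 - h2
  rcases mul_eq_zero.mp h3 with h | h
  · left
    have h4 : a = c := sub_eq_zero.mp h
    exact ⟨h4, by linear_combination h1 - h4⟩
  · right
    have h4 : a = d := sub_eq_zero.mp h
    exact ⟨h4, by linear_combination h1 - h4⟩

open scoped Classical in
theorem lcA {l : ℕ} [Fact l.Prime] (hl : l ≠ 2) :
    ((univ : Finset (Fin 10 → ZMod l)).filter (fun y => FF y = 0 ∧ EE y = 0 ∧ MM y = 0)).card ≤
      5 * l ^ 7 := by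
  have h2 : (2 : ZMod l) ≠ 0 := by
    intro h
    have h3 : ((2 : ℕ) : ZMod l) = 0 := by exact_mod_cast h
    rw [ZMod.natCast_eq_zero_iff] at h3
    exact hl ((Nat.prime_dvd_prime_iff_eq (Fact.out) Nat.prime_two).mp h3)
  have h4 : (4 : ZMod l) ≠ 0 := by
    have h5 : (4 : ZMod l) = 2 * 2 := by norm_num
    rw [h5]
    exact mul_ne_zero h2 h2
  set P : Finset (Fin 10 → ZMod l) :=
    univ.filter (fun y => FF y = 0 ∧ EE y = 0 ∧ MM y = 0) with hP
  have hmem : ∀ y, y ∈ P ↔ FF y = 0 ∧ EE y = 0 ∧ MM y = 0 := by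
    intro y
    rw [hP]
    simp
  set SA := P.filter (fun y => dV y ≠ 0) with hSA
  set SB := P.filter (fun y => dV y = 0 ∧ y 0 ≠ 0) with hSB
  set SC := P.filter (fun y => dV y = 0 ∧ y 0 = 0) with hSC
  have hA : SA.card ≤ 2 * l ^ 7 := by
    refine LcA_two SA (fun y => ![y 0, y 2, y 4 + y 5, y 6, y 7, y 8, y 9]) ?_
    intro x hx y hy hxy
    rw [hSA, Finset.mem_filter, hmem] at hx hy
    obtain ⟨⟨fx, ex, mx⟩, dx⟩ := hx
    obtain ⟨⟨fy, ey, my⟩, _⟩ := hy
    have e0 : y 0 = x 0 := congrFun hxy 0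
    have e2 : y 2 = x 2 := congrFun hxy 1
    have es : y 4 + y 5 = x 4 + x 5 := congrFun hxy 2
    have e6 : y 6 = x 6 := congrFun hxy 3
    have e7 : y 7 = x 7 := congrFun hxy 4
    have e8 : y 8 = x 8 := congrFun hxy 5
    have e9 : y 9 = x 9 := congrFun hxy 6
    have ed : dV y = dV x := by
      unfold dV
      rw [es, e0, e2]
    have e1 : y 1 = x 1 := by
      unfold EE at ex ey
      rw [ed, es, e0, e2, e6, e7] at ey
      exact mul_right_cancel₀ dx (by linear_combination ey - ex)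
    have e3 : y 3 = x 3 := by
      unfold MM at mx my
      rw [ed, es, e0, e2, e8, e9] at my
      exact mul_right_cancel₀ dx (by linear_combination my - mx)
    have ep : y 4 * y 5 = x 4 * x 5 := by
      unfold FF at fx fy
      rw [e0, e1, e2, e3, e6, e7, e8, e9] at fy
      linear_combination fx - fy
    refine ⟨LcA_quad es ep, fun j h1 h2 => ?_⟩
    fin_cases j
    · exact e0
    · exact e1
    · exact e2
    · exact e3
    · exact absurd rfl h1
    · exact absurd rfl h2
    · exact e6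
    · exact e7
    · exact e8
    · exact e9
  have hB : SB.card ≤ 1 * l ^ 7 := by
    refine LcA_fib SB (fun y => ![y 0, y 4, y 5, y 6, y 8, y 1, y 3]) ?_
    intro x hx
    have hsub : SB.filter (fun y => ![y 0, y 4, y 5, y 6, y 8, y 1, y 3]
        = ![x 0, x 4, x 5, x 6, x 8, x 1, x 3]) ⊆ {x} := by
      intro y hy
      rw [Finset.mem_filter] at hy
      obtain ⟨hy, hxy⟩ := hy
      rw [hSB, Finset.mem_filter, hmem] at hx hy
      obtain ⟨⟨fx, ex, mx⟩, dx, zx⟩ := hx
      obtain ⟨⟨fy, ey, my⟩, dy, _⟩ := hy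
      have e0 : y 0 = x 0 := congrFun hxy 0
      have e4 : y 4 = x 4 := congrFun hxy 1
      have e5 : y 5 = x 5 := congrFun hxy 2
      have e6 : y 6 = x 6 := congrFun hxy 3
      have e8 : y 8 = x 8 := congrFun hxy 4
      have e1 : y 1 = x 1 := congrFun hxy 5
      have e3 : y 3 = x 3 := congrFun hxy 6
      have h40 : (4 : ZMod l) * x 0 ≠ 0 := mul_ne_zero h4 zx
      have h20 : (2 : ZMod l) * x 0 ≠ 0 := mul_ne_zero h2 zx
      have e2 : y 2 = x 2 := by
        have dx' := dx
        have dy' := dy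
        unfold dV at dx' dy'
        rw [e4, e5, e0] at dy'
        exact mul_left_cancel₀ h40 (by linear_combination dx' - dy')
      have key : ∀ z : Fin 10 → ZMod l, dV z = 0 → EE z = 0 → MM z = 0 →
          2 * z 0 * z 7 = (z 4 + z 5) * z 6 ∧ 2 * z 0 * z 9 = (z 4 + z 5) * z 8 := by
        intro z dz ez mz
        have dz' := dz
        unfold dV at dz'
        unfold EE at ez
        unfold MM at mz
        rw [dz] at ez mz
        constructor
        · have h5 : (2 * z 0 * z 7 - (z 4 + z 5) * z 6) ^ 2 = 0 := by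
            linear_combination (-4 * z 0) * ez + z 6 ^ 2 * dz'
          exact sub_eq_zero.mp (pow_eq_zero_iff (two_ne_zero) |>.mp h5)
        · have h5 : (2 * z 0 * z 9 - (z 4 + z 5) * z 8) ^ 2 = 0 := by
            linear_combination (-4 * z 0) * mz + z 8 ^ 2 * dz'
          exact sub_eq_zero.mp (pow_eq_zero_iff (two_ne_zero) |>.mp h5)
      obtain ⟨kx7, kx9⟩ := key x dx ex mx
      obtain ⟨ky7, ky9⟩ := key y dy ey my
      have e7 : y 7 = x 7 := by
        rw [e0, e4, e5, e6] at ky7
        exact mul_left_cancel₀ h20 (by rw [ky7, kx7])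
      have e9 : y 9 = x 9 := by
        rw [e0, e4, e5, e8] at ky9
        exact mul_left_cancel₀ h20 (by rw [ky9, kx9])
      rw [Finset.mem_singleton]
      funext j
      fin_cases j
      · exact e0
      · exact e1
      · exact e2
      · exact e3
      · exact e4
      · exact e5
      · exact e6
      · exact e7
      · exact e8
      · exact e9
    exact (Finset.card_le_card hsub).trans (Finset.card_singleton x).le
  have hC : SC.card ≤ 2 * l ^ 7 := by
    refine LcA_two SC (fun y => ![y 1, y 2, y 3, y 6, y 7, y 8, y 9]) ?_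
    intro x hx y hy hxy
    rw [hSC, Finset.mem_filter, hmem] at hx hy
    obtain ⟨⟨fx, _, _⟩, dx, zx⟩ := hx
    obtain ⟨⟨fy, _, _⟩, dy, zy⟩ := hy
    have e1 : y 1 = x 1 := congrFun hxy 0
    have e2 : y 2 = x 2 := congrFun hxy 1
    have e3 : y 3 = x 3 := congrFun hxy 2
    have e6 : y 6 = x 6 := congrFun hxy 3
    have e7 : y 7 = x 7 := congrFun hxy 4
    have e8 : y 8 = x 8 := congrFun hxy 5
    have e9 : y 9 = x 9 := congrFun hxy 6
    have key : ∀ z : Fin 10 → ZMod l, dV z = 0 → z 0 = 0 → z 4 + z 5 = 0 := by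
      intro z dz z0
      unfold dV at dz
      rw [z0] at dz
      have h5 : (z 4 + z 5) ^ 2 = 0 := by linear_combination dz
      exact pow_eq_zero_iff (two_ne_zero) |>.mp h5
    have e0 : y 0 = x 0 := by rw [zx, zy]
    have es : y 4 + y 5 = x 4 + x 5 := by rw [key y dy zy, key x dx zx]
    have ep : y 4 * y 5 = x 4 * x 5 := by
      unfold FF at fx fy
      rw [e0, e1, e2, e3, e6, e7, e8, e9] at fy
      linear_combination fx - fy
    refine ⟨LcA_quad es ep, fun j h1 h2 => ?_⟩
    fin_cases j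
    · exact e0
    · exact e1
    · exact e2
    · exact e3
    · exact absurd rfl h1
    · exact absurd rfl h2
    · exact e6
    · exact e7
    · exact e8
    · exact e9
  have hcov : P ⊆ SA ∪ (SB ∪ SC) := by
    intro y hy
    by_cases h : dV y = 0
    · by_cases h' : y 0 = 0
      · exact Finset.mem_union_right _ (Finset.mem_union_right _
          (Finset.mem_filter.mpr ⟨hy, h, h'⟩))
      · exact Finset.mem_union_right _ (Finset.mem_union_left _
          (Finset.mem_filter.mpr ⟨hy, h, h'⟩))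
    · exact Finset.mem_union_left _ (Finset.mem_filter.mpr ⟨hy, h⟩)
  have h5 := Finset.card_le_card hcov
  have h6 := Finset.card_union_le SA (SB ∪ SC)
  have h7 := Finset.card_union_le SB SC
  omega

end Pool.Agent.PP5LB
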