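import Pool.Agent.PP5LB.LcQ
import Pool.Agent.PP5LB.Bsc

set_option autoImplicit false

/-!
# LcDa: `l² ∣ D`, `y 1` a unit (size 5)

PROOF. `R = ZMod (l²)`, `π : R → ZMod l`.  Base = the seven coordinates `y0,y1,y2,y4,y5,y6,y7`, `N = y0y2 - y4y5`,
`FF = 0` reads `y1 y3 + y6 y9 - y7 y8 = N`.  `s = y4 + y5`, `a = 4y1y2 + y7²`, `b = -(4 y1 s + 2 y6 y7)`,
`c = 4 y0 y1 + y6²`; identity `4 a c - b² = -16 y1 EE`.
`y1` unit: `y3 = (N - y6y9 + y7y8)/y1` and `y1 DD` is a quadratic polynomial `G(y8,y9)` with leading form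
`y1 (a y8² + b y8 y9 + c y9²)` (substitute `y3` in `DD_expl` multiplied by `y1`; the coefficients of `G` are polynomials in
the base and `y1⁻¹`; take integral representatives of them to apply `lcQ2`, `lcQ3`).  Number of bases: `≤ l^14`.
 (1a) `π EE ≠ 0`: `lcQ2` (discriminant `y1² (b² - 4ac) = 16 y1³ EE`): `≤ 3 l²` pairs `(y8,y9)`: total `3 l^16`.
 (1b) `π EE = 0`, `π(a,b,c) ≠ 0`: bases: for `π` of the other coordinates given,
   `EE = y1 (s² - 4y0y2) - (y0y7² - s y6y7 + y2y6²)` is a quadratic polynomial in `s` with leading coefficient `y1 ≠ 0`: at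
   most 2 values of `π s`, i.e. of `π y5` : bases `≤ 2 l^13`; fibre `≤ 2 l³` (`lcQ3`): total `4 l^16`.
 (1c) `π(a,b,c) = 0`: `π y2, π y0, π s` are determined by `π y1, π y6, π y7`: bases `≤ l^11`, fibre `≤ l⁴`: `l^15`.
(A class modulo `l` has `l` lifts to `R`.)
-/

namespace Pool.Agent.PP5LB

open Finset Pool.Agent.PP5L

section LcDaAux

variable {l : ℕ}

private def LcDa_pi (l : ℕ) : ZMod (l ^ 2) →+* ZMod l :=
  ZMod.castHom (dvd_pow_self l two_ne_zero) (ZMod l)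

private theorem LcDa_rep [NeZero (l ^ 2)] (x : ZMod (l ^ 2)) :
    (((x.val : ℕ) : ℤ) : ZMod (l ^ 2)) = x := by
  rw [Int.cast_natCast, ZMod.natCast_zmod_val]

private theorem LcDa_pi_val [NeZero (l ^ 2)] (x : ZMod (l ^ 2)) :
    LcDa_pi l x = ((x.val : ℕ) : ZMod l) := by
  conv_lhs => rw [← ZMod.natCast_zmod_val x]
  rw [map_natCast]

private theorem LcDa_Q2 [NeZero (l ^ 2)] (hl : l.Prime) (h2 : l ≠ 2) (A B C D E F : ZMod (l ^ 2))
    (h : LcDa_pi l (B ^ 2 - 4 * A * C) ≠ 0) :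
    ((univ : Finset (ZMod (l ^ 2) × ZMod (l ^ 2))).filter (fun z => A * z.1 ^ 2 +
      B * z.1 * z.2 + C * z.2 ^ 2 + D * z.1 + E * z.2 + F = 0)).card ≤ 3 * l ^ 2 := by
  haveI := Fact.mk hl
  have h' : ¬ (l : ℤ) ∣ ((B.val : ℕ) : ℤ) ^ 2 - 4 * ((A.val : ℕ) : ℤ) * ((C.val : ℕ) : ℤ) := by
    intro hd
    apply h
    rw [← ZMod.intCast_zmod_eq_zero_iff_dvd] at hd
    rw [map_sub, map_pow, map_mul, map_mul, map_ofNat, LcDa_pi_val, LcDa_pi_val, LcDa_pi_val]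
    push_cast at hd
    exact hd
  have key := lcQ2 h2 ((A.val : ℕ) : ℤ) ((B.val : ℕ) : ℤ) ((C.val : ℕ) : ℤ) ((D.val : ℕ) : ℤ)
    ((E.val : ℕ) : ℤ) ((F.val : ℕ) : ℤ) h'
  simp only [LcDa_rep] at key
  convert key

private theorem LcDa_Q3 [NeZero (l ^ 2)] (hl : l.Prime) (A B C D E F : ZMod (l ^ 2))
    (h : ¬ (LcDa_pi l A = 0 ∧ LcDa_pi l B = 0 ∧ LcDa_pi l C = 0)) :
    ((univ : Finset (ZMod (l ^ 2) × ZMod (l ^ 2))).filter (fun z => A * z.1 ^ 2 +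
      B * z.1 * z.2 + C * z.2 ^ 2 + D * z.1 + E * z.2 + F = 0)).card ≤ 2 * l ^ 3 := by
  haveI := Fact.mk hl
  have h' : ¬ ((l : ℤ) ∣ ((A.val : ℕ) : ℤ) ∧ (l : ℤ) ∣ ((B.val : ℕ) : ℤ) ∧
      (l : ℤ) ∣ ((C.val : ℕ) : ℤ)) := by
    rintro ⟨ha, hb, hc⟩
    apply h
    rw [← ZMod.intCast_zmod_eq_zero_iff_dvd] at ha hb hc
    rw [LcDa_pi_val, LcDa_pi_val, LcDa_pi_val]
    push_cast at ha hb hc
    exact ⟨ha, hb, hc⟩
  have key := lcQ3 ((A.val : ℕ) : ℤ) ((B.val : ℕ) : ℤ) ((C.val : ℕ) : ℤ) ((D.val : ℕ) : ℤ)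
    ((E.val : ℕ) : ℤ) ((F.val : ℕ) : ℤ) h'
  simp only [LcDa_rep] at key
  convert key

/-- a class modulo `l` has at most `l` lifts -/
private theorem LcDa_fib [NeZero (l ^ 2)] (hl : l.Prime) (ρ : ZMod l) :
    ((univ : Finset (ZMod (l ^ 2))).filter (fun x => LcDa_pi l x = ρ)).card ≤ l := by
  haveI := Fact.mk hl
  refine (card_le_card_of_injOn (fun x => x.val / l) (t := range l) ?_ ?_).trans
    (by rw [card_range])
  · intro x _
    have h1 : x.val < l ^ 2 := ZMod.val_lt x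
    rw [mem_coe, mem_range]
    exact Nat.div_lt_of_lt_mul (by rw [← sq]; exact h1)
  · intro x hx y hy hxy
    have hx' : LcDa_pi l x = ρ := (mem_filter.1 (mem_coe.1 hx)).2
    have hy' : LcDa_pi l y = ρ := (mem_filter.1 (mem_coe.1 hy)).2
    rw [LcDa_pi_val] at hx' hy'
    have h3 : x.val % l = ρ.val := by rw [← hx', ZMod.val_natCast]
    have h4 : y.val % l = ρ.val := by rw [← hy', ZMod.val_natCast]
    have hxy' : x.val / l = y.val / l := hxy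
    apply ZMod.val_injective
    rw [← Nat.div_add_mod x.val l, ← Nat.div_add_mod y.val l, hxy', h3, h4]

private theorem LcDa_root (hl : l.Prime) (a b c : ZMod l) (ha : a ≠ 0) :
    haveI := Fact.mk hl
    ((univ : Finset (ZMod l)).filter (fun x => a * x ^ 2 + b * x + c = 0)).card ≤ 2 := by
  haveI := Fact.mk hl
  classical
  let P : Polynomial (ZMod l) := Polynomial.C a * Polynomial.X ^ 2 + Polynomial.C b * Polynomial.X
    + Polynomial.C c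
  have hdeg : P.natDegree = 2 := Polynomial.natDegree_quadratic ha
  have hP : P ≠ 0 := by
    intro h
    rw [h, Polynomial.natDegree_zero] at hdeg
    norm_num at hdeg
  have hsub : (univ : Finset (ZMod l)).filter (fun x => a * x ^ 2 + b * x + c = 0)
      ⊆ P.roots.toFinset := by
    intro x hx
    rw [Multiset.mem_toFinset, Polynomial.mem_roots hP, Polynomial.IsRoot.def]
    have h := (mem_filter.1 hx).2
    simpa [P] using h
  calc ((univ : Finset (ZMod l)).filter (fun x => a * x ^ 2 + b * x + c = 0)).card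
      ≤ P.roots.toFinset.card := card_le_card hsub
    _ ≤ P.roots.card := Multiset.toFinset_card_le _
    _ ≤ P.natDegree := Polynomial.card_roots' P
    _ = 2 := hdeg

/-- lifts of the roots of a quadratic polynomial -/
private theorem LcDa_quad [NeZero (l ^ 2)] (hl : l.Prime) (a b c : ZMod l) (ha : a ≠ 0)
    (p : ZMod (l ^ 2) → Prop) [DecidablePred p] (hp : ∀ x, p x → a * (LcDa_pi l x) ^ 2 + b * LcDa_pi l x + c = 0) :
    ((univ : Finset (ZMod (l ^ 2))).filter p).card ≤ 2 * l := by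
  haveI := Fact.mk hl
  have h1 := card_le_mul_card_image (f := fun x => LcDa_pi l x)
    ((univ : Finset (ZMod (l ^ 2))).filter p) l (by
      intro ρ _
      refine (card_le_card ?_).trans (LcDa_fib hl ρ)
      intro x hx
      rw [mem_filter] at hx ⊢
      exact ⟨mem_univ _, hx.2⟩)
  have h2 : (((univ : Finset (ZMod (l ^ 2))).filter p).image (fun x => LcDa_pi l x)).card ≤ 2 := by
    refine (card_le_card ?_).trans (LcDa_root hl a b c ha)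
    intro ρ hρ
    rw [mem_image] at hρ
    obtain ⟨x, hx, rfl⟩ := hρ
    rw [mem_filter] at hx ⊢
    exact ⟨mem_univ _, hp x hx.2⟩
  calc ((univ : Finset (ZMod (l ^ 2))).filter p).card ≤ _ := h1
    _ ≤ l * 2 := Nat.mul_le_mul_left l h2
    _ = 2 * l := mul_comm _ _

private def LcDa_E {R : Type*} [CommRing R] (y0 y1 y2 y4 y5 y6 y7 : R) : R :=
  y1 * ((y4 + y5) ^ 2 - 4 * y0 * y2) - y0 * y7 ^ 2 + (y4 + y5) * y6 * y7 - y2 * y6 ^ 2

private def LcDa_a {R : Type*} [CommRing R] (y1 y2 y7 : R) : R := y1 * (y7 ^ 2 + 4 * y1 * y2)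
private def LcDa_b {R : Type*} [CommRing R] (y1 y4 y5 y6 y7 : R) : R :=
  y1 * (-(2 * y6 * y7) - 4 * (y4 + y5) * y1)
private def LcDa_c {R : Type*} [CommRing R] (y0 y1 y6 : R) : R := y1 * (y6 ^ 2 + 4 * y0 * y1)
private def LcDa_d {R : Type*} [CommRing R] (y0 y1 y2 y4 y5 y6 y7 : R) : R :=
  -4 * LcDa_E y0 y1 y2 y4 y5 y6 y7 * y7
    + y1 * (-4 * y2 * (y4 - y5) * y6 + 2 * (y4 + y5) * (y4 - y5) * y7)
private def LcDa_e {R : Type*} [CommRing R] (y0 y1 y2 y4 y5 y6 y7 : R) : R :=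
  4 * LcDa_E y0 y1 y2 y4 y5 y6 y7 * y6
    + y1 * (2 * (y4 + y5) * (y4 - y5) * y6 - 4 * y0 * (y4 - y5) * y7)
private def LcDa_f {R : Type*} [CommRing R] (y0 y1 y2 y4 y5 y6 y7 : R) : R :=
  -4 * LcDa_E y0 y1 y2 y4 y5 y6 y7 * (y0 * y2 - y4 * y5)
    + y1 * (((y4 + y5) ^ 2 - 4 * y0 * y2) * (y4 - y5) ^ 2)

/-- the quadratic polynomial -/
private def LcDa_G {R : Type*} [CommRing R] (y0 y1 y2 y4 y5 y6 y7 y8 y9 : R) : R :=
  LcDa_a y1 y2 y7 * y8 ^ 2 + LcDa_b y1 y4 y5 y6 y7 * y8 * y9 + LcDa_c y0 y1 y6 * y9 ^ 2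
    + LcDa_d y0 y1 y2 y4 y5 y6 y7 * y8 + LcDa_e y0 y1 y2 y4 y5 y6 y7 * y9
    + LcDa_f y0 y1 y2 y4 y5 y6 y7

private theorem LcDa_id {R : Type*} [CommRing R] (y : Fin 10 → R) (hF : FF y = 0) :
    y 1 * DD y = LcDa_G (y 0) (y 1) (y 2) (y 4) (y 5) (y 6) (y 7) (y 8) (y 9) := by
  have hF' : y 0 * y 2 - y 1 * y 3 - y 4 * y 5 - y 6 * y 9 + y 7 * y 8 = 0 := hF
  rw [DD_expl]
  unfold LcDa_G LcDa_a LcDa_b LcDa_c LcDa_d LcDa_e LcDa_f LcDa_E dV dW KK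
  linear_combination (4 * (y 1 * ((y 4 + y 5) ^ 2 - 4 * y 0 * y 2) - y 0 * y 7 ^ 2
    + (y 4 + y 5) * y 6 * y 7 - y 2 * y 6 ^ 2)) * hF'

/-- the fibre over a base -/
private theorem LcDa_N [NeZero (l ^ 2)] (hl : l.Prime) (h2 : l ≠ 2)
    (y0 y1 y2 y4 y5 y6 y7 : ZMod (l ^ 2)) (h1 : LcDa_pi l y1 ≠ 0) :
    ((univ : Finset (ZMod (l ^ 2) × ZMod (l ^ 2))).filter (fun z =>
      LcDa_G y0 y1 y2 y4 y5 y6 y7 z.1 z.2 = 0)).card
      ≤ 3 * l ^ 2 + (if LcDa_pi l (LcDa_E y0 y1 y2 y4 y5 y6 y7) = 0 then 2 * l ^ 3 else 0)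
        + (if LcDa_pi l (LcDa_a y1 y2 y7) = 0 ∧ LcDa_pi l (LcDa_b y1 y4 y5 y6 y7) = 0 ∧
            LcDa_pi l (LcDa_c y0 y1 y6) = 0 then l ^ 4 else 0) := by
  haveI := Fact.mk hl
  by_cases hE : LcDa_pi l (LcDa_E y0 y1 y2 y4 y5 y6 y7) = 0
  · by_cases habc : LcDa_pi l (LcDa_a y1 y2 y7) = 0 ∧ LcDa_pi l (LcDa_b y1 y4 y5 y6 y7) = 0 ∧
        LcDa_pi l (LcDa_c y0 y1 y6) = 0
    · rw [if_pos hE, if_pos habc]
      have h3 : ((univ : Finset (ZMod (l ^ 2) × ZMod (l ^ 2))).filter (fun z =>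
          LcDa_G y0 y1 y2 y4 y5 y6 y7 z.1 z.2 = 0)).card ≤ l ^ 4 := by
        refine (card_filter_le _ _).trans ?_
        rw [card_univ, Fintype.card_prod, ZMod.card]
        exact le_of_eq (by ring)
      omega
    · rw [if_pos hE, if_neg habc]
      have h3 := LcDa_Q3 hl (LcDa_a y1 y2 y7) (LcDa_b y1 y4 y5 y6 y7) (LcDa_c y0 y1 y6)
        (LcDa_d y0 y1 y2 y4 y5 y6 y7) (LcDa_e y0 y1 y2 y4 y5 y6 y7) (LcDa_f y0 y1 y2 y4 y5 y6 y7) habc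
      have h4 : ((univ : Finset (ZMod (l ^ 2) × ZMod (l ^ 2))).filter (fun z =>
          LcDa_G y0 y1 y2 y4 y5 y6 y7 z.1 z.2 = 0)).card ≤ 2 * l ^ 3 := h3
      omega
  · rw [if_neg hE]
    have hdisc : LcDa_pi l (LcDa_b y1 y4 y5 y6 y7 ^ 2 - 4 * LcDa_a y1 y2 y7 * LcDa_c y0 y1 y6) ≠ 0 := by
      have h5 : LcDa_b y1 y4 y5 y6 y7 ^ 2 - 4 * LcDa_a y1 y2 y7 * LcDa_c y0 y1 y6
          = 2 ^ 4 * y1 ^ 3 * LcDa_E y0 y1 y2 y4 y5 y6 y7 := by
        unfold LcDa_a LcDa_b LcDa_c LcDa_E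
        ring
      rw [h5, map_mul, map_mul, map_pow, map_pow, map_ofNat]
      have h20 : (2 : ZMod l) ≠ 0 := by
        intro h
        have h6 : ((2 : ℕ) : ZMod l) = 0 := by exact_mod_cast h
        rw [ZMod.natCast_eq_zero_iff] at h6
        exact h2 ((Nat.prime_dvd_prime_iff_eq hl Nat.prime_two).1 h6)
      exact mul_ne_zero (mul_ne_zero (pow_ne_zero 4 h20) (pow_ne_zero 3 h1)) hE
    have h3 := LcDa_Q2 hl h2 (LcDa_a y1 y2 y7) (LcDa_b y1 y4 y5 y6 y7) (LcDa_c y0 y1 y6)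
      (LcDa_d y0 y1 y2 y4 y5 y6 y7) (LcDa_e y0 y1 y2 y4 y5 y6 y7) (LcDa_f y0 y1 y2 y4 y5 y6 y7) hdisc
    have h4 : ((univ : Finset (ZMod (l ^ 2) × ZMod (l ^ 2))).filter (fun z =>
        LcDa_G y0 y1 y2 y4 y5 y6 y7 z.1 z.2 = 0)).card ≤ 3 * l ^ 2 := h3
    omega

open scoped Classical in
private theorem LcDa_cE [NeZero (l ^ 2)] (hl : l.Prime)
    (y1 y4 y6 y7 : ZMod (l ^ 2)) (h1 : LcDa_pi l y1 ≠ 0) :
    ∑ y0 : ZMod (l ^ 2), ∑ y2 : ZMod (l ^ 2), ∑ y5 : ZMod (l ^ 2),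
      (if LcDa_pi l (LcDa_E y0 y1 y2 y4 y5 y6 y7) = 0 then 1 else 0) ≤ 2 * l ^ 5 := by
  haveI := Fact.mk hl
  have h3 : ∀ y0 y2 : ZMod (l ^ 2), ∑ y5 : ZMod (l ^ 2),
      (if LcDa_pi l (LcDa_E y0 y1 y2 y4 y5 y6 y7) = 0 then 1 else 0) ≤ 2 * l := by
    intro y0 y2
    rw [← card_filter]
    refine LcDa_quad hl (LcDa_pi l y1)
      (2 * LcDa_pi l y1 * LcDa_pi l y4 + LcDa_pi l y6 * LcDa_pi l y7)
      (LcDa_pi l y1 * (LcDa_pi l y4 ^ 2 - 4 * LcDa_pi l y0 * LcDa_pi l y2)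
        - LcDa_pi l y0 * LcDa_pi l y7 ^ 2 + LcDa_pi l y4 * LcDa_pi l y6 * LcDa_pi l y7
        - LcDa_pi l y2 * LcDa_pi l y6 ^ 2) h1 _ ?_
    intro x hx
    rw [← hx]
    unfold LcDa_E
    simp only [map_add, map_sub, map_mul, map_pow, map_ofNat]
    ring
  calc ∑ y0 : ZMod (l ^ 2), ∑ y2 : ZMod (l ^ 2), ∑ y5 : ZMod (l ^ 2),
      (if LcDa_pi l (LcDa_E y0 y1 y2 y4 y5 y6 y7) = 0 then 1 else 0)
      ≤ ∑ _y0 : ZMod (l ^ 2), ∑ _y2 : ZMod (l ^ 2), 2 * l :=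
        sum_le_sum fun y0 _ => sum_le_sum fun y2 _ => h3 y0 y2
    _ = 2 * l ^ 5 := by
        simp only [sum_const, card_univ, ZMod.card, smul_eq_mul]
        ring

open scoped Classical in
private theorem LcDa_cabc [NeZero (l ^ 2)] (hl : l.Prime) (h2 : l ≠ 2)
    (y1 y4 y6 y7 : ZMod (l ^ 2)) (h1 : LcDa_pi l y1 ≠ 0) :
    ∑ y0 : ZMod (l ^ 2), ∑ y2 : ZMod (l ^ 2), ∑ y5 : ZMod (l ^ 2),
      (if LcDa_pi l (LcDa_a y1 y2 y7) = 0 ∧ LcDa_pi l (LcDa_b y1 y4 y5 y6 y7) = 0 ∧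
            LcDa_pi l (LcDa_c y0 y1 y6) = 0 then 1 else 0) ≤ l ^ 3 := by
  haveI := Fact.mk hl
  have h20 : (2 : ZMod l) ≠ 0 := by
    intro h
    have h6 : ((2 : ℕ) : ZMod l) = 0 := by exact_mod_cast h
    rw [ZMod.natCast_eq_zero_iff] at h6
    exact h2 ((Nat.prime_dvd_prime_iff_eq hl Nat.prime_two).1 h6)
  have h40 : (4 : ZMod l) * LcDa_pi l y1 ≠ 0 := by
    have : (4 : ZMod l) = 2 ^ 2 := by norm_num
    rw [this]
    exact mul_ne_zero (pow_ne_zero 2 h20) h1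
  set r0 : ZMod l := -(LcDa_pi l y6) ^ 2 / (4 * LcDa_pi l y1) with hr0
  set r2 : ZMod l := -(LcDa_pi l y7) ^ 2 / (4 * LcDa_pi l y1) with hr2
  set r5 : ZMod l := -(2 * LcDa_pi l y6 * LcDa_pi l y7) / (4 * LcDa_pi l y1) - LcDa_pi l y4 with hr5
  have key : ∀ y0 y2 y5 : ZMod (l ^ 2),
      (if LcDa_pi l (LcDa_a y1 y2 y7) = 0 ∧ LcDa_pi l (LcDa_b y1 y4 y5 y6 y7) = 0 ∧
            LcDa_pi l (LcDa_c y0 y1 y6) = 0 then 1 else 0)
      ≤ (if LcDa_pi l y0 = r0 then 1 else 0) * ((if LcDa_pi l y2 = r2 then 1 else 0)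
        * (if LcDa_pi l y5 = r5 then 1 else 0)) := by
    intro y0 y2 y5
    by_cases hc : LcDa_pi l (LcDa_a y1 y2 y7) = 0 ∧ LcDa_pi l (LcDa_b y1 y4 y5 y6 y7) = 0 ∧
            LcDa_pi l (LcDa_c y0 y1 y6) = 0
    · rw [if_pos hc]
      obtain ⟨hA, hB, hC⟩ := hc
      unfold LcDa_a at hA
      unfold LcDa_b at hB
      unfold LcDa_c at hC
      simp only [map_add, map_sub, map_mul, map_pow, map_ofNat, map_neg] at hA hB hC
      have hA' := (mul_eq_zero.1 hA).resolve_left h1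
      have hB' := (mul_eq_zero.1 hB).resolve_left h1
      have hC' := (mul_eq_zero.1 hC).resolve_left h1
      have e0 : LcDa_pi l y0 = r0 := by
        rw [hr0, eq_div_iff h40]
        linear_combination hC'
      have e2 : LcDa_pi l y2 = r2 := by
        rw [hr2, eq_div_iff h40]
        linear_combination hA'
      have e5 : LcDa_pi l y5 = r5 := by
        rw [hr5, eq_sub_iff_add_eq, eq_div_iff h40]
        linear_combination -hB'
      rw [if_pos e0, if_pos e2, if_pos e5]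
    · rw [if_neg hc]
      exact Nat.zero_le _
  have hf : ∀ r : ZMod l, ∑ x : ZMod (l ^ 2), (if LcDa_pi l x = r then 1 else 0) ≤ l := by
    intro r
    rw [← card_filter]
    convert LcDa_fib hl r
  calc ∑ y0 : ZMod (l ^ 2), ∑ y2 : ZMod (l ^ 2), ∑ y5 : ZMod (l ^ 2),
      (if LcDa_pi l (LcDa_a y1 y2 y7) = 0 ∧ LcDa_pi l (LcDa_b y1 y4 y5 y6 y7) = 0 ∧
            LcDa_pi l (LcDa_c y0 y1 y6) = 0 then 1 else 0)
      ≤ ∑ y0 : ZMod (l ^ 2), ∑ y2 : ZMod (l ^ 2), ∑ y5 : ZMod (l ^ 2),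
        (if LcDa_pi l y0 = r0 then 1 else 0) * ((if LcDa_pi l y2 = r2 then 1 else 0)
        * (if LcDa_pi l y5 = r5 then 1 else 0)) :=
        sum_le_sum fun y0 _ => sum_le_sum fun y2 _ => sum_le_sum fun y5 _ => key y0 y2 y5
    _ = (∑ y0 : ZMod (l ^ 2), (if LcDa_pi l y0 = r0 then 1 else 0))
        * ((∑ y2 : ZMod (l ^ 2), (if LcDa_pi l y2 = r2 then 1 else 0))
        * (∑ y5 : ZMod (l ^ 2), (if LcDa_pi l y5 = r5 then 1 else 0))) := by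
        rw [sum_mul_sum, sum_mul_sum]
        refine sum_congr rfl fun y0 _ => sum_congr rfl fun y2 _ => ?_
        rw [mul_sum]
    _ ≤ l * (l * l) := Nat.mul_le_mul (hf r0) (Nat.mul_le_mul (hf r2) (hf r5))
    _ = l ^ 3 := by ring

end LcDaAux

open scoped Classical in
theorem lcDa {l : ℕ} [NeZero (l ^ 2)] (hl : l.Prime) (h2 : l ≠ 2) :
    ((univ : Finset (Fin 10 → ZMod (l ^ 2))).filter (fun y => FF y = 0 ∧ IsUnit (y 1) ∧ DD y = 0)).card ≤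
      8 * l ^ 16 := by
  haveI := Fact.mk hl
  have hu : ∀ x : ZMod (l ^ 2), IsUnit x → LcDa_pi l x ≠ 0 := fun x hx =>
    (hx.map (LcDa_pi l)).ne_zero
  -- the injection
  have hinj : ((univ : Finset (Fin 10 → ZMod (l ^ 2))).filter
      (fun y => FF y = 0 ∧ IsUnit (y 1) ∧ DD y = 0)).card
      ≤ ((univ : Finset ((ZMod (l ^ 2) × ZMod (l ^ 2) × ZMod (l ^ 2) × ZMod (l ^ 2)) ×
          (ZMod (l ^ 2) × ZMod (l ^ 2) × ZMod (l ^ 2)) × (ZMod (l ^ 2) × ZMod (l ^ 2)))).filter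
          (fun q => LcDa_pi l q.1.1 ≠ 0 ∧ LcDa_G q.2.1.1 q.1.1 q.2.1.2.1 q.1.2.1 q.2.1.2.2
            q.1.2.2.1 q.1.2.2.2 q.2.2.1 q.2.2.2 = 0)).card := by
    refine card_le_card_of_injOn
      (fun y => ((y 1, y 4, y 6, y 7), (y 0, y 2, y 5), (y 8, y 9))) ?_ ?_
    · intro y hy
      have hy' := (mem_filter.1 (mem_coe.1 hy)).2
      obtain ⟨hF, h1, hD⟩ := hy'
      rw [mem_coe, mem_filter]
      refine ⟨mem_univ _, hu _ h1, ?_⟩
      have h3 := LcDa_id y hF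
      rw [hD, mul_zero] at h3
      exact h3.symm
    · intro y hy y' hy' heq
      obtain ⟨hF, h1, -⟩ := (mem_filter.1 (mem_coe.1 hy)).2
      obtain ⟨hF', -, -⟩ := (mem_filter.1 (mem_coe.1 hy')).2
      simp only [Prod.mk.injEq] at heq
      obtain ⟨⟨e1, e4, e6, e7⟩, ⟨e0, e2, e5⟩, ⟨e8, e9⟩⟩ := heq
      have e3 : y 3 = y' 3 := by
        have hF1 : y 0 * y 2 - y 1 * y 3 - y 4 * y 5 - y 6 * y 9 + y 7 * y 8 = 0 := hF
        have hF2 : y' 0 * y' 2 - y' 1 * y' 3 - y' 4 * y' 5 - y' 6 * y' 9 + y' 7 * y' 8 = 0 := hF'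
        rw [← e0, ← e1, ← e2, ← e4, ← e5, ← e6, ← e7, ← e8, ← e9] at hF2
        apply h1.mul_left_cancel
        linear_combination hF2 - hF1
      funext j
      fin_cases j
      · exact e0
      · exact e1
      · exact e2
      · exact e3
      · exact e4
      · exact e5
      · exact e6
      · exact e7
      · exact e8
      · exact e9
  refine hinj.trans ?_
  rw [card_filter, Fintype.sum_prod_type]
  have hw : ∀ w : ZMod (l ^ 2) × ZMod (l ^ 2) × ZMod (l ^ 2) × ZMod (l ^ 2),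
      ∑ q : (ZMod (l ^ 2) × ZMod (l ^ 2) × ZMod (l ^ 2)) × (ZMod (l ^ 2) × ZMod (l ^ 2)),
        (if LcDa_pi l w.1 ≠ 0 ∧ LcDa_G q.1.1 w.1 q.1.2.1 w.2.1 q.1.2.2 w.2.2.1 w.2.2.2
            q.2.1 q.2.2 = 0 then 1 else 0) ≤ 8 * l ^ 8 := by
    rintro ⟨y1, y4, y6, y7⟩
    by_cases h1 : LcDa_pi l y1 ≠ 0
    · have hb : ∀ y0 y2 y5 : ZMod (l ^ 2),
          ∑ z : ZMod (l ^ 2) × ZMod (l ^ 2),
            (if LcDa_pi l y1 ≠ 0 ∧ LcDa_G y0 y1 y2 y4 y5 y6 y7 z.1 z.2 = 0 then 1 else 0)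
          ≤ 3 * l ^ 2 + 2 * l ^ 3 *
              (if LcDa_pi l (LcDa_E y0 y1 y2 y4 y5 y6 y7) = 0 then 1 else 0)
            + l ^ 4 * (if LcDa_pi l (LcDa_a y1 y2 y7) = 0 ∧
                LcDa_pi l (LcDa_b y1 y4 y5 y6 y7) = 0 ∧
                LcDa_pi l (LcDa_c y0 y1 y6) = 0 then 1 else 0) := by
        intro y0 y2 y5
        have h3 := LcDa_N hl h2 y0 y1 y2 y4 y5 y6 y7 h1
        rw [card_filter] at h3
        have h4 : ∑ z : ZMod (l ^ 2) × ZMod (l ^ 2),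
            (if LcDa_pi l y1 ≠ 0 ∧ LcDa_G y0 y1 y2 y4 y5 y6 y7 z.1 z.2 = 0 then 1 else 0)
            = ∑ z : ZMod (l ^ 2) × ZMod (l ^ 2),
            (if LcDa_G y0 y1 y2 y4 y5 y6 y7 z.1 z.2 = 0 then 1 else 0) := by
          refine sum_congr rfl fun z _ => ?_
          by_cases hz : LcDa_G y0 y1 y2 y4 y5 y6 y7 z.1 z.2 = 0
          · rw [if_pos ⟨h1, hz⟩, if_pos hz]
          · rw [if_neg (fun h => hz h.2), if_neg hz]
        rw [h4]
        refine h3.trans (le_of_eq ?_)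
        rw [mul_ite, mul_one, mul_zero, mul_ite, mul_one, mul_zero]
      have hE := LcDa_cE hl y1 y4 y6 y7 h1
      have habc := LcDa_cabc hl h2 y1 y4 y6 y7 h1
      calc ∑ q : (ZMod (l ^ 2) × ZMod (l ^ 2) × ZMod (l ^ 2)) × (ZMod (l ^ 2) × ZMod (l ^ 2)),
            (if LcDa_pi l y1 ≠ 0 ∧ LcDa_G q.1.1 y1 q.1.2.1 y4 q.1.2.2 y6 y7
              q.2.1 q.2.2 = 0 then 1 else 0)
          = ∑ y0 : ZMod (l ^ 2), ∑ y2 : ZMod (l ^ 2), ∑ y5 : ZMod (l ^ 2),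
              ∑ z : ZMod (l ^ 2) × ZMod (l ^ 2),
              (if LcDa_pi l y1 ≠ 0 ∧ LcDa_G y0 y1 y2 y4 y5 y6 y7 z.1 z.2 = 0 then 1 else 0) := by
            rw [Fintype.sum_prod_type, Fintype.sum_prod_type]
            refine sum_congr rfl fun y0 _ => ?_
            rw [Fintype.sum_prod_type]
        _ ≤ ∑ y0 : ZMod (l ^ 2), ∑ y2 : ZMod (l ^ 2), ∑ y5 : ZMod (l ^ 2),
              (3 * l ^ 2 + 2 * l ^ 3 *
                (if LcDa_pi l (LcDa_E y0 y1 y2 y4 y5 y6 y7) = 0 then 1 else 0)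
              + l ^ 4 * (if LcDa_pi l (LcDa_a y1 y2 y7) = 0 ∧
                LcDa_pi l (LcDa_b y1 y4 y5 y6 y7) = 0 ∧
                LcDa_pi l (LcDa_c y0 y1 y6) = 0 then 1 else 0)) :=
            sum_le_sum fun y0 _ => sum_le_sum fun y2 _ => sum_le_sum fun y5 _ => hb y0 y2 y5
        _ = l ^ 6 * (3 * l ^ 2) + 2 * l ^ 3 *
              (∑ y0 : ZMod (l ^ 2), ∑ y2 : ZMod (l ^ 2), ∑ y5 : ZMod (l ^ 2),
                (if LcDa_pi l (LcDa_E y0 y1 y2 y4 y5 y6 y7) = 0 then 1 else 0))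
              + l ^ 4 * (∑ y0 : ZMod (l ^ 2), ∑ y2 : ZMod (l ^ 2), ∑ y5 : ZMod (l ^ 2),
                (if LcDa_pi l (LcDa_a y1 y2 y7) = 0 ∧
                LcDa_pi l (LcDa_b y1 y4 y5 y6 y7) = 0 ∧
                LcDa_pi l (LcDa_c y0 y1 y6) = 0 then 1 else 0)) := by
            simp only [sum_add_distrib, ← mul_sum, sum_const, card_univ, ZMod.card, smul_eq_mul]
            ring
        _ ≤ l ^ 6 * (3 * l ^ 2) + 2 * l ^ 3 * (2 * l ^ 5) + l ^ 4 * l ^ 3 := by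
            gcongr
        _ ≤ 8 * l ^ 8 := by
            have h5 : l ^ 4 * l ^ 3 ≤ l ^ 8 := by
              rw [← pow_add]
              exact Nat.pow_le_pow_right hl.pos (by norm_num)
            have h6 : l ^ 6 * (3 * l ^ 2) + 2 * l ^ 3 * (2 * l ^ 5) = 7 * l ^ 8 := by ring
            omega
    · have : ∀ q : (ZMod (l ^ 2) × ZMod (l ^ 2) × ZMod (l ^ 2)) × (ZMod (l ^ 2) × ZMod (l ^ 2)),
          (if LcDa_pi l y1 ≠ 0 ∧ LcDa_G q.1.1 y1 q.1.2.1 y4 q.1.2.2 y6 y7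
            q.2.1 q.2.2 = 0 then 1 else 0) = 0 := fun q => if_neg (fun h => h1 h.1)
      simp only [this, sum_const_zero]
      exact Nat.zero_le _
  calc _ ≤ ∑ _w : ZMod (l ^ 2) × ZMod (l ^ 2) × ZMod (l ^ 2) × ZMod (l ^ 2), 8 * l ^ 8 :=
        sum_le_sum fun w _ => hw w
    _ = 8 * l ^ 16 := by
        simp only [sum_const, card_univ, Fintype.card_prod, ZMod.card, smul_eq_mul]
        ring

end Pool.Agent.PP5LB
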