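import Pool.Agent.PP5LB.LcQ
import Pool.Agent.PP5LB.Bsc

set_option autoImplicit false

/-!
# LcE: character sum of `D` and the number of the classes with `D = 0` (size 4)

PROOF. (Cs) one variable, `a ≠ 0`: `∑_t χ(a t² + b t + c) = -χ(a)` if `b² - 4ac ≠ 0`, only `|..| ≤ 1` resp. `≤ l` is
needed (`lcE_quad1`).  For `y1 ≠ 0` the class is given by the nine coordinates other than `y3` (`lcE_sum`), and `DD` is
a quadratic polynomial in `y8, y9` with leading form `a y8² + b y8y9 + c y9²`, `a = 4y1y2 + y7²`,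
`4ac - b² = -16 y1 EE`.  Bases with `y1 ≠ 0`, `EE ≠ 0`, `a ≠ 0`: for every `y9` the sum over `y8` is `≤ 1`, unless
its discriminant (a polynomial in `y9` of degree two with leading coefficient `b² - 4ac ≠ 0`) vanishes: `≤ 3l` in all.
The other bases with `y1 ≠ 0`: `≤ 2 l⁶`.  `y1 = 0`: `≤ l⁸` classes in all.
-/

namespace Pool.Agent.PP5LB

open Finset Pool.Agent.PP5L

section
variable {l : ℕ} [Fact l.Prime]

open scoped Classical in
/-- number of the zeros of a quadratic polynomial -/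
private theorem lcE_roots (a b c : ZMod l) (ha : a ≠ 0) :
    ((univ : Finset (ZMod l)).filter (fun v => a * v ^ 2 + b * v + c = 0)).card ≤ 2 := by
  set P : Polynomial (ZMod l) :=
    Polynomial.C a * Polynomial.X ^ 2 + Polynomial.C b * Polynomial.X + Polynomial.C c with hP
  have hdeg : P.natDegree = 2 := Polynomial.natDegree_quadratic ha
  have hP0 : P ≠ 0 := by
    intro h
    rw [h] at hdeg
    simp at hdeg
  calc _ ≤ P.roots.toFinset.card := by
        apply Finset.card_le_card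
        intro v hv
        rw [Finset.mem_filter] at hv
        rw [Multiset.mem_toFinset, Polynomial.mem_roots hP0]
        simp [Polynomial.IsRoot, hP, hv.2]
    _ ≤ Multiset.card P.roots := Multiset.toFinset_card_le _
    _ ≤ P.natDegree := Polynomial.card_roots' P
    _ = 2 := hdeg

private theorem lcE_hyp (h2 : l ≠ 2) (D : ZMod l) (hD : D ≠ 0) :
    ∑ w : ZMod l, quadraticChar (ZMod l) (w ^ 2 - D) = -1 := by
  have hc : ringChar (ZMod l) ≠ 2 := by rw [ZMod.ringChar_zmod_n]; exact h2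
  have h20 : (2 : ZMod l) ≠ 0 := Ring.two_ne_zero hc
  have hcard : ∀ w : ZMod l, ((({x : ZMod l | x ^ 2 = w ^ 2 - D}).toFinset).card : ℤ)
      = quadraticChar (ZMod l) (w ^ 2 - D) + 1 := fun w => quadraticChar_card_sqrts hc _
  have h1 : ∑ w : ZMod l, (({x : ZMod l | x ^ 2 = w ^ 2 - D}).toFinset).card = l - 1 := by
    rw [← Finset.card_sigma]
    have h3 : ((univ : Finset (ZMod l)).erase 0).card = l - 1 := by
      rw [Finset.card_erase_of_mem (Finset.mem_univ _), Finset.card_univ, ZMod.card]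
    rw [← h3]
    refine Finset.card_nbij' (fun p => p.1 - p.2) (fun z => ⟨(z + D / z) / 2, (D / z - z) / 2⟩) ?_ ?_ ?_ ?_
    · rintro ⟨w, x⟩ hp
      simp only [Finset.coe_sigma, Set.mem_sigma_iff, Finset.mem_coe, Finset.mem_univ, Set.mem_toFinset,
        Set.mem_ofPred_eq, true_and] at hp
      simp only [Finset.mem_coe, Finset.mem_erase, Finset.mem_univ, and_true]
      intro h
      apply hD
      have : w = x := by linear_combination h
      rw [this] at hp
      linear_combination hp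
    · intro z hz
      simp only [Finset.mem_coe, Finset.mem_erase, Finset.mem_univ, and_true] at hz
      simp only [Finset.coe_sigma, Set.mem_sigma_iff, Finset.mem_coe, Finset.mem_univ, Set.mem_toFinset,
        Set.mem_ofPred_eq, true_and]
      field_simp
      ring
    · rintro ⟨w, x⟩ hp
      simp only [Finset.coe_sigma, Set.mem_sigma_iff, Finset.mem_coe, Finset.mem_univ, Set.mem_toFinset,
        Set.mem_ofPred_eq, true_and] at hp
      have hwx : w - x ≠ 0 := by
        intro h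
        apply hD
        have : w = x := by linear_combination h
        rw [this] at hp
        linear_combination hp
      have hq : D / (w - x) = w + x := by
        rw [div_eq_iff hwx]
        linear_combination hp
      simp only [hq]
      congr 1
      · field_simp
        ring
      · field_simp
        ring
    · intro z hz
      simp only [Finset.mem_coe, Finset.mem_erase, Finset.mem_univ, and_true] at hz
      simp only
      field_simp
      ring
  have h4 : (∑ w : ZMod l, ((({x : ZMod l | x ^ 2 = w ^ 2 - D}).toFinset).card : ℤ)) = (l : ℤ) - 1 := by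
    have hl : 1 ≤ l := (Fact.out : l.Prime).one_lt.le
    rw [← Nat.cast_sum, h1]
    push_cast [hl]
    ring
  simp_rw [hcard] at h4
  rw [Finset.sum_add_distrib] at h4
  simp only [Finset.sum_const, Finset.card_univ, ZMod.card, nsmul_eq_mul, mul_one] at h4
  linarith

private theorem lcE_quad1 (h2 : l ≠ 2) (a b c : ZMod l) (ha : a ≠ 0) (hD : b ^ 2 - 4 * a * c ≠ 0) :
    |∑ u : ZMod l, quadraticChar (ZMod l) (a * u ^ 2 + b * u + c)| ≤ 1 := by
  have hc : ringChar (ZMod l) ≠ 2 := by rw [ZMod.ringChar_zmod_n]; exact h2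
  have h20 : (2 : ZMod l) ≠ 0 := Ring.two_ne_zero hc
  have h40 : (4 : ZMod l) ≠ 0 := by
    have : (4 : ZMod l) = 2 * 2 := by norm_num
    rw [this]
    exact mul_ne_zero h20 h20
  have key : quadraticChar (ZMod l) (4 * a) * ∑ u : ZMod l, quadraticChar (ZMod l) (a * u ^ 2 + b * u + c)
      = -1 := by
    rw [← lcE_hyp h2 _ hD, Finset.mul_sum]
    have h3 : ∀ u : ZMod l, quadraticChar (ZMod l) (4 * a) * quadraticChar (ZMod l) (a * u ^ 2 + b * u + c)
        = quadraticChar (ZMod l) ((2 * a * u + b) ^ 2 - (b ^ 2 - 4 * a * c)) := by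
      intro u
      rw [← map_mul]
      congr 1
      ring
    simp_rw [h3]
    exact Fintype.sum_equiv ((Equiv.mulLeft₀ (2 * a) (mul_ne_zero h20 ha)).trans (Equiv.addRight b)) _ _
      (fun u => rfl)
  rcases quadraticChar_dichotomy (mul_ne_zero h40 ha) with h | h
  · rw [h] at key
    rw [abs_le]
    constructor <;> linarith
  · rw [h] at key
    rw [abs_le]
    constructor <;> linarith

private theorem lcE_abs (x : ZMod l) : |quadraticChar (ZMod l) x| ≤ 1 := by
  by_cases hx : x = 0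
  · rw [hx]; simp
  · rcases quadraticChar_dichotomy hx with h | h <;> rw [h] <;> simp

private theorem lcE_quad2 (h2 : l ≠ 2) (a b c d e f : ZMod l) (ha : a ≠ 0) (hD : b ^ 2 - 4 * a * c ≠ 0) :
    |∑ z : ZMod l × ZMod l, quadraticChar (ZMod l)
      (a * z.1 ^ 2 + b * z.1 * z.2 + c * z.2 ^ 2 + d * z.1 + e * z.2 + f)| ≤ 3 * l := by
  classical
  rw [Fintype.sum_prod_type_right]
  have hb : ∀ v : ZMod l, |∑ u : ZMod l, quadraticChar (ZMod l)
      (a * u ^ 2 + b * u * v + c * v ^ 2 + d * u + e * v + f)| ≤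
      1 + (if (b ^ 2 - 4 * a * c) * v ^ 2 + (2 * b * d - 4 * a * e) * v + (d ^ 2 - 4 * a * f) = 0
        then (l : ℤ) else 0) := by
    intro v
    split_ifs with h
    · calc _ ≤ ∑ u : ZMod l, |quadraticChar (ZMod l) (a * u ^ 2 + b * u * v + c * v ^ 2 + d * u + e * v + f)| :=
            Finset.abs_sum_le_sum_abs _ _
        _ ≤ ∑ u : ZMod l, 1 := Finset.sum_le_sum (fun u _ => lcE_abs _)
        _ = l := by simp [ZMod.card]
        _ ≤ _ := by linarith
    · have h3 := lcE_quad1 h2 a (b * v + d) (c * v ^ 2 + e * v + f) ha (by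
        intro h4
        apply h
        linear_combination h4)
      rw [add_zero]
      have h5 : ∀ u : ZMod l, a * u ^ 2 + b * u * v + c * v ^ 2 + d * u + e * v + f =
          a * u ^ 2 + (b * v + d) * u + (c * v ^ 2 + e * v + f) := fun u => by ring
      simp_rw [h5]
      exact h3
  refine le_trans (Finset.abs_sum_le_sum_abs _ _) ?_
  calc _ ≤ ∑ v : ZMod l, (1 + (if (b ^ 2 - 4 * a * c) * v ^ 2 + (2 * b * d - 4 * a * e) * v +
        (d ^ 2 - 4 * a * f) = 0 then (l : ℤ) else 0)) := Finset.sum_le_sum (fun v _ => hb v)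
    _ = l + ((univ : Finset (ZMod l)).filter (fun v => (b ^ 2 - 4 * a * c) * v ^ 2 +
        (2 * b * d - 4 * a * e) * v + (d ^ 2 - 4 * a * f) = 0)).card * l := by
      rw [Finset.sum_add_distrib, ← Finset.sum_filter]
      simp [ZMod.card]
    _ ≤ l + 2 * l := by
      have := lcE_roots (b ^ 2 - 4 * a * c) (2 * b * d - 4 * a * e) (d ^ 2 - 4 * a * f) hD
      have h5 : ((((univ : Finset (ZMod l)).filter (fun v => (b ^ 2 - 4 * a * c) * v ^ 2 +
        (2 * b * d - 4 * a * e) * v + (d ^ 2 - 4 * a * f) = 0)).card : ℕ) : ℤ) ≤ 2 := by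
        exact_mod_cast this
      have hl0 : (0 : ℤ) ≤ l := by positivity
      nlinarith
    _ = 3 * l := by ring

open scoped Classical in
private theorem lcE_zeros (a b c d e f : ZMod l) (ha : a ≠ 0) :
    ((univ : Finset (ZMod l × ZMod l)).filter (fun z =>
      a * z.1 ^ 2 + b * z.1 * z.2 + c * z.2 ^ 2 + d * z.1 + e * z.2 + f = 0)).card ≤ 2 * l := by
  have h1 : ((univ : Finset (ZMod l × ZMod l)).filter (fun z =>
      a * z.1 ^ 2 + b * z.1 * z.2 + c * z.2 ^ 2 + d * z.1 + e * z.2 + f = 0)).card =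
      ∑ v : ZMod l, ((univ : Finset (ZMod l)).filter (fun u =>
        a * u ^ 2 + b * u * v + c * v ^ 2 + d * u + e * v + f = 0)).card := by
    rw [Finset.card_filter, Fintype.sum_prod_type_right]
    simp_rw [Finset.card_filter]
  rw [h1]
  calc _ ≤ ∑ v : ZMod l, 2 := by
        apply Finset.sum_le_sum
        intro v _
        refine le_trans (le_of_eq ?_) (lcE_roots a (b * v + d) (c * v ^ 2 + e * v + f) ha)
        congr 1
        ext u
        simp only [Finset.mem_filter, Finset.mem_univ, true_and]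
        constructor <;> intro h <;> linear_combination h
    _ = 2 * l := by simp [ZMod.card, mul_comm]

/-- the point with the coordinates `b`, `z` other than the third -/
private noncomputable def lcE_up (b : Fin 7 → ZMod l) (z : ZMod l × ZMod l) : Fin 10 → ZMod l :=
  ![b 0, b 1, b 2, (b 0 * b 2 - b 3 * b 4 - b 5 * z.2 + b 6 * z.1) / b 1, b 3, b 4, b 5, b 6, z.1, z.2]

private theorem lcE_sum {N : Type*} [AddCommMonoid N] (f : (Fin 10 → ZMod l) → N) :
    ∑ y ∈ (univ : Finset (Fin 10 → ZMod l)).filter (fun y => FF y = 0 ∧ y 1 ≠ 0), f y =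
      ∑ b ∈ (univ : Finset (Fin 7 → ZMod l)).filter (fun b => b 1 ≠ 0),
        ∑ z : ZMod l × ZMod l, f (lcE_up b z) := by
  rw [← Finset.sum_product' (s := (univ : Finset (Fin 7 → ZMod l)).filter (fun b => b 1 ≠ 0))
    (t := (univ : Finset (ZMod l × ZMod l))) (f := fun b z => f (lcE_up b z))]
  refine Finset.sum_nbij' (fun y => (![y 0, y 1, y 2, y 4, y 5, y 6, y 7], (y 8, y 9)))
    (fun p => lcE_up p.1 p.2) ?_ ?_ ?_ ?_ ?_
  · intro y hy
    simp only [Finset.mem_filter, Finset.mem_univ, true_and] at hy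
    simp [hy.2]
  · intro p hp
    simp only [Finset.mem_product, Finset.mem_filter, Finset.mem_univ, true_and, and_true] at hp
    simp only [Finset.mem_filter, Finset.mem_univ, true_and]
    refine ⟨?_, by simpa [lcE_up] using hp⟩
    simp [FF, lcE_up]
    field_simp
    ring
  · intro y hy
    simp only [Finset.mem_filter, Finset.mem_univ, true_and] at hy
    obtain ⟨h1, h2⟩ := hy
    have h3 : (y 0 * y 2 - y 4 * y 5 - y 6 * y 9 + y 7 * y 8) / y 1 = y 3 := by
      rw [div_eq_iff h2]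
      unfold FF at h1
      linear_combination h1
    funext j
    fin_cases j <;> simp [lcE_up, h3]
  · intro p hp
    simp only [lcE_up]
    ext j
    · fin_cases j <;> simp
    · simp
    · simp
  · intro y hy
    simp only [Finset.mem_filter, Finset.mem_univ, true_and] at hy
    obtain ⟨h1, h2⟩ := hy
    have h3 : (y 0 * y 2 - y 4 * y 5 - y 6 * y 9 + y 7 * y 8) / y 1 = y 3 := by
      rw [div_eq_iff h2]
      unfold FF at h1
      linear_combination h1
    congr 1
    funext j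
    fin_cases j <;> simp [lcE_up, h3]

/-- leading coefficient -/
private def lcE_A0 (b : Fin 7 → ZMod l) : ZMod l := 4 * b 1 * b 2 + b 6 ^ 2

/-- `EE` in terms of the base -/
private def lcE_E0 (b : Fin 7 → ZMod l) : ZMod l :=
  b 1 * ((b 3 + b 4) ^ 2 - 4 * b 0 * b 2) - b 0 * b 6 ^ 2 + (b 3 + b 4) * b 5 * b 6 - b 2 * b 5 ^ 2

private theorem lcE_DD (b : Fin 7 → ZMod l) (h1 : b 1 ≠ 0) : ∃ d e f : ZMod l, ∀ z : ZMod l × ZMod l,
    DD (lcE_up b z) = lcE_A0 b * z.1 ^ 2 + (-(4 * b 1 * (b 3 + b 4) + 2 * b 5 * b 6)) * z.1 * z.2 +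
      (4 * b 0 * b 1 + b 5 ^ 2) * z.2 ^ 2 + d * z.1 + e * z.2 + f := by
  refine ⟨(-4 * b 1 * b 6 * ((b 3 + b 4) ^ 2 - 4 * b 0 * b 2) + 4 * b 2 * b 5 ^ 2 * b 6
      - 4 * b 1 * b 2 * b 5 * (b 3 - b 4) - 4 * (b 3 + b 4) * b 5 * b 6 ^ 2
      + 2 * (b 3 + b 4) * (b 3 - b 4) * b 1 * b 6 + 4 * b 0 * b 6 ^ 3) / b 1,
    (4 * b 1 * b 5 * ((b 3 + b 4) ^ 2 - 4 * b 0 * b 2) - 4 * b 2 * b 5 ^ 3
      + 4 * (b 3 + b 4) * b 5 ^ 2 * b 6 - 4 * b 0 * b 6 ^ 2 * b 5
      + 2 * (b 3 + b 4) * (b 3 - b 4) * b 1 * b 5 - 4 * b 0 * b 1 * b 6 * (b 3 - b 4)) / b 1,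
    (b 1 * ((b 3 + b 4) ^ 2 - 4 * b 0 * b 2) ^ 2 + 4 * b 2 * (b 0 * b 2 - b 3 * b 4) * b 5 ^ 2
      - 4 * (b 3 + b 4) * (b 0 * b 2 - b 3 * b 4) * b 5 * b 6
      + 4 * b 0 * (b 0 * b 2 - b 3 * b 4) * b 6 ^ 2) / b 1, ?_⟩
  intro z
  rw [DD_expl]
  unfold dV dW KK lcE_A0
  simp [lcE_up]
  field_simp
  ring

private theorem lcE_disc (b : Fin 7 → ZMod l) :
    (-(4 * b 1 * (b 3 + b 4) + 2 * b 5 * b 6)) ^ 2 - 4 * lcE_A0 b * (4 * b 0 * b 1 + b 5 ^ 2) =
      16 * b 1 * lcE_E0 b := by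
  unfold lcE_A0 lcE_E0
  ring

open scoped Classical in
private theorem lcE_badA (h2 : l ≠ 2) :
    ((univ : Finset (Fin 7 → ZMod l)).filter (fun b => b 1 ≠ 0 ∧ lcE_A0 b = 0)).card ≤ l ^ 6 := by
  have hc : ringChar (ZMod l) ≠ 2 := by rw [ZMod.ringChar_zmod_n]; exact h2
  have h20 : (2 : ZMod l) ≠ 0 := Ring.two_ne_zero hc
  have h40 : (4 : ZMod l) ≠ 0 := by
    have : (4 : ZMod l) = 2 * 2 := by norm_num
    rw [this]
    exact mul_ne_zero h20 h20
  have hcard : (univ : Finset (Fin 6 → ZMod l)).card = l ^ 6 := by simp [ZMod.card]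
  rw [← hcard]
  apply Finset.card_le_card_of_injOn (fun b => ![b 0, b 1, b 3, b 4, b 5, b 6])
  · intro b _
    simp
  · intro b hb b' hb' h
    simp only [Finset.coe_filter, Finset.mem_univ, true_and, Set.mem_ofPred_eq] at hb hb'
    have e0 : b 0 = b' 0 := congrFun h 0
    have e1 : b 1 = b' 1 := congrFun h 1
    have e3 : b 3 = b' 3 := congrFun h 2
    have e4 : b 4 = b' 4 := congrFun h 3
    have e5 : b 5 = b' 5 := congrFun h 4
    have e6 : b 6 = b' 6 := congrFun h 5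
    have e2 : b 2 = b' 2 := by
      have h3 := hb.2
      have h4 := hb'.2
      unfold lcE_A0 at h3 h4
      rw [← e1, ← e6] at h4
      have h5 : (4 * b 1) * (b 2 - b' 2) = 0 := by linear_combination h3 - h4
      rcases mul_eq_zero.mp h5 with h6 | h6
      · exact absurd h6 (mul_ne_zero h40 hb.1)
      · linear_combination h6
    funext j
    fin_cases j <;> assumption

open scoped Classical in
private theorem lcE_badE :
    ((univ : Finset (Fin 7 → ZMod l)).filter (fun b => lcE_A0 b ≠ 0 ∧ lcE_E0 b = 0)).card ≤ l ^ 6 := by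
  have hcard : (univ : Finset (Fin 6 → ZMod l)).card = l ^ 6 := by simp [ZMod.card]
  rw [← hcard]
  apply Finset.card_le_card_of_injOn (fun b => ![b 1, b 2, b 3, b 4, b 5, b 6])
  · intro b _
    simp
  · intro b hb b' hb' h
    simp only [Finset.coe_filter, Finset.mem_univ, true_and, Set.mem_ofPred_eq] at hb hb'
    have e1 : b 1 = b' 1 := congrFun h 0
    have e2 : b 2 = b' 2 := congrFun h 1
    have e3 : b 3 = b' 3 := congrFun h 2
    have e4 : b 4 = b' 4 := congrFun h 3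
    have e5 : b 5 = b' 5 := congrFun h 4
    have e6 : b 6 = b' 6 := congrFun h 5
    have e0 : b 0 = b' 0 := by
      have h3 := hb.2
      have h4 := hb'.2
      have h7 := hb.1
      unfold lcE_E0 at h3 h4
      unfold lcE_A0 at h7
      rw [← e1, ← e2, ← e3, ← e4, ← e5, ← e6] at h4
      have h5 : (4 * b 1 * b 2 + b 6 ^ 2) * (b 0 - b' 0) = 0 := by linear_combination h4 - h3
      rcases mul_eq_zero.mp h5 with h6 | h6
      · exact absurd h6 h7
      · linear_combination h6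
    funext j
    fin_cases j <;> assumption

open scoped Classical in
private theorem lcE_V2 [NeZero l] : ((VM l).filter (fun y => ¬ y 1 ≠ 0)).card ≤ l ^ 8 := by
  have hcard : (univ : Finset (Fin 8 → ZMod l)).card = l ^ 8 := by simp [ZMod.card]
  rw [← hcard]
  apply Finset.card_le_card_of_injOn
    (fun y => ![y 0, y 2, y 3, y 4, y 5, y 6, y 7, if y 6 ≠ 0 then y 8 else y 9])
  · intro b _
    simp
  · intro y hy y' hy' h
    simp only [Finset.coe_filter, mem_VM, Set.mem_ofPred_eq, not_not] at hy hy'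
    have e0 : y 0 = y' 0 := congrFun h 0
    have e2 : y 2 = y' 2 := congrFun h 1
    have e3 : y 3 = y' 3 := congrFun h 2
    have e4 : y 4 = y' 4 := congrFun h 3
    have e5 : y 5 = y' 5 := congrFun h 4
    have e6 : y 6 = y' 6 := congrFun h 5
    have e7 : y 7 = y' 7 := congrFun h 6
    have e89 : (if y 6 ≠ 0 then y 8 else y 9) = (if y' 6 ≠ 0 then y' 8 else y' 9) := congrFun h 7
    obtain ⟨⟨hF, hU⟩, h1⟩ := hy
    obtain ⟨⟨hF', -⟩, h1'⟩ := hy'
    have e1 : y 1 = y' 1 := by rw [h1, h1']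
    unfold FF at hF hF'
    rw [← e0, ← e1, ← e2, ← e3, ← e4, ← e5, ← e6, ← e7] at hF'
    rw [← e6] at e89
    have e8' : y 8 = y' 8 ∧ y 9 = y' 9 := by
      by_cases h6 : y 6 = 0
      · simp only [h6, ne_eq, not_true_eq_false, if_false] at e89
        refine ⟨?_, e89⟩
        have h7 : y 7 ≠ 0 := by
          intro h7
          obtain ⟨a, b, c, hu⟩ := hU
          rw [h1, h6, h7] at hu
          simp at hu
        rw [← e89] at hF'
        have h8 : y 7 * (y 8 - y' 8) = 0 := by linear_combination hF - hF'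
        rcases mul_eq_zero.mp h8 with h9 | h9
        · exact absurd h9 h7
        · linear_combination h9
      · simp only [h6, ne_eq, not_false_eq_true, if_true] at e89
        refine ⟨e89, ?_⟩
        rw [← e89] at hF'
        have h8 : y 6 * (y 9 - y' 9) = 0 := by linear_combination hF' - hF
        rcases mul_eq_zero.mp h8 with h9 | h9
        · exact absurd h9 h6
        · linear_combination h9
    obtain ⟨e8, e9⟩ := e8'
    funext j
    fin_cases j <;> assumption

open scoped Classical in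
private theorem lcE_main [NeZero l] (h2 : l ≠ 2) (K : ℤ) (hK : 0 ≤ K) (f : (Fin 10 → ZMod l) → ℤ)
    (hf : ∀ y, |f y| ≤ 1)
    (h : ∀ b : Fin 7 → ZMod l, b 1 ≠ 0 → lcE_A0 b ≠ 0 → lcE_E0 b ≠ 0 →
      |∑ z : ZMod l × ZMod l, f (lcE_up b z)| ≤ K * l) :
    |∑ y ∈ VM l, f y| ≤ (K + 3) * l ^ 8 := by
  have hl0 : (0 : ℤ) ≤ l := by positivity
  have hS : (VM l).filter (fun y => y 1 ≠ 0) =
      (univ : Finset (Fin 10 → ZMod l)).filter (fun y => FF y = 0 ∧ y 1 ≠ 0) := by
    ext y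
    simp only [Finset.mem_filter, mem_VM, Finset.mem_univ, true_and]
    constructor
    · rintro ⟨⟨h1, -⟩, h3⟩
      exact ⟨h1, h3⟩
    · rintro ⟨h1, h3⟩
      exact ⟨⟨h1, (y 1)⁻¹, 0, 0, by rw [inv_mul_cancel₀ h3]; ring⟩, h3⟩
  have hsplit : ∑ y ∈ VM l, f y = ∑ y ∈ (VM l).filter (fun y => y 1 ≠ 0), f y +
      ∑ y ∈ (VM l).filter (fun y => ¬ y 1 ≠ 0), f y :=
    (Finset.sum_filter_add_sum_filter_not _ _ _).symm
  have hV2 : |∑ y ∈ (VM l).filter (fun y => ¬ y 1 ≠ 0), f y| ≤ (l : ℤ) ^ 8 := by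
    calc _ ≤ ∑ y ∈ (VM l).filter (fun y => ¬ y 1 ≠ 0), |f y| := Finset.abs_sum_le_sum_abs _ _
      _ ≤ ∑ y ∈ (VM l).filter (fun y => ¬ y 1 ≠ 0), 1 := Finset.sum_le_sum (fun y _ => hf y)
      _ = (((VM l).filter (fun y => ¬ y 1 ≠ 0)).card : ℤ) := by simp
      _ ≤ (l : ℤ) ^ 8 := by exact_mod_cast lcE_V2
  have hV1 : |∑ y ∈ (VM l).filter (fun y => y 1 ≠ 0), f y| ≤ (K + 2) * (l : ℤ) ^ 8 := by
    rw [hS, lcE_sum]
    have hb : ∀ b ∈ (univ : Finset (Fin 7 → ZMod l)).filter (fun b => b 1 ≠ 0),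
        |∑ z : ZMod l × ZMod l, f (lcE_up b z)| ≤ K * l +
          (if b 1 ≠ 0 ∧ lcE_A0 b = 0 then (l : ℤ) ^ 2 else 0) +
          (if lcE_A0 b ≠ 0 ∧ lcE_E0 b = 0 then (l : ℤ) ^ 2 else 0) := by
      intro b hb
      simp only [Finset.mem_filter, Finset.mem_univ, true_and] at hb
      have htriv : |∑ z : ZMod l × ZMod l, f (lcE_up b z)| ≤ (l : ℤ) ^ 2 := by
        calc _ ≤ ∑ z : ZMod l × ZMod l, |f (lcE_up b z)| := Finset.abs_sum_le_sum_abs _ _
          _ ≤ ∑ z : ZMod l × ZMod l, 1 := Finset.sum_le_sum (fun y _ => hf _)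
          _ = (l : ℤ) ^ 2 := by simp [ZMod.card, sq]
      have hKl : 0 ≤ K * (l : ℤ) := mul_nonneg hK hl0
      by_cases hA : lcE_A0 b = 0
      · rw [if_pos ⟨hb, hA⟩, if_neg (fun h => h.1 hA)]
        linarith
      · rw [if_neg (fun h => hA h.2)]
        by_cases hE : lcE_E0 b = 0
        · rw [if_pos ⟨hA, hE⟩]
          linarith
        · rw [if_neg (fun h => hE h.2)]
          linarith [h b hb hA hE]
    calc _ ≤ ∑ b ∈ (univ : Finset (Fin 7 → ZMod l)).filter (fun b => b 1 ≠ 0),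
          |∑ z : ZMod l × ZMod l, f (lcE_up b z)| := Finset.abs_sum_le_sum_abs _ _
      _ ≤ ∑ b ∈ (univ : Finset (Fin 7 → ZMod l)).filter (fun b => b 1 ≠ 0), (K * l +
          (if b 1 ≠ 0 ∧ lcE_A0 b = 0 then (l : ℤ) ^ 2 else 0) +
          (if lcE_A0 b ≠ 0 ∧ lcE_E0 b = 0 then (l : ℤ) ^ 2 else 0)) := Finset.sum_le_sum hb
      _ ≤ ∑ b : Fin 7 → ZMod l, (K * l +
          (if b 1 ≠ 0 ∧ lcE_A0 b = 0 then (l : ℤ) ^ 2 else 0) +
          (if lcE_A0 b ≠ 0 ∧ lcE_E0 b = 0 then (l : ℤ) ^ 2 else 0)) := by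
        apply Finset.sum_le_sum_of_subset_of_nonneg (Finset.subset_univ _)
        intro b _ _
        have hKl : 0 ≤ K * (l : ℤ) := mul_nonneg hK hl0
        have : (0 : ℤ) ≤ (l : ℤ) ^ 2 := by positivity
        split_ifs <;> linarith
      _ = (l : ℤ) ^ 7 * (K * l) +
          ((univ : Finset (Fin 7 → ZMod l)).filter (fun b => b 1 ≠ 0 ∧ lcE_A0 b = 0)).card * (l : ℤ) ^ 2 +
          ((univ : Finset (Fin 7 → ZMod l)).filter (fun b => lcE_A0 b ≠ 0 ∧ lcE_E0 b = 0)).card * (l : ℤ) ^ 2 := by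
        rw [Finset.sum_add_distrib, Finset.sum_add_distrib, ← Finset.sum_filter, ← Finset.sum_filter]
        simp only [Finset.sum_const, nsmul_eq_mul]
        simp [ZMod.card]
      _ ≤ (l : ℤ) ^ 7 * (K * l) + (l : ℤ) ^ 6 * (l : ℤ) ^ 2 + (l : ℤ) ^ 6 * (l : ℤ) ^ 2 := by
        have hA : (((univ : Finset (Fin 7 → ZMod l)).filter (fun b => b 1 ≠ 0 ∧ lcE_A0 b = 0)).card : ℤ)
            ≤ (l : ℤ) ^ 6 := by exact_mod_cast lcE_badA h2
        have hE : (((univ : Finset (Fin 7 → ZMod l)).filter (fun b => lcE_A0 b ≠ 0 ∧ lcE_E0 b = 0)).card : ℤ)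
            ≤ (l : ℤ) ^ 6 := by exact_mod_cast lcE_badE
        gcongr
      _ = (K + 2) * (l : ℤ) ^ 8 := by ring
  rw [hsplit]
  calc _ ≤ |∑ y ∈ (VM l).filter (fun y => y 1 ≠ 0), f y| +
      |∑ y ∈ (VM l).filter (fun y => ¬ y 1 ≠ 0), f y| := abs_add_le _ _
    _ ≤ (K + 2) * (l : ℤ) ^ 8 + (l : ℤ) ^ 8 := add_le_add hV1 hV2
    _ = (K + 3) * l ^ 8 := by ring

end

theorem lcE {l : ℕ} [NeZero l] [Fact l.Prime] (h2 : l ≠ 2) :
    |∑ y ∈ VM l, ((quadraticChar (ZMod l) (DD y) : ℤ) : ℝ)| ≤ 7 * (l : ℝ) ^ 8 := by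
  classical
  have hc : ringChar (ZMod l) ≠ 2 := by rw [ZMod.ringChar_zmod_n]; exact h2
  have h20 : (2 : ZMod l) ≠ 0 := Ring.two_ne_zero hc
  have h160 : (16 : ZMod l) ≠ 0 := by
    have : (16 : ZMod l) = 2 ^ 4 := by norm_num
    rw [this]
    exact pow_ne_zero _ h20
  have h1 := lcE_main h2 3 (by norm_num) (fun y => quadraticChar (ZMod l) (DD y))
    (fun y => lcE_abs _) (by
      intro b hb1 hA hE
      obtain ⟨d, e, f, hdef⟩ := lcE_DD b hb1
      simp_rw [hdef]
      apply lcE_quad2 h2 _ _ _ _ _ _ hA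
      rw [lcE_disc]
      exact mul_ne_zero (mul_ne_zero h160 hb1) hE)
  have h3 : (|∑ y ∈ VM l, ((quadraticChar (ZMod l) (DD y) : ℤ) : ℝ)| : ℝ) ≤ ((3 + 3) * (l : ℝ) ^ 8) := by
    exact_mod_cast h1
  have hl0 : (0 : ℝ) ≤ (l : ℝ) ^ 8 := by positivity
  linarith

open scoped Classical in
theorem lcF {l : ℕ} [NeZero l] [Fact l.Prime] (h2 : l ≠ 2) :
    ((VM l).filter (fun y => DD y = 0)).card ≤ 6 * l ^ 8 := by
  have h1 := lcE_main h2 2 (by norm_num) (fun y => if DD y = 0 then 1 else 0)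
    (fun y => by split_ifs <;> simp) (by
      intro b hb1 hA hE
      obtain ⟨d, e, f, hdef⟩ := lcE_DD b hb1
      simp_rw [hdef]
      have h3 := lcE_zeros (lcE_A0 b) (-(4 * b 1 * (b 3 + b 4) + 2 * b 5 * b 6)) (4 * b 0 * b 1 + b 5 ^ 2) d e f hA
      rw [Finset.sum_boole, abs_of_nonneg (by positivity)]
      exact_mod_cast h3)
  rw [Finset.sum_boole, abs_of_nonneg (by positivity)] at h1
  have h4 : (((VM l).filter (fun y => DD y = 0)).card : ℤ) ≤ ((6 * l ^ 8 : ℕ) : ℤ) := by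
    push_cast
    have hl0 : (0 : ℤ) ≤ (l : ℤ) ^ 8 := by positivity
    linarith
  exact_mod_cast h4

end Pool.Agent.PP5LB
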