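import Mathlib

set_option autoImplicit false

/-!
# LcQ: quadratic polynomials in two variables modulo `l` and `l²` (size 4)

`G u v = a u² + b u v + c v² + d u + e v + f`.
PROOF of `lcQ1` (a nonzero quadratic polynomial over the field `ZMod l` has at most `2 l` zeros): if `a ≠ 0`, for every `v`
at most two `u`; if `a = 0`, `c ≠ 0`: the same with `u, v` exchanged; if `a = c = 0`, `b ≠ 0`: `G = (b v + d) u + (e v + f)`:
for `v ≠ -d/b` one `u`, for `v = -d/b` at most `l`: `≤ 2l - 1`; if `a = b = c = 0`: `d ≠ 0` or `e ≠ 0`: `l` zeros (or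
`f ≠ 0`: none).
`lcQ2`: `G ≡ 0` modulo `l²` and the form nondegenerate modulo `l` (`b² - 4 a c` not `0` modulo `l`, `l` odd): count in
`{0,..,l²-1}²` (as integers `u, v`).  The zeros modulo `l` are `≤ 2l` (`lcQ1`); write `u = u0 + l u1`, `v = v0 + l v1`,
`G ≡ G(u0,v0) + l (G_u u1 + G_v v1)` modulo `l²`.  If `(G_u, G_v)(u0,v0) ≠ 0` modulo `l`: at most `l` pairs `(u1,v1)`; the
point with `G_u = G_v = 0` is unique (`2a u + b v + d = 0 = b u + 2c v + e`, determinant `4ac - b² ≠ 0`), at most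
`l²` pairs.  Total `≤ 2 l · l + l² = 3 l²`.
`lcQ3`: if the form is not `0` modulo `l`: `≤ 2 l` zeros modulo `l`, each lifts to at most `l²`: `2 l³`.
-/

namespace Pool.Agent.PP5LB

open Finset

private theorem lcQ_root2 {l : ℕ} [Fact l.Prime] [DecidableEq (ZMod l)] {α : ZMod l} (hα : α ≠ 0)
    (β γ : ZMod l) :
    ((univ : Finset (ZMod l)).filter (fun u => α * u ^ 2 + β * u + γ = 0)).card ≤ 2 := by
  classical
  set P : Polynomial (ZMod l) := Polynomial.C α * Polynomial.X ^ 2 + Polynomial.C β * Polynomial.X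
    + Polynomial.C γ with hP
  have hP0 : P ≠ 0 := by
    intro h
    have h1 : P.coeff 2 = 0 := by rw [h]; simp
    rw [hP] at h1
    simp at h1
    exact hα h1
  have hsub : ((univ : Finset (ZMod l)).filter (fun u => α * u ^ 2 + β * u + γ = 0))
      ⊆ P.roots.toFinset := by
    intro u hu
    rw [Multiset.mem_toFinset, Polynomial.mem_roots hP0, Polynomial.IsRoot.def]
    rw [hP]
    simp only [Polynomial.eval_add, Polynomial.eval_mul, Polynomial.eval_C, Polynomial.eval_pow,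
      Polynomial.eval_X]
    exact (Finset.mem_filter.1 hu).2
  calc _ ≤ P.roots.toFinset.card := Finset.card_le_card hsub
    _ ≤ Multiset.card P.roots := Multiset.toFinset_card_le _
    _ ≤ P.natDegree := Polynomial.card_roots' P
    _ ≤ 2 := Polynomial.natDegree_quadratic_le

private theorem lcQ_root1 {l : ℕ} [Fact l.Prime] [DecidableEq (ZMod l)] {β : ZMod l} (hβ : β ≠ 0)
    (γ : ZMod l) :
    ((univ : Finset (ZMod l)).filter (fun u => β * u + γ = 0)).card ≤ 1 := by
  rw [Finset.card_le_one]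
  intro x hx y hy
  have h1 := (Finset.mem_filter.1 hx).2
  have h2 := (Finset.mem_filter.1 hy).2
  have h3 : β * (x - y) = 0 := by linear_combination h1 - h2
  rcases mul_eq_zero.1 h3 with h | h
  · exact absurd h hβ
  · exact sub_eq_zero.1 h

private theorem lcQ_fib {α β : Type*} [Fintype α] [Fintype β] (P : α × β → Prop)
    [DecidablePred P] : ((univ : Finset (α × β)).filter P).card
      = ∑ v : β, ((univ : Finset α).filter (fun u => P (u, v))).card := by
  simp only [Finset.card_filter]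
  exact Fintype.sum_prod_type_right _

private theorem lcQ_fib' {α β : Type*} [Fintype α] [Fintype β] (P : α × β → Prop)
    [DecidablePred P] : ((univ : Finset (α × β)).filter P).card
      = ∑ u : α, ((univ : Finset β).filter (fun v => P (u, v))).card := by
  simp only [Finset.card_filter]
  exact Fintype.sum_prod_type _

open scoped Classical in
theorem lcQ1 {l : ℕ} [Fact l.Prime] (a b c d e f : ZMod l)
    (h : ¬ (a = 0 ∧ b = 0 ∧ c = 0 ∧ d = 0 ∧ e = 0 ∧ f = 0)) :
    ((univ : Finset (ZMod l × ZMod l)).filter (fun z => a * z.1 ^ 2 + b * z.1 * z.2 + c * z.2 ^ 2 +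
      d * z.1 + e * z.2 + f = 0)).card ≤ 2 * l := by
  have hcard : Fintype.card (ZMod l) = l := ZMod.card l
  have hl1 : 1 ≤ l := (Fact.out : l.Prime).one_lt.le
  by_cases ha : a = 0
  swap
  · rw [lcQ_fib]
    calc _ ≤ ∑ v : ZMod l, 2 := by
          refine Finset.sum_le_sum fun v _ => ?_
          refine le_trans (Finset.card_le_card ?_) (lcQ_root2 ha (b * v + d) (c * v ^ 2 + e * v + f))
          intro u hu
          rw [Finset.mem_filter] at hu ⊢
          refine ⟨Finset.mem_univ _, ?_⟩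
          have := hu.2
          simp only at this
          linear_combination this
      _ = 2 * l := by rw [Finset.sum_const, Finset.card_univ, hcard, smul_eq_mul, mul_comm]
  by_cases hc : c = 0
  swap
  · rw [lcQ_fib']
    calc _ ≤ ∑ v : ZMod l, 2 := by
          refine Finset.sum_le_sum fun u _ => ?_
          refine le_trans (Finset.card_le_card ?_) (lcQ_root2 hc (b * u + e) (a * u ^ 2 + d * u + f))
          intro v hv
          rw [Finset.mem_filter] at hv ⊢
          refine ⟨Finset.mem_univ _, ?_⟩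
          have := hv.2
          simp only at this
          linear_combination this
      _ = 2 * l := by rw [Finset.sum_const, Finset.card_univ, hcard, smul_eq_mul, mul_comm]
  subst ha hc
  by_cases hb : b = 0
  swap
  · rw [lcQ_fib, ← Finset.add_sum_erase Finset.univ _ (Finset.mem_univ (-d / b))]
    have h1 : ((univ : Finset (ZMod l)).filter (fun u => (fun z : ZMod l × ZMod l =>
        (0 : ZMod l) * z.1 ^ 2 + b * z.1 * z.2 + 0 * z.2 ^ 2 + d * z.1 + e * z.2 + f = 0)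
          (u, -d / b))).card ≤ l := by
      calc _ ≤ (univ : Finset (ZMod l)).card := Finset.card_filter_le _ _
        _ = l := by rw [Finset.card_univ, hcard]
    have h2 : ∑ v ∈ (univ : Finset (ZMod l)).erase (-d / b),
        ((univ : Finset (ZMod l)).filter (fun u => (fun z : ZMod l × ZMod l =>
        (0 : ZMod l) * z.1 ^ 2 + b * z.1 * z.2 + 0 * z.2 ^ 2 + d * z.1 + e * z.2 + f = 0)
          (u, v))).card ≤ ∑ v ∈ (univ : Finset (ZMod l)).erase (-d / b), 1 := by
      refine Finset.sum_le_sum fun v hv => ?_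
      have hv1 : b * v + d ≠ 0 := by
        intro h0
        apply (Finset.mem_erase.1 hv).1
        rw [eq_div_iff hb]
        linear_combination h0
      refine le_trans (Finset.card_le_card ?_) (lcQ_root1 hv1 (e * v + f))
      intro u hu
      rw [Finset.mem_filter] at hu ⊢
      refine ⟨Finset.mem_univ _, ?_⟩
      have := hu.2
      simp only at this
      linear_combination this
    rw [Finset.sum_const, Finset.card_erase_of_mem (Finset.mem_univ _), Finset.card_univ, hcard,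
      smul_eq_mul, mul_one] at h2
    refine le_trans (Nat.add_le_add h1 h2) ?_
    omega
  subst hb
  by_cases hd : d = 0
  swap
  · rw [lcQ_fib]
    calc _ ≤ ∑ v : ZMod l, 1 := by
          refine Finset.sum_le_sum fun v _ => ?_
          refine le_trans (Finset.card_le_card ?_) (lcQ_root1 hd (e * v + f))
          intro u hu
          rw [Finset.mem_filter] at hu ⊢
          refine ⟨Finset.mem_univ _, ?_⟩
          have := hu.2
          simp only at this
          linear_combination this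
      _ ≤ 2 * l := by
          rw [Finset.sum_const, Finset.card_univ, hcard, smul_eq_mul, mul_one]; omega
  by_cases he : e = 0
  swap
  · rw [lcQ_fib']
    calc _ ≤ ∑ v : ZMod l, 1 := by
          refine Finset.sum_le_sum fun u _ => ?_
          refine le_trans (Finset.card_le_card ?_) (lcQ_root1 he (d * u + f))
          intro v hv
          rw [Finset.mem_filter] at hv ⊢
          refine ⟨Finset.mem_univ _, ?_⟩
          have := hv.2
          simp only at this
          linear_combination this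
      _ ≤ 2 * l := by
          rw [Finset.sum_const, Finset.card_univ, hcard, smul_eq_mul, mul_one]; omega
  subst hd he
  have hf : f ≠ 0 := by
    intro hf
    exact h ⟨rfl, rfl, rfl, rfl, rfl, hf⟩
  rw [Finset.filter_false_of_mem]
  · simp
  · intro z _ hz
    apply hf
    linear_combination hz

private noncomputable def lcQ_r (l : ℕ) : ZMod (l ^ 2) →+* ZMod l :=
  ZMod.castHom (dvd_pow_self l two_ne_zero) (ZMod l)

private theorem lcQ_r_val {l : ℕ} [Fact l.Prime] (v : ZMod (l ^ 2)) :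
    lcQ_r l v = ((v.val : ℕ) : ZMod l) := by
  have : NeZero (l ^ 2) := ⟨pow_ne_zero 2 (Fact.out : l.Prime).ne_zero⟩
  rw [lcQ_r, ZMod.castHom_apply, ZMod.natCast_val]

open scoped Classical in
private theorem lcQ_ker {l : ℕ} [Fact l.Prime] (v0 : ZMod l) :
    ((univ : Finset (ZMod (l ^ 2))).filter (fun v => lcQ_r l v = v0)).card ≤ l := by
  have : NeZero (l ^ 2) := ⟨pow_ne_zero 2 (Fact.out : l.Prime).ne_zero⟩
  have hl : 0 < l := (Fact.out : l.Prime).pos
  have h1 : ∀ v ∈ (univ : Finset (ZMod (l ^ 2))).filter (fun v => lcQ_r l v = v0),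
      v.val / l ∈ Finset.range l := by
    intro v _
    rw [Finset.mem_range]
    have h0 : v.val < l * l := by
      rw [← pow_two]
      exact ZMod.val_lt v
    exact Nat.div_lt_of_lt_mul h0
  have h2 : Set.InjOn (fun v : ZMod (l ^ 2) => v.val / l)
      ((univ : Finset (ZMod (l ^ 2))).filter (fun v => lcQ_r l v = v0)) := by
    intro x hx y hy hxy
    rw [Finset.mem_coe, Finset.mem_filter] at hx hy
    have e1 : ((x.val : ℕ) : ZMod l) = ((y.val : ℕ) : ZMod l) := by
      rw [← lcQ_r_val, ← lcQ_r_val, hx.2, hy.2]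
    rw [ZMod.natCast_eq_natCast_iff] at e1
    apply ZMod.val_injective
    have e2 := Nat.div_add_mod x.val l
    have e3 := Nat.div_add_mod y.val l
    have e4 : x.val % l = y.val % l := e1
    have e5 : x.val / l = y.val / l := hxy
    rw [← e2, ← e3, e4, e5]
  have h3 := Finset.card_le_card_of_injOn (t := Finset.range l) _ h1 h2
  rwa [Finset.card_range] at h3

private theorem lcQ_sq {l : ℕ} [Fact l.Prime] {x : ZMod (l ^ 2)} (hx : lcQ_r l x = 0) :
    x ^ 2 = 0 := by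
  have : NeZero (l ^ 2) := ⟨pow_ne_zero 2 (Fact.out : l.Prime).ne_zero⟩
  rw [lcQ_r_val, ZMod.natCast_eq_zero_iff] at hx
  rw [← ZMod.natCast_zmod_val x, ← Nat.cast_pow, ZMod.natCast_eq_zero_iff]
  exact pow_dvd_pow_of_dvd hx 2

private theorem lcQ_unit {l : ℕ} [Fact l.Prime] {x y : ZMod (l ^ 2)} (hx : lcQ_r l x ≠ 0)
    (h : y * x = 0) : y = 0 := by
  have : NeZero (l ^ 2) := ⟨pow_ne_zero 2 (Fact.out : l.Prime).ne_zero⟩
  have hp : l.Prime := Fact.out
  rw [lcQ_r_val, Ne, ZMod.natCast_eq_zero_iff] at hx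
  have hc : Nat.Coprime x.val (l ^ 2) := by
    apply Nat.Coprime.pow_right
    exact ((Nat.Prime.coprime_iff_not_dvd hp).2 hx).symm
  have hu : IsUnit x := by
    rw [← ZMod.natCast_zmod_val x]
    exact (ZMod.isUnit_iff_coprime _ _).2 hc
  exact (hu.mul_left_eq_zero).1 h

private def lcQ_G {R : Type*} [CommRing R] (a b c d e f : R) (z : R × R) : R :=
  a * z.1 ^ 2 + b * z.1 * z.2 + c * z.2 ^ 2 + d * z.1 + e * z.2 + f

open scoped Classical in
/-- the fibre over a zero with `G_u ≠ 0` -/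
private theorem lcQ_fu {l : ℕ} [Fact l.Prime] (a b c d e f : ℤ) (z0 : ZMod l × ZMod l)
    (h : 2 * (a : ZMod l) * z0.1 + b * z0.2 + d ≠ 0) :
    ((univ : Finset (ZMod (l ^ 2) × ZMod (l ^ 2))).filter (fun z =>
      lcQ_G (a : ZMod (l ^ 2)) b c d e f z = 0 ∧ lcQ_r l z.1 = z0.1 ∧ lcQ_r l z.2 = z0.2)).card
        ≤ l := by
  have : NeZero (l ^ 2) := ⟨pow_ne_zero 2 (Fact.out : l.Prime).ne_zero⟩
  refine le_trans ?_ (lcQ_ker (l := l) z0.2)
  refine Finset.card_le_card_of_injOn (fun z => z.2) ?_ ?_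
  · intro z hz
    rw [Finset.mem_coe, Finset.mem_filter] at hz ⊢
    exact ⟨Finset.mem_univ _, hz.2.2.2⟩
  · rintro ⟨u, v⟩ hx ⟨u', v'⟩ hy hxy
    rw [Finset.mem_coe, Finset.mem_filter] at hx hy
    have e0 : v = v' := hxy
    subst e0
    obtain ⟨-, g1, r1, r2⟩ := hx
    obtain ⟨-, g2, r3, -⟩ := hy
    unfold lcQ_G at g1 g2
    simp only at g1 g2 r1 r2 r3
    have hd : lcQ_r l (u' - u) = 0 := by rw [map_sub, r1, r3, sub_self]
    have hsq := lcQ_sq hd
    have h1 : (u' - u) * (2 * (a : ZMod (l ^ 2)) * u + b * v + d) = 0 := by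
      linear_combination g2 - g1 - (a : ZMod (l ^ 2)) * hsq
    have h2 : lcQ_r l (2 * (a : ZMod (l ^ 2)) * u + b * v + d) ≠ 0 := by
      rw [map_add, map_add, map_mul, map_mul, map_mul, r1, r2, map_intCast, map_intCast,
        map_intCast, map_ofNat]
      exact h
    have h3 := lcQ_unit h2 h1
    rw [Prod.mk.injEq]
    exact ⟨(sub_eq_zero.1 h3).symm, rfl⟩

open scoped Classical in
/-- the fibre over a zero with `G_v ≠ 0` -/
private theorem lcQ_fv {l : ℕ} [Fact l.Prime] (a b c d e f : ℤ) (z0 : ZMod l × ZMod l)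
    (h : (b : ZMod l) * z0.1 + 2 * c * z0.2 + e ≠ 0) :
    ((univ : Finset (ZMod (l ^ 2) × ZMod (l ^ 2))).filter (fun z =>
      lcQ_G (a : ZMod (l ^ 2)) b c d e f z = 0 ∧ lcQ_r l z.1 = z0.1 ∧ lcQ_r l z.2 = z0.2)).card
        ≤ l := by
  have : NeZero (l ^ 2) := ⟨pow_ne_zero 2 (Fact.out : l.Prime).ne_zero⟩
  refine le_trans ?_ (lcQ_ker (l := l) z0.1)
  refine Finset.card_le_card_of_injOn (fun z => z.1) ?_ ?_
  · intro z hz
    rw [Finset.mem_coe, Finset.mem_filter] at hz ⊢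
    exact ⟨Finset.mem_univ _, hz.2.2.1⟩
  · rintro ⟨u, v⟩ hx ⟨u', v'⟩ hy hxy
    rw [Finset.mem_coe, Finset.mem_filter] at hx hy
    have e0 : u = u' := hxy
    subst e0
    obtain ⟨-, g1, r1, r2⟩ := hx
    obtain ⟨-, g2, -, r3⟩ := hy
    unfold lcQ_G at g1 g2
    simp only at g1 g2 r1 r2 r3
    have hd : lcQ_r l (v' - v) = 0 := by rw [map_sub, r2, r3, sub_self]
    have hsq := lcQ_sq hd
    have h1 : (v' - v) * ((b : ZMod (l ^ 2)) * u + 2 * c * v + e) = 0 := by
      linear_combination g2 - g1 - (c : ZMod (l ^ 2)) * hsq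
    have h2 : lcQ_r l ((b : ZMod (l ^ 2)) * u + 2 * c * v + e) ≠ 0 := by
      rw [map_add, map_add, map_mul, map_mul, map_mul, r1, r2, map_intCast, map_intCast,
        map_intCast, map_ofNat]
      exact h
    have h3 := lcQ_unit h2 h1
    rw [Prod.mk.injEq]
    exact ⟨rfl, (sub_eq_zero.1 h3).symm⟩

open scoped Classical in
/-- every fibre -/
private theorem lcQ_fa {l : ℕ} [Fact l.Prime] (a b c d e f : ℤ) (z0 : ZMod l × ZMod l) :
    ((univ : Finset (ZMod (l ^ 2) × ZMod (l ^ 2))).filter (fun z =>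
      lcQ_G (a : ZMod (l ^ 2)) b c d e f z = 0 ∧ lcQ_r l z.1 = z0.1 ∧ lcQ_r l z.2 = z0.2)).card
        ≤ l ^ 2 := by
  have : NeZero (l ^ 2) := ⟨pow_ne_zero 2 (Fact.out : l.Prime).ne_zero⟩
  calc _ ≤ (((univ : Finset (ZMod (l ^ 2))).filter (fun v => lcQ_r l v = z0.1)) ×ˢ
        ((univ : Finset (ZMod (l ^ 2))).filter (fun v => lcQ_r l v = z0.2))).card := by
        refine Finset.card_le_card fun z hz => ?_
        rw [Finset.mem_filter] at hz
        rw [Finset.mem_product, Finset.mem_filter, Finset.mem_filter]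
        exact ⟨⟨Finset.mem_univ _, hz.2.2.1⟩, ⟨Finset.mem_univ _, hz.2.2.2⟩⟩
    _ ≤ l * l := by
        rw [Finset.card_product]
        exact Nat.mul_le_mul (lcQ_ker _) (lcQ_ker _)
    _ = l ^ 2 := by ring

open scoped Classical in
private theorem lcQ_total {l : ℕ} [Fact l.Prime] (a b c d e f : ℤ) :
    ((univ : Finset (ZMod (l ^ 2) × ZMod (l ^ 2))).filter (fun z =>
      lcQ_G (a : ZMod (l ^ 2)) b c d e f z = 0)).card
      = ∑ z0 ∈ (univ : Finset (ZMod l × ZMod l)).filter (fun z0 =>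
          lcQ_G (a : ZMod l) b c d e f z0 = 0),
        ((univ : Finset (ZMod (l ^ 2) × ZMod (l ^ 2))).filter (fun z =>
      lcQ_G (a : ZMod (l ^ 2)) b c d e f z = 0 ∧ lcQ_r l z.1 = z0.1 ∧
        lcQ_r l z.2 = z0.2)).card := by
  have : NeZero (l ^ 2) := ⟨pow_ne_zero 2 (Fact.out : l.Prime).ne_zero⟩
  have hmap : ∀ z ∈ (univ : Finset (ZMod (l ^ 2) × ZMod (l ^ 2))).filter (fun z =>
      lcQ_G (a : ZMod (l ^ 2)) b c d e f z = 0), (lcQ_r l z.1, lcQ_r l z.2) ∈
      (univ : Finset (ZMod l × ZMod l)).filter (fun z0 =>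
          lcQ_G (a : ZMod l) b c d e f z0 = 0) := by
    intro z hz
    rw [Finset.mem_filter] at hz ⊢
    refine ⟨Finset.mem_univ _, ?_⟩
    have h1 := congrArg (lcQ_r l) hz.2
    unfold lcQ_G at h1 ⊢
    simpa only [map_add, map_mul, map_pow, map_intCast, map_zero] using h1
  rw [Finset.card_eq_sum_card_fiberwise hmap]
  refine Finset.sum_congr rfl fun z0 _ => ?_
  rw [Finset.filter_filter]
  congr 1
  refine Finset.filter_congr fun z _ => ?_
  rw [Prod.ext_iff]

open scoped Classical in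
theorem lcQ2 {l : ℕ} [Fact l.Prime] (hl : l ≠ 2) (a b c d e f : ℤ)
    (h : ¬ (l : ℤ) ∣ b ^ 2 - 4 * a * c) :
    ((univ : Finset (ZMod (l ^ 2) × ZMod (l ^ 2))).filter (fun z => (a : ZMod (l ^ 2)) * z.1 ^ 2 +
      b * z.1 * z.2 + c * z.2 ^ 2 + d * z.1 + e * z.2 + f = 0)).card ≤ 3 * l ^ 2 := by
  have hdet : (b : ZMod l) ^ 2 - 4 * a * c ≠ 0 := by
    intro h0
    apply h
    rw [← ZMod.intCast_zmod_eq_zero_iff_dvd]
    push_cast
    exact h0
  have hnz : ¬ ((a : ZMod l) = 0 ∧ (b : ZMod l) = 0 ∧ (c : ZMod l) = 0 ∧ (d : ZMod l) = 0 ∧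
      (e : ZMod l) = 0 ∧ (f : ZMod l) = 0) := by
    rintro ⟨h1, h2, -⟩
    apply hdet
    rw [h1, h2]; ring
  have hQ1 := lcQ1 (l := l) (a : ZMod l) b c d e f hnz
  have htot := lcQ_total (l := l) a b c d e f
  unfold lcQ_G at htot
  rw [htot]
  set Z := (univ : Finset (ZMod l × ZMod l)).filter (fun z0 => (a : ZMod l) * z0.1 ^ 2 +
      b * z0.1 * z0.2 + c * z0.2 ^ 2 + d * z0.1 + e * z0.2 + f = 0) with hZ
  set S := Z.filter (fun z0 => 2 * (a : ZMod l) * z0.1 + b * z0.2 + d = 0 ∧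
      (b : ZMod l) * z0.1 + 2 * c * z0.2 + e = 0) with hS
  have hS1 : S.card ≤ 1 := by
    rw [Finset.card_le_one]
    intro x hx y hy
    rw [hS, Finset.mem_filter] at hx hy
    obtain ⟨-, x1, x2⟩ := hx
    obtain ⟨-, y1, y2⟩ := hy
    have e1 : ((b : ZMod l) ^ 2 - 4 * a * c) * (x.1 - y.1) = 0 := by
      linear_combination (b : ZMod l) * (x2 - y2) - 2 * c * (x1 - y1)
    have e2 : ((b : ZMod l) ^ 2 - 4 * a * c) * (x.2 - y.2) = 0 := by
      linear_combination (b : ZMod l) * (x1 - y1) - 2 * a * (x2 - y2)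
    refine Prod.ext ?_ ?_
    · exact sub_eq_zero.1 ((mul_eq_zero.1 e1).resolve_left hdet)
    · exact sub_eq_zero.1 ((mul_eq_zero.1 e2).resolve_left hdet)
  have hsplit := Finset.sum_filter_add_sum_filter_not Z (fun z0 =>
    2 * (a : ZMod l) * z0.1 + b * z0.2 + d = 0 ∧ (b : ZMod l) * z0.1 + 2 * c * z0.2 + e = 0)
    (fun z0 => ((univ : Finset (ZMod (l ^ 2) × ZMod (l ^ 2))).filter (fun z =>
      (a : ZMod (l ^ 2)) * z.1 ^ 2 + b * z.1 * z.2 + c * z.2 ^ 2 + d * z.1 + e * z.2 + f = 0 ∧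
        lcQ_r l z.1 = z0.1 ∧ lcQ_r l z.2 = z0.2)).card)
  rw [← hsplit]
  have b1 : ∑ z0 ∈ S, ((univ : Finset (ZMod (l ^ 2) × ZMod (l ^ 2))).filter (fun z =>
      (a : ZMod (l ^ 2)) * z.1 ^ 2 + b * z.1 * z.2 + c * z.2 ^ 2 + d * z.1 + e * z.2 + f = 0 ∧
        lcQ_r l z.1 = z0.1 ∧ lcQ_r l z.2 = z0.2)).card ≤ l ^ 2 := by
    calc _ ≤ ∑ z0 ∈ S, l ^ 2 := Finset.sum_le_sum fun z0 _ => lcQ_fa a b c d e f z0
      _ = S.card * l ^ 2 := by rw [Finset.sum_const, smul_eq_mul]
      _ ≤ 1 * l ^ 2 := Nat.mul_le_mul_right _ hS1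
      _ = l ^ 2 := one_mul _
  have b2 : ∑ z0 ∈ Z.filter (fun z0 => ¬ (2 * (a : ZMod l) * z0.1 + b * z0.2 + d = 0 ∧
      (b : ZMod l) * z0.1 + 2 * c * z0.2 + e = 0)),
      ((univ : Finset (ZMod (l ^ 2) × ZMod (l ^ 2))).filter (fun z =>
      (a : ZMod (l ^ 2)) * z.1 ^ 2 + b * z.1 * z.2 + c * z.2 ^ 2 + d * z.1 + e * z.2 + f = 0 ∧
        lcQ_r l z.1 = z0.1 ∧ lcQ_r l z.2 = z0.2)).card ≤ 2 * l ^ 2 := by
    calc _ ≤ ∑ z0 ∈ Z.filter (fun z0 => ¬ (2 * (a : ZMod l) * z0.1 + b * z0.2 + d = 0 ∧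
      (b : ZMod l) * z0.1 + 2 * c * z0.2 + e = 0)), l := by
          refine Finset.sum_le_sum fun z0 hz0 => ?_
          have h1 := (Finset.mem_filter.1 hz0).2
          by_cases hu : 2 * (a : ZMod l) * z0.1 + b * z0.2 + d = 0
          · have hv : (b : ZMod l) * z0.1 + 2 * c * z0.2 + e ≠ 0 := fun hv => h1 ⟨hu, hv⟩
            exact lcQ_fv a b c d e f z0 hv
          · exact lcQ_fu a b c d e f z0 hu
      _ = (Z.filter (fun z0 => ¬ (2 * (a : ZMod l) * z0.1 + b * z0.2 + d = 0 ∧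
      (b : ZMod l) * z0.1 + 2 * c * z0.2 + e = 0))).card * l := by
          rw [Finset.sum_const, smul_eq_mul]
      _ ≤ (2 * l) * l := Nat.mul_le_mul_right _ (le_trans (Finset.card_filter_le _ _) hQ1)
      _ = 2 * l ^ 2 := by ring
  refine le_trans (Nat.add_le_add b1 b2) ?_
  omega

open scoped Classical in
theorem lcQ3 {l : ℕ} [Fact l.Prime] (a b c d e f : ℤ)
    (h : ¬ ((l : ℤ) ∣ a ∧ (l : ℤ) ∣ b ∧ (l : ℤ) ∣ c)) :
    ((univ : Finset (ZMod (l ^ 2) × ZMod (l ^ 2))).filter (fun z => (a : ZMod (l ^ 2)) * z.1 ^ 2 +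
      b * z.1 * z.2 + c * z.2 ^ 2 + d * z.1 + e * z.2 + f = 0)).card ≤ 2 * l ^ 3 := by
  have hnz : ¬ ((a : ZMod l) = 0 ∧ (b : ZMod l) = 0 ∧ (c : ZMod l) = 0 ∧ (d : ZMod l) = 0 ∧
      (e : ZMod l) = 0 ∧ (f : ZMod l) = 0) := by
    rintro ⟨h1, h2, h3, -⟩
    apply h
    exact ⟨(ZMod.intCast_zmod_eq_zero_iff_dvd _ _).1 h1, (ZMod.intCast_zmod_eq_zero_iff_dvd _ _).1 h2,
      (ZMod.intCast_zmod_eq_zero_iff_dvd _ _).1 h3⟩
  have hQ1 := lcQ1 (l := l) (a : ZMod l) b c d e f hnz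
  have htot := lcQ_total (l := l) a b c d e f
  unfold lcQ_G at htot
  rw [htot]
  calc _ ≤ ∑ z0 ∈ (univ : Finset (ZMod l × ZMod l)).filter (fun z0 => (a : ZMod l) * z0.1 ^ 2 +
      b * z0.1 * z0.2 + c * z0.2 ^ 2 + d * z0.1 + e * z0.2 + f = 0), l ^ 2 :=
        Finset.sum_le_sum fun z0 _ => lcQ_fa a b c d e f z0
    _ = ((univ : Finset (ZMod l × ZMod l)).filter (fun z0 => (a : ZMod l) * z0.1 ^ 2 +
      b * z0.1 * z0.2 + c * z0.2 ^ 2 + d * z0.1 + e * z0.2 + f = 0)).card * l ^ 2 := by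
        rw [Finset.sum_const, smul_eq_mul]
    _ ≤ (2 * l) * l ^ 2 := Nat.mul_le_mul_right _ hQ1
    _ = 2 * l ^ 3 := by ring

end Pool.Agent.PP5LB
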