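import Pool.Agent.PP5LB.Fbs

set_option autoImplicit false

/-!
# Ln6: a set of bases with few points on every line parallel to one axis (size 2)

PROOF. Map `b ∈ S` to `Function.update b j 0`: the image lies in a set with at most `r⁶` elements (the other six
coordinates in intervals with `r` elements), and each fibre of the map has at most `m` elements.
(`Finset.card_le_mul_card_image` or a sum over fibres.)
`cla`: on the line through `b` in direction `j` all the sets `L` of primes are the same, with `≤ k` elements, and for each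
`l ∈ L` the points `b' = update b j t` of `S` with `P l b'` have `t` in one class modulo `l` in an interval of length `r`:
at most `r/l + 1 ≤ r/T + 1` (`ap_card`); so `m = k (r/T + 1)`.
-/

namespace Pool.Agent.PP5LB

open Finset Pool.Agent.PP5L

private theorem Ln6_card (j : Fin 10) (hj : j ≠ 3 ∧ j ≠ 8 ∧ j ≠ 9) :
    (univ.filter (fun i : Fin 10 => ¬(i = 3 ∨ i = 8 ∨ i = 9 ∨ i = j))).card = 6 := by
  revert hj
  revert j
  decide

open scoped Classical in
theorem ln6 {A : Fin 10 → ℤ} {r : ℕ} {j : Fin 10} (hj : j ≠ 3 ∧ j ≠ 8 ∧ j ≠ 9)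
    {S : Finset (Fin 10 → ℤ)} (hS : S ⊆ Bs A r) {m : ℝ} (hm : 0 ≤ m)
    (h : ∀ b ∈ S, ((S.filter (fun b' => Function.update b' j 0 = Function.update b j 0)).card : ℝ) ≤ m) :
    (S.card : ℝ) ≤ m * (r : ℝ) ^ 6 := by
  classical
  set φ : (Fin 10 → ℤ) → (Fin 10 → ℤ) := fun b => Function.update b j 0 with hφ
  have h1 : S.card = ∑ c ∈ S.image φ, (S.filter (fun b' => φ b' = c)).card :=
    Finset.card_eq_sum_card_image φ S
  have h2 : (S.card : ℝ) ≤ m * ((S.image φ).card : ℝ) := by
    rw [h1]
    push_cast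
    calc ∑ c ∈ S.image φ, ((S.filter (fun b' => φ b' = c)).card : ℝ)
        ≤ ∑ _c ∈ S.image φ, m := by
          refine Finset.sum_le_sum fun c hc => ?_
          obtain ⟨b, hb, rfl⟩ := Finset.mem_image.mp hc
          exact h b hb
      _ = m * ((S.image φ).card : ℝ) := by
          rw [Finset.sum_const, nsmul_eq_mul, mul_comm]
  have h3 : S.image φ ⊆ Fintype.piFinset (fun i : Fin 10 => if i = 3 ∨ i = 8 ∨ i = 9 ∨ i = j then
      ({0} : Finset ℤ) else Ico (A i * r) ((A i + 1) * r)) := by
    intro c hc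
    obtain ⟨b, hb, rfl⟩ := Finset.mem_image.mp hc
    have hbB := hS hb
    unfold Bs at hbB
    rw [Finset.mem_filter, Fintype.mem_piFinset] at hbB
    rw [Fintype.mem_piFinset]
    intro i
    have hi := hbB.1 i
    by_cases hij : i = j
    · subst hij
      simp [hφ]
    · simp only [hφ, Function.update_of_ne hij]
      by_cases h3' : i = 3 ∨ i = 8 ∨ i = 9
      · rw [if_pos h3'] at hi
        rw [if_pos (by tauto)]
        exact hi
      · rw [if_neg h3'] at hi
        rw [if_neg (by tauto)]
        exact hi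
  have h4 : (S.image φ).card ≤ r ^ 6 := by
    refine (Finset.card_le_card h3).trans (le_of_eq ?_)
    rw [Fintype.card_piFinset]
    have h5 : ∀ i : Fin 10, (if i = 3 ∨ i = 8 ∨ i = 9 ∨ i = j then
        ({0} : Finset ℤ) else Ico (A i * r) ((A i + 1) * r)).card =
        if i = 3 ∨ i = 8 ∨ i = 9 ∨ i = j then 1 else r := by
      intro i
      split_ifs
      · simp
      · rw [Int.card_Ico]
        have : (A i + 1) * (r : ℤ) - A i * r = r := by ring
        rw [this]
        simp
    rw [Finset.prod_congr rfl (fun i _ => h5 i), Finset.prod_ite, Finset.prod_const_one, one_mul,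
      Finset.prod_const]
    congr 1
    convert Ln6_card j hj
  calc (S.card : ℝ) ≤ m * ((S.image φ).card : ℝ) := h2
    _ ≤ m * (r : ℝ) ^ 6 := by
      refine mul_le_mul_of_nonneg_left ?_ hm
      exact_mod_cast h4

theorem cla {A : Fin 10 → ℤ} {r : ℕ} {j : Fin 10} (hj : j ≠ 3 ∧ j ≠ 8 ∧ j ≠ 9)
    {S : Finset (Fin 10 → ℤ)} (hS : S ⊆ Bs A r) {T k : ℝ} (hT : 1 ≤ T) (hk : 0 ≤ k)
    (L : (Fin 10 → ℤ) → Finset ℕ) (P : ℕ → (Fin 10 → ℤ) → Prop)
    (hLj : ∀ b ∈ S, ∀ b' ∈ S, Function.update b' j 0 = Function.update b j 0 → L b' = L b)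
    (hLk : ∀ b ∈ S, ((L b).card : ℝ) ≤ k) (hLT : ∀ b ∈ S, ∀ l ∈ L b, T ≤ (l : ℝ))
    (hP : ∀ b ∈ S, ∃ l ∈ L b, P l b)
    (hc : ∀ b ∈ S, ∀ b' ∈ S, Function.update b' j 0 = Function.update b j 0 → ∀ l ∈ L b, P l b → P l b' →
      (l : ℤ) ∣ b j - b' j) :
    (S.card : ℝ) ≤ k * (r / T + 1) * (r : ℝ) ^ 6 := by
  classical
  have hT0 : 0 < T := by linarith
  have hm : 0 ≤ (r : ℝ) / T + 1 := by positivity
  refine ln6 hj hS (mul_nonneg hk hm) fun b hb => ?_
  have h1 : S.filter (fun b' => Function.update b' j 0 = Function.update b j 0) ⊆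
      (L b).biUnion (fun l => S.filter (fun b' => Function.update b' j 0 = Function.update b j 0 ∧
        P l b')) := by
    intro b' hb'
    rw [Finset.mem_filter] at hb'
    obtain ⟨l, hl, hPl⟩ := hP b' hb'.1
    rw [hLj b hb b' hb'.1 hb'.2] at hl
    rw [Finset.mem_biUnion]
    exact ⟨l, hl, Finset.mem_filter.mpr ⟨hb'.1, hb'.2, hPl⟩⟩
  have h2 : ∀ l ∈ L b, ((S.filter (fun b' => Function.update b' j 0 = Function.update b j 0 ∧
        P l b')).card : ℝ) ≤ (r : ℝ) / T + 1 := by
    intro l hl
    have hTl := hLT b hb l hl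
    have hl1 : 1 ≤ l := by
      have : (1 : ℝ) ≤ (l : ℝ) := hT.trans hTl
      exact_mod_cast this
    set U := S.filter (fun b' => Function.update b' j 0 = Function.update b j 0 ∧ P l b') with hU
    have hinj : Set.InjOn (fun b' : Fin 10 → ℤ => b' j) (U : Set (Fin 10 → ℤ)) := by
      intro x hx y hy hxy
      rw [Finset.mem_coe, hU, Finset.mem_filter] at hx hy
      have e : Function.update x j 0 = Function.update y j 0 := by rw [hx.2.1, hy.2.1]
      funext i
      by_cases hij : i = j
      · subst hij; exact hxy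
      · have := congrFun e i
        rwa [Function.update_of_ne hij, Function.update_of_ne hij] at this
    have hcard : (U.image (fun b' => b' j)).card = U.card := Finset.card_image_of_injOn hinj
    rw [← hcard]
    have h3 := ap_card' (U.image (fun b' => b' j)) (r : ℝ) l hl1 (Nat.cast_nonneg r) ?_ ?_
    · refine h3.trans ?_
      have : (r : ℝ) / l ≤ r / T := by
        gcongr
      linarith
    · intro x hx y hy
      obtain ⟨b1, hb1, rfl⟩ := Finset.mem_image.mp hx
      obtain ⟨b2, hb2, rfl⟩ := Finset.mem_image.mp hy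
      rw [hU, Finset.mem_filter] at hb1 hb2
      have k1 := hS hb1.1
      have k2 := hS hb2.1
      unfold Bs at k1 k2
      rw [Finset.mem_filter, Fintype.mem_piFinset] at k1 k2
      have m1 := k1.1 j
      have m2 := k2.1 j
      rw [if_neg (by tauto), Finset.mem_Ico] at m1 m2
      have e1 : b1 j - b2 j ≤ (r : ℤ) := by
        have : (A j + 1) * (r : ℤ) = A j * r + r := by ring
        omega
      have e2 : -(r : ℤ) ≤ b1 j - b2 j := by
        have : (A j + 1) * (r : ℤ) = A j * r + r := by ring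
        omega
      rw [abs_le]
      constructor
      · exact_mod_cast e2
      · exact_mod_cast e1
    · intro x hx y hy
      obtain ⟨b1, hb1, rfl⟩ := Finset.mem_image.mp hx
      obtain ⟨b2, hb2, rfl⟩ := Finset.mem_image.mp hy
      rw [hU, Finset.mem_filter] at hb1 hb2
      refine hc b1 hb1.1 b2 hb2.1 (by rw [hb1.2.1, hb2.2.1]) l ?_ hb1.2.2 hb2.2.2
      rw [hLj b hb b1 hb1.1 hb1.2.1]
      exact hl
  calc ((S.filter (fun b' => Function.update b' j 0 = Function.update b j 0)).card : ℝ)
      ≤ (((L b).biUnion (fun l => S.filter (fun b' =>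
        Function.update b' j 0 = Function.update b j 0 ∧ P l b'))).card : ℝ) := by
        exact_mod_cast Finset.card_le_card h1
    _ ≤ ∑ l ∈ L b, ((S.filter (fun b' =>
        Function.update b' j 0 = Function.update b j 0 ∧ P l b')).card : ℝ) := by
        exact_mod_cast Finset.card_biUnion_le
    _ ≤ ∑ _l ∈ L b, ((r : ℝ) / T + 1) := Finset.sum_le_sum h2
    _ = ((L b).card : ℝ) * ((r : ℝ) / T + 1) := by rw [Finset.sum_const, nsmul_eq_mul]
    _ ≤ k * ((r : ℝ) / T + 1) := mul_le_mul_of_nonneg_right (hLk b hb) hm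

end Pool.Agent.PP5LB
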