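import Mathlib

/-!
# LB5, section B: triples with a short vector
-/

set_option autoImplicit false

namespace Pool.Agent.PP5LB

/-- the box of the triples `(x1, x6, x7)` -/
noncomputable def BxT (A1 A6 A7 : ℤ) (r : ℕ) : Finset (ℤ × ℤ × ℤ) :=
  Finset.Ico (A1 * r) ((A1 + 1) * r) ×ˢ Finset.Ico (A6 * r) ((A6 + 1) * r) ×ˢ Finset.Ico (A7 * r) ((A7 + 1) * r)

theorem mem_BxT {A1 A6 A7 : ℤ} {r : ℕ} {x : ℤ × ℤ × ℤ} : x ∈ BxT A1 A6 A7 r ↔
    (A1 * r ≤ x.1 ∧ x.1 < (A1 + 1) * r) ∧ (A6 * r ≤ x.2.1 ∧ x.2.1 < (A6 + 1) * r) ∧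
      (A7 * r ≤ x.2.2 ∧ x.2.2 < (A7 + 1) * r) := by
  simp [BxT]

private theorem Shv_abs {A x : ℤ} {r : ℕ} (h1 : A * r ≤ x) (h2 : x < (A + 1) * r) : |x| ≤ (|A| + 1) * r := by
  have hr : (0 : ℤ) ≤ r := Int.natCast_nonneg _
  have h3 : A * r ≤ |A| * r := mul_le_mul_of_nonneg_right (le_abs_self A) hr
  have h4 : -|A| * r ≤ A * r := mul_le_mul_of_nonneg_right (neg_abs_le A) hr
  rw [abs_le]
  constructor <;> nlinarith

private theorem Shv_fib {A1 A6 A7 : ℤ} {r : ℕ} {u v m : ℤ} (h : u ≠ 0 ∨ v ≠ 0) :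
    ((BxT A1 A6 A7 r).filter (fun x => x.2.2 * u - x.2.1 * v = x.1 * m)).card ≤ r ^ 2 := by
  have hc : ∀ A : ℤ, (Finset.Ico (A * r) ((A + 1) * r)).card = r := by
    intro A
    rw [Int.card_Ico]
    have : (A + 1) * (r : ℤ) - A * r = r := by ring
    rw [this]; simp
  rcases h with h | h
  · have : ((Finset.Ico (A1 * r) ((A1 + 1) * r)) ×ˢ (Finset.Ico (A6 * r) ((A6 + 1) * (r : ℤ)))).card = r ^ 2 := by
      rw [Finset.card_product, hc, hc]; ring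
    rw [← this]
    refine Finset.card_le_card_of_injOn (fun x => (x.1, x.2.1)) ?_ ?_
    · intro x hx
      have hx' := (Finset.mem_filter.mp (Finset.mem_coe.mp hx)).1
      rw [mem_BxT] at hx'
      simp only [Finset.coe_product, Set.mem_prod, Finset.mem_coe, Finset.mem_Ico]
      exact ⟨hx'.1, hx'.2.1⟩
    · rintro ⟨a, b, c⟩ hx ⟨a', b', c'⟩ hy hxy
      have h1 := (Finset.mem_filter.mp (Finset.mem_coe.mp hx)).2
      have h2 := (Finset.mem_filter.mp (Finset.mem_coe.mp hy)).2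
      simp only [Prod.mk.injEq] at hxy
      obtain ⟨rfl, rfl⟩ := hxy
      simp only at h1 h2
      have : c * u = c' * u := by linarith
      rw [mul_right_cancel₀ h this]
  · have : ((Finset.Ico (A1 * r) ((A1 + 1) * r)) ×ˢ (Finset.Ico (A7 * r) ((A7 + 1) * (r : ℤ)))).card = r ^ 2 := by
      rw [Finset.card_product, hc, hc]; ring
    rw [← this]
    refine Finset.card_le_card_of_injOn (fun x => (x.1, x.2.2)) ?_ ?_
    · intro x hx
      have hx' := (Finset.mem_filter.mp (Finset.mem_coe.mp hx)).1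
      rw [mem_BxT] at hx'
      simp only [Finset.coe_product, Set.mem_prod, Finset.mem_coe, Finset.mem_Ico]
      exact ⟨hx'.1, hx'.2.2⟩
    · rintro ⟨a, b, c⟩ hx ⟨a', b', c'⟩ hy hxy
      have h1 := (Finset.mem_filter.mp (Finset.mem_coe.mp hx)).2
      have h2 := (Finset.mem_filter.mp (Finset.mem_coe.mp hy)).2
      simp only [Prod.mk.injEq] at hxy
      obtain ⟨rfl, rfl⟩ := hxy
      simp only at h1 h2
      have : b * v = b' * v := by linarith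
      rw [mul_right_cancel₀ h this]

open Classical in
/-- Few triples `(x1, x6, x7)` of the box have a short vector `(u, v)` with `x1 ∣ x7 u - x6 v`. -/
theorem Shv {A1 : ℤ} (A6 A7 : ℤ) (hA : 1 ≤ A1) {r K : ℕ} (hr : 1 ≤ r) (hK : 1 ≤ K) :
    (((BxT A1 A6 A7 r).filter (fun x => ∃ u v : ℤ, (u ≠ 0 ∨ v ≠ 0) ∧ |u| < K ∧ |v| < K ∧
      x.1 ∣ x.2.2 * u - x.2.1 * v)).card : ℝ) ≤ 12 * (|A6| + |A7| + 2 : ℤ) * K ^ 3 * r ^ 2 := by
  obtain ⟨B, hB⟩ : ∃ B : ℕ, (B : ℤ) = |A6| + |A7| + 2 :=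
    ⟨(|A6| + |A7| + 2).toNat, Int.toNat_of_nonneg (by positivity)⟩
  have hB2 : 2 ≤ B := by have := abs_nonneg A6; have := abs_nonneg A7; omega
  have hrZ : (0 : ℤ) < r := by exact_mod_cast hr
  have hKZ : (0 : ℤ) < K := by exact_mod_cast hK
  set I : Finset (ℤ × ℤ × ℤ) := (Finset.Ioo (-(K : ℤ)) K ×ˢ Finset.Ioo (-(K : ℤ)) K ×ˢ
    Finset.Icc (-((K * B : ℕ) : ℤ)) ((K * B : ℕ) : ℤ)).filter (fun w => w.1 ≠ 0 ∨ w.2.1 ≠ 0) with hI
  have hsub : (BxT A1 A6 A7 r).filter (fun x => ∃ u v : ℤ, (u ≠ 0 ∨ v ≠ 0) ∧ |u| < K ∧ |v| < K ∧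
      x.1 ∣ x.2.2 * u - x.2.1 * v) ⊆
      I.biUnion (fun w => (BxT A1 A6 A7 r).filter (fun x => x.2.2 * w.1 - x.2.1 * w.2.1 = x.1 * w.2.2)) := by
    intro x hx
    obtain ⟨hxB, u, v, huv, hu, hv, m, hm⟩ := Finset.mem_filter.mp hx
    refine Finset.mem_biUnion.mpr ⟨(u, v, m), ?_, Finset.mem_filter.mpr ⟨hxB, hm⟩⟩
    simp only [hI, Finset.mem_filter, Finset.mem_product, Finset.mem_Ioo, Finset.mem_Icc]
    have hu' := abs_lt.mp hu
    have hv' := abs_lt.mp hv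
    refine ⟨⟨⟨hu'.1, hu'.2⟩, ⟨hv'.1, hv'.2⟩, ?_⟩, huv⟩
    rw [mem_BxT] at hxB
    obtain ⟨⟨h1, h1'⟩, ⟨h2, h2'⟩, ⟨h3, h3'⟩⟩ := hxB
    have a6 := Shv_abs h2 h2'
    have a7 := Shv_abs h3 h3'
    have hx1 : (r : ℤ) ≤ x.1 := by nlinarith
    have hmul : |m| * r ≤ ((K * B : ℕ) : ℤ) * r := by
      calc |m| * r ≤ |m| * x.1 := mul_le_mul_of_nonneg_left hx1 (abs_nonneg _)
        _ = |x.1 * m| := by rw [abs_mul, abs_of_nonneg (by linarith : (0 : ℤ) ≤ x.1), mul_comm]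
        _ = |x.2.2 * u - x.2.1 * v| := by rw [hm]
        _ ≤ |x.2.2 * u| + |x.2.1 * v| := abs_sub _ _
        _ = |x.2.2| * |u| + |x.2.1| * |v| := by rw [abs_mul, abs_mul]
        _ ≤ (|A7| + 1) * r * K + (|A6| + 1) * r * K := by
          gcongr
        _ = ((K * B : ℕ) : ℤ) * r := by push_cast; rw [hB]; ring
    have := le_of_mul_le_mul_right hmul hrZ
    exact ⟨(abs_le.mp this).1, (abs_le.mp this).2⟩
  have hIc : I.card ≤ 12 * B * K ^ 3 := by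
    refine (Finset.card_filter_le _ _).trans ?_
    rw [Finset.card_product, Finset.card_product, Int.card_Ioo, Int.card_Icc]
    have e1 : ((K : ℤ) - -(K : ℤ) - 1).toNat = 2 * K - 1 := by omega
    have e2 : (((K * B : ℕ) : ℤ) + 1 - -((K * B : ℕ) : ℤ)).toNat = 2 * (K * B) + 1 := by omega
    rw [e1, e2]
    have h1 : 2 * K - 1 ≤ 2 * K := by omega
    have h2 : 2 * (K * B) + 1 ≤ 3 * (K * B) := by
      have : 1 ≤ K * B := Nat.mul_pos (by omega) (by omega)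
      omega
    calc (2 * K - 1) * ((2 * K - 1) * (2 * (K * B) + 1)) ≤ (2 * K) * ((2 * K) * (3 * (K * B))) := by gcongr
      _ = 12 * B * K ^ 3 := by ring
  have hfin : ((BxT A1 A6 A7 r).filter (fun x => ∃ u v : ℤ, (u ≠ 0 ∨ v ≠ 0) ∧ |u| < K ∧ |v| < K ∧
      x.1 ∣ x.2.2 * u - x.2.1 * v)).card ≤ 12 * B * K ^ 3 * r ^ 2 := by
    refine (Finset.card_le_card hsub).trans ((Finset.card_biUnion_le_card_mul _ _ (r ^ 2) ?_).trans ?_)
    · rintro ⟨u, v, m⟩ hw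
      exact Shv_fib (Finset.mem_filter.mp hw).2
    · exact Nat.mul_le_mul_right _ hIc
  have hBR : ((|A6| + |A7| + 2 : ℤ) : ℝ) = B := by rw [← hB]; simp
  rw [hBR]
  exact_mod_cast hfin

end Pool.Agent.PP5LB
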