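import Pool.Agent.PP5LB.Eqd
import Pool.Agent.PP5LB.Vlo

set_option autoImplicit false

/-!
# Sml: removal at the small primes `w < l ≤ r^(1/100)` (size 4)

PROOF. Let `W = Wf w`, a prime `l > w` is prime to `W` (`W = 4 primorial w`, `l ≥ 3`), and `W l² ≤ r` for `r ≥ r0(w)`.
`X = XC A r W c` and `x ∈ X` with `P l (red l x)` lies in one of the sets `{x ∈ X : red l x = y}`, `y ∈ VM l`, `P l y`
(`red_mem_VM`), at most `C0 l⁷` values `y`; by `eqd` and `vlo_prime` each set has at most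
`#X/#VM l + C r^(31/4) ≤ 2 l^(-9) #X + C r^(31/4)` elements.  Sum over the primes `w < l ≤ Z = r^(1/100)`:
`2 C0 #X ∑_{l > w} l^(-2) + C0 C r^(31/4) Z⁸ ≤ (2 C0/w) #X + C0 C r^(31/4 + 8/100)` (`∑_{n > w} 1/n² ≤ 1/w`).
`sml2`: the same with the modulus `l²`: `C0 l^16 (2 l^(-18) #X + C r^(31/4))`, `31/4 + 17/100 < 159/20`.
(`NeZero (l^2)`: from `l.Prime`.)  The union over `l` by `Finset.card_biUnion_le`.
-/

namespace Pool.Agent.PP5LB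

open Finset Pool.Agent.PP5L

open scoped Classical in
private theorem Sml_one {A : Fin 10 → ℤ} {C : ℝ} {r W q : ℕ} [NeZero q] {c : Fin 10 → ZMod W}
    (h : ∀ y ∈ VM q, |(((XC A r W c).filter (fun x => red q x = y)).card : ℝ) -
      (XC A r W c).card / (VM q).card| ≤ C * (r : ℝ) ^ (31 / 4 : ℝ))
    (P : (Fin 10 → ZMod q) → Prop) {C0 N l : ℝ} (hN : 0 < N) (hl : 0 < l)
    (hC : 0 ≤ C)
    (h1 : (((VM q).filter (fun y => P y)).card : ℝ) ≤ C0 * N) (h2 : N * l ^ 2 / 2 ≤ (VM q).card) :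
    (((XC A r W c).filter (fun x => P (red q x))).card : ℝ) ≤
      2 * C0 / l ^ 2 * (XC A r W c).card + C0 * C * N * (r : ℝ) ^ (31 / 4 : ℝ) := by
  have hsub : (XC A r W c).filter (fun x => P (red q x)) ⊆
      ((VM q).filter (fun y => P y)).biUnion (fun y => (XC A r W c).filter (fun x => red q x = y)) := by
    intro x hx
    rw [Finset.mem_filter] at hx
    rw [Finset.mem_biUnion]
    exact ⟨red q x, Finset.mem_filter.2 ⟨red_mem_VM q (mem_XC.1 hx.1).1, hx.2⟩,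
      Finset.mem_filter.2 ⟨hx.1, rfl⟩⟩
  have h3 : (((XC A r W c).filter (fun x => P (red q x))).card : ℝ) ≤
      ∑ y ∈ (VM q).filter (fun y => P y),
        (((XC A r W c).filter (fun x => red q x = y)).card : ℝ) := by
    have := (Finset.card_le_card hsub).trans Finset.card_biUnion_le
    exact_mod_cast this
  have h4 : ∀ y ∈ (VM q).filter (fun y => P y),
      (((XC A r W c).filter (fun x => red q x = y)).card : ℝ) ≤
      (XC A r W c).card / (VM q).card + C * (r : ℝ) ^ (31 / 4 : ℝ) := by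
    intro y hy
    have h5 := h y (Finset.mem_filter.1 hy).1
    have h6 := (abs_le.1 h5).2
    linarith
  have h5 := h3.trans (Finset.sum_le_sum h4)
  rw [Finset.sum_const, nsmul_eq_mul] at h5
  have hX : (0 : ℝ) ≤ (XC A r W c).card := Nat.cast_nonneg _
  have hr : (0 : ℝ) ≤ (r : ℝ) ^ (31 / 4 : ℝ) := Real.rpow_nonneg (Nat.cast_nonneg _) _
  have hpos : 0 < N * l ^ 2 / 2 := by positivity
  have h6 : ((XC A r W c).card : ℝ) / (VM q).card ≤ (XC A r W c).card / (N * l ^ 2 / 2) :=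
    div_le_div_of_nonneg_left hX hpos h2
  have h7 : ((XC A r W c).card : ℝ) / (VM q).card + C * (r : ℝ) ^ (31 / 4 : ℝ) ≤
      (XC A r W c).card / (N * l ^ 2 / 2) + C * (r : ℝ) ^ (31 / 4 : ℝ) := by linarith
  have h8 : 0 ≤ ((XC A r W c).card : ℝ) / (VM q).card + C * (r : ℝ) ^ (31 / 4 : ℝ) := by positivity
  have hK : (0 : ℝ) ≤ (((VM q).filter (fun y => P y)).card : ℝ) := Nat.cast_nonneg _
  have h9 : 0 ≤ C0 * N := hK.trans h1
  refine h5.trans (((mul_le_mul_of_nonneg_right h1 h8).trans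
    (mul_le_mul_of_nonneg_left h7 h9)).trans (le_of_eq ?_))
  field_simp

open scoped Classical in
private theorem Sml_core {A : Fin 10 → ℤ} {C : ℝ} (hC : 0 ≤ C)
    (hE : ∀ (r W q : ℕ) [NeZero W] [NeZero q],
      Nat.Coprime W q → W * q ≤ r → ∀ c ∈ VM W, ∀ y ∈ VM q,
      |(((XC A r W c).filter (fun x => red q x = y)).card : ℝ) -
        (XC A r W c).card / (VM q).card| ≤ C * (r : ℝ) ^ (31 / 4 : ℝ))
    {w r : ℕ} (hw : 2 ≤ w) (hr : (Wf w) ^ 2 ≤ r) {c : Fin 10 → ZMod (Wf w)} (hc : c ∈ VM (Wf w))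
    (q : ℕ → ℕ) {k : ℕ} (hk : k ≤ 16)
    (hq : ∀ l : ℕ, l.Prime → w < l → q l ≤ l ^ 2 ∧ Nat.Coprime (Wf w) (q l) ∧ q l ≠ 0)
    (P : (l : ℕ) → (Fin 10 → ZMod (q l)) → Prop) {C0 : ℝ} (hC0 : 0 ≤ C0)
    (h1 : ∀ (l : ℕ) [NeZero (q l)], l.Prime → w < l →
      (((VM (q l)).filter (fun y => P l y)).card : ℝ) ≤ C0 * (l : ℝ) ^ k)
    (h2 : ∀ (l : ℕ) [NeZero (q l)], l.Prime → (l : ℝ) ^ (k + 2) / 2 ≤ (VM (q l)).card) :
    (((XC A r (Wf w) c).filter (fun x => ∃ l : ℕ, l.Prime ∧ w < l ∧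
      (l : ℝ) ≤ (r : ℝ) ^ (1 / 100 : ℝ) ∧ P l (red (q l) x))).card : ℝ) ≤
      2 * C0 / w * (XC A r (Wf w) c).card + C0 * C * (r : ℝ) ^ (159 / 20 : ℝ) := by
  have hWpos : 1 ≤ Wf w := Nat.one_le_iff_ne_zero.2 (NeZero.ne _)
  have hr1 : 1 ≤ r := le_trans (Nat.one_le_pow _ _ hWpos) hr
  have hr1' : (1 : ℝ) ≤ r := by exact_mod_cast hr1
  have hr0 : (0 : ℝ) < r := by linarith
  set Z : ℝ := (r : ℝ) ^ (1 / 100 : ℝ) with hZ
  have hZ1 : 1 ≤ Z := Real.one_le_rpow hr1' (by norm_num)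
  have hZ0 : 0 < Z := by linarith
  have hWr : (Wf w : ℝ) ≤ (r : ℝ) ^ (1 / 2 : ℝ) := by
    rw [← Real.sqrt_eq_rpow]
    apply Real.le_sqrt_of_sq_le
    exact_mod_cast hr
  set I : Finset ℕ := (Ioc w ⌊Z⌋₊).filter Nat.Prime with hI
  have hIm : ∀ l ∈ I, l.Prime ∧ w < l ∧ (l : ℝ) ≤ Z := by
    intro l hl
    rw [hI, Finset.mem_filter, Finset.mem_Ioc] at hl
    exact ⟨hl.2, hl.1.1, (Nat.le_floor_iff hZ0.le).1 hl.1.2⟩
  have hsub : (XC A r (Wf w) c).filter (fun x => ∃ l : ℕ, l.Prime ∧ w < l ∧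
      (l : ℝ) ≤ Z ∧ P l (red (q l) x)) ⊆
      I.biUnion (fun l => (XC A r (Wf w) c).filter (fun x => P l (red (q l) x))) := by
    intro x hx
    rw [Finset.mem_filter] at hx
    obtain ⟨hx1, l, hl, hwl, hlZ, hP⟩ := hx
    rw [Finset.mem_biUnion]
    refine ⟨l, ?_, Finset.mem_filter.2 ⟨hx1, hP⟩⟩
    rw [hI, Finset.mem_filter, Finset.mem_Ioc]
    exact ⟨⟨hwl, Nat.le_floor hlZ⟩, hl⟩
  have h3 : (((XC A r (Wf w) c).filter (fun x => ∃ l : ℕ, l.Prime ∧ w < l ∧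
      (l : ℝ) ≤ Z ∧ P l (red (q l) x))).card : ℝ) ≤
      ∑ l ∈ I, (((XC A r (Wf w) c).filter (fun x => P l (red (q l) x))).card : ℝ) := by
    have := (Finset.card_le_card hsub).trans Finset.card_biUnion_le
    exact_mod_cast this
  have h4 : ∀ l ∈ I, (((XC A r (Wf w) c).filter (fun x => P l (red (q l) x))).card : ℝ) ≤
      2 * C0 / (l : ℝ) ^ 2 * (XC A r (Wf w) c).card +
        C0 * C * (l : ℝ) ^ k * (r : ℝ) ^ (31 / 4 : ℝ) := by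
    intro l hl
    obtain ⟨hlp, hwl, hlZ⟩ := hIm l hl
    obtain ⟨hq1, hq2, hq3⟩ := hq l hlp hwl
    have : NeZero (q l) := ⟨hq3⟩
    have hl0 : (0 : ℝ) < l := by exact_mod_cast hlp.pos
    have hle : Wf w * q l ≤ r := by
      have e1 : ((Wf w * q l : ℕ) : ℝ) ≤ r := by
        push_cast
        have e2 : (q l : ℝ) ≤ Z ^ 2 := by
          have e3 : (q l : ℝ) ≤ (l : ℝ) ^ 2 := by exact_mod_cast hq1
          exact e3.trans (pow_le_pow_left₀ hl0.le hlZ 2)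
        have e4 : Z ^ 2 = (r : ℝ) ^ (1 / 50 : ℝ) := by
          rw [hZ, ← Real.rpow_natCast, ← Real.rpow_mul hr0.le]
          norm_num
        rw [e4] at e2
        calc (Wf w : ℝ) * (q l : ℝ) ≤ (r : ℝ) ^ (1 / 2 : ℝ) * (r : ℝ) ^ (1 / 50 : ℝ) :=
              mul_le_mul hWr e2 (Nat.cast_nonneg _) (Real.rpow_nonneg hr0.le _)
          _ = (r : ℝ) ^ (1 / 2 + 1 / 50 : ℝ) := (Real.rpow_add hr0 _ _).symm
          _ ≤ (r : ℝ) ^ (1 : ℝ) := Real.rpow_le_rpow_of_exponent_le hr1' (by norm_num)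
          _ = r := Real.rpow_one _
      exact_mod_cast e1
    refine Sml_one (hE r (Wf w) (q l) hq2 hle c hc) (P l) (by positivity) hl0 hC
      (h1 l hlp hwl) ?_
    have h5 := h2 l hlp
    rw [pow_add] at h5
    exact h5
  have h5 := h3.trans (Finset.sum_le_sum h4)
  rw [Finset.sum_add_distrib] at h5
  have hX : (0 : ℝ) ≤ (XC A r (Wf w) c).card := Nat.cast_nonneg _
  have h6 : ∑ l ∈ I, 2 * C0 / (l : ℝ) ^ 2 * (XC A r (Wf w) c).card ≤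
      2 * C0 / w * (XC A r (Wf w) c).card := by
    rw [← Finset.sum_mul]
    refine mul_le_mul_of_nonneg_right ?_ hX
    have e1 : ∑ l ∈ I, 2 * C0 / (l : ℝ) ^ 2 = 2 * C0 * ∑ l ∈ I, ((l : ℝ) ^ 2)⁻¹ := by
      rw [Finset.mul_sum]
      refine Finset.sum_congr rfl fun l _ => ?_
      rw [div_eq_mul_inv]
    rw [e1, div_eq_mul_inv]
    refine mul_le_mul_of_nonneg_left ?_ (by positivity)
    have e2 : ∑ l ∈ I, ((l : ℝ) ^ 2)⁻¹ ≤ ∑ l ∈ Ioc w ⌊Z⌋₊, ((l : ℝ) ^ 2)⁻¹ :=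
      Finset.sum_le_sum_of_subset_of_nonneg (Finset.filter_subset _ _) (fun _ _ _ => by positivity)
    refine e2.trans ?_
    by_cases hwZ : w ≤ ⌊Z⌋₊
    · have e3 := sum_Ioc_inv_sq_le_sub (α := ℝ) (k := w) (n := ⌊Z⌋₊) (by omega) hwZ
      have e4 : (0 : ℝ) ≤ ((⌊Z⌋₊ : ℕ) : ℝ)⁻¹ := by positivity
      linarith
    · rw [Finset.Ioc_eq_empty (by omega), Finset.sum_empty]
      positivity
  have h7 : ∑ l ∈ I, C0 * C * (l : ℝ) ^ k * (r : ℝ) ^ (31 / 4 : ℝ) ≤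
      C0 * C * (r : ℝ) ^ (159 / 20 : ℝ) := by
    have e0 : (0 : ℝ) ≤ (r : ℝ) ^ (31 / 4 : ℝ) := Real.rpow_nonneg hr0.le _
    have e1 : ∀ l ∈ I, C0 * C * (l : ℝ) ^ k * (r : ℝ) ^ (31 / 4 : ℝ) ≤
        C0 * C * Z ^ 16 * (r : ℝ) ^ (31 / 4 : ℝ) := by
      intro l hl
      obtain ⟨-, -, hlZ⟩ := hIm l hl
      have e2 : (l : ℝ) ^ k ≤ Z ^ 16 :=
        (pow_le_pow_left₀ (Nat.cast_nonneg _) hlZ k).trans (pow_le_pow_right₀ hZ1 hk)
      have e3 : 0 ≤ C0 * C := by positivity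
      exact mul_le_mul_of_nonneg_right (mul_le_mul_of_nonneg_left e2 e3) e0
    refine (Finset.sum_le_sum e1).trans ?_
    rw [Finset.sum_const, nsmul_eq_mul]
    have e4 : (I.card : ℝ) ≤ Z := by
      have e5 : I.card ≤ ⌊Z⌋₊ := by
        refine (Finset.card_filter_le _ _).trans ?_
        rw [Nat.card_Ioc]
        omega
      exact (Nat.cast_le.2 e5).trans (Nat.floor_le hZ0.le)
    have e6 : Z ^ 17 * (r : ℝ) ^ (31 / 4 : ℝ) ≤ (r : ℝ) ^ (159 / 20 : ℝ) := by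
      have e7 : Z ^ 17 = (r : ℝ) ^ (17 / 100 : ℝ) := by
        rw [hZ, ← Real.rpow_natCast, ← Real.rpow_mul hr0.le]
        norm_num
      rw [e7, ← Real.rpow_add hr0]
      exact Real.rpow_le_rpow_of_exponent_le hr1' (by norm_num)
    calc (I.card : ℝ) * (C0 * C * Z ^ 16 * (r : ℝ) ^ (31 / 4 : ℝ)) ≤
        Z * (C0 * C * Z ^ 16 * (r : ℝ) ^ (31 / 4 : ℝ)) :=
          mul_le_mul_of_nonneg_right e4 (by positivity)
      _ = C0 * C * (Z ^ 17 * (r : ℝ) ^ (31 / 4 : ℝ)) := by ring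
      _ ≤ C0 * C * (r : ℝ) ^ (159 / 20 : ℝ) := mul_le_mul_of_nonneg_left e6 (by positivity)
  linarith

private theorem Sml_cop {w l : ℕ} (hw : 2 ≤ w) (hl : l.Prime) (hwl : w < l) :
    Nat.Coprime (Wf w) l := by
  rw [Nat.coprime_comm, Nat.Prime.coprime_iff_not_dvd hl]
  unfold Wf
  intro h
  rcases (Nat.Prime.dvd_mul hl).1 h with h1 | h1
  · have h2 : l ∣ 2 ^ 2 := by norm_num; exact h1
    have h3 := hl.dvd_of_dvd_pow h2
    have h4 := Nat.le_of_dvd (by norm_num) h3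
    omega
  · have h2 := (Nat.Prime.dvd_primorial_iff hl).1 h1
    omega

open scoped Classical in
theorem sml1 (A : Fin 10 → ℤ) (hA : 1 ≤ A 1) : ∃ C : ℝ, 0 ≤ C ∧ ∀ w : ℕ, 2 ≤ w → ∃ r0 : ℕ,
    ∀ r : ℕ, r0 ≤ r → ∀ c ∈ VM (Wf w), ∀ (P : (l : ℕ) → (Fin 10 → ZMod l) → Prop) (C0 : ℝ), 0 ≤ C0 →
    (∀ (l : ℕ) [NeZero l], l.Prime → w < l → (((VM l).filter (fun y => P l y)).card : ℝ) ≤ C0 * (l : ℝ) ^ 7) →
    (((XC A r (Wf w) c).filter (fun x => ∃ l : ℕ, l.Prime ∧ w < l ∧ (l : ℝ) ≤ (r : ℝ) ^ (1 / 100 : ℝ) ∧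
      P l (red l x))).card : ℝ) ≤ 2 * C0 / w * (XC A r (Wf w) c).card + C0 * C * (r : ℝ) ^ (159 / 20 : ℝ) := by
  obtain ⟨C, hC, hE⟩ := eqd A hA
  refine ⟨C, hC, fun w hw => ⟨(Wf w) ^ 2, fun r hr c hc P C0 hC0 h1 => ?_⟩⟩
  refine Sml_core hC hE hw hr hc (fun l => l) (k := 7) (by norm_num) ?_ P hC0 h1 ?_
  · intro l hl hwl
    exact ⟨by nlinarith [hl.pos], Sml_cop hw hl hwl, hl.ne_zero⟩
  · intro l _ hl
    exact vlo_prime hl

open scoped Classical in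
theorem sml2 (A : Fin 10 → ℤ) (hA : 1 ≤ A 1) : ∃ C : ℝ, 0 ≤ C ∧ ∀ w : ℕ, 2 ≤ w → ∃ r0 : ℕ,
    ∀ r : ℕ, r0 ≤ r → ∀ c ∈ VM (Wf w), ∀ (P : (l : ℕ) → (Fin 10 → ZMod (l ^ 2)) → Prop) (C0 : ℝ), 0 ≤ C0 →
    (∀ (l : ℕ) [NeZero (l ^ 2)], l.Prime → w < l →
      (((VM (l ^ 2)).filter (fun y => P l y)).card : ℝ) ≤ C0 * (l : ℝ) ^ 16) →
    (((XC A r (Wf w) c).filter (fun x => ∃ l : ℕ, l.Prime ∧ w < l ∧ (l : ℝ) ≤ (r : ℝ) ^ (1 / 100 : ℝ) ∧
      P l (red (l ^ 2) x))).card : ℝ) ≤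
      2 * C0 / w * (XC A r (Wf w) c).card + C0 * C * (r : ℝ) ^ (159 / 20 : ℝ) := by
  obtain ⟨C, hC, hE⟩ := eqd A hA
  refine ⟨C, hC, fun w hw => ⟨(Wf w) ^ 2, fun r hr c hc P C0 hC0 h1 => ?_⟩⟩
  refine Sml_core hC hE hw hr hc (fun l => l ^ 2) (k := 16) (by norm_num) ?_ P hC0 h1 ?_
  · intro l hl hwl
    exact ⟨le_refl _, (Sml_cop hw hl hwl).pow_right 2, pow_ne_zero _ hl.ne_zero⟩
  · intro l _ hl
    exact vlo_sq hl

end Pool.Agent.PP5LB
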