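import Pool.Agent.PP5LB.EqH

/-!
# LB5, section B: the size of the family
-/

set_option autoImplicit false

namespace Pool.Agent.PP5LB

open Pool.Agent.PP5L Finset

private theorem Szb_count {e r : ℕ} (he : 1 ≤ e) (B : ℤ) :
    (((Finset.Ico (B * r) ((B + 1) * (r : ℤ))).filter (fun x => (e : ℤ) ∣ x)).card : ℝ) ≤ (r : ℝ) / e + 1 := by
  have heZ : (0 : ℤ) < e := by exact_mod_cast he
  have heQ : (0 : ℚ) < ((e : ℤ) : ℚ) := by exact_mod_cast heZ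
  have h := Int.Ico_filter_modEq_card (B * r) ((B + 1) * (r : ℤ)) heZ 0
  have h0 : (Finset.Ico (B * r) ((B + 1) * (r : ℤ))).filter (fun x => (e : ℤ) ∣ x) =
      (Finset.Ico (B * r) ((B + 1) * (r : ℤ))).filter (fun x => x ≡ 0 [ZMOD (e : ℤ)]) := by
    apply Finset.filter_congr
    intro t _
    rw [Int.modEq_zero_iff_dvd]
  rw [h0]
  set N := ((Finset.Ico (B * r) ((B + 1) * (r : ℤ))).filter (fun x => x ≡ 0 [ZMOD (e : ℤ)])).card with hN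
  have h1 : ((N : ℤ) : ℚ) = max ((⌈((((B + 1) * r : ℤ) : ℚ) - (0 : ℤ)) / (e : ℤ)⌉ : ℚ) -
      ⌈(((B * r : ℤ) : ℚ) - (0 : ℤ)) / (e : ℤ)⌉) 0 := by
    rw [h]; push_cast; rfl
  have c2 := Int.ceil_lt_add_one (((((B + 1) * r : ℤ) : ℚ) - (0 : ℤ)) / (e : ℤ))
  have c3 := Int.le_ceil ((((B * r : ℤ) : ℚ) - (0 : ℤ)) / (e : ℤ))
  have e1 : ((((B + 1) * r : ℤ) : ℚ) - (0 : ℤ)) / (e : ℤ) - (((B * r : ℤ) : ℚ) - (0 : ℤ)) / (e : ℤ) = (r : ℚ) / (e : ℤ) := by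
    rw [← sub_div]; congr 1; push_cast; ring
  have hr0 : (0 : ℚ) ≤ (r : ℚ) / (e : ℤ) := div_nonneg (Nat.cast_nonneg _) heQ.le
  have h3 : (N : ℚ) ≤ (r : ℚ) / (e : ℤ) + 1 := by
    have : ((N : ℤ) : ℚ) = (N : ℚ) := by push_cast; rfl
    rw [← this, h1]
    refine max_le ?_ (by linarith)
    linarith
  have := (Rat.cast_le (K := ℝ)).mpr h3
  push_cast at this ⊢
  exact this

private theorem Szb_sum (r : ℝ) (hr : 0 ≤ r) (E : ℕ) (hE : 1 ≤ E) :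
    ∑ n ∈ Finset.Icc 2 E, (r / (n : ℝ) + 1) ^ 3 ≤
      r ^ 3 * (1 / 4 - 1 / (2 * E * (E + 1))) + 3 * r ^ 2 * (1 - 1 / E) + (3 * r + 1) * (E - 1) := by
  induction E, hE using Nat.le_induction with
  | base => norm_num
  | succ E hE ih =>
    rw [Finset.sum_Icc_succ_top (by omega)]
    have hE0 : (0 : ℝ) < E := by exact_mod_cast hE
    push_cast
    have e1 : (r / ((E : ℝ) + 1) + 1) ^ 3 = r ^ 3 * (1 / (E + 1) ^ 3) + 3 * r ^ 2 * (1 / (E + 1) ^ 2) +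
        3 * (r / (E + 1)) + 1 := by
      field_simp
      ring
    have b1 : 1 / ((E : ℝ) + 1) ^ 3 ≤ 1 / (2 * E * (E + 1)) - 1 / (2 * (E + 1) * ((E + 1) + 1)) := by
      have : 1 / (2 * (E : ℝ) * (E + 1)) - 1 / (2 * (E + 1) * ((E + 1) + 1)) = 1 / (E * (E + 1) * (E + 2)) := by
        field_simp
        ring
      rw [this]
      apply one_div_le_one_div_of_le (by positivity)
      nlinarith
    have b2 : 1 / ((E : ℝ) + 1) ^ 2 ≤ 1 / E - 1 / (E + 1) := by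
      have : 1 / (E : ℝ) - 1 / (E + 1) = 1 / (E * (E + 1)) := by
        field_simp
        ring
      rw [this]
      apply one_div_le_one_div_of_le (by positivity)
      nlinarith
    have b3 : r / ((E : ℝ) + 1) ≤ r := div_le_self hr (by linarith)
    rw [e1]
    have c1 := mul_le_mul_of_nonneg_left b1 (by positivity : (0 : ℝ) ≤ r ^ 3)
    have c2 := mul_le_mul_of_nonneg_left b2 (by positivity : (0 : ℝ) ≤ 3 * r ^ 2)
    nlinarith [c1, c2, b3, ih]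

private theorem Szb_tri {A : Fin 10 → ℤ} (hA : 1 ≤ A 1) {r : ℕ} (hr : 1 ≤ r) (c : Fin 10 → ℤ) :
    3 / 4 * (r : ℝ) ^ 3 - (3 + 4 * (A 1 + 1 : ℤ)) * (r : ℝ) ^ 2 ≤ ((TrC A r 1 c).card : ℝ) := by
  classical
  have hrZ : (0 : ℤ) < r := by exact_mod_cast hr
  have hr1 : (1 : ℝ) ≤ r := by exact_mod_cast hr
  obtain ⟨E, hE⟩ : ∃ E : ℕ, (E : ℤ) = (A 1 + 1) * r :=
    ⟨((A 1 + 1) * r).toNat, Int.toNat_of_nonneg (by positivity)⟩
  have hER : (E : ℝ) = ((A 1 + 1 : ℤ) : ℝ) * r := by exact_mod_cast hE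
  have hE1 : 1 ≤ E := by
    have : (1 : ℤ) ≤ E := by rw [hE]; nlinarith
    exact_mod_cast this
  have hsub : Tr A r \ TrC A r 1 c ⊆ (Finset.Icc 2 E).biUnion (fun n => (Tr A r).filter
      (fun t => (n : ℤ) ∣ t.1 ∧ (n : ℤ) ∣ t.2.1 ∧ (n : ℤ) ∣ t.2.2)) := by
    intro t ht
    obtain ⟨ht1, ht2⟩ := Finset.mem_sdiff.mp ht
    have hg : ¬ (Int.gcd (Int.gcd t.1 t.2.1) t.2.2 = 1) := by
      intro h
      apply ht2
      unfold TrC
      rw [Finset.mem_filter]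
      refine ⟨ht1, ⟨by simp, by simp, by simp⟩, ?_⟩
      exact gcd_one_iff.mp h
    have ht1' := ht1
    unfold Tr at ht1'
    simp only [Finset.mem_product, Finset.mem_Ico] at ht1'
    have hx1 : 0 < t.1 := by nlinarith [ht1'.1.1]
    have hgd : ((Int.gcd (Int.gcd t.1 t.2.1) t.2.2 : ℕ) : ℤ) ∣ t.1 :=
      (Int.gcd_dvd_left ..).trans (Int.gcd_dvd_left ..)
    have hg0 : Int.gcd (Int.gcd t.1 t.2.1) t.2.2 ≠ 0 := by
      intro h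
      rw [h] at hgd
      simp at hgd
      omega
    have hgE : Int.gcd (Int.gcd t.1 t.2.1) t.2.2 ≤ E := by
      have := Int.le_of_dvd hx1 hgd
      have h2 := ht1'.1.2
      omega
    refine Finset.mem_biUnion.mpr ⟨Int.gcd (Int.gcd t.1 t.2.1) t.2.2, Finset.mem_Icc.mpr ⟨by omega, hgE⟩,
      Finset.mem_filter.mpr ⟨ht1, hgd, (Int.gcd_dvd_left ..).trans (Int.gcd_dvd_right ..), Int.gcd_dvd_right ..⟩⟩
  have hcard : ∀ n ∈ Finset.Icc 2 E, (((Tr A r).filter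
      (fun t => (n : ℤ) ∣ t.1 ∧ (n : ℤ) ∣ t.2.1 ∧ (n : ℤ) ∣ t.2.2)).card : ℝ) ≤ ((r : ℝ) / n + 1) ^ 3 := by
    intro n hn
    have hn1 : 1 ≤ n := by have := (Finset.mem_Icc.mp hn).1; omega
    have e : (Tr A r).filter (fun t => (n : ℤ) ∣ t.1 ∧ (n : ℤ) ∣ t.2.1 ∧ (n : ℤ) ∣ t.2.2) =
        ((Finset.Ico (A 1 * r) ((A 1 + 1) * (r : ℤ))).filter (fun x => (n : ℤ) ∣ x)) ×ˢ
        ((Finset.Ico (A 6 * r) ((A 6 + 1) * (r : ℤ))).filter (fun x => (n : ℤ) ∣ x)) ×ˢ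
        ((Finset.Ico (A 7 * r) ((A 7 + 1) * (r : ℤ))).filter (fun x => (n : ℤ) ∣ x)) := by
      ext ⟨u, v, w⟩
      simp only [Tr, Finset.mem_filter, Finset.mem_product]
      tauto
    rw [e, Finset.card_product, Finset.card_product]
    push_cast
    have h1 := Szb_count (r := r) hn1 (A 1)
    have h6 := Szb_count (r := r) hn1 (A 6)
    have h7 := Szb_count (r := r) hn1 (A 7)
    calc _ ≤ ((r : ℝ) / n + 1) * (((r : ℝ) / n + 1) * ((r : ℝ) / n + 1)) := by gcongr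
      _ = ((r : ℝ) / n + 1) ^ 3 := by ring
  have hTr : ((Tr A r).card : ℝ) = (r : ℝ) ^ 3 := by
    have hc : ∀ B : ℤ, (Finset.Ico (B * r) ((B + 1) * (r : ℤ))).card = r := by
      intro B
      rw [Int.card_Ico]
      have : (B + 1) * (r : ℤ) - B * r = r := by ring
      rw [this]; simp
    unfold Tr
    rw [Finset.card_product, Finset.card_product, hc, hc, hc]; push_cast; ring
  have h1 : ((Tr A r \ TrC A r 1 c).card : ℝ) ≤ ∑ n ∈ Finset.Icc 2 E, ((r : ℝ) / n + 1) ^ 3 := by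
    refine le_trans ?_ (Finset.sum_le_sum hcard)
    rw [← Nat.cast_sum]
    exact_mod_cast (Finset.card_le_card hsub).trans Finset.card_biUnion_le
  have h2 := Szb_sum r (by linarith) E hE1
  have h3 : ((Tr A r).card : ℝ) = (Tr A r \ TrC A r 1 c).card + (TrC A r 1 c).card := by
    have := Finset.card_sdiff_add_card_eq_card (Finset.filter_subset _ _ : TrC A r 1 c ⊆ Tr A r)
    exact_mod_cast this.symm
  have hE0 : (0 : ℝ) < E := by exact_mod_cast hE1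
  have h4 : (0 : ℝ) ≤ 1 / (2 * E * (E + 1)) := by positivity
  have h5 : (0 : ℝ) ≤ 1 / (E : ℝ) := by positivity
  have h6 : (r : ℝ) ^ 3 * (1 / 4 - 1 / (2 * E * (E + 1))) ≤ (r : ℝ) ^ 3 * (1 / 4) :=
    mul_le_mul_of_nonneg_left (by linarith) (by positivity)
  have h7 : 3 * (r : ℝ) ^ 2 * (1 - 1 / E) ≤ 3 * (r : ℝ) ^ 2 * 1 :=
    mul_le_mul_of_nonneg_left (by linarith) (by positivity)
  have h8 : (3 * (r : ℝ) + 1) * (E - 1) ≤ 4 * ((A 1 + 1 : ℤ) : ℝ) * (r : ℝ) ^ 2 := by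
    calc (3 * (r : ℝ) + 1) * (E - 1) ≤ (4 * r) * E := by
          apply mul_le_mul (by linarith) (by linarith) _ (by linarith)
          have : (1 : ℝ) ≤ E := by exact_mod_cast hE1
          linarith
      _ = 4 * ((A 1 + 1 : ℤ) : ℝ) * (r : ℝ) ^ 2 := by rw [hER]; ring
  nlinarith [h1, h2, h3, h6, h7, h8, hTr]

/-- the size of the whole box -/
private theorem Szb_one {A : Fin 10 → ℤ} (hA : 1 ≤ A 1) : ∃ C : ℝ, 0 < C ∧ ∀ r : ℕ, 1 ≤ r →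
    3 / (4 * (A 1 + 1 : ℤ)) * (r : ℝ) ^ 8 - C * (r : ℝ) ^ (31 / 4 : ℝ) ≤ ((XA A r).card : ℝ) := by
  classical
  obtain ⟨C, hC, h⟩ := UcA hA
  have hA0 : (0 : ℝ) < ((A 1 + 1 : ℤ) : ℝ) := by exact_mod_cast (by linarith : (0 : ℤ) < A 1 + 1)
  refine ⟨C + (3 + 4 * (A 1 + 1 : ℤ)) / (A 1 + 1 : ℤ), by positivity, ?_⟩
  intro r hr
  have hr1 : (1 : ℝ) ≤ r := by exact_mod_cast hr
  have hr0 : (0 : ℝ) < r := by linarith
  have hrZ : (0 : ℤ) < r := by exact_mod_cast hr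
  set c : Fin 10 → ℤ := fun _ => 0 with hc
  have hcl : Cl 1 c := ⟨by rw [Nat.cast_one]; exact one_dvd _, 0, 0, 0, 1, by norm_num⟩
  have h1 := h r 1 hr le_rfl c hcl
  have hXI : XI A r 1 c = XA A r := by
    unfold XI
    rw [Finset.filter_true_of_mem]
    intro x _ j
    simp
  have hIM : ∀ j, ((IM A r 1 c j).card : ℝ) = r := by
    intro j
    have : IM A r 1 c j = Finset.Ico (A j * r) ((A j + 1) * (r : ℤ)) := by
      unfold IM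
      rw [Finset.filter_true_of_mem]
      intro x _
      simp
    rw [this, Int.card_Ico]
    have : (A j + 1) * (r : ℤ) - A j * r = r := by ring
    rw [this]; simp
  rw [hXI, hIM, hIM, hIM, hIM, hIM, hIM] at h1
  have hHs : ((TrC A r 1 c).card : ℝ) * (1 / (((A 1 + 1 : ℤ) : ℝ) * r)) ≤ Hs A r 1 c := by
    unfold Hs
    rw [← nsmul_eq_mul]
    refine Finset.card_nsmul_le_sum _ _ _ ?_
    intro t ht
    have h1 := (Finset.mem_filter.mp ht).1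
    unfold Tr at h1
    simp only [Finset.mem_product, Finset.mem_Ico] at h1
    have hx1 : 0 < t.1 := by nlinarith [h1.1.1]
    apply one_div_le_one_div_of_le (by exact_mod_cast hx1)
    exact_mod_cast h1.1.2.le
  have htri := Szb_tri hA hr c
  have h2 : (3 / 4 * (r : ℝ) ^ 3 - (3 + 4 * (A 1 + 1 : ℤ)) * (r : ℝ) ^ 2) * (1 / (((A 1 + 1 : ℤ) : ℝ) * r)) ≤ Hs A r 1 c :=
    (mul_le_mul_of_nonneg_right htri (by positivity)).trans hHs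
  have h3 : (r : ℝ) ^ 6 * ((3 / 4 * (r : ℝ) ^ 3 - (3 + 4 * (A 1 + 1 : ℤ)) * (r : ℝ) ^ 2) * (1 / (((A 1 + 1 : ℤ) : ℝ) * r))) ≤
      (r : ℝ) ^ 6 * Hs A r 1 c := mul_le_mul_of_nonneg_left h2 (by positivity)
  have h4 : (r : ℝ) ^ 6 * ((3 / 4 * (r : ℝ) ^ 3 - (3 + 4 * (A 1 + 1 : ℤ)) * (r : ℝ) ^ 2) * (1 / (((A 1 + 1 : ℤ) : ℝ) * r))) =
      3 / (4 * (A 1 + 1 : ℤ)) * (r : ℝ) ^ 8 - (3 + 4 * (A 1 + 1 : ℤ)) / (A 1 + 1 : ℤ) * (r : ℝ) ^ 7 := by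
    field_simp
  have h7 : (r : ℝ) ^ 7 ≤ (r : ℝ) ^ (31 / 4 : ℝ) := by
    rw [← Real.rpow_natCast]
    exact Real.rpow_le_rpow_of_exponent_le hr1 (by norm_num)
  have h8 : (3 + 4 * ((A 1 + 1 : ℤ) : ℝ)) / (A 1 + 1 : ℤ) * (r : ℝ) ^ 7 ≤
      (3 + 4 * ((A 1 + 1 : ℤ) : ℝ)) / (A 1 + 1 : ℤ) * (r : ℝ) ^ (31 / 4 : ℝ) :=
    mul_le_mul_of_nonneg_left h7 (by positivity)
  have h9 := (abs_le.mp h1).1
  have h10 : (r : ℝ) * r * r * r * r * r * Hs A r 1 c = (r : ℝ) ^ 6 * Hs A r 1 c := by ring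
  rw [h10] at h9
  rw [h4] at h3
  rw [add_mul]
  linarith

/-- The size of the family. -/
theorem Szb {A : Fin 10 → ℤ} (hA : 1 ≤ A 1) (W : ℕ) [NeZero W] {c : Fin 10 → ZMod W} (hc : c ∈ VM W) :
    ∃ κ : ℝ, 0 < κ ∧ ∃ r0 : ℕ, ∀ r : ℕ, r0 ≤ r → κ * (r : ℝ) ^ 8 ≤ ((XC A r W c).card : ℝ) := by
  classical
  obtain ⟨C, hC, h⟩ := Ucm hA
  obtain ⟨C', hC', h'⟩ := Szb_one hA
  obtain ⟨c, rfl⟩ := eqH_red_surj c
  have hcC := eqH_mem_VM_iff_Cl.mp hc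
  have hW : 1 ≤ W := Nat.pos_of_ne_zero (NeZero.ne W)
  have hA0 : (0 : ℝ) < ((A 1 + 1 : ℤ) : ℝ) := by exact_mod_cast (by linarith : (0 : ℤ) < A 1 + 1)
  set v : ℝ := ((VM W).card : ℝ) with hv
  have hv0 : 0 < v := by rw [hv]; exact_mod_cast Finset.card_pos.mpr ⟨_, hc⟩
  have hmain : ∀ r : ℕ, 1 ≤ r → 3 / (4 * (A 1 + 1 : ℤ)) * (r : ℝ) ^ 8 - C' * (r : ℝ) ^ (31 / 4 : ℝ) ≤
      v * (((XC A r W (red W c)).card : ℝ) + C * (r : ℝ) ^ (31 / 4 : ℝ)) := by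
    intro r hr
    refine (h' r hr).trans ?_
    rw [Finset.card_eq_sum_card_fiberwise (f := fun x => red W x) (s := XA A r) (t := VM W)]
    · rw [Nat.cast_sum, hv, ← nsmul_eq_mul]
      refine Finset.sum_le_card_nsmul _ _ _ ?_
      intro y hy
      obtain ⟨y, rfl⟩ := eqH_red_surj y
      have h1 := (abs_le.mp (h r W hr hW y c (eqH_mem_VM_iff_Cl.mp hy) hcC)).2
      rw [← eqH_XC_eq_XI, ← eqH_XC_eq_XI] at h1
      have h2 : (XA A r).filter (fun x => red W x = red W y) = XC A r W (red W y) := by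
        unfold XC; rfl
      rw [h2]
      linarith
    · intro x hx
      rw [Finset.mem_coe] at hx ⊢
      exact eqH_red_mem_VM hx
  set D : ℝ := C' / v + C with hD
  set a : ℝ := 3 / (4 * (A 1 + 1 : ℤ)) / v with ha
  have ha0 : 0 < a := by rw [ha]; positivity
  have hD0 : 0 < D := by rw [hD]; positivity
  have hmain2 : ∀ r : ℕ, 1 ≤ r → a * (r : ℝ) ^ 8 - D * (r : ℝ) ^ (31 / 4 : ℝ) ≤ ((XC A r W (red W c)).card : ℝ) := by
    intro r hr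
    have h1 := hmain r hr
    have h2 : (3 / (4 * (A 1 + 1 : ℤ)) * (r : ℝ) ^ 8 - C' * (r : ℝ) ^ (31 / 4 : ℝ)) / v ≤
        ((XC A r W (red W c)).card : ℝ) + C * (r : ℝ) ^ (31 / 4 : ℝ) := by
      rw [div_le_iff₀ hv0]; linarith
    have h3 : (3 / (4 * (A 1 + 1 : ℤ)) * (r : ℝ) ^ 8 - C' * (r : ℝ) ^ (31 / 4 : ℝ)) / v =
        a * (r : ℝ) ^ 8 - C' / v * (r : ℝ) ^ (31 / 4 : ℝ) := by
      rw [ha]; ring
    rw [h3] at h2
    have h4 : D * (r : ℝ) ^ (31 / 4 : ℝ) = C' / v * (r : ℝ) ^ (31 / 4 : ℝ) + C * (r : ℝ) ^ (31 / 4 : ℝ) := by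
      rw [hD]; ring
    linarith
  refine ⟨a / 2, by positivity, ⌈(2 * D / a) ^ 4⌉₊ + 1, ?_⟩
  intro r hr
  have hr1 : 1 ≤ r := by omega
  have hrR : (1 : ℝ) ≤ r := by exact_mod_cast hr1
  have hr0 : (0 : ℝ) ≤ r := by linarith
  have h1 : (2 * D / a) ^ 4 ≤ r := by
    have h2 := Nat.le_ceil ((2 * D / a) ^ 4)
    have h3 : ((⌈(2 * D / a) ^ 4⌉₊ : ℕ) : ℝ) ≤ r := by exact_mod_cast (by omega : ⌈(2 * D / a) ^ 4⌉₊ ≤ r)
    linarith
  have h2 : 2 * D / a ≤ (r : ℝ) ^ (1 / 4 : ℝ) := by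
    have h3 : (0 : ℝ) ≤ 2 * D / a := by positivity
    have h4 : 2 * D / a = ((2 * D / a) ^ 4) ^ (1 / 4 : ℝ) := by
      rw [← Real.rpow_natCast, ← Real.rpow_mul h3]; norm_num
    rw [h4]
    exact Real.rpow_le_rpow (pow_nonneg h3 4) h1 (by norm_num)
  have h3 : (r : ℝ) ^ 8 = (r : ℝ) ^ (1 / 4 : ℝ) * (r : ℝ) ^ (31 / 4 : ℝ) := by
    rw [← Real.rpow_add (by linarith), ← Real.rpow_natCast]; norm_num
  have h4 : D * (r : ℝ) ^ (31 / 4 : ℝ) ≤ a / 2 * (r : ℝ) ^ 8 := by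
    rw [h3]
    have h5 : D ≤ a / 2 * (r : ℝ) ^ (1 / 4 : ℝ) := by
      rw [div_le_iff₀ ha0] at h2
      linarith
    calc D * (r : ℝ) ^ (31 / 4 : ℝ) ≤ (a / 2 * (r : ℝ) ^ (1 / 4 : ℝ)) * (r : ℝ) ^ (31 / 4 : ℝ) :=
          mul_le_mul_of_nonneg_right h5 (by positivity)
      _ = a / 2 * ((r : ℝ) ^ (1 / 4 : ℝ) * (r : ℝ) ^ (31 / 4 : ℝ)) := by ring
  have h5 := hmain2 r hr1
  linarith

end Pool.Agent.PP5LB
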